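import Pool.Agent.MP_993212_an.H16.Spec

/-! Gyration numbers and inversions of keys on a free `ZMod d` set. -/

namespace Pool.Agent.MP_993212_an.H16

open Finset Function Classical

section Inv

variable {Y Θ₁ Θ₂ Θ₃ : Type} [LinearOrder Θ₁] [LinearOrder Θ₂] [LinearOrder Θ₃]

/-- inversions of two keys on a finite set -/
noncomputable def absI (B : Finset Y) (k₁ : Y → Θ₁) (k₂ : Y → Θ₂) : ℕ :=
  ∑ x ∈ B, ∑ y ∈ B, if k₁ x < k₁ y ∧ k₂ y < k₂ x then 1 else 0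

theorem absI_add (B : Finset Y) {k₁ : Y → Θ₁} {k₂ : Y → Θ₂} {k₃ : Y → Θ₃} (h₁ : Set.InjOn k₁ B)
    (h₂ : Set.InjOn k₂ B) (h₃ : Set.InjOn k₃ B) :
    ((absI B k₁ k₂ : ℕ) : ZMod 2) + (absI B k₂ k₃ : ℕ) = (absI B k₁ k₃ : ℕ) := by
  have e : absI B k₂ k₃ = (∑ x ∈ B, ∑ y ∈ B,
      if k₁ x < k₁ y ∧ k₂ x < k₂ y ∧ k₃ y < k₃ x then 1 else 0) + ∑ x ∈ B, ∑ y ∈ B,
      if k₁ x < k₁ y ∧ k₂ y < k₂ x ∧ k₃ x < k₃ y then 1 else 0 := by
    rw [sum_comm (f := fun x y => if k₁ x < k₁ y ∧ k₂ y < k₂ x ∧ k₃ x < k₃ y then 1 else 0),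
      absI, ← sum_add_distrib]
    refine sum_congr rfl fun x hx => ?_
    rw [← sum_add_distrib]
    refine sum_congr rfl fun y hy => ?_
    rcases lt_trichotomy (k₁ x) (k₁ y) with h | h | h
    · simp [h, h.not_gt]
    · obtain rfl := h₁ hx hy h
      simp
    · simp [h, h.not_gt]
  rw [e, absI, absI]
  push_cast
  simp only [← sum_add_distrib]
  refine sum_congr rfl fun x hx => sum_congr rfl fun y hy => ?_
  by_cases h : k₁ x < k₁ y
  · have hne : x ≠ y := fun e => by rw [e] at h; exact lt_irrefl _ h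
    rcases lt_or_gt_of_ne (fun e => hne (h₂ hx hy e)) with a | a <;>
      rcases lt_or_gt_of_ne (fun e => hne (h₃ hx hy e)) with b | b <;>
      simp [h, a, a.not_gt, b, b.not_gt]
    decide
  · simp [h]

theorem absI_invol (B : Finset Y) (k : Y → Θ₁) (σ : Y → Y) (h1 : ∀ x ∈ B, σ x ∈ B)
    (h2 : ∀ x ∈ B, σ (σ x) = x) :
    ((absI B k (fun x => k (σ x)) : ℕ) : ZMod 2) = (B.filter fun x => k x < k (σ x)).card := by
  have e0 : ∑ q ∈ B ×ˢ B, (if (k q.1 < k q.2 ∧ k (σ q.2) < k (σ q.1)) ∧ q.2 ≠ σ q.1 then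
      (1 : ZMod 2) else 0) = 0 := by
    refine sum_involution (fun q _ => (σ q.2, σ q.1)) (fun q hq => ?_) (fun q hq h e => ?_)
      (fun q hq => ?_) (fun q hq => ?_)
    · rw [mem_product] at hq
      have : σ q.1 ≠ q.2 ↔ q.2 ≠ σ q.1 := ne_comm
      simp only [h2 _ hq.1, h2 _ hq.2, this, and_comm (a := k (σ q.2) < k (σ q.1))]
      split_ifs <;> decide
    · refine h (if_neg fun h' => h'.2 ?_)
      exact (congrArg Prod.snd e).symm
    · rw [mem_product] at hq ⊢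
      exact ⟨h1 _ hq.2, h1 _ hq.1⟩
    · rw [mem_product] at hq
      exact Prod.ext (h2 _ hq.1) (h2 _ hq.2)
  rw [sum_product] at e0
  rw [absI, card_filter]
  push_cast
  refine Eq.trans ?_ ((congrArg _ e0).trans
    (add_zero (∑ i ∈ B, if k i < k (σ i) then (1 : ZMod 2) else 0)))
  rw [← sum_add_distrib]
  refine sum_congr rfl fun x hx => ?_
  have e1 : (if k x < k (σ x) then (1 : ZMod 2) else 0) =
      ∑ y ∈ B, if (k x < k y ∧ k (σ y) < k (σ x)) ∧ y = σ x then 1 else 0 := by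
    rw [sum_eq_single_of_mem (σ x) (h1 x hx) fun y _ hy => if_neg fun h => hy h.2]
    simp [h2 x hx]
  rw [e1, ← sum_add_distrib]
  refine sum_congr rfl fun y _ => ?_
  by_cases a : k x < k y ∧ k (σ y) < k (σ x) <;> by_cases b : y = σ x <;>
    simp only [a, b, ne_eq, not_true, not_false_iff, and_true, and_false, if_true, if_false,
      add_zero, zero_add, false_and]

theorem abs_card_invol (B : Finset Y) {k : Y → Θ₁} (hk : Set.InjOn k B) (σ : Y → Y)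
    (h1 : ∀ x ∈ B, σ x ∈ B) (h2 : ∀ x ∈ B, σ (σ x) = x) :
    (B.filter fun x => σ x ≠ x).card = 2 * (B.filter fun x => k x < k (σ x)).card := by
  have e : (B.filter fun x => k x < k (σ x)).card = (B.filter fun x => k (σ x) < k x).card := by
    refine card_nbij' σ σ (fun x hx => ?_) (fun x hx => ?_) (fun x hx => ?_) (fun x hx => ?_) <;>
      simp only [coe_filter, Set.mem_ofPred_eq] at hx ⊢
    · exact ⟨h1 x hx.1, by rw [h2 x hx.1]; exact hx.2⟩
    · exact ⟨h1 x hx.1, by rw [h2 x hx.1]; exact hx.2⟩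
    · exact h2 x hx.1
    · exact h2 x hx.1
  rw [two_mul]
  nth_rewrite 2 [e]
  simp only [card_filter, ← sum_add_distrib]
  refine sum_congr rfl fun x hx => ?_
  rcases lt_trichotomy (k x) (k (σ x)) with h | h | h
  · have : σ x ≠ x := fun e => by rw [e] at h; exact lt_irrefl _ h
    simp [h, h.not_gt, this]
  · simp [← hk hx (h1 x hx) h]
  · have : σ x ≠ x := fun e => by rw [e] at h; exact lt_irrefl _ h
    simp [h, h.not_gt, this]

end Inv

variable {Y Θ Θ₁ Θ₂ : Type} [LinearOrder Θ] [LinearOrder Θ₁] [LinearOrder Θ₂] {d : ℕ}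
  {ρ : ZMod d → Y → Y} {P : Finset Y} {K : Y → Θ} {K₁ : Y → Θ₁} {K₂ : Y → Θ₂}

/-- the shift that moves `x` to the base point of its orbit -/
noncomputable def absSh (ρ : ZMod d → Y → Y) (K : Y → Θ) (x : Y) : ZMod d :=
  if h : ∃ j, IsBase ρ K (ρ j x) then h.choose else 0

/-- the base point of the orbit of `x` -/
noncomputable def absB (ρ : ZMod d → Y → Y) (K : Y → Θ) (x : Y) : Y := ρ (absSh ρ K x) x

/-- the set of base points -/
noncomputable def absP (ρ : ZMod d → Y → Y) (P : Finset Y) (K : Y → Θ) : Finset Y :=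
  P.filter (IsBase ρ K)

theorem Free.abs_inj (hF : Free ρ P) {x : Y} (hx : x ∈ P) {i j : ZMod d} (h : ρ i x = ρ j x) :
    i = j := by
  have := hF.free (i - j) (ρ j x) (hF.mem j x hx) (by rw [hF.add _ _ _ hx, sub_add_cancel, h])
  exact sub_eq_zero.1 this

variable [NeZero d]

theorem abs_base_iff (hF : Free ρ P) (hK : Set.InjOn K P) {x : Y} (hx : x ∈ P) (j : ZMod d) :
    IsBase ρ K (ρ j x) ↔ j = absSh ρ K x := by
  have ex : ∃ j, IsBase ρ K (ρ j x) := by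
    obtain ⟨j, -, hj⟩ := exists_min_image (univ : Finset (ZMod d)) (fun j => K (ρ j x))
      univ_nonempty
    exact ⟨j, fun i => by rw [hF.add _ _ _ hx]; exact hj _ (mem_univ _)⟩
  have h0 : IsBase ρ K (ρ (absSh ρ K x) x) := by
    rw [absSh, dif_pos ex]
    exact ex.choose_spec
  refine ⟨fun h => ?_, fun h => h ▸ h0⟩
  have a := h (absSh ρ K x - j)
  have b := h0 (j - absSh ρ K x)
  rw [hF.add _ _ _ hx, sub_add_cancel] at a b
  exact hF.abs_inj hx (hK (hF.mem _ _ hx) (hF.mem _ _ hx) (le_antisymm a b))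

theorem absSh_shift (hF : Free ρ P) (hK : Set.InjOn K P) {x : Y} (hx : x ∈ P) (i : ZMod d) :
    absSh ρ K (ρ i x) = absSh ρ K x - i := by
  symm
  rw [← abs_base_iff hF hK (hF.mem i x hx), hF.add _ _ _ hx, sub_add_cancel,
    abs_base_iff hF hK hx]

theorem absB_shift (hF : Free ρ P) (hK : Set.InjOn K P) {x : Y} (hx : x ∈ P) (i : ZMod d) :
    absB ρ K (ρ i x) = absB ρ K x := by
  rw [absB, absSh_shift hF hK hx, hF.add _ _ _ hx, sub_add_cancel, absB]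

theorem absB_mem (hF : Free ρ P) (hK : Set.InjOn K P) {x : Y} (hx : x ∈ P) :
    absB ρ K x ∈ absP ρ P K :=
  mem_filter.2 ⟨hF.mem _ _ hx, (abs_base_iff hF hK hx _).2 rfl⟩

theorem absSh_base (hF : Free ρ P) (hK : Set.InjOn K P) {x : Y} (hx : x ∈ absP ρ P K) :
    absSh ρ K x = 0 := by
  rw [absP, mem_filter] at hx
  symm
  rw [← abs_base_iff hF hK hx.1, hF.zero x hx.1]
  exact hx.2

theorem absB_base (hF : Free ρ P) (hK : Set.InjOn K P) {x : Y} (hx : x ∈ absP ρ P K) :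
    absB ρ K x = x := by
  rw [absB, absSh_base hF hK hx, hF.zero x (mem_filter.1 hx).1]

theorem abs_sum_change {M : Type} [AddCommMonoid M] (hF : Free ρ P) (h₁ : Set.InjOn K₁ P)
    (h₂ : Set.InjOn K₂ P) (f : Y → M) (hf : ∀ j, ∀ x ∈ P, f (ρ j x) = f x) :
    ∑ x ∈ absP ρ P K₁, f x = ∑ x ∈ absP ρ P K₂, f x := by
  refine sum_nbij' (absB ρ K₂) (absB ρ K₁) (fun x hx => absB_mem hF h₂ (mem_filter.1 hx).1)
    (fun x hx => absB_mem hF h₁ (mem_filter.1 hx).1) (fun x hx => ?_) (fun x hx => ?_)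
    fun x hx => (hf _ x (mem_filter.1 hx).1).symm
  · rw [absB.eq_1 ρ K₂, absB_shift hF h₁ (mem_filter.1 hx).1, absB_base hF h₁ hx]
  · rw [absB.eq_1 ρ K₁, absB_shift hF h₂ (mem_filter.1 hx).1, absB_base hF h₂ hx]

theorem abs_key_inj (hF : Free ρ P) (h₁ : Set.InjOn K₁ P) (h₂ : Set.InjOn K₂ P) :
    Set.InjOn (fun x => K₂ (absB ρ K₂ x)) (absP ρ P K₁) := by
  intro x hx y hy h
  have hx' := (mem_filter.1 hx).1
  have hy' := (mem_filter.1 hy).1
  have e := congrArg (absB ρ K₁) (h₂ (hF.mem _ _ hx') (hF.mem _ _ hy') h)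
  rwa [absB_shift hF h₁ hx', absB_shift hF h₁ hy', absB_base hF h₁ hx, absB_base hF h₁ hy] at e

theorem abs_gyr (hF : Free ρ P) (h₂ : Set.InjOn K₂ P) :
    gyr ρ P K₁ K₂ = ∑ x ∈ absP ρ P K₁, absSh ρ K₂ x := by
  rw [gyr, absP, sum_filter]
  refine sum_congr rfl fun x hx => ?_
  simp only [abs_base_iff hF h₂ hx]
  by_cases h : IsBase ρ K₁ x <;> simp [h]

theorem abs_gyr' (hF : Free ρ P) (hK : Set.InjOn K P) (h₁ : Set.InjOn K₁ P)
    (h₂ : Set.InjOn K₂ P) :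
    gyr ρ P K₁ K₂ = ∑ x ∈ absP ρ P K, (absSh ρ K₂ x - absSh ρ K₁ x) := by
  rw [abs_gyr hF h₂, abs_sum_change hF hK h₁ _ fun j x hx => by
    rw [absSh_shift hF h₁ hx, absSh_shift hF h₂ hx, sub_sub_sub_cancel_right]]
  exact sum_congr rfl fun x hx => by rw [absSh_base hF h₁ hx, sub_zero]

theorem abs_invs (hF : Free ρ P) (hK : Set.InjOn K P) (h₁ : Set.InjOn K₁ P)
    (h₂ : Set.InjOn K₂ P) : invs ρ P K₁ K₂ =
      absI (absP ρ P K) (fun x => K₁ (absB ρ K₁ x)) fun x => K₂ (absB ρ K₂ x) := by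
  rw [absI, abs_sum_change hF hK h₁ _ fun j x hx => by
    simp only [absB_shift hF h₁ hx, absB_shift hF h₂ hx]]
  rw [sum_congr rfl fun x _ => abs_sum_change hF hK h₁ _ fun j y hy => by
    simp only [absB_shift hF h₁ hy, absB_shift hF h₂ hy]]
  rw [sum_congr rfl fun x hx => sum_congr rfl fun y hy => by
    rw [absB_base hF h₁ hx, absB_base hF h₁ hy]]
  rw [invs, absP, sum_filter]
  refine sum_congr rfl fun x hx => ?_
  by_cases a : IsBase ρ K₁ x
  · rw [if_pos a, sum_filter]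
    refine sum_congr rfl fun y hy => ?_
    simp only [abs_base_iff hF h₂ hx, abs_base_iff hF h₂ hy]
    rw [sum_eq_single (absSh ρ K₂ x) (fun i _ hi => by simp [hi]) (by simp),
      sum_eq_single (absSh ρ K₂ y) (fun i _ hi => by simp [hi]) (by simp)]
    by_cases b : IsBase ρ K₁ y <;> simp [a, b, absB]
  · simp [a]

theorem abs_card (hF : Free ρ P) (hK : Set.InjOn K P) (p : Y → Prop)
    (hp : ∀ j, ∀ x ∈ P, p x → p (ρ j x)) :
    (P.filter p).card = d * ((absP ρ P K).filter p).card := by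
  refine Eq.trans ?_ ((card_product (univ : Finset (ZMod d)) ((absP ρ P K).filter p)).trans
    (by rw [card_univ, ZMod.card]))
  refine card_nbij' (fun x => (-absSh ρ K x, absB ρ K x)) (fun q => ρ q.1 q.2)
    (fun x hx => ?_) (fun q hq => ?_) (fun x hx => ?_) (fun q hq => ?_) <;>
    simp only [coe_filter, coe_product, Set.mem_prod, Set.mem_ofPred_eq] at *
  · exact ⟨mem_coe.2 (mem_univ _), absB_mem hF hK hx.1, hp _ _ hx.1 hx.2⟩
  · exact ⟨hF.mem _ _ (mem_filter.1 hq.2.1).1, hp _ _ (mem_filter.1 hq.2.1).1 hq.2.2⟩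
  · rw [absB, hF.add _ _ _ hx.1, neg_add_cancel, hF.zero _ hx.1]
  · have h := (mem_filter.1 hq.2.1).1
    rw [absSh_shift hF hK h, absB_shift hF hK h, absSh_base hF hK hq.2.1, absB_base hF hK hq.2.1,
      zero_sub, neg_neg]

theorem abs_transport {Y' Θ₁' Θ₂' : Type} [LinearOrder Θ₁'] [LinearOrder Θ₂']
    {ρ' : ZMod d → Y' → Y'} {P' : Finset Y'} {K₁' : Y' → Θ₁'} {K₂' : Y' → Θ₂'} (e : Y → Y')
    (hF : Free ρ P) (he : Set.BijOn e P P') (hc : ∀ j, ∀ x ∈ P, e (ρ j x) = ρ' j (e x))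
    (h₁ : ∀ x ∈ P, ∀ y ∈ P, K₁ x ≤ K₁ y ↔ K₁' (e x) ≤ K₁' (e y))
    (h₂ : ∀ x ∈ P, ∀ y ∈ P, K₂ x ≤ K₂ y ↔ K₂' (e x) ≤ K₂' (e y)) :
    gyr ρ P K₁ K₂ = gyr ρ' P' K₁' K₂' ∧ invs ρ P K₁ K₂ = invs ρ' P' K₁' K₂' := by
  have b₁ : ∀ x ∈ P, IsBase ρ K₁ x ↔ IsBase ρ' K₁' (e x) := fun x hx =>
    forall_congr' fun j => by rw [h₁ x hx _ (hF.mem j x hx), hc j x hx]
  have b₂ : ∀ j, ∀ x ∈ P, IsBase ρ K₂ (ρ j x) ↔ IsBase ρ' K₂' (ρ' j (e x)) := fun i x hx =>
    forall_congr' fun j => by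
      rw [h₂ _ (hF.mem i x hx) _ (hF.mem j _ (hF.mem i x hx)), hc j _ (hF.mem i x hx), hc i x hx]
  constructor
  · refine sum_nbij e he.1 he.2.1 he.2.2 fun x hx => sum_congr rfl fun j _ => ?_
    simp only [b₁ x hx, b₂ j x hx]
  · refine sum_nbij e he.1 he.2.1 he.2.2 fun x hx => sum_nbij e he.1 he.2.1 he.2.2 fun y hy =>
      sum_congr rfl fun i _ => sum_congr rfl fun j _ => ?_
    simp only [b₁ x hx, b₁ y hy, b₂ i x hx, b₂ j y hy, ← not_le, h₁ y hy x hx,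
      h₂ _ (hF.mem i x hx) _ (hF.mem j y hy), hc i x hx, hc j y hy]

theorem abs_invol (τ : Y → Y) (hF : Free ρ P) (hK : Set.InjOn K P) (h1 : ∀ x ∈ P, τ x ∈ P)
    (h2 : ∀ x ∈ P, τ (τ x) = x) (h3 : ∀ j, ∀ x ∈ P, τ (ρ j x) = ρ j (τ x)) :
    ∃ H S : ℕ, (P.filter fun x => ∃ j, j ≠ 0 ∧ τ x = ρ j x).card = d * H ∧
      (P.filter fun x => ∀ j, τ x ≠ ρ j x).card = 2 * d * S ∧ (Odd d → H = 0) ∧
      gyr ρ P K (K ∘ τ) = ((d / 2 : ℕ) : ZMod d) * H ∧
      ((invs ρ P K (K ∘ τ) : ℕ) : ZMod 2) = S := by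
  have hK' : Set.InjOn (K ∘ τ) P := fun x hx y hy h => by
    rw [← h2 x hx, hK (h1 x hx) (h1 y hy) h, h2 y hy]
  have hsh : ∀ x ∈ P, absSh ρ (K ∘ τ) x = absSh ρ K (τ x) := fun x hx => by
    symm
    rw [← abs_base_iff hF hK' hx]
    intro j
    have := (abs_base_iff hF hK (h1 x hx) _).2 rfl j
    rwa [← h3 _ x hx, ← h3 _ _ (hF.mem _ x hx)] at this
  set B := absP ρ P K with hB
  have hBP : ∀ x ∈ B, x ∈ P := fun x hx => (mem_filter.1 hx).1
  let σ : Y → Y := fun x => absB ρ K (τ x)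
  have s1 : ∀ x ∈ B, σ x ∈ B := fun x hx => absB_mem hF hK (h1 x (hBP x hx))
  have s0 : ∀ x ∈ P, τ (σ x) = ρ (absSh ρ K (τ x)) x := fun x hx => by
    simp only [σ]
    rw [absB, h3 _ _ (h1 x hx), h2 x hx]
  have s2 : ∀ x ∈ B, σ (σ x) = x := fun x hx => by
    show absB ρ K (τ (σ x)) = x
    rw [s0 x (hBP x hx), absB_shift hF hK (hBP x hx), absB_base hF hK hx]
  have inv : ∀ i j, ∀ x ∈ P, τ x = ρ j x → τ (ρ i x) = ρ j (ρ i x) := fun i j x hx h => by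
    rw [h3 _ x hx, h, hF.add _ _ _ hx, hF.add _ _ _ hx, add_comm]
  have inv' : ∀ i j, ∀ x ∈ P, τ (ρ i x) = ρ j (ρ i x) → τ x = ρ j x := fun i j x hx h => by
    have := inv (-i) j _ (hF.mem i x hx) h
    rwa [hF.add (-i) i x hx, neg_add_cancel, hF.zero x hx] at this
  have half : ∀ j, ∀ x ∈ P, j ≠ 0 → τ x = ρ j x → -j = j ∧ 2 * j.val = d := fun j x hx hj h => by
    have a : ρ (j + j) x = x := by rw [← hF.add _ _ _ hx, ← h, ← h3 _ x hx, ← h, h2 x hx]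
    have b : -j = j := neg_eq_iff_add_eq_zero.2 (hF.free _ x hx a)
    exact ⟨b, (ZMod.neg_eq_self_iff j).1 b |>.resolve_left hj⟩
  have fix : ∀ x ∈ B, σ x = x → τ x = ρ (-absSh ρ K (τ x)) x := fun x hx h => by
    have a := congrArg (ρ (-absSh ρ K (τ x))) h
    simp only [σ, absB] at a
    rwa [hF.add _ _ _ (h1 x (hBP x hx)), neg_add_cancel, hF.zero _ (h1 x (hBP x hx))] at a
  refine ⟨(B.filter fun x => ∃ j, j ≠ 0 ∧ τ x = ρ j x).card,
    (B.filter fun x => K x < K (σ x)).card, ?_, ?_, fun hd => ?_, ?_, ?_⟩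
  · convert abs_card hF hK (fun x => ∃ j, j ≠ 0 ∧ τ x = ρ j x) fun i x hx ⟨j, hj, h⟩ =>
      ⟨j, hj, inv i j x hx h⟩
  · have e := abs_card hF hK (fun x => ∀ j, τ x ≠ ρ j x) fun i x hx h j h' =>
      h j (inv' i j x hx h')
    have e' : (B.filter fun x => ∀ j, τ x ≠ ρ j x) = B.filter fun x => σ x ≠ x := by
      refine filter_congr fun x hx => ⟨fun h h' => h _ (fix x hx h'), fun h j h' => h ?_⟩
      show absB ρ K (τ x) = x
      rw [h', absB_shift hF hK (hBP x hx), absB_base hF hK hx]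
    have e'' := abs_card_invol B (hK.mono hBP) σ s1 s2
    rw [← e'] at e''
    rw [mul_comm 2 d, mul_assoc, ← e'']
    convert e
  · rw [card_eq_zero, filter_eq_empty_iff]
    rintro x hx ⟨j, hj, h⟩
    have := (half j x (hBP x hx) hj h).2
    obtain ⟨m, hm⟩ := hd
    omega
  · rw [abs_gyr hF hK', sum_congr rfl fun x hx => hsh x (hBP x hx),
      ← sum_filter_add_sum_filter_not B fun x => ∃ j, j ≠ 0 ∧ τ x = ρ j x]
    have z : ∑ x ∈ B.filter (fun x => ¬ ∃ j, j ≠ 0 ∧ τ x = ρ j x), absSh ρ K (τ x) = 0 := by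
      refine sum_involution (fun x _ => σ x) (fun x hx => ?_) (fun x hx h e => ?_)
        (fun x hx => ?_) fun x hx => s2 x (mem_filter.1 hx).1
      · have hx' := (mem_filter.1 hx).1
        rw [s0 x (hBP x hx'), absSh_shift hF hK (hBP x hx'), absSh_base hF hK hx']
        ring
      · exact (mem_filter.1 hx).2 ⟨_, neg_ne_zero.2 h, fix x (mem_filter.1 hx).1 e⟩
      · have hx' := (mem_filter.1 hx).1
        refine mem_filter.2 ⟨s1 x hx', fun ⟨j, hj, h⟩ => (mem_filter.1 hx).2 ⟨-j, neg_ne_zero.2 hj, ?_⟩⟩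
        have a := inv' _ j _ (h1 x (hBP x hx')) h
        rw [h2 x (hBP x hx')] at a
        conv_rhs => rw [a]
        rw [hF.add _ _ _ (h1 x (hBP x hx')), neg_add_cancel, hF.zero _ (h1 x (hBP x hx'))]
    rw [z, add_zero, mul_comm, ← nsmul_eq_mul, ← sum_const]
    refine sum_congr rfl fun x hx => ?_
    obtain ⟨hx', j, hj, h⟩ := mem_filter.1 hx
    obtain ⟨a, b⟩ := half j x (hBP x hx') hj h
    rw [h, absSh_shift hF hK (hBP x hx'), absSh_base hF hK hx', zero_sub, a,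
      show d / 2 = j.val by omega, ZMod.natCast_zmod_val]
  · rw [abs_invs hF hK hK hK', ← absI_invol B K σ s1 s2, absI, absI]
    congr 1
    refine sum_congr rfl fun x hx => sum_congr rfl fun y hy => ?_
    have k2 : ∀ z ∈ B, (K ∘ τ) (absB ρ (K ∘ τ) z) = K (σ z) := fun z hz => by
      rw [absB, hsh z (hBP z hz), comp_apply, h3 _ z (hBP z hz)]
      rfl
    rw [k2 x hx, k2 y hy, absB_base hF hK hx, absB_base hF hK hy]

theorem absStmt : AbsStmt where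
  add := by
    intro Y Θ₁ Θ₂ Θ₃ _ _ _ d _ ρ P K₁ K₂ K₃ hF h₁ h₂ h₃
    constructor
    · rw [abs_gyr' hF h₁ h₁ h₂, abs_gyr' hF h₁ h₂ h₃, abs_gyr' hF h₁ h₁ h₃, ← sum_add_distrib]
      exact sum_congr rfl fun x _ => by ring
    · rw [abs_invs hF h₁ h₁ h₂, abs_invs hF h₁ h₂ h₃, abs_invs hF h₁ h₁ h₃]
      exact absI_add _ (abs_key_inj hF h₁ h₁) (abs_key_inj hF h₁ h₂) (abs_key_inj hF h₁ h₃)
  transport := by
    intro Y Y' Θ₁ Θ₂ Θ₁' Θ₂' _ _ _ _ d _ ρ ρ' P P' K₁ K₂ K₁' K₂' e hF he hc h₁ h₂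
    exact abs_transport e hF he hc h₁ h₂
  self := by
    intro Y Θ₁ Θ₂ _ _ d _ ρ P K₁ K₂ hF h₁ h
    obtain ⟨a, b⟩ := abs_transport (K₁ := K₁) (K₂ := K₁) (K₁' := K₁) (K₂' := K₂) (ρ' := ρ) id hF
      (Set.bijOn_id _) (fun _ _ _ => rfl) (fun _ _ _ _ => Iff.rfl) h
    rw [← a, ← b, abs_gyr' hF h₁ h₁ h₁, abs_invs hF h₁ h₁ h₁, absI]
    exact ⟨by simp, sum_eq_zero fun x _ => sum_eq_zero fun y _ =>
      if_neg fun h => h.1.not_gt h.2⟩
  invol := by
    intro Y Θ _ d _ ρ P K τ hF hK h1 h2 h3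
    convert abs_invol τ hF hK h1 h2 h3
  small := by
    intro Y Θ₁ Θ₂ _ _ d _ ρ P K₁ K₂ hF hc
    refine sum_eq_zero fun x hx => sum_eq_zero fun y hy => sum_eq_zero fun i _ =>
      sum_eq_zero fun j _ => if_neg fun h => ?_
    have e : univ.image (fun j => ρ j y) = P := by
      refine eq_of_subset_of_card_le (fun z hz => ?_) ?_
      · obtain ⟨j, -, rfl⟩ := mem_image.1 hz
        exact hF.mem j y hy
      · rwa [card_image_of_injective _ fun i j h => hF.abs_inj hy h, card_univ, ZMod.card]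
    obtain ⟨m, -, rfl⟩ := mem_image.1 (e.symm ▸ hx)
    exact h.2.2.1.not_ge (h.2.1 m)
  graded := by
    intro Y Θ₁ Θ₂ _ _ d _ ρ P K₁ K₂ h hF h₁ h₂ hh
    rw [← sum_filter, ← sum_filter, abs_gyr hF h₂]
    have e := abs_sum_change hF h₁ h₂ (fun x => h (absB ρ K₂ x)) fun j x hx => by
      simp only [absB_shift hF h₂ hx]
    rw [sum_congr rfl fun x (hx : x ∈ absP ρ P K₂) => congrArg h (absB_base hF h₂ hx)] at e
    change _ = ∑ x ∈ absP ρ P K₁, h x - ∑ x ∈ absP ρ P K₂, h x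
    rw [← e, ← sum_sub_distrib]
    refine sum_congr rfl fun x hx => ?_
    rw [absB, hh _ x (mem_filter.1 hx).1, sub_sub_cancel]

end Pool.Agent.MP_993212_an.H16
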