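import Pool.Agent.MP_993212_an.H16.Spec

/-! Reordering parallel edges has value zero (the count of Boyle and Krieger). -/

namespace Pool.Agent.MP_993212_an.H16

open Finset Function

namespace BK

theorem comb_congr (k : ℕ) (g : ZMod k) {x x' : ℕ → ℤ} (h : ∀ d, (x d : ZMod 2) = x' d) :
    comb k g x = comb k g x' := by
  simp only [comb, mul_sum]
  congr 1
  refine sum_congr rfl fun i hi => ?_
  split_ifs with h2
  · obtain ⟨t, ht⟩ := (ZMod.intCast_eq_intCast_iff_dvd_sub _ _ 2).1 (h (k / 2 ^ i))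
    have h3 : 2 ∣ k := (dvd_pow_self 2 (by have := (mem_Icc.1 hi).1; omega)).trans h2
    have h4 : ((k / 2 : ℕ) : ZMod k) * 2 = 0 := by
      have : ((k / 2 * 2 : ℕ) : ZMod k) = 0 := by rw [Nat.div_mul_cancel h3, ZMod.natCast_self]
      simpa using this
    rw [eq_add_of_sub_eq ht]
    push_cast
    linear_combination (-t : ZMod k) * h4
  · rfl

theorem sum_eq {H S : ℕ → ℕ} (h1 : ∀ d, Odd d → H d = 0) (h2 : ∀ d, 0 < d → H (2 * d) = H d + S d)
    (N : ℕ) : ∀ k, 0 < k → k ≤ N →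
      ∑ i ∈ range N, (if 2 ^ (i + 1) ∣ k then S (k / 2 ^ (i + 1)) else 0) = H k := by
  induction N with
  | zero => intro k h h'; omega
  | succ N ih =>
    intro k h h'
    rcases Nat.even_or_odd' k with ⟨d, rfl | rfl⟩
    · rw [sum_range_succ', h2 d (by omega), ← ih d (by omega) (by omega)]
      congr 1
      · refine sum_congr rfl fun i _ => ?_
        rw [pow_succ' 2 (i + 1), Nat.mul_div_mul_left _ _ two_pos]
        simp only [Nat.mul_dvd_mul_iff_left two_pos]
      · simp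
    · rw [h1 _ (odd_two_mul_add_one d)]
      refine sum_eq_zero fun i _ => if_neg fun h3 => ?_
      have := (dvd_pow_self 2 i.succ_ne_zero).trans h3
      omega

theorem comb_HS {H S : ℕ → ℕ} (h1 : ∀ d, Odd d → H d = 0)
    (h2 : ∀ d, 0 < d → H (2 * d) = H d + S d) (k : ℕ) :
    comb k (((k / 2 : ℕ) : ZMod k) * H k) (fun d => S d) = 0 := by
  rcases Nat.eq_zero_or_pos k with rfl | hk
  · simp [comb]
  have h3 : (∑ i ∈ Icc 1 k, if 2 ^ i ∣ k then (((S (k / 2 ^ i) : ℕ) : ℤ) : ZMod k) else 0) = H k := by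
    rw [← sum_eq h1 h2 k k hk le_rfl, ← Finset.Ico_add_one_right_eq_Icc, sum_Ico_eq_sum_range]
    simp [add_comm 1]
  rw [comb, h3]
  rcases Nat.even_or_odd' k with ⟨d, rfl | rfl⟩
  · have : ((2 * d : ℕ) : ZMod (2 * d)) = 0 := ZMod.natCast_self _
    rw [Nat.mul_div_cancel_left _ two_pos]
    push_cast at this
    linear_combination (H (2 * d) : ZMod (2 * d)) * this
  · simp [h1 _ (odd_two_mul_add_one d)]

theorem eq_of_sum {f g : ℕ → ℕ} (h : ∀ m, 0 < m → ∑ d ∈ m.divisors, f d = ∑ d ∈ m.divisors, g d) :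
    ∀ m, 0 < m → f m = g m := by
  intro m
  induction m using Nat.strong_induction_on with
  | _ m ih =>
    intro hm
    have := h m hm
    rw [← Nat.insert_self_properDivisors hm.ne', sum_insert Nat.self_notMem_properDivisors,
      sum_insert Nat.self_notMem_properDivisors, sum_congr rfl fun d hd =>
        ih d (Nat.mem_properDivisors.1 hd).2 (Nat.pos_of_mem_properDivisors hd)] at this
    exact Nat.add_right_cancel this

theorem sum_even {f : ℕ → ℕ} (h : ∀ d, Odd d → f d = 0) {m : ℕ} (hm : 0 < m) :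
    ∑ d ∈ (2 * m).divisors, f d = ∑ e ∈ m.divisors, f (2 * e) := by
  rw [← sum_image (s := m.divisors) (g := fun e => 2 * e) fun a _ b _ h => by simpa using h]
  refine (sum_subset (fun d hd => ?_) fun d hd hd' => ?_).symm
  · obtain ⟨e, he, rfl⟩ := mem_image.1 hd
    exact Nat.mem_divisors.2 ⟨Nat.mul_dvd_mul_left 2 (Nat.dvd_of_mem_divisors he), by omega⟩
  · rcases Nat.even_or_odd' d with ⟨e, rfl | rfl⟩
    · exact absurd (mem_image.2 ⟨e, Nat.mem_divisors.2 ⟨Nat.dvd_of_mul_dvd_mul_left two_pos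
        (Nat.dvd_of_mem_divisors hd), hm.ne'⟩, rfl⟩) hd'
    · exact h _ (odd_two_mul_add_one e)

theorem half {d j : ℕ} (h1 : d ∣ 2 * j) (h2 : ¬ d ∣ j) : 2 * (j % d) = d := by
  rcases Nat.eq_zero_or_pos d with rfl | hd
  · simp only [zero_dvd_iff] at h1 h2; omega
  have h3 : d ∣ 2 * (j % d) := by
    rw [← Nat.mod_add_div j d, mul_add] at h1
    exact (Nat.dvd_add_left (Dvd.dvd.mul_left (dvd_mul_right d _) 2)).1 h1
  have h4 : j % d ≠ 0 := fun h => h2 (Nat.dvd_of_mod_eq_zero h)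
  have h5 := Nat.mod_lt j hd
  obtain ⟨c, hc⟩ := h3
  have h6 : c = 1 := by
    rcases c with _ | _ | c
    · omega
    · rfl
    · nlinarith
  subst h6; omega

section Seq

variable {E V : Type}

/-- the shift on sequences -/
def sg (x : ℕ → E) : ℕ → E := fun i => x (i + 1)

theorem sg_iter (j : ℕ) (x : ℕ → E) (i : ℕ) : sg^[j] x i = x (i + j) := by
  induction j generalizing x with
  | zero => rfl
  | succ j ih => rw [iterate_succ_apply, ih]; rfl

/-- the sequence of a cyclic word -/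
def sq {d : ℕ} (w : ZMod d → E) : ℕ → E := fun i => w i

theorem sq_inj {d : ℕ} [NeZero d] : Injective (sq (E := E) (d := d)) := fun w w' h =>
  funext fun i => by simpa [sq] using congrFun h i.val

theorem sg_sq {d : ℕ} (j : ℕ) (w : ZMod d → E) : sg^[j] (sq w) = sq (rot j w) :=
  funext fun i => by simp [sg_iter, sq, rot]

theorem exists_sq {d : ℕ} [NeZero d] {x : ℕ → E} (h : IsPeriodicPt sg d x) :
    ∃ w : ZMod d → E, sq w = x :=
  ⟨fun i => x i.val, funext fun i => by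
    simpa [sg_iter, sq, ZMod.val_natCast] using congrFun (h.iterate_mod_apply i) 0⟩

theorem per_sq {d : ℕ} (w : ZMod d → E) : IsPeriodicPt sg d (sq w) := by
  change sg^[d] (sq w) = sq w
  rw [sg_sq, ZMod.natCast_self]
  exact congrArg sq (funext fun i => by simp [rot])

theorem min_sq {d : ℕ} [NeZero d] (w : ZMod d → E) :
    minimalPeriod sg (sq w) = d ↔ ∀ j, rot j w = w → j = 0 := by
  constructor
  · intro h j hj
    have h1 : IsPeriodicPt sg j.val (sq w) := by
      change sg^[j.val] (sq w) = sq w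
      rw [sg_sq, ZMod.natCast_zmod_val, hj]
    have h2 := h1.minimalPeriod_dvd
    rw [h] at h2
    rw [← ZMod.natCast_zmod_val j, (ZMod.natCast_eq_zero_iff _ _).2 h2]
  · intro h
    refine Nat.dvd_antisymm (per_sq w).minimalPeriod_dvd ((ZMod.natCast_eq_zero_iff _ _).1 (h _ ?_))
    exact sq_inj ((sg_sq _ w).symm.trans (isPeriodicPt_minimalPeriod sg (sq w)))

variable [Fintype E]

theorem fin_per {n : ℕ} (hn : 0 < n) (q : (ℕ → E) → Prop) :
    {x | IsPeriodicPt sg n x ∧ q x}.Finite := by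
  have : NeZero n := ⟨hn.ne'⟩
  exact (Set.finite_range (sq (E := E) (d := n))).subset fun x hx => exists_sq hx.1

/-- the number of sequences of period `n` with a property -/
noncomputable def pc (q : (ℕ → E) → Prop) (n : ℕ) : ℕ := {x | IsPeriodicPt sg n x ∧ q x}.ncard

/-- the number of sequences of least period `d` with a property -/
noncomputable def mc (q : (ℕ → E) → Prop) (d : ℕ) : ℕ := {x | minimalPeriod sg x = d ∧ q x}.ncard

theorem pc_eq {n : ℕ} (hn : 0 < n) (q : (ℕ → E) → Prop) : pc q n = ∑ d ∈ n.divisors, mc q d := by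
  classical
  rw [pc, Set.ncard_eq_toFinset_card _ (fin_per hn q),
    card_eq_sum_card_fiberwise (f := minimalPeriod sg) (t := n.divisors) fun x hx =>
      Nat.mem_divisors.2 ⟨((fin_per hn q).mem_toFinset.1 hx).1.minimalPeriod_dvd, hn.ne'⟩]
  refine sum_congr rfl fun d hd => ?_
  rw [mc, ← Set.ncard_coe_finset]
  congr 1
  ext x
  simp only [coe_filter, Set.Finite.mem_toFinset, Set.mem_ofPred_eq]
  refine ⟨fun h => ⟨h.2, h.1.2⟩, fun h => ⟨⟨?_, h.2⟩, h.1⟩⟩
  rw [isPeriodicPt_iff_minimalPeriod_dvd, h.1]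
  exact Nat.dvd_of_mem_divisors hd

theorem pc_add {n : ℕ} (hn : 0 < n) (q p : (ℕ → E) → Prop) :
    pc q n = pc (fun x => q x ∧ p x) n + pc (fun x => q x ∧ ¬ p x) n := by
  rw [pc, pc, pc, ← Set.ncard_union_eq _ (fin_per hn _) (fin_per hn _)]
  · congr 1
    ext x
    simp only [Set.mem_union, Set.mem_ofPred_eq]
    tauto
  · exact Set.disjoint_left.2 fun x h h' => h'.2.2 h.2.2

variable (src tgt : E → V)

/-- paths -/
def Path (x : ℕ → E) : Prop := ∀ i, tgt (x i) = src (x (i + 1))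

theorem card_eq {d : ℕ} [NeZero d] (q : (ℕ → E) → Prop) (q' : (ZMod d → E) → Prop)
    {_ : DecidablePred q'} (h : ∀ w ∈ gprim d src tgt, q' w ↔ q (sq w)) :
    ((gprim d src tgt).filter q').card = mc (fun x => Path src tgt x ∧ q x) d := by
  have hp : ∀ w : ZMod d → E, w ∈ gprim d src tgt ↔
      minimalPeriod sg (sq w) = d ∧ Path src tgt (sq w) := fun w => by
    simp only [gprim, mem_filter, mem_univ, true_and, min_sq, Path, sq, Nat.cast_add, Nat.cast_one,
      and_comm]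
    exact and_congr_left fun _ => ⟨fun h i => h i, fun h i => by simpa using h i.val⟩
  rw [mc, ← Set.ncard_coe_finset, ← Set.ncard_image_of_injective _ sq_inj]
  congr 1
  ext x
  simp only [coe_filter, Set.mem_image, Set.mem_ofPred_eq]
  constructor
  · rintro ⟨w, ⟨h1, h2⟩, rfl⟩
    exact ⟨((hp w).1 h1).1, ((hp w).1 h1).2, (h w h1).1 h2⟩
  · rintro ⟨h1, h2, h3⟩
    obtain ⟨w, rfl⟩ := exists_sq (d := d) (h1 ▸ isPeriodicPt_minimalPeriod sg x)
    have := (hp w).2 ⟨h1, h2⟩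
    exact ⟨w, ⟨this, (h w this).2 h3⟩, rfl⟩

variable {src tgt} {τ : E → E}

/-- orbits that are rotated by a half turn -/
def QH (τ : E → E) (x : ℕ → E) : Prop := τ ∘ x ≠ x ∧ ∃ j, τ ∘ x = sg^[j] x

/-- orbits that are moved -/
def QS (τ : E → E) (x : ℕ → E) : Prop := ∀ j, τ ∘ x ≠ sg^[j] x

/-- apply the involution on every second block of length `m` -/
def tw (τ : E → E) (m : ℕ) (x : ℕ → E) : ℕ → E :=
  fun i => if i / m % 2 = 0 then x i else τ (x i)

theorem count (hτ : ∀ e, τ (τ e) = e) (hs : ∀ e, src (τ e) = src e) (ht : ∀ e, tgt (τ e) = tgt e)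
    {m : ℕ} (hm : 0 < m) :
    pc (fun x => Path src tgt x ∧ QH τ x) (2 * m) =
      2 * pc (fun x => Path src tgt x ∧ QH τ x) m + pc (fun x => Path src tgt x ∧ QS τ x) m := by
  have h2 : 0 < 2 * m := by omega
  have per : ∀ n (x : ℕ → E), IsPeriodicPt sg n x ↔ ∀ i, x (i + n) = x i := fun n x => by
    change sg^[n] x = x ↔ _
    simp only [funext_iff, sg_iter]
  have dbl : ∀ j (x : ℕ → E), τ ∘ x = sg^[j] x → IsPeriodicPt sg (2 * j) x := fun j x h => by
    simp only [funext_iff, sg_iter, comp_apply] at h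
    refine (per _ _).2 fun i => ?_
    rw [two_mul, ← add_assoc, ← h, ← h, hτ]
  have tt : ∀ x, tw τ m (tw τ m x) = x := fun x => funext fun i => by
    simp only [tw]; split_ifs <;> simp [hτ]
  have tp : ∀ x, Path src tgt x → Path src tgt (tw τ m x) := fun x h i => by
    simp only [tw]; split_ifs <;> simp [hs, ht, h i]
  have e1 : pc (Path src tgt) m = pc (fun x => Path src tgt x ∧ τ ∘ x = sg^[m] x) (2 * m) := by
    refine Set.ncard_congr (fun x _ => tw τ m x) (fun x hx => ?_)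
      (fun x y _ _ h => by rw [← tt x, h, tt]) fun y hy => ⟨tw τ m y, ⟨?_, tp _ hy.2.1⟩, tt y⟩
    · have : τ ∘ tw τ m x = sg^[m] (tw τ m x) := funext fun i => by
        simp only [sg_iter, comp_apply, tw, Nat.add_div_right _ hm, (per _ _).1 hx.1 i]
        split_ifs <;> first | rfl | exact hτ _ | omega
      exact ⟨dbl _ _ this, tp _ hx.2, this⟩
    · refine (per _ _).2 fun i => ?_
      have := congrFun hy.2.2 i
      simp only [sg_iter, comp_apply] at this
      simp only [tw, Nat.add_div_right _ hm, ← this]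
      split_ifs <;> first | rfl | exact hτ _ | omega
  have e2 := pc_add hm (Path src tgt) fun x => τ ∘ x = x
  have e3 := pc_add hm (fun x => Path src tgt x ∧ ¬ τ ∘ x = x) fun x => ∃ j, τ ∘ x = sg^[j] x
  have e4 := pc_add h2 (fun x => Path src tgt x ∧ τ ∘ x = sg^[m] x) (IsPeriodicPt sg m)
  have e5 := pc_add h2 (fun x => Path src tgt x ∧ QH τ x) (IsPeriodicPt sg m)
  have up : ∀ x : ℕ → E, IsPeriodicPt sg m x → IsPeriodicPt sg (2 * m) x := fun x h => h.const_mul 2
  have f1 : pc (fun x => (Path src tgt x ∧ ¬ τ ∘ x = x) ∧ ∃ j, τ ∘ x = sg^[j] x) m =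
      pc (fun x => Path src tgt x ∧ QH τ x) m := by simp only [QH, and_assoc]
  have f2 : pc (fun x => (Path src tgt x ∧ ¬ τ ∘ x = x) ∧ ¬ ∃ j, τ ∘ x = sg^[j] x) m =
      pc (fun x => Path src tgt x ∧ QS τ x) m := by
    congr 1
    funext x
    exact propext ⟨fun h => ⟨h.1.1, not_exists.1 h.2⟩, fun h => ⟨⟨h.1, h.2 0⟩, not_exists.2 h.2⟩⟩
  have f3 : pc (fun x => (Path src tgt x ∧ τ ∘ x = sg^[m] x) ∧ IsPeriodicPt sg m x) (2 * m) =
      pc (fun x => Path src tgt x ∧ τ ∘ x = x) m := by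
    refine congrArg Set.ncard (Set.ext fun x => ⟨fun h => ⟨h.2.2, h.2.1.1, h.2.1.2.trans h.2.2⟩,
      fun h => ⟨up _ h.1, ⟨h.2.1, h.2.2.trans h.1.symm⟩, h.1⟩⟩)
  have f4 : pc (fun x => (Path src tgt x ∧ QH τ x) ∧ IsPeriodicPt sg m x) (2 * m) =
      pc (fun x => Path src tgt x ∧ QH τ x) m :=
    congrArg Set.ncard (Set.ext fun x => ⟨fun h => ⟨h.2.2, h.2.1⟩, fun h => ⟨up _ h.1, h.2, h.1⟩⟩)
  have f5 : pc (fun x => (Path src tgt x ∧ τ ∘ x = sg^[m] x) ∧ ¬ IsPeriodicPt sg m x) (2 * m) =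
      pc (fun x => (Path src tgt x ∧ QH τ x) ∧ ¬ IsPeriodicPt sg m x) (2 * m) := by
    refine congrArg Set.ncard (Set.ext fun x => ⟨fun h => ⟨h.1, ⟨h.2.1.1, fun e => h.2.2
      (h.2.1.2.symm.trans e), m, h.2.1.2⟩, h.2.2⟩, ?_⟩)
    rintro ⟨h1, ⟨h2, h3, j, h4⟩, h5⟩
    refine ⟨h1, ⟨h2, ?_⟩, h5⟩
    have a1 := half (dbl j x h4).minimalPeriod_dvd fun e =>
      h3 (h4.trans (isPeriodicPt_iff_minimalPeriod_dvd.2 e))
    have a2 := half h1.minimalPeriod_dvd fun e => h5 (isPeriodicPt_iff_minimalPeriod_dvd.2 e)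
    rw [h4, ← iterate_mod_minimalPeriod_eq, ← iterate_mod_minimalPeriod_eq (n := m)]
    congr 1
    omega
  omega

end Seq

section Key

variable {E V Ω Ω₁ Ω₂ Ω₃ : Type} [Fintype E] [LinearOrder Ω] [LinearOrder Ω₁] [LinearOrder Ω₂]
  [LinearOrder Ω₃] {o : V → ℕ} {src tgt : E → V}

theorem free (d : ℕ) [NeZero d] (src tgt : E → V) : Free rot (gprim d src tgt) where
  zero x _ := by ext i; simp [rot]
  add i j x _ := by
    funext n
    simp [rot, add_assoc]
  mem j x hx := by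
    simp only [gprim, mem_filter, mem_univ, true_and] at hx ⊢
    refine ⟨fun i => ?_, fun i hi => hx.2 i ?_⟩
    · simpa only [rot, add_right_comm i j 1] using hx.1 (i + j)
    · funext n
      have := congrFun hi (n - j)
      simp only [rot, sub_add_cancel] at this
      simp only [rot]
      rw [← this]
      congr 1
      ring
  free j x hx h := by
    simp only [gprim, mem_filter, mem_univ, true_and] at hx
    exact hx.2 j h

/-- the key separates parallel edges -/
def Sep (src tgt : E → V) (κ : E → Ω) : Prop :=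
  ∀ e e', src e = src e' → tgt e = tgt e' → κ e = κ e' → e = e'

/-- the key of an edge -/
def ek (o : V → ℕ) (src tgt : E → V) (κ : E → Ω) (e : E) : ℕ ×ₗ ℕ ×ₗ Ω :=
  toLex (o (src e), toLex (o (tgt e), κ e))

omit [Fintype E] [LinearOrder Ω] in
theorem ek_inj (ho : Injective o) {κ : E → Ω} (h : Sep src tgt κ) : Injective (ek o src tgt κ) :=
  fun e e' he => by
    simp only [ek, toLex_inj, Prod.mk.injEq] at he
    exact h e e' (ho he.1) (ho he.2.1) he.2.2

omit [Fintype E] [LinearOrder Ω] in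
theorem gkey_inj (ho : Injective o) {κ : E → Ω} (h : Sep src tgt κ) (d : ℕ) [NeZero d] :
    Injective (gkey (d := d) o src tgt κ) := fun z z' hz => funext fun i => by
  have := ek_inj ho h (congrFun (toLex_inj.1 hz) ⟨i.val, i.val_lt⟩)
  simpa using this

/-- the value of a change of keys -/
noncomputable def T (o : V → ℕ) (src tgt : E → V) (κ₁ : E → Ω₁) (κ₂ : E → Ω₂) (k : ℕ) : ZMod k :=
  comb k (gyG o src tgt κ₁ κ₂ k) (xiG o src tgt κ₁ κ₂)

theorem T_add (h : AbsStmt) (ho : Injective o) {κ₁ : E → Ω₁} {κ₂ : E → Ω₂} {κ₃ : E → Ω₃}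
    (h1 : Sep src tgt κ₁) (h2 : Sep src tgt κ₂) (h3 : Sep src tgt κ₃) (k : ℕ) :
    T o src tgt κ₁ κ₂ k + T o src tgt κ₂ κ₃ k = T o src tgt κ₁ κ₃ k := by
  have key := fun n => h.add _ _ _ _ (n + 1) rot _ _ _ _ (free (n + 1) src tgt)
    (gkey_inj ho h1 _).injOn (gkey_inj ho h2 _).injOn (gkey_inj ho h3 _).injOn
  have e : gyG o src tgt κ₁ κ₂ k + gyG o src tgt κ₂ κ₃ k = gyG o src tgt κ₁ κ₃ k := by
    cases k with
    | zero => exact add_zero _
    | succ n => exact (key n).1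
  rw [T, T, T, ← comb_add, e]
  refine comb_congr _ _ fun d => ?_
  cases d with
  | zero => simp [xiG]
  | succ n => simpa [xiG] using (key n).2

theorem T_self (h : AbsStmt) (ho : Injective o) {κ₁ : E → Ω₁} {κ₂ : E → Ω₂}
    (h1 : Sep src tgt κ₁) (h2 : Sep src tgt κ₂)
    (h12 : ∀ e e', ek o src tgt κ₁ e < ek o src tgt κ₁ e' ↔ ek o src tgt κ₂ e < ek o src tgt κ₂ e')
    (k : ℕ) : T o src tgt κ₁ κ₂ k = 0 := by
  have key := fun n => h.self _ _ _ (n + 1) rot _ _ (gkey o src tgt κ₂) (free (n + 1) src tgt)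
    (gkey_inj ho h1 _).injOn fun x _ y _ => le_iff_le_iff_lt_iff_lt.2 <|
      exists_congr fun i => and_congr (forall₂_congr fun j _ =>
        ((ek_inj ho h1).eq_iff.trans (ek_inj ho h2).eq_iff.symm)) (h12 _ _)
  have e : gyG o src tgt κ₁ κ₂ k = 0 := by
    cases k with
    | zero => rfl
    | succ n => exact (key n).1
  have e' : xiG o src tgt κ₁ κ₂ = 0 := funext fun d => by
    cases d with
    | zero => rfl
    | succ n => simpa [xiG] using (key n).2
  rw [T, e, e', comb_zero]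

theorem T_invol (h : AbsStmt) (ho : Injective o) {κ : E → Ω} (h1 : Sep src tgt κ) {τ : E → E}
    (hτ : ∀ e, τ (τ e) = e) (hs : ∀ e, src (τ e) = src e) (ht : ∀ e, tgt (τ e) = tgt e) (k : ℕ) :
    T o src tgt κ (κ ∘ τ) k = 0 := by
  classical
  have key : ∀ d, ∃ H S : ℕ, (0 < d → mc (fun x => Path src tgt x ∧ QH τ x) d = d * H ∧
      mc (fun x => Path src tgt x ∧ QS τ x) d = 2 * d * S) ∧ (Odd d → H = 0) ∧
      gyG o src tgt κ (κ ∘ τ) d = ((d / 2 : ℕ) : ZMod d) * H ∧
      ((xiG o src tgt κ (κ ∘ τ) d : ℤ) : ZMod 2) = ((S : ℤ) : ZMod 2) := by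
    intro d
    cases d with
    | zero => exact ⟨0, 0, fun h => absurd h (lt_irrefl 0), fun _ => rfl, by simp [gyG],
        by simp [xiG]⟩
    | succ n =>
      have e : gkey (d := n + 1) o src tgt (κ ∘ τ) = gkey o src tgt κ ∘ fun z => τ ∘ z :=
        funext fun z => by simp [gkey, hs, ht]
      have inv : ∀ z : ZMod (n + 1) → E, τ ∘ τ ∘ z = z := fun z => funext fun i => hτ _
      obtain ⟨H, S, a1, a2, a3, a4, a5⟩ := h.invol _ _ (n + 1) rot _ (gkey o src tgt κ)
        (fun z => τ ∘ z) (free (n + 1) src tgt) (gkey_inj ho h1 _).injOn (fun x hx => by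
          simp only [gprim, mem_filter, mem_univ, true_and] at hx ⊢
          refine ⟨fun i => by simpa [hs, ht] using hx.1 i, fun j hj => hx.2 j ?_⟩
          exact (inv _).symm.trans ((congrArg (τ ∘ ·) hj).trans (inv x))) (fun x _ => inv x) fun _ _ _ => rfl
      have eq : ∀ (w : ZMod (n + 1) → E) (j : ℕ), τ ∘ sq w = sg^[j] (sq w) ↔ τ ∘ w = rot j w :=
        fun w j => by rw [sg_sq, ← sq_inj.eq_iff]; rfl
      refine ⟨H, S, fun _ => ⟨?_, ?_⟩, a3, by rw [gyG, e, a4], by simpa [xiG, e] using a5⟩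
      · rw [← a1]
        refine (card_eq src tgt _ _ fun w hw => ⟨?_, ?_⟩).symm
        · rintro ⟨j, hj, e⟩
          refine ⟨fun e' => hj ((free (n + 1) src tgt).free j w hw (e.symm.trans (sq_inj e'))),
            j.val, (eq _ _).2 (by rw [ZMod.natCast_zmod_val, e])⟩
        · rintro ⟨h1, j, e⟩
          refine ⟨j, fun hj => h1 ?_, (eq _ _).1 e⟩
          rw [e, sg_sq, hj, (free (n + 1) src tgt).zero w hw]
      · rw [← a2]
        refine (card_eq src tgt _ _ fun w hw => ⟨fun a j e => a _ ((eq _ _).1 e), fun a j e =>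
          a j.val ((eq _ _).2 (by rw [ZMod.natCast_zmod_val, e]))⟩).symm
  choose H S a1 a2 a3 a4 using key
  rw [T, a3, comb_congr _ _ a4]
  refine comb_HS a2 (fun d hd => ?_) k
  have := eq_of_sum (f := fun e => mc (fun x => Path src tgt x ∧ QH τ x) (2 * e))
    (g := fun e => 2 * mc (fun x => Path src tgt x ∧ QH τ x) e +
      mc (fun x => Path src tgt x ∧ QS τ x) e) (fun m hm => by
      rw [← sum_even (fun d hd => by rw [(a1 d hd.pos).1, a2 d hd, mul_zero]) hm,
        ← pc_eq (by omega), count hτ hs ht hm, pc_eq hm, pc_eq hm, sum_add_distrib, mul_sum]) d hd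
  simp only [(a1 d hd).1, (a1 d hd).2, (a1 (2 * d) (by omega)).1] at this
  refine Nat.eq_of_mul_eq_mul_left (by omega : 0 < 2 * d) ?_
  rw [this]; ring

theorem T_perm (h : AbsStmt) (ho : Injective o) (n : ℕ) : ∀ (θ : Equiv.Perm E) (κ : E → Ω),
    Sep src tgt κ → (∀ e, src (θ e) = src e) → (∀ e, tgt (θ e) = tgt e) →
    {e | θ e ≠ e}.ncard ≤ n → ∀ k, T o src tgt κ (κ ∘ θ) k = 0 := by
  classical
  have sep : ∀ (θ : Equiv.Perm E) (κ : E → Ω), Sep src tgt κ → (∀ e, src (θ e) = src e) →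
      (∀ e, tgt (θ e) = tgt e) → Sep src tgt (κ ∘ θ) := fun θ κ h1 hs ht e e' a b c =>
    θ.injective (h1 _ _ (by rw [hs, hs, a]) (by rw [ht, ht, b]) c)
  have card : ∀ θ : Equiv.Perm E, {e | θ e ≠ e}.ncard = θ.support.card := fun θ => by
    rw [← Set.ncard_coe_finset]; congr 1; ext e; simp
  induction n with
  | zero =>
    intro θ κ h1 hs ht hn k
    rw [card, Nat.le_zero, Equiv.Perm.card_support_eq_zero] at hn
    subst hn
    exact T_self h ho h1 h1 (fun _ _ => Iff.rfl) k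
  | succ n ih =>
    intro θ κ h1 hs ht hn k
    by_cases h0 : ∀ e, θ e = e
    · exact ih θ κ h1 hs ht (by simp [h0]) k
    obtain ⟨a, ha⟩ := not_forall.1 h0
    have sw : ∀ f : E → V, f (θ a) = f a → ∀ e, f (Equiv.swap a (θ a) e) = f e := fun f hf e =>
      Equiv.apply_swap_eq_self hf.symm e
    have h2 := sep (Equiv.swap a (θ a)) κ h1 (sw _ (hs a)) (sw _ (ht a))
    have h3 := ih (Equiv.swap a (θ a) * θ) _ h2 (fun e => (sw _ (hs a) _).trans (hs e))
      (fun e => (sw _ (ht a) _).trans (ht e)) (by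
        have := Equiv.Perm.card_support_swap_mul ha
        rw [card] at hn ⊢
        omega) k
    have e : (κ ∘ Equiv.swap a (θ a)) ∘ (Equiv.swap a (θ a) * θ : Equiv.Perm E) = κ ∘ θ :=
      funext fun e => by simp
    rw [e] at h3
    rw [← T_add h ho h1 h2 (sep θ κ h1 hs ht), h3,
      T_invol h ho h1 (Equiv.swap_apply_self _ _) (sw _ (hs a)) (sw _ (ht a)), add_zero]

/-- the rank of an element -/
noncomputable def rank {Θ : Type} [LinearOrder Θ] (K : E → Θ) (e : E) : ℕ :=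
  {e' | K e' < K e}.ncard

theorem rank_lt {Θ : Type} [LinearOrder Θ] (K : E → Θ) {S : Set E} {e : E} (he : e ∈ S)
    (h : ∀ e', K e' < K e → e' ∈ S) : rank K e < S.ncard :=
  Set.ncard_lt_ncard ⟨h, fun h' => lt_irrefl _ (h' he)⟩

theorem rank_lt_iff {Θ : Type} [LinearOrder Θ] (K : E → Θ) (e e' : E) :
    rank K e < rank K e' ↔ K e < K e' :=
  ⟨fun h => lt_of_not_ge fun h' => h.not_ge (Set.ncard_le_ncard fun _ hx => lt_of_lt_of_le hx h'),
    fun h => rank_lt K h fun _ hx => hx.trans h⟩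

theorem rank_bij {Θ : Type} [LinearOrder Θ] {K : E → Θ} (hK : Injective K) :
    ∃ r : E ≃ Fin (Fintype.card E), ∀ e, (r e : ℕ) = rank K e := by
  have h : ∀ e, rank K e < Fintype.card E := fun e => by
    simpa using rank_lt K (Set.mem_univ e) fun _ _ => trivial
  refine ⟨Equiv.ofBijective (fun e => ⟨rank K e, h e⟩) ((Fintype.bijective_iff_injective_and_card _).2
    ⟨fun e e' he => hK ?_, by simp⟩), fun _ => rfl⟩
  have : rank K e = rank K e' := congrArg Fin.val he
  exact le_antisymm (not_lt.1 fun a => ((rank_lt_iff K _ _).2 a).ne' this)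
    (not_lt.1 fun a => ((rank_lt_iff K _ _).2 a).ne this)

theorem rank_cross (κ₁ : E → Ω₁) (κ₂ : E → Ω₂) {a b : E}
    (h : toLex (o (src a), o (tgt a)) < toLex (o (src b), o (tgt b))) :
    rank (ek o src tgt κ₁) a < rank (ek o src tgt κ₂) b := by
  refine (rank_lt _ (S := {e | toLex (o (src e), o (tgt e)) < toLex (o (src b), o (tgt b))}) h
    fun e he => ?_).trans_le (Set.ncard_le_ncard fun e he => ?_)
  · simp only [ek, Prod.Lex.toLex_lt_toLex, Set.mem_ofPred_eq] at h he ⊢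
    omega
  · simp only [ek, Prod.Lex.toLex_lt_toLex, Set.mem_ofPred_eq] at he ⊢
    tauto

end Key

end BK

open BK in
theorem bk_of (h : AbsStmt) : BKStmt := by
  intro E V Ω₁ Ω₂ _ _ _ o src tgt κ₁ κ₂ ho h1 h2 k
  obtain ⟨r₁, e₁⟩ := rank_bij (ek_inj ho h1)
  obtain ⟨r₂, e₂⟩ := rank_bij (ek_inj ho h2)
  let θ : Equiv.Perm E := r₂.trans r₁.symm
  have hθ : ∀ e, rank (ek o src tgt κ₁) (θ e) = rank (ek o src tgt κ₂) e := fun e => by
    rw [← e₁, ← e₂]; simp [θ]
  have lab : ∀ e, src (θ e) = src e ∧ tgt (θ e) = tgt e := fun e => by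
    have := le_antisymm (not_lt.1 fun a => (rank_cross κ₂ κ₁ a).ne' (hθ e))
      (not_lt.1 fun a => (rank_cross κ₁ κ₂ a).ne (hθ e))
    simp only [toLex_inj, Prod.mk.injEq] at this
    exact ⟨ho this.1, ho this.2⟩
  have h3 : Sep src tgt (κ₁ ∘ θ) := fun e e' a b c =>
    θ.injective (h1 _ _ (by rw [(lab _).1, (lab _).1, a]) (by rw [(lab _).2, (lab _).2, b]) c)
  have e3 : ∀ e, ek o src tgt (κ₁ ∘ θ) e = ek o src tgt κ₁ (θ e) := fun e => by
    simp [ek, (lab e).1, (lab e).2]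
  change T o src tgt κ₁ κ₂ k = 0
  rw [← T_add h ho h1 h3 h2, T_perm h ho _ θ κ₁ h1 (fun e => (lab e).1) (fun e => (lab e).2) le_rfl,
    T_self h ho h3 h2 fun e e' => by rw [e3, e3, ← rank_lt_iff, hθ, hθ, rank_lt_iff], add_zero]

end Pool.Agent.MP_993212_an.H16
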