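import Pool.Agent.MP_993212_an.H16.Two

/-! Block sums: the potential of a model restricted to a few states. -/

set_option linter.unusedSectionVars false

namespace Pool.Agent.MP_993212_an.H16

open Matrix Polynomial Finset Function

variable {U V W s : Type} [Fintype U] [DecidableEq U] [Fintype V] [DecidableEq V] [Fintype W]
  [DecidableEq W] [Fintype s] [DecidableEq s] {G G' : Type} [AddCommGroup G] [Module ℤ[X] G]
  [AddCommGroup G'] [Module ℤ[X] G']

theorem Pres.equiv {P : Matrix W W ℤ[X]} {ξ : W → G} (h : Pres P ξ) (E : V ≃ W) :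
    Pres (P.submatrix E E) (ξ ∘ E) := by
  have a : ∀ y : V → ℤ[X], ∑ v, y v • (ξ ∘ E) v = ∑ w, (y ∘ E.symm) w • ξ w := fun y =>
    Fintype.sum_equiv E _ _ fun v => by simp
  refine ⟨fun g => ?_, fun y => ?_⟩
  · obtain ⟨y, rfl⟩ := h.1 g
    exact ⟨y ∘ E, by rw [a]; simp [comp_def]⟩
  · rw [a, h.2]
    constructor
    · rintro ⟨z, hz⟩
      refine ⟨z ∘ E, funext fun v => ?_⟩
      have := congrFun hz (E v)
      simp only [Function.comp_apply, Equiv.symm_apply_apply] at this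
      rw [this]
      exact (Fintype.sum_equiv E _ _ fun u => rfl).symm
    · rintro ⟨z, rfl⟩
      refine ⟨z ∘ E.symm, funext fun w => ?_⟩
      exact Fintype.sum_equiv E _ _ fun u => by simp

theorem Pres.sum {P : Matrix U U ℤ[X]} {Q : Matrix V V ℤ[X]} {ξ : U → G} {κ : V → G'}
    (h : Pres P ξ) (h' : Pres Q κ) :
    Pres (fromBlocks P 0 0 Q) (Sum.elim (fun u => (ξ u, (0 : G'))) fun v => (0, κ v)) := by
  have a : ∀ y : U ⊕ V → ℤ[X],
      ∑ i, y i • Sum.elim (fun u => (ξ u, (0 : G'))) (fun v => (0, κ v)) i =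
        (∑ u, y (Sum.inl u) • ξ u, ∑ v, y (Sum.inr v) • κ v) := fun y => by
    rw [Fintype.sum_sum_type]
    ext <;> simp [Prod.fst_sum, Prod.snd_sum]
  refine ⟨fun g => ?_, fun y => ?_⟩
  · obtain ⟨y, hy⟩ := h.1 g.1
    obtain ⟨z, hz⟩ := h'.1 g.2
    exact ⟨Sum.elim y z, by rw [a]; simp [hy, hz]⟩
  · rw [a, Prod.mk_eq_zero, h.2, h'.2]
    constructor
    · rintro ⟨⟨z, hz⟩, ⟨z', hz'⟩⟩
      refine ⟨Sum.elim z z', ?_⟩
      rw [vecMul_fromBlocks]
      funext i
      rcases i with i | i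
      · simpa using congrFun hz i
      · simpa using congrFun hz' i
    · rintro ⟨z, rfl⟩
      exact ⟨⟨z ∘ Sum.inl, by funext i; simp [vecMul_fromBlocks]⟩,
        ⟨z ∘ Sum.inr, by funext i; simp [vecMul_fromBlocks]⟩⟩

theorem pen_blocks (A : Matrix U U ℤ) (B : Matrix V V ℤ) :
    pen (fromBlocks A 0 0 B) = fromBlocks (pen A) 0 0 (pen B) := by
  ext1 (u | u) (v | v) <;> simp [pen, one_apply]

theorem isPot_blk (hB : Base) {o : U → ℕ} (ho : Injective o) {β : ℕ} (hβ : ∀ u, o u < β)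
    {A : Matrix U U ℤ} {ι : U → G} (hι : Pres (pen A) ι) :
    IsPot β (G := G') fun V _ _ oV B κ => pt (G × G') (U ⊕ V) (Sum.elim o oV) (fromBlocks A 0 0 B)
      (Sum.elim (fun u => (ι u, (0 : G'))) fun v => (0, κ v)) := by
  intro V W _ _ _ _ oV oW R S κ h1 h2 b1 b2 hκ
  have l1 : ∀ u v, o u < oV v := fun u v => (hβ u).trans_le (b1 v)
  have l2 : ∀ u w, o u < oW w := fun u w => (hβ u).trans_le (b2 w)
  have e1 : fromBlocks A 0 0 S * fromBlocks (1 : Matrix U U ℤ) 0 0 R = fromBlocks A 0 0 (S * R) := by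
    simp [fromBlocks_multiply]
  have e2 : fromBlocks (1 : Matrix U U ℤ) 0 0 R * fromBlocks A 0 0 S = fromBlocks A 0 0 (R * S) := by
    simp [fromBlocks_multiply]
  have := hB.pt_isPot (G × G') 0 _ _ (Sum.elim o oV) (Sum.elim o oW) (fromBlocks 1 0 0 R)
    (fromBlocks A 0 0 S) (Sum.elim (fun u => (ι u, (0 : G'))) fun v => (0, κ v))
    (ho.sumElim h1 fun u v => (l1 u v).ne) (ho.sumElim h2 fun u v => (l2 u v).ne)
    (fun _ => Nat.zero_le _) (fun _ => Nat.zero_le _) (by rw [e1, pen_blocks]; exact hι.sum hκ)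
  rw [e1, e2] at this
  have e3 : pull (fromBlocks (1 : Matrix U U ℤ) 0 0 R)
      (Sum.elim (fun u => (ι u, (0 : G'))) fun v => (0, κ v)) =
      Sum.elim (fun u => (ι u, (0 : G'))) fun v => (0, pull R κ v) := by
    funext i
    rcases i with i | i <;> ext <;>
      simp [pull, Fintype.sum_sum_type, one_apply, apply_ite C, ite_smul, Prod.fst_sum,
        Prod.snd_sum]
  rw [e3] at this
  exact (funext fun k => (hB.f_sum k ho h1 h2 l1 l2 A R S).symm).trans this

theorem One.blocks {P : Matrix U U ℤ[X]} {Q : Matrix V V ℤ[X]} (h : One P) (h' : One Q) :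
    One (fromBlocks P 0 0 Q) := by
  rintro (u | u) (v | v)
  exacts [by simp [h u], by simp, by simp, by simp [h' u]]

theorem model (hB : Base) (e : V → s) (he : Injective e) {dg : s → ℤ[X]}
    (h0 : ∀ i, (dg i).coeff 0 = 1) :
    ∃ (G₀ : Type) (_ : AddCommGroup G₀) (_ : Module ℤ[X] G₀) (o : s → ℕ) (β : ℕ)
      (oV : V → ℕ) (ξ₀ : s → G₀), Injective o ∧ Injective oV ∧ (∀ v, β ≤ oV v) ∧
      ∀ (G₁ : Type) [AddCommGroup G₁] [Module ℤ[X] G₁], ∃ p : PT G₁, IsPot β p ∧
      ∀ (Q : Matrix s s ℤ[X]) (κ : s → G₀ × G₁) (P : Matrix V V ℤ[X]) (ξ : V → G₁), One P →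
        Pres P ξ → (∀ u v, Q (e u) (e v) = P u v) →
        (∀ x y, (∀ v, e v ≠ x) ∨ (∀ v, e v ≠ y) → Q x y = diagonal dg x y) →
        (∀ v, κ (e v) = (0, ξ v)) → (∀ x, (∀ v, e v ≠ x) → κ x = (ξ₀ x, 0)) →
        One Q ∧ Pres Q κ ∧ pn o Q κ = pp p oV P ξ := by
  let U := {x : s // ∀ v, e v ≠ x}
  let P₀ : Matrix U U ℤ[X] := diagonal fun u => dg u.1
  have o0 : One P₀ := fun u v => by
    simp only [P₀, diagonal_apply]
    split_ifs <;> simp [h0]
  obtain ⟨G₀, _, _, ξU, hU⟩ := hB.tr.pres_ex U P₀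
  have hE : Bijective (Sum.elim Subtype.val e : U ⊕ V → s) := by
    refine ⟨Subtype.val_injective.sumElim he fun u v c => u.2 v c.symm, fun x => ?_⟩
    by_cases c : ∀ v, e v ≠ x
    · exact ⟨Sum.inl ⟨x, c⟩, rfl⟩
    · obtain ⟨v, hv⟩ := not_forall.1 c
      exact ⟨Sum.inr v, not_not.1 hv⟩
  let E : U ⊕ V ≃ s := Equiv.ofBijective _ hE
  let L₀ := dgr P₀
  let β := (univ.sup (rk0 U) + 1) * (L₀ + 1)
  have d0 : Dg (L₀ + 1) P₀ := (dg_dgr _).mono (Nat.le_succ _)
  have hβ : ∀ q, rkL (rk0 U) (L₀ + 1) q < β := fun q => by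
    have := Nat.mul_le_mul_right (L₀ + 1) (le_sup (f := rk0 U) (mem_univ q.1))
    have h2 := q.2.2
    simp only [rkL, β, add_mul]
    omega
  have hβ' : ∀ u, rk0 U u < β := fun u =>
    (le_rkL' (b := rk0 U u) (o := fun _ : Unit => rk0 U u) (fun _ => le_rfl)
      ((), (0 : Fin (L₀ + 1)))).trans_lt (hβ (u, 0))
  let oV : V → ℕ := fun v => β + rk0 V v
  have iV : Injective oV := fun u v c => rk0_inj (Nat.add_left_cancel c)
  have i2 : Injective (Sum.elim (rk0 U) oV) := rk0_inj.sumElim iV fun u v c => by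
    have := hβ' u
    simp only [oV] at c
    omega
  refine ⟨G₀, inferInstance, inferInstance, Sum.elim (rk0 U) oV ∘ E.symm, β, oV,
    fun x => if c : ∀ v, e v ≠ x then ξU ⟨x, c⟩ else 0, i2.comp E.symm.injective, iV,
    fun v => Nat.le_add_right _ _, fun G₁ _ _ => ⟨_,
      isPot_blk hB (rkL_inj rk0_inj _) hβ (hB.pres_lv o0 d0 hU),
      fun Q κ P ξ o1 x1 q1 q2 k1 k2 => ?_⟩⟩
  have eQ : Q.submatrix E E = fromBlocks P₀ 0 0 P := by
    ext1 (u | u) (v | v)
    · exact (q2 _ _ (Or.inl u.2)).trans (by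
        change diagonal dg u.1 v.1 = _
        simp only [P₀, diagonal_apply, fromBlocks_apply₁₁, Subtype.val_inj])
    · exact (q2 _ _ (Or.inl u.2)).trans (diagonal_apply_ne _ fun c => u.2 v c.symm)
    · exact (q2 _ _ (Or.inr v.2)).trans (diagonal_apply_ne _ fun c => v.2 u c)
    · exact q1 u v
  have eκ : κ ∘ E = Sum.elim (fun u => (ξU u, (0 : G₁))) fun v => (0, ξ v) := by
    funext i
    rcases i with u | v
    · exact (k2 _ u.2).trans (by simp only [dif_pos u.2]; rfl)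
    · exact k1 v
  have x2 := hU.sum x1
  have o2 := o0.blocks o1
  have oQ : One Q := fun x y => by
    have := o2 (E.symm x) (E.symm y)
    rw [← eQ] at this
    simpa using this
  have xQ : Pres Q κ := by
    have := x2.equiv E.symm
    rw [← eQ, ← eκ, submatrix_submatrix, Function.comp_assoc, E.self_comp_symm] at this
    exact this
  refine ⟨oQ, xQ, ?_⟩
  rw [oQ.pn, pp_src hB (hB.pt_isPot _ 0) E E.injective i2 (i2.comp E.symm.injective)
    (fun _ => Nat.zero_le _) (fun _ => Nat.zero_le _) (fun u v => by simp) oQ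
    (fun w w' c => absurd (E.apply_symm_apply w') (c _)) xQ (xQ.equiv E), eQ, eκ]
  let L := L₀ + dgr P
  have d1 : Dg (L + 1) P := (dg_dgr _).mono (by omega)
  have d2 : Dg (L + 1) (fromBlocks P₀ 0 0 P) := by
    rintro (u | u) (v | v)
    exacts [(d0 u v).trans (by omega), by simp, by simp, d1 u v]
  rw [pp_eq hB (hB.pt_isPot _ 0) i2 (fun _ => Nat.zero_le _) o2 d2 x2,
    pp_eq hB (isPot_blk hB (rkL_inj rk0_inj _) hβ (hB.pres_lv o0 d0 hU)) iV
      (fun v => Nat.le_add_right _ _) o1 d1 x1, ppL, ppL]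
  let F : (U × Fin (L₀ + 1)) ⊕ (V × Fin (L + 1)) → (U ⊕ V) × Fin (L + 1) :=
    Sum.elim (fun q => (Sum.inl q.1, Fin.castLE (by omega) q.2)) fun q => (Sum.inr q.1, q.2)
  have hF : Injective F := by
    rintro (q | q) (r | r) c <;> simp only [F, Sum.elim_inl, Sum.elim_inr, Prod.mk.injEq] at c
    · rw [Prod.ext (Sum.inl_injective c.1) (Fin.castLE_injective _ c.2)]
    · simp at c
    · simp at c
    · rw [Prod.ext (Sum.inr_injective c.1) c.2]
  have lt : ∀ q r, rkL (rk0 U) (L₀ + 1) q < rkL oV (L + 1) r := fun q r =>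
    (hβ q).trans_le (le_rkL' (fun v => Nat.le_add_right _ _) r)
  have := (hB.pt_isPot (G₀ × G₁) 0).src' hB ((rkL_inj rk0_inj (L₀ + 1)).sumElim
    (rkL_inj iV (L + 1)) fun q r => (lt q r).ne) (fun _ => Nat.zero_le _) _ _ F
    (rkL (Sum.elim (rk0 U) oV) (L + 1)) (lin (L + 1) (1 - fromBlocks P₀ 0 0 P)) (fun q => q.2) _ rfl
    hF (rkL_inj i2 _) (fun _ => Nat.zero_le _) ?_ ?_ (hB.pres_lv o2 d2 x2)
  · rw [this]
    congr 1
    · have z : ∀ i : Fin (L₀ + 1), Fin.castLE (show L₀ + 1 ≤ L + 1 by omega) i = 0 ↔ i = 0 :=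
        fun i => by rw [Fin.ext_iff, Fin.ext_iff]; rfl
      ext (q | q) (r | r) <;> simp [lin, F, one_apply, z]
    · funext i
      rcases i with q | q <;> simp [lv, F]
  · rintro (q | q) (r | r) <;> simp only [F, Sum.elim_inl, Sum.elim_inr]
    · simp [rkL_le]
    · refine iff_of_true (lt q r).le (rkL_le.2 (Or.inl ?_))
      have := hβ' q.1
      simp only [Sum.elim_inl, Sum.elim_inr, oV]
      omega
    · refine iff_of_false (not_le.2 (lt r q)) fun c => ?_
      have := hβ' r.1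
      have := rkL_le.1 c
      simp only [Sum.elim_inl, Sum.elim_inr, oV] at this
      omega
    · simp [rkL_le]
  · rintro ⟨w, i⟩ ⟨w' | w', j⟩ hw c
    · have hj : L₀ < j := not_le.1 fun d => hw (Sum.inl (w', ⟨j, by omega⟩)) rfl
      simp only [lin, of_apply] at c
      split_ifs at c with c1 c2
      · refine absurd (coeff_eq_zero_of_natDegree_lt ?_) c
        rcases w with w | w
        · have := d0.one_sub w w'
          simp only [Matrix.sub_apply, one_apply, Sum.inl.injEq, fromBlocks_apply₁₁] at this ⊢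
          omega
        · simp
      · refine ⟨?_, by simp only; omega⟩
        rintro (q | q) d <;> simp only [F, Sum.elim_inl, Sum.elim_inr, Prod.mk.injEq,
          Fin.ext_iff, Fin.val_castLE] at d
        · have := q.2.2
          omega
        · simp [← d.1] at c2
      · exact absurd rfl c
    · exact absurd rfl (hw (Sum.inr (w', j)))

end Pool.Agent.MP_993212_an.H16
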