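import Pool.Agent.MP_993212_an.H16.Spec

/-! Counting closed paths. -/

namespace Pool.Agent.MP_993212_an.H16

open Matrix Finset Function

variable {V W : Type} [Fintype V] [DecidableEq V] [Fintype W] [DecidableEq W]

theorem cnt_trace_aux {K : Type} [CommSemiring K] (A : Matrix V V K) (n : ℕ) (M : Matrix V V K) :
    ∑ v : Fin (n + 1) → V, (∏ i : Fin n, A (v i.castSucc) (v i.succ)) * M (v (Fin.last n)) (v 0) =
      trace (A ^ n * M) := by
  induction n generalizing M with
  | zero =>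
    rw [pow_zero, Matrix.one_mul, trace, ← (Equiv.funUnique (Fin 1) V).symm.sum_comp]
    simp
  | succ n ih =>
    rw [pow_succ, Matrix.mul_assoc, ← ih (A * M),
      ← (Fin.snocEquiv fun _ : Fin (n + 2) => V).sum_comp, Fintype.sum_prod_type, sum_comm]
    refine sum_congr rfl fun u _ => ?_
    rw [Matrix.mul_apply, mul_sum]
    refine sum_congr rfl fun x _ => ?_
    have h0 : (0 : Fin (n + 2)) = Fin.castSucc 0 := rfl
    rw [Fin.prod_univ_castSucc, h0]
    simp only [Fin.snocEquiv_apply, Fin.succ_castSucc, Fin.snoc_castSucc, Fin.succ_last,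
      Fin.snoc_last, mul_assoc]

theorem cnt_trace {K : Type} [CommSemiring K] (A : Matrix V V K) (d : ℕ) [NeZero d] :
    trace (A ^ d) = ∑ v : ZMod d → V, ∏ i, A (v i) (v (i + 1)) := by
  obtain ⟨n, rfl⟩ := Nat.exists_eq_succ_of_ne_zero (NeZero.ne d)
  rw [pow_succ, ← cnt_trace_aux]
  change _ = ∑ v : Fin (n + 1) → V, ∏ i : Fin (n + 1), A (v i) (v (i + 1))
  refine sum_congr rfl fun v _ => ?_
  rw [Fin.prod_univ_castSucc, Fin.last_add_one]
  simp only [Fin.coeSucc_eq_succ]

/-- the edges of `R * S` from `a` to `b` -/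
def cntT (R : Matrix V W ℕ) (S : Matrix W V ℕ) (a b : V) : Finset (Ed V W) :=
  univ.biUnion fun w => {a} ×ˢ {w} ×ˢ range (R a w) ×ˢ range (S w b)

omit [Fintype V] in
theorem cnt_mem_T {R : Matrix V W ℕ} {S : Matrix W V ℕ} {a b : V} {x : Ed V W} :
    x ∈ cntT R S a b ↔ x.1 = a ∧ x.2.2.1 < R a x.2.1 ∧ x.2.2.2 < S x.2.1 b := by
  simp only [cntT, mem_biUnion, mem_univ, true_and, mem_product, mem_singleton, mem_range]
  constructor
  · rintro ⟨w, h1, rfl, h2⟩
    exact ⟨h1, h2⟩
  · rintro ⟨h1, h2⟩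
    exact ⟨_, h1, rfl, h2⟩

omit [Fintype V] in
theorem cnt_card_T (R : Matrix V W ℕ) (S : Matrix W V ℕ) (a b : V) :
    (cntT R S a b).card = (R * S) a b := by
  rw [cntT, card_biUnion, Matrix.mul_apply]
  · simp
  · intro w _ w' _ h
    rw [Function.onFun, disjoint_left]
    intro x h1 h2
    simp only [mem_product, mem_singleton] at h1 h2
    exact h (h1.2.1.symm.trans h2.2.1)

theorem cnt_card_cyc (R : Matrix V W ℕ) (S : Matrix W V ℕ) (d : ℕ) [NeZero d] :
    (cyc d R S).card = trace ((R * S) ^ d) := by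
  rw [cnt_trace, card_eq_sum_card_fiberwise (f := fun z i => (z i).1) (t := univ)
    (fun _ _ => mem_coe.2 (mem_univ _))]
  refine sum_congr rfl fun v _ => ?_
  have : ((cyc d R S).filter fun z => (fun i => (z i).1) = v) =
      Fintype.piFinset fun i => cntT R S (v i) (v (i + 1)) := by
    ext z
    simp only [mem_filter, mem_cyc, Fintype.mem_piFinset, cnt_mem_T]
    constructor
    · rintro ⟨h, rfl⟩ i
      exact ⟨rfl, h i⟩
    · intro h
      refine ⟨fun i => ?_, funext fun i => (h i).1⟩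
      rw [(h i).1, (h (i + 1)).1]
      exact (h i).2
  rw [this, Fintype.card_piFinset]
  simp only [cnt_card_T]

theorem cnt_iter {E : Type} {d : ℕ} (z : ZMod d → E) (n : ℕ) :
    (rot (1 : ZMod d))^[n] z = rot (n : ZMod d) z := by
  induction n with
  | zero =>
    funext i
    simp [rot]
  | succ n ih =>
    rw [iterate_succ_apply', ih]
    funext i
    simp only [rot, Nat.cast_succ]
    congr 1
    ring

theorem cnt_per {E : Type} {d : ℕ} (z : ZMod d → E) (n : ℕ) :
    rot (n : ZMod d) z = z ↔ minimalPeriod (rot (1 : ZMod d)) z ∣ n := by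
  rw [← isPeriodicPt_iff_minimalPeriod_dvd, IsPeriodicPt, IsFixedPt, cnt_iter]

theorem cnt_fiber (R : Matrix V W ℕ) (S : Matrix W V ℕ) (d e : ℕ) [NeZero d] [NeZero e]
    (h : e ∣ d) : (prim e R S).card =
      ((cyc d R S).filter fun z => minimalPeriod (rot (1 : ZMod d)) z = e).card := by
  have hs : Surjective (ZMod.castHom h (ZMod e)) := ZMod.castHom_surjective h
  set φ : (ZMod e → Ed V W) → ZMod d → Ed V W := fun y i => y (ZMod.castHom h (ZMod e) i) with hφ
  have hinj : Injective φ := fun y y' e => hs.injective_comp_right e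
  have hrot : ∀ y (n : ℕ), rot (n : ZMod d) (φ y) = φ (rot (n : ZMod e) y) := by
    intro y n
    funext i
    simp only [hφ, rot, map_add, map_natCast]
  have hcyc : ∀ y, φ y ∈ cyc d R S ↔ y ∈ cyc e R S := by
    intro y
    simp only [mem_cyc, hφ, map_add, map_one]
    exact (hs.forall (p := fun j => (y j).2.2.1 < R (y j).1 (y j).2.1 ∧
      (y j).2.2.2 < S (y j).2.1 (y (j + 1)).1)).symm
  have hper : ∀ y, minimalPeriod (rot (1 : ZMod d)) (φ y) = e ↔ ∀ j, rot j y = y → j = 0 := by
    intro y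
    constructor
    · intro h1 j hj
      obtain ⟨n, rfl⟩ := ZMod.natCast_zmod_surjective j
      have h2 : minimalPeriod (rot (1 : ZMod d)) (φ y) ∣ n := by rw [← cnt_per, hrot, hj]
      rwa [ZMod.natCast_eq_zero_iff, ← h1]
    · intro h1
      apply Nat.dvd_antisymm
      · rw [← cnt_per, hrot, ZMod.natCast_self]
        congr 1
        funext i
        simp [rot]
      · rw [← ZMod.natCast_eq_zero_iff]
        apply h1
        apply hinj
        rw [← hrot, cnt_per]
  refine card_nbij φ ?_ hinj.injOn ?_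
  · intro y hy
    have hy' := mem_filter.1 (mem_coe.1 hy)
    exact mem_coe.2 (mem_filter.2 ⟨(hcyc y).2 hy'.1, (hper y).2 hy'.2⟩)
  · intro z hz
    obtain ⟨h1, h2⟩ := mem_filter.1 (mem_coe.1 hz)
    have e1 : φ (fun j : ZMod e => z (j.val : ZMod d)) = z := by
      funext i
      have h3 : rot ((e * (i.val / e) : ℕ) : ZMod d) z = z := by
        rw [cnt_per, h2]
        exact Dvd.intro _ rfl
      have h4 := congrFun h3 ((i.val % e : ℕ) : ZMod d)
      simp only [rot] at h4
      rw [← Nat.cast_add, Nat.mod_add_div, ZMod.natCast_zmod_val] at h4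
      simp only [hφ]
      rw [h4, ZMod.castHom_apply, ZMod.cast_eq_val, ZMod.val_natCast]
    refine ⟨fun j : ZMod e => z (j.val : ZMod d),
      mem_coe.2 (mem_filter.2 ⟨(hcyc _).1 ?_, (hper _).1 ?_⟩), e1⟩
    · rwa [e1]
    · rwa [e1]

/-- the number of primitive words of each length -/
def cntP (R : Matrix V W ℕ) (S : Matrix W V ℕ) : ℕ → ℤ
  | 0 => 0
  | n + 1 => (prim (n + 1) R S).card

theorem cnt_sum (R : Matrix V W ℕ) (S : Matrix W V ℕ) (d : ℕ) (hd : 0 < d) :
    ∑ e ∈ d.divisors, cntP R S e = ((trace ((R * S) ^ d) : ℕ) : ℤ) := by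
  have : NeZero d := ⟨hd.ne'⟩
  rw [← cnt_card_cyc, card_eq_sum_card_fiberwise (f := minimalPeriod (rot (1 : ZMod d)))
    (t := d.divisors)]
  · push_cast
    refine sum_congr rfl fun e he => ?_
    obtain ⟨n, rfl⟩ := Nat.exists_eq_succ_of_ne_zero (Nat.pos_of_mem_divisors he).ne'
    rw [← cnt_fiber R S d (n + 1) (Nat.dvd_of_mem_divisors he)]
    rfl
  · intro z _
    refine mem_coe.2 (Nat.mem_divisors.2 ⟨?_, hd.ne'⟩)
    rw [← cnt_per, ZMod.natCast_self]
    funext i
    simp [rot]

theorem cnt_card_prim (R : Matrix V W ℕ) (S : Matrix W V ℕ) (d : ℕ) [NeZero d] :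
    ((prim d R S).card : ℤ) = np d (R * S) := by
  have h := (ArithmeticFunction.sum_eq_iff_sum_mul_moebius_eq (f := cntP R S)
    (g := fun d => ((trace ((R * S) ^ d) : ℕ) : ℤ))).1 (cnt_sum R S) d (NeZero.pos d)
  simp only [Int.cast_id] at h
  rw [Nat.sum_divisorsAntidiagonal'
    (f := fun a b => (ArithmeticFunction.moebius a : ℤ) * ((trace ((R * S) ^ b) : ℕ) : ℤ))] at h
  obtain ⟨n, rfl⟩ := Nat.exists_eq_succ_of_ne_zero (NeZero.ne d)
  exact h.symm

theorem cnt_prim_eq {R R' : Matrix V W ℕ} {S S' : Matrix W V ℕ} (hR : ∀ v w, R' v w ≤ R v w)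
    (hS : ∀ w v, S' w v ≤ S w v) (j : ℕ) [NeZero j]
    (h : trace ((R * S) ^ j) = trace ((R' * S') ^ j)) : prim j R S = prim j R' S' := by
  have : cyc j R' S' = cyc j R S := by
    apply eq_of_subset_of_card_le
    · intro z hz
      rw [mem_cyc] at hz ⊢
      exact fun i => ⟨(hz i).1.trans_le (hR _ _), (hz i).2.trans_le (hS _ _)⟩
    · rw [cnt_card_cyc, cnt_card_cyc, h]
  rw [prim, prim, this]

theorem cnt_np (R : Matrix V W ℕ) (S : Matrix W V ℕ) (k : ℕ) : np k (R * S) = np k (S * R) := by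
  refine sum_congr rfl fun e he => ?_
  obtain ⟨n, rfl⟩ := Nat.exists_eq_succ_of_ne_zero (Nat.pos_of_mem_divisors he).ne'
  rw [H12.trace_step]

theorem cnt_of (h : AbsStmt) : CntStmt where
  card_cyc V W _ _ _ _ R S d _ := cnt_card_cyc R S d
  card_prim V W _ _ _ _ R S d _ := cnt_card_prim R S d
  mono V W _ _ _ _ oV oW R R' S S' k hR hS ht := by
    have h1 : gy oV oW R S k = gy oV oW R' S' k := by
      cases k with
      | zero => rfl
      | succ n => simp only [gy, cnt_prim_eq hR hS (n + 1) (ht _ (by omega) le_rfl)]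
    have h2 : ∀ d, d ≤ k → xi oV oW R S d = xi oV oW R' S' d := by
      intro d hd
      cases d with
      | zero => rfl
      | succ n => simp only [xi, cnt_prim_eq hR hS (n + 1) (ht _ (by omega) hd)]
    simp only [fN, comb, h1, h2 _ (Nat.div_le_self _ _)]
  adm V W _ _ _ _ oV oW R S := by
    refine ⟨⟨gy oV oW R S, xi oV oW R S, fun k hk => ?_, fun d hd => ?_, fun _ => rfl⟩, ?_⟩
    · cases k with
      | zero => rfl
      | succ n =>
        rw [← cnt_card_prim, Nat.cast_eq_zero, card_eq_zero] at hk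
        simp only [gy, gyr, hk, sum_empty]
    · cases d with
      | zero => rfl
      | succ n =>
        rw [← cnt_card_prim, Nat.cast_le] at hd
        simp only [xi, h.small _ _ _ _ _ _ _ _ (free_prim _ R S) hd, Nat.cast_zero]
    · ext v
      change (∃ (g : Val) (x : ℕ → ℤ), (∀ k, np k (R * S) = 0 → g k = 0) ∧
        (∀ d, np d (R * S) ≤ d → x d = 0) ∧ ∀ k, v k = comb k (g k) x) ↔
        ∃ (g : Val) (x : ℕ → ℤ), (∀ k, np k (S * R) = 0 → g k = 0) ∧
          (∀ d, np d (S * R) ≤ d → x d = 0) ∧ ∀ k, v k = comb k (g k) x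
      simp only [cnt_np R S]

end Pool.Agent.MP_993212_an.H16
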