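import Pool.Agent.MP_993212_an.H16.Spec
import Pool.Agent.MP_993212_an.H12.Code

/-! The value of a step is primitive recursive. -/

namespace Pool.Agent.MP_993212_an.H16

open Finset H12

abbrev CodeT : Type := ℕ × ℕ × ℕ × ℕ × ℕ

/-- component `c` of the letter at position `i` of the word with number `x` -/
def codeL (B d x i c : ℕ) : ℕ := x / B ^ (4 * (i % d) + c) % B

def codeK (t : Bool) (B d x i : ℕ) : CodeT :=
  bif t then (codeL B d x i 0, codeL B d x (i + 1) 0, codeL B d x i 1, codeL B d x i 2,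
    codeL B d x i 3)
  else (codeL B d x i 1, codeL B d x (i + 1) 1, codeL B d x (i + 1) 0, codeL B d x i 3,
    codeL B d x (i + 1) 2)

def codeLt (p q : CodeT) : Bool :=
  decide (p.1 < q.1) || (p.1 == q.1 && (decide (p.2.1 < q.2.1) || (p.2.1 == q.2.1 &&
    (decide (p.2.2.1 < q.2.2.1) || (p.2.2.1 == q.2.2.1 && (decide (p.2.2.2.1 < q.2.2.2.1) ||
      (p.2.2.2.1 == q.2.2.2.1 && decide (p.2.2.2.2 < q.2.2.2.2))))))))

def codeW (t : Bool) (B d x i y j : ℕ) : Bool :=
  !all1 d fun a => !(all1 a (fun b => codeK t B d x (b + i) == codeK t B d y (b + j)) &&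
    codeLt (codeK t B d x (a + i)) (codeK t B d y (a + j)))

def codeBase (t : Bool) (B d x i : ℕ) : Bool := all1 d fun j => !codeW t B d x (j + i) x i

def codeCyc (n m : ℕ) (R S : LL) (B d x : ℕ) : Bool :=
  all1 d fun i => decide (codeL B d x i 0 < n) && decide (codeL B d x i 1 < m) &&
    decide (codeL B d x i 2 < ent R (codeL B d x i 0) (codeL B d x i 1)) &&
    decide (codeL B d x i 3 < ent S (codeL B d x i 1) (codeL B d x (i + 1) 0))

def codeAper (B d x : ℕ) : Bool :=
  all1 d fun j => j == 0 ||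
    !all1 d fun i => all1 4 fun c => codeL B d x (i + j) c == codeL B d x i c

def codeOk (n m : ℕ) (R S : LL) (B d x : ℕ) : Bool := codeCyc n m R S B d x && codeAper B d x

def codeG1 (B d x : ℕ) : ℕ :=
  sm d fun j => bif codeBase true B d x 0 && codeBase false B d x j then j else 0

def codeX1 (B d x y : ℕ) : ℕ :=
  sm d fun i => sm d fun j =>
    bif codeBase true B d x 0 && codeBase true B d y 0 && codeW true B d x 0 y 0 &&
      codeBase false B d x i && codeBase false B d y j && codeW false B d y j x i then 1 else 0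

def codeG (n m : ℕ) (R S : LL) (B d : ℕ) : ℕ :=
  sm (B ^ (4 * d)) fun x => bif codeOk n m R S B d x then codeG1 B d x else 0

def codeX (n m : ℕ) (R S : LL) (B d : ℕ) : ℕ :=
  sm (B ^ (4 * d)) fun x => bif codeOk n m R S B d x then
    sm (B ^ (4 * d)) fun y => bif codeOk n m R S B d y then codeX1 B d x y else 0 else 0

def codeB (n m : ℕ) (R S : LL) : ℕ :=
  n + m + sm n (fun v => sm m fun w => ent R v w) + sm m (fun w => sm n fun v => ent S w v) + 1

def codeF (k n m : ℕ) (R S : LL) : ℕ :=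
  codeG n m R S (codeB n m R S) k + k / 2 * sm k fun i =>
    bif k % 2 ^ (i + 1) == 0 then codeX n m R S (codeB n m R S) (k / 2 ^ (i + 1)) else 0

section Prim
variable {α : Type} [Primcodable α]

@[fun_prop] theorem codeP_div {f g : α → ℕ} (hf : Primrec f) (hg : Primrec g) :
    Primrec fun a => f a / g a := Primrec.nat_div.comp hf hg

@[fun_prop] theorem codeP_L {B d x i c : α → ℕ} (hB : Primrec B) (hd : Primrec d)
    (hx : Primrec x) (hi : Primrec i) (hc : Primrec c) :
    Primrec fun a => codeL (B a) (d a) (x a) (i a) (c a) := by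
  unfold codeL; fun_prop

@[fun_prop] theorem codeP_K {t : Bool} {B d x i : α → ℕ} (hB : Primrec B) (hd : Primrec d)
    (hx : Primrec x) (hi : Primrec i) :
    Primrec fun a => codeK t (B a) (d a) (x a) (i a) := by
  unfold codeK; fun_prop

@[fun_prop] theorem codeP_Lt {p q : α → CodeT} (hp : Primrec p) (hq : Primrec q) :
    Primrec fun a => codeLt (p a) (q a) := by
  unfold codeLt; fun_prop

@[fun_prop] theorem codeP_W {t : Bool} {B d x i y j : α → ℕ} (hB : Primrec B) (hd : Primrec d)
    (hx : Primrec x) (hi : Primrec i) (hy : Primrec y) (hj : Primrec j) :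
    Primrec fun a => codeW t (B a) (d a) (x a) (i a) (y a) (j a) := by
  unfold codeW; fun_prop

@[fun_prop] theorem codeP_Base {t : Bool} {B d x i : α → ℕ} (hB : Primrec B) (hd : Primrec d)
    (hx : Primrec x) (hi : Primrec i) :
    Primrec fun a => codeBase t (B a) (d a) (x a) (i a) := by
  unfold codeBase; fun_prop

@[fun_prop] theorem codeP_Cyc {n m B d x : α → ℕ} {R S : α → LL} (hn : Primrec n)
    (hm : Primrec m) (hR : Primrec R) (hS : Primrec S) (hB : Primrec B) (hd : Primrec d)
    (hx : Primrec x) : Primrec fun a => codeCyc (n a) (m a) (R a) (S a) (B a) (d a) (x a) := by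
  unfold codeCyc; fun_prop

@[fun_prop] theorem codeP_Aper {B d x : α → ℕ} (hB : Primrec B) (hd : Primrec d)
    (hx : Primrec x) : Primrec fun a => codeAper (B a) (d a) (x a) := by
  unfold codeAper; fun_prop

@[fun_prop] theorem codeP_Ok {n m B d x : α → ℕ} {R S : α → LL} (hn : Primrec n)
    (hm : Primrec m) (hR : Primrec R) (hS : Primrec S) (hB : Primrec B) (hd : Primrec d)
    (hx : Primrec x) : Primrec fun a => codeOk (n a) (m a) (R a) (S a) (B a) (d a) (x a) := by
  unfold codeOk; fun_prop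

@[fun_prop] theorem codeP_G1 {B d x : α → ℕ} (hB : Primrec B) (hd : Primrec d)
    (hx : Primrec x) : Primrec fun a => codeG1 (B a) (d a) (x a) := by
  unfold codeG1; fun_prop

@[fun_prop] theorem codeP_X1 {B d x y : α → ℕ} (hB : Primrec B) (hd : Primrec d)
    (hx : Primrec x) (hy : Primrec y) : Primrec fun a => codeX1 (B a) (d a) (x a) (y a) := by
  unfold codeX1; fun_prop

@[fun_prop] theorem codeP_G {n m B d : α → ℕ} {R S : α → LL} (hn : Primrec n)
    (hm : Primrec m) (hR : Primrec R) (hS : Primrec S) (hB : Primrec B) (hd : Primrec d) :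
    Primrec fun a => codeG (n a) (m a) (R a) (S a) (B a) (d a) := by
  unfold codeG; fun_prop

@[fun_prop] theorem codeP_X {n m B d : α → ℕ} {R S : α → LL} (hn : Primrec n)
    (hm : Primrec m) (hR : Primrec R) (hS : Primrec S) (hB : Primrec B) (hd : Primrec d) :
    Primrec fun a => codeX (n a) (m a) (R a) (S a) (B a) (d a) := by
  unfold codeX; fun_prop

@[fun_prop] theorem codeP_B {n m : α → ℕ} {R S : α → LL} (hn : Primrec n)
    (hm : Primrec m) (hR : Primrec R) (hS : Primrec S) :
    Primrec fun a => codeB (n a) (m a) (R a) (S a) := by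
  unfold codeB; fun_prop

theorem codeP_F : Primrec fun p : ℕ × ℕ × ℕ × LL × LL =>
    codeF p.1 p.2.1 p.2.2.1 p.2.2.2.1 p.2.2.2.2 := by
  unfold codeF; fun_prop

end Prim

theorem code_sum_rel {Y M : Type} [AddCommMonoid M] (P : Finset Y) (N : ℕ) (p : ℕ → Bool)
    (r : ℕ → Y → Prop) (h1 : ∀ z ∈ P, ∃ x, x < N ∧ p x = true ∧ r x z)
    (h2 : ∀ x, x < N → p x = true → ∃ z ∈ P, r x z)
    (h3 : ∀ x x' z, x < N → x' < N → r x z → r x' z → x = x')
    (h4 : ∀ x z z', r x z → r x z' → z = z') (F : ℕ → M) (G : Y → M)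
    (h : ∀ x, ∀ z ∈ P, r x z → F x = G z) :
    (∑ x : Fin N, bif p x then F x else 0) = ∑ z ∈ P, G z := by
  choose e he using h1
  rw [Fin.sum_univ_eq_sum_range (fun x => bif p x then F x else 0)]
  have : ∀ x, (bif p x then F x else 0) = if p x = true then F x else 0 := fun x => by
    cases p x <;> simp
  simp only [this]
  rw [← sum_filter]
  symm
  refine sum_bij e (fun z hz => ?_) (fun z hz z' hz' e1 => ?_) (fun x hx => ?_) fun z hz => ?_
  · simp [(he z hz).1, (he z hz).2.1]
  · exact h4 _ _ _ (he z hz).2.2 (e1 ▸ (he z' hz').2.2)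
  · simp only [mem_filter, mem_range] at hx
    obtain ⟨z, hz, h5⟩ := h2 x hx.1 hx.2
    exact ⟨z, hz, h3 _ _ _ (he z hz).1 hx.1 (he z hz).2.2 h5⟩
  · exact (h _ z hz (he z hz).2.2).symm

theorem code_dig_ex (B T : ℕ) (g : ℕ → ℕ) (h : ∀ t, t < T → g t < B) :
    ∃ x, x < B ^ T ∧ ∀ t, t < T → x / B ^ t % B = g t := by
  refine ⟨(finFunctionFinEquiv fun t : Fin T => (⟨g t, h t t.2⟩ : Fin B) : Fin _), Fin.is_lt _,
    fun t ht => ?_⟩
  rw [← finFunctionFinEquiv_symm_apply_val _ ⟨t, ht⟩, Equiv.symm_apply_apply]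

theorem code_dig_ext (B T x y : ℕ) (hx : x < B ^ T) (hy : y < B ^ T)
    (h : ∀ t, t < T → x / B ^ t % B = y / B ^ t % B) : x = y := by
  have : (⟨x, hx⟩ : Fin _) = ⟨y, hy⟩ := by
    refine finFunctionFinEquiv.symm.injective (funext fun t => Fin.ext ?_)
    rw [finFunctionFinEquiv_symm_apply_val, finFunctionFinEquiv_symm_apply_val]
    exact h t t.2
  exact congrArg Fin.val this

theorem code_bij (d : ℕ) [NeZero d] : Function.Bijective fun i : Fin d => ((i : ℕ) : ZMod d) := by
  cases d with
  | zero => exact absurd rfl (NeZero.ne 0)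
  | succ d =>
    have : (fun i : Fin (d + 1) => ((i : ℕ) : ZMod (d + 1))) = id :=
      funext fun i => Fin.cast_val_eq_self i
    rw [this]
    exact Function.bijective_id

theorem code_ite {M : Type} {b : Bool} {p : Prop} {_ : Decidable p} {x y : M}
    (h : b = true ↔ p) : (bif b then x else y) = if p then x else y := by
  rw [Bool.cond_eq_ite]
  exact if_congr h rfl rfl

def codeTo (p : CodeT) : Key := mkKey p.1 p.2.1 p.2.2.1 p.2.2.2.1 p.2.2.2.2

theorem codeTo_inj {p q : CodeT} : codeTo p = codeTo q ↔ p = q := Iff.rfl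

theorem codeTo_lt {p q : CodeT} : codeTo p < codeTo q ↔ codeLt p q = true := by
  simp [codeTo, mkKey, codeLt, Prod.Lex.toLex_lt_toLex]

variable {n m B d : ℕ} {R S : LL}

/-- component `c` of a letter -/
def codeC (e : Ed (Fin n) (Fin m)) : ℕ → ℕ
  | 0 => e.1
  | 1 => e.2.1
  | 2 => e.2.2.1
  | _ => e.2.2.2

theorem codeC_ext {e e' : Ed (Fin n) (Fin m)} :
    (∀ c : Fin 4, codeC e c = codeC e' c) ↔ e = e' := by
  refine ⟨fun h => ?_, fun h _ => by rw [h]⟩
  exact Prod.ext (Fin.ext (h 0)) (Prod.ext (Fin.ext (h 1)) (Prod.ext (h 2) (h 3)))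

/-- the number `x` codes the word `z` -/
def CodeRep (B x : ℕ) (z : ZMod d → Ed (Fin n) (Fin m)) : Prop :=
  ∀ i c : ℕ, c < 4 → codeL B d x i c = codeC (z (i : ZMod d)) c

/-- the two keys -/
def codeKey (t : Bool) (z : ZMod d → Ed (Fin n) (Fin m)) : Lex (Fin d → Key) :=
  bif t then keyA Fin.val Fin.val z else keyB Fin.val Fin.val z

variable {x y : ℕ} {z u : ZMod d → Ed (Fin n) (Fin m)}

theorem CodeRep.key (h : CodeRep B x z) (t : Bool) (i : ℕ) (a : Fin d) :
    ofLex (codeKey t (rot (i : ZMod d) z)) a = codeTo (codeK t B d x (a + i)) := by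
  have e : ((a : ℕ) : ZMod d) + 1 + i = (((a : ℕ) + i + 1 : ℕ) : ZMod d) := by push_cast; ring
  have e' : ((a : ℕ) : ZMod d) + i = (((a : ℕ) + i : ℕ) : ZMod d) := by push_cast; ring
  cases t
  · simp only [codeKey, cond_false, keyB, ofLex_toLex, rot, codeK, codeTo, e, e',
      h _ 0 (by omega), h _ 1 (by omega), h _ 2 (by omega), h _ 3 (by omega), codeC]
  · simp only [codeKey, cond_true, keyA, ofLex_toLex, rot, codeK, codeTo, e, e',
      h _ 0 (by omega), h _ 1 (by omega), h _ 2 (by omega), h _ 3 (by omega), codeC]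

theorem CodeRep.lt (h : CodeRep B x z) (h' : CodeRep B y u) (t : Bool) (i j : ℕ) :
    codeW t B d x i y j = true ↔
      codeKey t (rot (i : ZMod d) z) < codeKey t (rot (j : ZMod d) u) := by
  have : codeKey t (rot (i : ZMod d) z) < codeKey t (rot (j : ZMod d) u) ↔
      ∃ a : Fin d, (∀ b < a, ofLex (codeKey t (rot (i : ZMod d) z)) b =
        ofLex (codeKey t (rot (j : ZMod d) u)) b) ∧
        ofLex (codeKey t (rot (i : ZMod d) z)) a < ofLex (codeKey t (rot (j : ZMod d) u)) a :=
    Iff.rfl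
  rw [this, codeW, Bool.not_eq_true', ← Bool.not_eq_true, all1_iff]
  simp only [h.key, h'.key, codeTo_inj, codeTo_lt, not_forall, Bool.not_eq_true', Bool.not_eq_false,
    Bool.and_eq_true, all1_iff, beq_iff_eq]
  refine exists_congr fun a => and_congr_left fun _ => ⟨fun k b hb => k ⟨b, hb⟩, fun k b => ?_⟩
  exact k ⟨b, b.2.trans a.2⟩ b.2

variable [NeZero d]

theorem CodeRep.base (h : CodeRep B x z) (t : Bool) (i : ℕ) :
    codeBase t B d x i = true ↔ IsBase rot (codeKey t) (rot (i : ZMod d) z) := by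
  rw [codeBase, all1_iff, IsBase, (code_bij d).2.forall]
  refine forall_congr' fun j => ?_
  rw [Bool.not_eq_true', ← Bool.not_eq_true, h.lt h]
  have : rot ((j : ℕ) : ZMod d) (rot (i : ZMod d) z) = rot (((j : ℕ) + i : ℕ) : ZMod d) z := by
    funext a
    simp [rot, add_assoc]
  rw [this]
  exact not_lt (α := Lex (Fin d → Key))

omit [NeZero d] in
theorem code_rot0 : rot ((0 : ℕ) : ZMod d) z = z := by
  funext a
  simp [rot]

theorem CodeRep.cyc (h : CodeRep B x z) :
    codeCyc n m R S B d x = true ↔ z ∈ cyc d (toM n m R) (toM m n S) := by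
  rw [codeCyc, all1_iff, mem_cyc, (code_bij d).2.forall]
  refine forall_congr' fun i => ?_
  simp [h _ 0 (by omega), h _ 1 (by omega), h _ 2 (by omega), h _ 3 (by omega), codeC, toM]

theorem CodeRep.aper (h : CodeRep B x z) :
    codeAper B d x = true ↔ ∀ j, rot j z = z → j = 0 := by
  rw [codeAper, all1_iff, (code_bij d).2.forall]
  refine forall_congr' fun j => ?_
  have e1 : ((j : ℕ) : ZMod d) = 0 ↔ (j : ℕ) = 0 := by
    rw [ZMod.natCast_eq_zero_iff]
    exact ⟨fun k => Nat.eq_zero_of_dvd_of_lt k j.2, fun k => k ▸ dvd_zero d⟩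
  have e2 : (all1 d fun i => all1 4 fun c => codeL B d x (i + j) c == codeL B d x i c) = true ↔
      rot ((j : ℕ) : ZMod d) z = z := by
    rw [all1_iff, funext_iff, (code_bij d).2.forall]
    refine forall_congr' fun i => ?_
    rw [all1_iff, ← codeC_ext]
    refine forall_congr' fun c => ?_
    rw [beq_iff_eq, h _ _ c.2, h _ _ c.2, rot, Nat.cast_add]
  rw [e1, ← e2, Bool.or_eq_true, beq_iff_eq, Bool.not_eq_true', ← Bool.not_eq_true]
  tauto

theorem CodeRep.ok (h : CodeRep B x z) :
    codeOk n m R S B d x = true ↔ z ∈ prim d (toM n m R) (toM m n S) := by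
  rw [codeOk, Bool.and_eq_true, h.cyc, h.aper, prim, mem_filter]

theorem code_sum {M : Type} [AddCommMonoid M] (F : ℕ → M) (G : (ZMod d → Ed (Fin n) (Fin m)) → M)
    (h : ∀ x z, CodeRep (codeB n m R S) x z → F x = G z) :
    (∑ x : Fin (codeB n m R S ^ (4 * d)),
      bif codeOk n m R S (codeB n m R S) d x then F x else 0) =
      ∑ z ∈ prim d (toM n m R) (toM m n S), G z := by
  have hd : 0 < d := Nat.pos_of_ne_zero (NeZero.ne d)
  refine code_sum_rel _ _ _ (CodeRep (codeB n m R S)) (fun z hz => ?_) (fun x _ hx => ?_)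
    (fun x x' z hx hx' h1 h2 => ?_) (fun x z z' h1 h2 => ?_) F G fun x z _ => h x z
  · have hb : ∀ (i : ZMod d) (c : ℕ), codeC (z i) c < codeB n m R S := by
      intro i c
      have h1 := (mem_filter.1 (mem_filter.1 hz).1).1
      simp only [Fintype.mem_piFinset, mem_product, mem_univ, mem_range, true_and] at h1
      have h2 := h1 i
      have h3 := (z i).1.2
      have h4 := (z i).2.1.2
      simp only [toM, Matrix.of_apply] at h2
      simp only [codeB, sm_eq]
      match c with
      | 0 => simp only [codeC]; omega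
      | 1 => simp only [codeC]; omega
      | 2 => simp only [codeC]; omega
      | c + 3 => simp only [codeC]; omega
    obtain ⟨x, h1, h2⟩ := code_dig_ex (codeB n m R S) (4 * d)
      (fun t => codeC (z ((t / 4 : ℕ) : ZMod d)) (t % 4)) fun t _ => hb _ _
    have h3 : CodeRep (codeB n m R S) x z := by
      intro i c hc
      have := Nat.mod_lt i hd
      rw [codeL, h2 _ (by omega), show (4 * (i % d) + c) / 4 = i % d by omega,
        show (4 * (i % d) + c) % 4 = c by omega, ZMod.natCast_mod]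
    exact ⟨x, h1, h3.ok.2 hz, h3⟩
  · have h1 := hx
    rw [codeOk, Bool.and_eq_true, codeCyc, all1_iff] at h1
    have h2 : ∀ i : ZMod d, codeL (codeB n m R S) d x i.val 0 < n ∧
        codeL (codeB n m R S) d x i.val 1 < m := by
      intro i
      have := h1.1 ⟨i.val, ZMod.val_lt i⟩
      simp only [Bool.and_eq_true, decide_eq_true_eq] at this
      exact this.1.1
    have h3 : CodeRep (d := d) (codeB n m R S) x fun i => (⟨_, (h2 i).1⟩, ⟨_, (h2 i).2⟩,
        codeL (codeB n m R S) d x i.val 2, codeL (codeB n m R S) d x i.val 3) := by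
      intro i c hc
      interval_cases c <;> simp [codeC, codeL, ZMod.val_natCast]
    exact ⟨_, h3.ok.1 hx, h3⟩
  · refine code_dig_ext _ _ _ _ hx hx' fun t ht => ?_
    have e := (h1 (t / 4) (t % 4) (by omega)).trans (h2 (t / 4) (t % 4) (by omega)).symm
    rwa [codeL, codeL, Nat.mod_eq_of_lt (show t / 4 < d by omega), Nat.div_add_mod] at e
  · funext i
    obtain ⟨i, rfl⟩ := (code_bij d).2 i
    exact codeC_ext.1 fun c => (h1 i c c.2).symm.trans (h2 i c c.2)

theorem codeG_eq : (codeG n m R S (codeB n m R S) d : ZMod d) =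
    gyr rot (prim d (toM n m R) (toM m n S)) (keyA Fin.val Fin.val) (keyB Fin.val Fin.val) := by
  rw [codeG, sm_eq, gyr, Nat.cast_sum, ← code_sum fun x => (codeG1 (codeB n m R S) d x : ZMod d)]
  · refine sum_congr rfl fun x _ => ?_
    cases codeOk n m R S (codeB n m R S) d x <;> simp
  · intro x z h
    rw [codeG1, sm_eq, Nat.cast_sum]
    refine Fintype.sum_bijective _ (code_bij d) _ _ fun j => ?_
    have h1 := h.base true 0
    have h2 := h.base false j
    rw [code_rot0] at h1
    rw [Bool.apply_cond (Nat.cast : ℕ → ZMod d), Nat.cast_zero]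
    refine code_ite ?_
    rw [Bool.and_eq_true, h1, h2]
    rfl

theorem codeX_eq : codeX n m R S (codeB n m R S) d =
    invs rot (prim d (toM n m R) (toM m n S)) (keyA Fin.val Fin.val) (keyB Fin.val Fin.val) := by
  rw [codeX, sm_eq, invs]
  refine code_sum (fun x => sm (codeB n m R S ^ (4 * d)) fun y =>
    bif codeOk n m R S (codeB n m R S) d y then codeX1 (codeB n m R S) d x y else 0) _
    fun x z h => ?_
  rw [sm_eq]
  refine code_sum (fun y => codeX1 (codeB n m R S) d x y) _ fun y u h' => ?_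
  rw [codeX1, sm_eq]
  refine Fintype.sum_bijective _ (code_bij d) _ _ fun i => ?_
  rw [sm_eq]
  refine Fintype.sum_bijective _ (code_bij d) _ _ fun j => ?_
  have h1 := h.base true 0
  have h2 := h'.base true 0
  have h3 := h.lt h' true 0 0
  rw [code_rot0] at h1 h2
  rw [code_rot0, code_rot0] at h3
  refine code_ite ?_
  simp only [Bool.and_eq_true, h1, h2, h3, h.base false i, h'.base false j, h'.lt h false j i,
    and_assoc]
  rfl

theorem codeStmt : CodeStmt := by
  refine ⟨_, codeP_F, fun k n m R S => ?_⟩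
  have hg : (codeG n m R S (codeB n m R S) k : ZMod k) =
      gy Fin.val Fin.val (toM n m R) (toM m n S) k := by
    cases k with
    | zero => simp [codeG, codeG1, sm, gy]
    | succ k => exact codeG_eq
  have hx : ∀ d, (codeX n m R S (codeB n m R S) d : ℤ) =
      xi Fin.val Fin.val (toM n m R) (toM m n S) d := by
    intro d
    cases d with
    | zero => simp [codeX, codeX1, sm, xi]
    | succ d => rw [codeX_eq]; rfl
  simp only [codeF, fN, comb, sm_eq, Nat.cast_add, Nat.cast_mul, Nat.cast_sum, hg]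
  congr 2
  rw [Fin.sum_univ_eq_sum_range (fun i => ((bif k % 2 ^ (i + 1) == 0 then
    codeX n m R S (codeB n m R S) (k / 2 ^ (i + 1)) else 0 : ℕ) : ZMod k)),
    ← Finset.Ico_add_one_right_eq_Icc, sum_Ico_eq_sum_range, Nat.add_sub_cancel]
  refine sum_congr rfl fun i _ => ?_
  rw [add_comm 1 i, Bool.cond_eq_ite, Nat.cast_ite, Nat.cast_zero, ← hx, Int.cast_natCast]
  refine if_congr ?_ rfl rfl
  rw [beq_iff_eq, Nat.dvd_iff_mod_eq_zero]

end Pool.Agent.MP_993212_an.H16
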