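import Pool.Agent.MP_993212_an.H16.RR

/-! Conjugation of a linear model by a constant matrix, level by level. -/

set_option linter.unusedSectionVars false

namespace Pool.Agent.MP_993212_an.H16

open Matrix Polynomial Finset Function

variable {U V W : Type} [Fintype U] [DecidableEq U] [Fintype V] [DecidableEq V] [Fintype W]
  [DecidableEq W] {G : Type} [AddCommGroup G] [Module ℤ[X] G]

def rkL (o : V → ℕ) (L : ℕ) : V × Fin L → ℕ := fun p => o p.1 * L + p.2

theorem rkL_le {o : V → ℕ} {L : ℕ} {p q : V × Fin L} :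
    rkL o L p ≤ rkL o L q ↔ o p.1 < o q.1 ∨ o p.1 = o q.1 ∧ (p.2 : ℕ) ≤ q.2 := by
  have h1 := p.2.2
  have h2 := q.2.2
  unfold rkL
  rcases lt_trichotomy (o p.1) (o q.1) with h | h | h
  · have := Nat.mul_le_mul_right L (Nat.succ_le_of_lt h)
    rw [Nat.succ_mul] at this
    exact iff_of_true (by omega) (Or.inl h)
  · rw [h]
    omega
  · have := Nat.mul_le_mul_right L (Nat.succ_le_of_lt h)
    rw [Nat.succ_mul] at this
    exact iff_of_false (by omega) (by omega)

theorem rkL_inj {o : V → ℕ} (h : Injective o) (L : ℕ) : Injective (rkL o L) := fun p q e => by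
  have h1 := rkL_le.1 e.le
  have h2 := rkL_le.1 e.ge
  exact Prod.ext (h (by omega)) (Fin.ext (by omega))

theorem le_rkL {o : V → ℕ} {b L : ℕ} (h : ∀ v, b * 1 ≤ o v) (p : V × Fin L) : b ≤ rkL o L p := by
  have := Nat.mul_le_mul (h p.1) (show 1 ≤ L from p.2.pos)
  unfold rkL
  omega

/-- the linear model of a family of coefficients -/
def linc (L : ℕ) (c : ℕ → Matrix V V ℤ) : Matrix (V × Fin L) (V × Fin L) ℤ :=
  of fun p q => if (p.2 : ℕ) = 0 then c (q.2 + 1) p.1 q.1
    else if p.1 = q.1 ∧ (p.2 : ℕ) = q.2 + 1 then 1 else 0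

def cof (M : Matrix V V ℤ[X]) (d : ℕ) : Matrix V V ℤ := M.map fun x => x.coeff d

theorem lin_eq (L : ℕ) (M : Matrix V V ℤ[X]) : lin L M = linc L (cof M) := rfl

def dgl (L : ℕ) (g : Matrix V V ℤ) (i : ℕ) : Matrix (V × Fin L) (V × Fin L) ℤ :=
  of fun p q => if p.2 = q.2 then (if (p.2 : ℕ) = i then g else 1) p.1 q.1 else 0

def mix (g : Matrix V V ℤ) (c : ℕ → Matrix V V ℤ) (i : ℕ) : ℕ → Matrix V V ℤ :=
  fun d => if d ≤ i then c d * g else c d

theorem dgl_mul {L : ℕ} (g : Matrix V V ℤ) (i : ℕ) (B : Matrix (V × Fin L) (V × Fin L) ℤ)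
    (p q : V × Fin L) : (dgl L g i * B) p q =
      if (p.2 : ℕ) = i then ∑ w, g p.1 w * B (w, p.2) q else B p q := by
  rw [mul_apply, Fintype.sum_prod_type]
  simp only [dgl, of_apply, ite_mul, zero_mul, sum_ite_eq, mem_univ, if_true]
  split_ifs
  · rfl
  · simp [one_apply]

theorem mul_dgl {L : ℕ} (g : Matrix V V ℤ) (i : ℕ) (B : Matrix (V × Fin L) (V × Fin L) ℤ)
    (p q : V × Fin L) : (B * dgl L g i) p q =
      if (q.2 : ℕ) = i then ∑ w, B p (w, q.2) * g w q.1 else B p q := by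
  rw [mul_apply, Fintype.sum_prod_type]
  simp only [dgl, of_apply, mul_ite, mul_zero, sum_ite_eq', mem_univ, if_true]
  split_ifs
  · rfl
  · simp [one_apply]

theorem cv_zero (L : ℕ) (g : Matrix V V ℤ) (c : ℕ → Matrix V V ℤ) :
    dgl L g 0 * linc L (mix g c 0) = linc L fun d => g * c d := by
  ext p q
  rw [dgl_mul]
  by_cases h : (p.2 : ℕ) = 0
  · simp [linc, h, mix, mul_apply]
  · simp [linc, h]

theorem cv_step (L : ℕ) (g : Matrix V V ℤ) (c : ℕ → Matrix V V ℤ) (i : ℕ) :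
    linc L (mix g c i) * dgl L g i = dgl L g (i + 1) * linc L (mix g c (i + 1)) := by
  ext p q
  rw [dgl_mul, mul_dgl]
  by_cases h : (p.2 : ℕ) = 0
  · rw [if_neg (show ¬(p.2 : ℕ) = i + 1 by omega)]
    by_cases h2 : (q.2 : ℕ) = i
    · simp [linc, h, h2, mix, mul_apply]
    · have : (q.2 : ℕ) + 1 ≤ i ↔ (q.2 : ℕ) + 1 ≤ i + 1 := by omega
      simp only [linc, of_apply, h, h2, if_true, if_false, mix, this]
  · by_cases h2 : (q.2 : ℕ) = i
    · by_cases h3 : (p.2 : ℕ) = i + 1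
      · simp [linc, h2, h3]
      · simp [linc, h, h2, h3]
    · by_cases h3 : (p.2 : ℕ) = i + 1
      · simp [linc, h2, h3, Ne.symm h2]
      · simp [linc, h, h2, h3]

theorem cv_end (L : ℕ) (g : Matrix V V ℤ) (c : ℕ → Matrix V V ℤ) :
    dgl L g L * linc L (mix g c L) = linc L fun d => c d * g := by
  ext p q
  rw [dgl_mul, if_neg p.2.2.ne]
  simp only [linc, of_apply, mix, if_pos (Nat.succ_le_of_lt q.2.2)]

/-- the value of the conjugation chain -/
noncomputable def cv (L : ℕ) (o : V → ℕ) (g : Matrix V V ℤ) (c : ℕ → Matrix V V ℤ) : Val :=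
  ∑ i ∈ range L, fv (rkL o L) (rkL o L) (dgl L g i) (linc L (mix g c i))

/-- the classes of the states of a linear model -/
noncomputable def lv (L : ℕ) (ξ : V → G) : V × Fin L → G := fun q => (X : ℤ[X]) ^ (q.2 : ℕ) • ξ q.1

theorem cv_pot (hB : Base) {b : ℕ} {p : PT G} (hp : IsPot b p) (L : ℕ) {o : V → ℕ}
    (h1 : Injective o) (h2 : ∀ q, b ≤ rkL o L q) (g : Matrix V V ℤ) (c : ℕ → Matrix V V ℤ)
    {ξ : V → G} (hξ : Pres (pen (linc L fun d => c d * g)) (lv L ξ)) :
    p _ (rkL o L) (linc L fun d => c d * g) (lv L ξ) -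
      p _ (rkL o L) (linc L fun d => g * c d) (lv L (pull g ξ)) = cv L o g c := by
  let κ : ℕ → V × Fin L → G := fun i q =>
    if (q.2 : ℕ) < i then lv L ξ q else lv L (pull g ξ) q
  have hκ : ∀ i, pull (dgl L g i) (κ (i + 1)) = κ i := by
    intro i
    funext q
    rw [pull, Fintype.sum_prod_type]
    simp only [dgl, of_apply, apply_ite C, map_zero, ite_smul, zero_smul, sum_ite_eq, mem_univ,
      if_true, κ]
    by_cases h : (q.2 : ℕ) = i
    · simp only [h, if_true, Nat.lt_succ_self, lt_irrefl, if_false, lv, pull, smul_sum]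
      exact sum_congr rfl fun w _ => smul_comm _ _ _
    · have : (q.2 : ℕ) < i + 1 ↔ (q.2 : ℕ) < i := by omega
      simp [h, this, one_apply, apply_ite C, ite_smul]
  have key : ∀ n i, i + n = L → Pres (pen (dgl L g i * linc L (mix g c i))) (κ i) ∧
      p _ (rkL o L) (linc L fun d => c d * g) (lv L ξ) -
        p _ (rkL o L) (dgl L g i * linc L (mix g c i)) (κ i) =
      ∑ j ∈ Ico i L, fv (rkL o L) (rkL o L) (dgl L g j) (linc L (mix g c j)) := by
    intro n
    induction n with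
    | zero =>
      intro i hi
      obtain rfl : i = L := hi
      have : κ i = lv i ξ := funext fun q => if_pos q.2.2
      rw [cv_end, this]
      exact ⟨hξ, by simp⟩
    | succ n ih =>
      intro i hi
      obtain ⟨a1, a2⟩ := ih (i + 1) (by omega)
      rw [← cv_step] at a1 a2
      have e := hp _ _ _ _ _ _ _ (rkL_inj h1 L) (rkL_inj h1 L) h2 h2 a1
      have e2 := hB.tr.pres_pull _ _ G _ _ _ a1
      rw [hκ] at e e2
      refine ⟨e2, ?_⟩
      rw [sum_eq_sum_Ico_succ_bot (show i < L by omega), ← a2, e]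
      abel
  have := (key L 0 (by omega)).2
  rw [cv_zero] at this
  rw [cv, range_eq_Ico, ← this]
  rfl

theorem linc_cg {n L : ℕ} {c c' : ℕ → Matrix V V ℤ} (h : ∀ d, Cg n (c d) (c' d)) :
    Cg n (linc L c) (linc L c') := fun p q => by
  simp only [linc, of_apply]
  split_ifs
  exacts [h _ _ _, Int.ModEq.refl _, Int.ModEq.refl _]

theorem cv_congr (k L : ℕ) (o : V → ℕ) {g g' : Matrix V V ℤ} {c c' : ℕ → Matrix V V ℤ}
    (h1 : Cg (md k) g g') (h2 : ∀ d, Cg (md k) (c d) (c' d)) :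
    cv L o g c k = cv L o g' c' k := by
  rw [cv, cv, Finset.sum_apply, Finset.sum_apply]
  refine sum_congr rfl fun i _ => f_congr _ _ (fun p q => ?_) (linc_cg fun d => ?_)
  · simp only [dgl, of_apply]
    split_ifs
    exacts [h1 _ _, Int.ModEq.refl _, Int.ModEq.refl _]
  · unfold mix
    split_ifs
    exacts [(h2 d).mul h1, h2 d]

theorem linc_nonneg {L : ℕ} {c : ℕ → Matrix V V ℤ} (h : ∀ d u v, 0 ≤ c d u v) (p q : V × Fin L) :
    0 ≤ linc L c p q := by
  simp only [linc, of_apply]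
  split_ifs
  exacts [h _ _ _, zero_le_one, le_rfl]

theorem linc_le {L : ℕ} {c c' : ℕ → Matrix V V ℤ} (h : ∀ d u v, c d u v ≤ c' d u v)
    (p q : V × Fin L) : linc L c p q ≤ linc L c' p q := by
  simp only [linc, of_apply]
  split_ifs
  exacts [h _ _ _, le_rfl, le_rfl]

theorem cv_trace (L : ℕ) (g : Matrix V V ℤ) (c : ℕ → Matrix V V ℤ) {j : ℕ} (hj : 1 ≤ j) (i : ℕ) :
    trace ((dgl L g i * linc L (mix g c i)) ^ j) = trace (linc L (fun d => g * c d) ^ j) := by
  induction i with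
  | zero => rw [cv_zero]
  | succ i ih => rw [← cv_step, trace_pow_comm _ _ hj, ih]

theorem cv_mono (hB : Base) (k L : ℕ) {o : V → ℕ} (ho : Injective o) {g g' : Matrix V V ℤ}
    {c c' : ℕ → Matrix V V ℤ} (g0 : ∀ u v, 0 ≤ g' u v) (g1 : ∀ u v, g' u v ≤ g u v)
    (c0 : ∀ d u v, 0 ≤ c' d u v) (c1 : ∀ d u v, c' d u v ≤ c d u v)
    (ht : ∀ j, 1 ≤ j → j ≤ k →
      trace (linc L (fun d => g * c d) ^ j) = trace (linc L (fun d => g' * c' d) ^ j)) :
    cv L o g c k = cv L o g' c' k := by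
  rw [cv, cv, Finset.sum_apply, Finset.sum_apply]
  refine sum_congr rfl fun i _ => hB.f_mono k (rkL_inj ho L) (rkL_inj ho L) (fun p q => ?_)
    (linc_nonneg fun d u v => ?_) (fun p q => ?_) (linc_le fun d u v => ?_) fun j a b => ?_
  · simp only [dgl, of_apply]
    split_ifs
    · exact g0 _ _
    · rw [one_apply]
      split_ifs <;> simp
    · exact le_rfl
  · unfold mix
    split_ifs
    exacts [sum_nonneg fun w _ => mul_nonneg (c0 _ _ _) (g0 _ _), c0 _ _ _]
  · simp only [dgl, of_apply]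
    split_ifs
    exacts [g1 _ _, le_rfl, le_rfl]
  · unfold mix
    split_ifs
    exacts [sum_le_sum fun w _ => mul_le_mul (c1 _ _ _) (g1 _ _) (g0 _ _)
      ((c0 _ _ _).trans (c1 _ _ _)), c1 _ _ _]
  · rw [cv_trace _ _ _ a, cv_trace _ _ _ a, ht j a b]

/-- heights of the states of a linear model -/
def hL {k : ℕ} (h : V → ZMod k) (L : ℕ) : V × Fin L → ZMod k := fun q => h q.1 + ((q.2 : ℕ) : ZMod k)

theorem linc_graded {k L : ℕ} {h : V → ZMod k} {c : ℕ → Matrix V V ℤ}
    (hc : ∀ d u v, c d u v ≠ 0 → h v + d = h u) (p q : V × Fin L) (e : linc L c p q ≠ 0) :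
    hL h L q = hL h L p - 1 := by
  simp only [linc, of_apply] at e
  unfold hL
  split_ifs at e with h1 h2
  · rw [h1, ← hc _ _ _ e]
    push_cast
    ring
  · rw [h2.1, h2.2]
    push_cast
    ring
  · exact absurd rfl e

theorem cv_lev (hB : Base) (k : ℕ) [NeZero k] (L : ℕ) {o : V → ℕ} (ho : Injective o)
    (h : V → ZMod k) {g : Matrix V V ℤ} {c : ℕ → Matrix V V ℤ} (hg : ∀ u v, g u v ≠ 0 → h v = h u)
    (hc : ∀ d u v, c d u v ≠ 0 → h v + d = h u) :
    cv L o g c k = pot k (rkL o L) (hL h L) (linc L fun d => g * c d) -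
      pot k (rkL o L) (hL h L) (linc L fun d => c d * g) := by
  rw [← cv_zero, ← cv_end, cv, Finset.sum_apply,
    ← sum_range_sub' (fun i => pot k (rkL o L) (hL h L) (dgl L g i * linc L (mix g c i)))]
  refine sum_congr rfl fun i _ => ?_
  rw [← cv_step]
  refine hB.f_lev k (rkL_inj ho L) (rkL_inj ho L) _ _ (fun p q e => ?_)
    (linc_graded fun d u v e => ?_)
  · simp only [dgl, of_apply] at e
    unfold hL
    split_ifs at e with h1 h2
    · rw [h1, hg _ _ e]
    · rw [h1, show p.1 = q.1 from by_contra fun c => e (one_apply_ne c)]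
    · exact absurd rfl e
  · unfold mix at e
    split_ifs at e
    · obtain ⟨w, -, hw⟩ := exists_ne_zero_of_sum_ne_zero e
      rw [hg _ _ (right_ne_zero_of_mul hw), hc _ _ _ (left_ne_zero_of_mul hw)]
    · exact hc _ _ _ e

theorem pot_linc_zero (k : ℕ) [NeZero k] (L : ℕ) (o : V → ℕ) (h : V → ZMod k)
    (c : ℕ → Matrix V V ℤ) (v : ZMod k → V × Fin L) (h1 : ∀ i, rkL o L (v 0) ≤ rkL o L (v i))
    (h2 : ∏ i, linc L c (v i) (v (i + 1)) ≠ 0) : ((v 0).2 : ℕ) = 0 := by
  by_contra e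
  have h3 := prod_ne_zero_iff.1 h2 0 (mem_univ _)
  simp only [linc, of_apply, e, if_false] at h3
  split_ifs at h3 with h4
  · have := rkL_le.1 (h1 (0 + 1))
    rw [h4.1] at this
    omega
  · exact h3 rfl

end Pool.Agent.MP_993212_an.H16
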