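import Pool.Agent.MP_993212_an.H16.Spec4

/-! The value of a general delay from the value of unit delays. -/

namespace Pool.Agent.MP_993212_an.H16

open Matrix Polynomial Function H15

namespace DelayAux

variable {s : Type} [DecidableEq s] {δ ε : s → ℕ} {P P' P'' : Matrix s s ℤ[X]} {dg : s → ℤ[X]}
  {ν : ℕ}

theorem xp_ne (n : ℕ) : (X : ℤ[X]) ^ n ≠ 0 := pow_ne_zero n X_ne_zero

theorem dly_ex (h : ∀ i j, X ^ (2 * ν + 2) ∣ (P - diagonal dg) i j) (hδ : ∀ i, δ i ≤ ν) :
    ∃ P' : Matrix s s ℤ[X], ∀ i j, P' i j * X ^ δ j = X ^ δ i * P i j := by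
  have : ∀ i j, ∃ q : ℤ[X], q * X ^ δ j = X ^ δ i * P i j := fun i j => by
    by_cases e : i = j
    · exact ⟨P i j, by rw [e, mul_comm]⟩
    · have h1 := h i j
      rw [Matrix.sub_apply, diagonal_apply_ne _ e, sub_zero] at h1
      obtain ⟨q, hq⟩ := ((pow_dvd_pow X (by have := hδ j; omega : δ j ≤ 2 * ν + 2)).trans
        h1).mul_left (X ^ δ i)
      exact ⟨q, by rw [hq, mul_comm]⟩
  choose q hq using this
  exact ⟨Matrix.of q, hq⟩

theorem dly_bound (h : ∀ i j, X ^ (2 * ν + 2) ∣ (P - diagonal dg) i j) (hδ : ∀ i, δ i ≤ ν)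
    (d : ∀ i j, P' i j * X ^ δ j = X ^ δ i * P i j) (i j : s) :
    X ^ (ν + 2) ∣ (P' - diagonal dg) i j := by
  have h1 := h i j
  have h2 := d i j
  by_cases e : i = j
  · subst e
    rw [mul_comm] at h2
    rw [Matrix.sub_apply, mul_left_cancel₀ (xp_ne _) h2]
    exact (pow_dvd_pow X (by omega)).trans h1
  · rw [Matrix.sub_apply, diagonal_apply_ne _ e, sub_zero] at h1 ⊢
    refine (mul_dvd_mul_iff_right (xp_ne (δ j))).1 ?_
    rw [h2, ← pow_add]
    exact ((pow_dvd_pow X (by have := hδ j; omega)).trans h1).mul_left _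

omit [DecidableEq s] in
theorem dly_diff (d : ∀ i j, P' i j * X ^ δ j = X ^ δ i * P i j)
    (d' : ∀ i j, P'' i j * X ^ (ε + δ) j = X ^ (ε + δ) i * P i j) (i j : s) :
    P'' i j * X ^ ε j = X ^ ε i * P' i j := by
  refine mul_right_cancel₀ (xp_ne (δ j)) ?_
  have := d' i j
  simp only [Pi.add_apply, pow_add] at this
  rw [mul_assoc, this, mul_assoc, mul_assoc, d]

theorem dly_diag (i j : s) : diagonal dg i j * X ^ δ j = X ^ δ i * diagonal dg i j := by
  by_cases e : i = j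
  · rw [e, mul_comm]
  · rw [diagonal_apply_ne _ e, zero_mul, mul_zero]

omit [DecidableEq s] in
theorem coeff_eq {n : ℕ} (h : ∀ i j, X ^ (n + 1) ∣ (P - P') i j) (i j : s) :
    (P i j).coeff 0 = (P' i j).coeff 0 := by
  have := X_dvd_iff.1 ((dvd_pow_self X n.succ_ne_zero).trans (h i j))
  rwa [Matrix.sub_apply, coeff_sub, sub_eq_zero] at this

end DelayAux

open DelayAux in
theorem delay_of (hB : Base) (h1 : DLocStmt) (h2 : DValStmt) : DelayStmt := by
  intro s G _ _ _ _ ν o P ξ dg per δ h3 ho oP hξ hP hdg hper hδ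
  have oD : One (diagonal dg) := fun u v => by rw [← coeff_eq hP, oP]
  have o' : ∀ {δ : s → ℕ} {P' : Matrix s s ℤ[X]}, (∀ i, δ i ≤ ν) → Dly δ P P' → One P' :=
    fun a d u v => by rw [coeff_eq (dly_bound hP a d), oD]
  have key : ∀ (n : ℕ) (δ : s → ℕ) (P' : Matrix s s ℤ[X]), ∑ i, δ i = n →
      (∀ i, per i = 0 → δ i = 0) → (∀ i, δ i ≤ ν) → Dly δ P P' →
      Pres P' (fun i => (X : ℤ[X]) ^ δ i • ξ i) ∧ ∀ k, 1 ≤ k → k ≤ ν →
        pn o P' (fun i => (X : ℤ[X]) ^ δ i • ξ i) k - pn o P ξ k =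
          -∑ i ∈ Finset.univ.filter fun i => per i = k, (δ i : ZMod k) := by
    intro n
    induction n with
    | zero =>
      intro δ P' e _ _ d
      obtain rfl : δ = 0 := funext fun i => Finset.sum_eq_zero_iff.1 e i (Finset.mem_univ i)
      obtain rfl : P' = P := Matrix.ext fun i j => by simpa using d i j
      simpa using hξ
    | succ n ih =>
      intro δ P' e a b d
      obtain ⟨i, -, hi⟩ := Finset.exists_ne_zero_of_sum_ne_zero (e.trans_ne n.succ_ne_zero)
      obtain ⟨ε, rfl⟩ := exists_add_of_le (show (Pi.single i 1 : s → ℕ) ≤ δ from fun j => by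
        rw [Pi.single_apply]
        split_ifs with c
        · exact c ▸ Nat.one_le_iff_ne_zero.2 hi
        · exact Nat.zero_le _)
      have b1 : ∀ j, ε j ≤ ν := fun j => le_of_add_le_right (b j)
      obtain ⟨P₁, d1⟩ := dly_ex hP b1
      obtain ⟨p1, v1⟩ := ih ε P₁ (by
        simp only [Pi.add_apply, Finset.sum_add_distrib, Finset.sum_pi_single', Finset.mem_univ,
          if_true] at e
        omega) (fun j c => (Nat.add_eq_zero_iff.1 (a j c)).2) b1 d1
      have d2 : Dly (Pi.single i 1) P₁ P' := dly_diff d1 d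
      have e1 : (fun j => (X : ℤ[X]) ^ (Pi.single i 1 + ε : s → ℕ) j • ξ j) =
          fun j => (X : ℤ[X]) ^ (Pi.single i 1 : s → ℕ) j • (X : ℤ[X]) ^ ε j • ξ j :=
        funext fun j => by rw [Pi.add_apply, pow_add, mul_smul]
      rw [e1]
      refine ⟨h1.pres s G i P₁ P' _ (o' b1 d1) (o' b d) d2 p1, fun k k1 k2 => ?_⟩
      have pi : per i ≠ 0 := fun c => hi (a i c)
      obtain ⟨G', _, _, o₁, κ, ho₁, hκ, v2⟩ := h2 s dg i (per i) (Nat.one_le_iff_ne_zero.2 pi)
        (fun j => by simpa using oD j j) (hdg i pi)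
      have sm : ∀ {δ : s → ℕ} {P' : Matrix s s ℤ[X]}, (∀ i, δ i ≤ ν) → Dly δ P P' →
          Sm (k + 1) P' (diagonal dg) := fun a d => sm_iff.2 fun u v =>
        (pow_dvd_pow X (by omega)).trans (dly_bound hP a d u v)
      have v3 := h1.loc s G G' k o i P₁ P' _ _ _ κ (by omega) h3 ho (o' b1 d1) (o' b d) oD oD d2
        dly_diag (sm b1 d1) (sm b d) p1 hκ
      have v4 := pn_rank hB (k := k) (by omega) h3 ho ho₁ oD.inv0 oD.inv0 (sm_refl _ _)
        (h1.pres s G' i _ _ κ oD oD dly_diag hκ) hκ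
      have v5 : ∑ j ∈ Finset.univ.filter fun j => per j = k,
          (((Pi.single i 1 + ε : s → ℕ) j : ℕ) : ZMod k) = -(if k = per i then -1 else 0) +
            ∑ j ∈ Finset.univ.filter fun j => per j = k, (ε j : ZMod k) := by
        simp only [Pi.add_apply, Nat.cast_add, Finset.sum_add_distrib]
        congr 1
        rw [← Nat.cast_sum, Finset.sum_pi_single']
        by_cases c : k = per i
        · simp [c]
        · simp [c, Ne.symm c]
      rw [v5]
      linear_combination v1 k k1 k2 + v3 + v4 + v2 k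
  obtain ⟨P', d⟩ := dly_ex hP hδ
  obtain ⟨p, v⟩ := key _ δ P' rfl hper hδ d
  exact ⟨P', d, o' hδ d, p, dly_bound hP hδ d, v⟩

end Pool.Agent.MP_993212_an.H16
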