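import Pool.Agent.MP_993212_an.H12.Basic

/-! Shared definitions: chains of elementary steps with the product of the left factors,
realised isomorphisms of dimension modules, presentations, linear models. -/

namespace Pool.Agent.MP_993212_an.H16

open Matrix Polynomial

section Chain

variable {K : Type} [CommSemiring K]

/-- chains of steps `R * S ↦ S * R` over `K`, with the product of the left factors -/
inductive Ch {V : Type} [Fintype V] [DecidableEq V] (A : Matrix V V K) :
    ∀ {W : Type} [Fintype W] [DecidableEq W], Matrix W W K → Matrix V W K → Prop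
  | refl : Ch A A 1
  | step {W X : Type} [Fintype W] [DecidableEq W] [Fintype X] [DecidableEq X]
      (R : Matrix W X K) (S : Matrix X W K) {T : Matrix V W K} :
      Ch A (R * S) T → Ch A (S * R) (T * R)

variable {U V W : Type} [Fintype U] [DecidableEq U] [Fintype V] [DecidableEq V] [Fintype W]
  [DecidableEq W]

theorem Ch.single (R : Matrix V W K) (S : Matrix W V K) : Ch (R * S) (S * R) R := by
  simpa using Ch.step R S (Ch.refl (A := R * S))

theorem Ch.trans {A : Matrix U U K} {B : Matrix V V K} {C : Matrix W W K} {T : Matrix U V K}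
    {T' : Matrix V W K} (h1 : Ch A B T) (h2 : Ch B C T') : Ch A C (T * T') := by
  induction h2 with
  | refl => simpa using h1
  | step R S _ ih => rw [← Matrix.mul_assoc]; exact Ch.step R S ih

theorem Ch.inter {A : Matrix V V K} {B : Matrix W W K} {T : Matrix V W K} (h : Ch A B T) :
    A * T = T * B := by
  induction h with
  | refl => simp
  | step R S _ ih => rw [← Matrix.mul_assoc, ih]; simp only [Matrix.mul_assoc]

theorem Ch.inter_pow {A : Matrix V V K} {B : Matrix W W K} {T : Matrix V W K} (h : Ch A B T)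
    (n : ℕ) : A ^ n * T = T * B ^ n := H12.pow_inter h.inter n

theorem Ch.rev {A : Matrix V V K} {B : Matrix W W K} {T : Matrix V W K} (h : Ch A B T) :
    ∃ (T' : Matrix W V K) (n : ℕ), Ch B A T' ∧ T * T' = A ^ n ∧ T' * T = B ^ n := by
  induction h with
  | refl => exact ⟨1, 0, Ch.refl, by simp, by simp⟩
  | @step W X _ _ _ _ R S T h ih =>
    obtain ⟨T', n, h1, h2, h3⟩ := ih
    refine ⟨S * T', n + 1, (Ch.single S R).trans h1, ?_, ?_⟩
    · rw [Matrix.mul_assoc, ← Matrix.mul_assoc R, ← Matrix.mul_assoc T, ← h.inter,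
        Matrix.mul_assoc, h2, pow_succ']
    · rw [Matrix.mul_assoc, ← Matrix.mul_assoc T', h3, ← Matrix.mul_assoc,
        ← H12.pow_inter (Matrix.mul_assoc S R S) n, Matrix.mul_assoc, ← pow_succ]

theorem Ch.pow (A : Matrix V V K) (n : ℕ) : Ch A A (A ^ n) := by
  induction n with
  | zero => simpa using Ch.refl
  | succ n ih =>
    have h : Ch A A A := by simpa using Ch.single A (1 : Matrix V V K)
    simpa [pow_succ] using ih.trans h

theorem Ch.map {L : Type} [CommSemiring L] (φ : K →+* L) {A : Matrix V V K} {B : Matrix W W K}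
    {T : Matrix V W K} (h : Ch A B T) : Ch (A.map φ) (B.map φ) (T.map φ) := by
  induction h with
  | refl => rw [Matrix.map_one _ φ.map_zero φ.map_one]; exact Ch.refl
  | step R S _ ih =>
    rw [Matrix.map_mul] at ih
    rw [Matrix.map_mul, Matrix.map_mul]
    exact Ch.step _ _ ih

theorem Ch.sse {A : Matrix V V ℕ} {B : Matrix W W ℕ} {T : Matrix V W ℕ} (h : Ch A B T) :
    H12.SSE A B := by
  induction h with
  | refl => exact H12.SSE.refl A
  | step R S _ ih => exact ih.trans (H12.SSE.step R S)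

theorem exists_ch_of_sse {A : Matrix V V ℕ} {B : Matrix W W ℕ} (h : H12.SSE A B) :
    ∃ T, Ch A B T :=
  H12.SSE.ind (P := fun A B => ∃ T, Ch A B T) (fun R S => ⟨R, Ch.single R S⟩)
    (fun ⟨_, h1⟩ ⟨_, h2⟩ => ⟨_, h1.trans h2⟩) h

end Chain

section Real

variable {U V W : Type} [Fintype U] [DecidableEq U] [Fintype V] [DecidableEq V] [Fintype W]
  [DecidableEq W]

/-- a matrix of natural numbers as an integer matrix -/
def zz {m n : Type} (A : Matrix m n ℕ) : Matrix m n ℤ := A.map (Nat.castRingHom ℤ)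

theorem zz_apply {m n : Type} (A : Matrix m n ℕ) (i : m) (j : n) : zz A i j = (A i j : ℤ) := rfl

omit [DecidableEq V] in
theorem zz_mul {l n : Type} (A : Matrix l V ℕ) (B : Matrix V n ℕ) : zz (A * B) = zz A * zz B :=
  Matrix.map_mul

omit [Fintype V] in
theorem zz_one : zz (1 : Matrix V V ℕ) = 1 := Matrix.map_one _ (map_zero _) (map_one _)

theorem zz_pow (A : Matrix V V ℕ) (n : ℕ) : zz (A ^ n) = zz A ^ n :=
  map_pow (Nat.castRingHom ℤ).mapMatrix A n

theorem zz_inj {m n : Type} {A B : Matrix m n ℕ} (h : zz A = zz B) : A = B :=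
  Matrix.map_injective (f := Nat.castRingHom ℤ) Nat.cast_injective h

/-- `R` agrees, up to powers of `A`, with the product of the left factors of a chain over `ℕ` -/
def Real (A : Matrix V V ℕ) (B : Matrix W W ℕ) (R : Matrix V W ℤ) : Prop :=
  ∃ T : Matrix V W ℕ, Ch A B T ∧ ∃ a b : ℕ, zz A ^ a * R = zz A ^ b * zz T

theorem Ch.real {A : Matrix V V ℕ} {B : Matrix W W ℕ} {T : Matrix V W ℕ} (h : Ch A B T) :
    Real A B (zz T) := ⟨T, h, 0, 0, rfl⟩

theorem Real.refl (A : Matrix V V ℕ) : Real A A 1 := by simpa [zz_one] using (Ch.refl (A := A)).real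

theorem Real.step (R : Matrix V W ℕ) (S : Matrix W V ℕ) : Real (R * S) (S * R) (zz R) :=
  (Ch.single R S).real

theorem Ch.zinter {A : Matrix V V ℕ} {B : Matrix W W ℕ} {T : Matrix V W ℕ} (h : Ch A B T)
    (n : ℕ) : zz A ^ n * zz T = zz T * zz B ^ n := by
  rw [← zz_pow, ← zz_pow, ← zz_mul, ← zz_mul, h.inter_pow]

theorem Real.of_eq {A : Matrix V V ℕ} {B : Matrix W W ℕ} {R R' : Matrix V W ℤ} (h : Real A B R)
    {a b : ℕ} (e : zz A ^ a * R' = zz A ^ b * R) : Real A B R' := by
  obtain ⟨T, h, c, d, h2⟩ := h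
  refine ⟨T, h, c + a, b + d, ?_⟩
  rw [pow_add, Matrix.mul_assoc, e, ← Matrix.mul_assoc, ← pow_add, add_comm c, pow_add,
    Matrix.mul_assoc, h2, ← Matrix.mul_assoc, ← pow_add]

theorem Real.trans {A : Matrix U U ℕ} {B : Matrix V V ℕ} {C : Matrix W W ℕ} {R : Matrix U V ℤ}
    {R' : Matrix V W ℤ} (h1 : Real A B R) (h2 : Real B C R') : Real A C (R * R') := by
  obtain ⟨T, h1, a, b, e1⟩ := h1
  obtain ⟨T', h2, c, d, e2⟩ := h2
  refine ⟨T * T', h1.trans h2, c + a, d + b, ?_⟩
  calc zz A ^ (c + a) * (R * R') = zz A ^ c * (zz A ^ a * R) * R' := by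
        simp only [pow_add, Matrix.mul_assoc]
    _ = zz A ^ b * (zz A ^ c * zz T) * R' := by
        rw [e1, ← Matrix.mul_assoc, ← pow_add, add_comm, pow_add]
        simp only [Matrix.mul_assoc]
    _ = zz A ^ b * (zz T * zz B ^ d) * zz T' := by
        rw [h1.zinter, Matrix.mul_assoc, Matrix.mul_assoc, e2]
        simp only [Matrix.mul_assoc]
    _ = zz A ^ (d + b) * zz (T * T') := by
        rw [← h1.zinter, zz_mul, add_comm, pow_add]
        simp only [Matrix.mul_assoc]

theorem Real.inv {A : Matrix V V ℕ} {B : Matrix W W ℕ} {R : Matrix V W ℤ} {S : Matrix W V ℤ}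
    (h : Real A B R) {a l : ℕ} (e : zz A ^ a * (R * S) = zz A ^ l) : Real B A S := by
  obtain ⟨T, h, c, d, e1⟩ := h
  obtain ⟨T', n, h1, -, h3⟩ := h.rev
  refine ⟨T', h1, a + d + n, c + l, ?_⟩
  have h4 : zz T' * zz T = zz B ^ n := by rw [← zz_mul, h3, zz_pow]
  calc zz B ^ (a + d + n) * S = zz B ^ (a + d) * zz T' * zz T * S := by
        rw [pow_add, ← h4]; simp only [Matrix.mul_assoc]
    _ = zz T' * zz A ^ a * (zz A ^ d * zz T) * S := by
        rw [h1.zinter, pow_add]; simp only [Matrix.mul_assoc]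
    _ = zz T' * zz A ^ c * (zz A ^ a * (R * S)) := by
        rw [← e1, Matrix.mul_assoc (zz T'), ← Matrix.mul_assoc (zz A ^ a), ← pow_add, add_comm,
          pow_add]
        simp only [Matrix.mul_assoc]
    _ = zz B ^ (c + l) * zz T' := by
        rw [e, h1.zinter, pow_add, Matrix.mul_assoc]

theorem Real.sse {A : Matrix V V ℕ} {B : Matrix W W ℕ} {R : Matrix V W ℤ} (h : Real A B R) :
    H12.SSE A B := h.choose_spec.1.sse

theorem exists_real_of_sse {A : Matrix V V ℕ} {B : Matrix W W ℕ} (h : H12.SSE A B) :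
    ∃ R, Real A B R := let ⟨_, h⟩ := exists_ch_of_sse h; ⟨_, h.real⟩

end Real

section Poly

variable {K : Type} {V W : Type} [Fintype V] [DecidableEq V]

/-- the linear model of a polynomial matrix with zero constant term and degree at most `L`;
the state `(v, j)` is `j` steps before `v` -/
def lin [Semiring K] (L : ℕ) (M : Matrix V V K[X]) : Matrix (V × Fin L) (V × Fin L) K :=
  Matrix.of fun p q => if (p.2 : ℕ) = 0 then (M p.1 q.1).coeff (q.2 + 1)
    else if p.1 = q.1 ∧ (p.2 : ℕ) = q.2 + 1 then 1 else 0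

/-- the pencil `1 - t A` -/
noncomputable def pen [CommRing K] (A : Matrix V V K) : Matrix V V K[X] :=
  1 - (X : K[X]) • A.map C

/-- the elements `ξ v` generate the module `G` and the rows of `P` span the relations -/
def Pres [CommRing K] {G : Type} [AddCommGroup G] [Module K[X] G] (P : Matrix V V K[X])
    (ξ : V → G) : Prop :=
  (∀ g : G, ∃ y : V → K[X], ∑ v, y v • ξ v = g) ∧
    ∀ y : V → K[X], ∑ v, y v • ξ v = 0 ↔ ∃ z : V → K[X], y = z ᵥ* P

/-- pull a family of module elements back along a constant matrix -/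
noncomputable def pull [CommRing K] {G : Type} [AddCommGroup G] [Module K[X] G] [Fintype W]
    (R : Matrix V W K) (κ : W → G) : V → G := fun v => ∑ w, (C (R v w) : K[X]) • κ w

/-- some power has all entries positive -/
def Prim (A : Matrix V V ℕ) : Prop := ∃ n, 1 ≤ n ∧ ∀ i j, 0 < (A ^ n) i j

end Poly

end Pool.Agent.MP_993212_an.H16
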