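import Pool.Agent.MP_993212_an.H16.Spec
import Pool.Agent.MP_993212_an.H57.Push

/-! Every shift equivalence over the integers comes from a chain, up to powers. -/

namespace Pool.Agent.MP_993212_an.H16

open Matrix

theorem full_succ {W : Type} [Fintype W] [DecidableEq W] (B : Matrix W W ℤ) (l : ℕ) :
    ∀ {V : Type} [Fintype V] [DecidableEq V] (A : Matrix V V ℤ) (R : Matrix V W ℤ)
      (S : Matrix W V ℤ), A * R = R * B → S * A = B * S → R * S = A ^ (l + 1) →
      S * R = B ^ (l + 1) → ∃ T, Ch A B T ∧ ∃ a b : ℕ, A ^ a * R = A ^ b * T := by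
  induction l with
  | zero =>
    intro V _ _ A R S _ _ h1 h2
    rw [zero_add, pow_one] at h1 h2
    subst h1 h2
    exact ⟨R, Ch.single R S, 0, 0, rfl⟩
  | succ l ih =>
    intro V _ _ A R S h3 h4 h1 h2
    obtain ⟨k, r, s, ρ, σ, e1, e2, e3, e4, e5, e6⟩ := H57.lag_step h1 h2 h3 h4
    obtain ⟨T, hT, a, b, hab⟩ := ih (s * r) ρ σ e5 e6 e3 e4
    have a3 : A * r = r * (s * r) := by rw [← Matrix.mul_assoc, e1]
    have a4 : A * (r * ρ) = r * ρ * B := by
      rw [← Matrix.mul_assoc, a3, Matrix.mul_assoc, e5, Matrix.mul_assoc]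
    have a5 : r * ρ * S = R * S := by
      rw [← e2, Matrix.mul_assoc, ← Matrix.mul_assoc ρ, e3, ← Matrix.mul_assoc,
        ← H12.pow_inter a3, Matrix.mul_assoc, e1, e2, h1, ← pow_succ]
    have a6 : A ^ (l + 2) * R = A ^ (l + 2) * (r * ρ) := by
      rw [H12.pow_inter h3, H12.pow_inter a4, ← h2, ← Matrix.mul_assoc, ← Matrix.mul_assoc, a5]
    refine ⟨r * T, e1 ▸ (Ch.single r s).trans hT, a + (l + 2), l + 2 + b, ?_⟩
    calc A ^ (a + (l + 2)) * R = A ^ (l + 2) * (A ^ a * r * ρ) := by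
          rw [pow_add, Matrix.mul_assoc, a6, ← Matrix.mul_assoc, ← pow_add, add_comm a, pow_add]
          simp only [Matrix.mul_assoc]
      _ = A ^ (l + 2) * (A ^ b * r * T) := by
          rw [H12.pow_inter a3, H12.pow_inter a3, Matrix.mul_assoc, hab, Matrix.mul_assoc]
      _ = A ^ (l + 2 + b) * (r * T) := by
          rw [pow_add _ (l + 2)]
          simp only [Matrix.mul_assoc]

theorem fullStmt : FullStmt := by
  intro V W _ _ _ _ A B R S l h3 h4 h1 h2
  cases l with
  | succ l => exact full_succ B l A R S h3 h4 h1 h2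
  | zero =>
    rw [pow_zero] at h1 h2
    have e1 : A * R * S = A := by rw [Matrix.mul_assoc, h1, Matrix.mul_one]
    have e2 : S * (A * R) = B := by
      rw [← Matrix.mul_assoc, h4, Matrix.mul_assoc, h2, Matrix.mul_one]
    have h := Ch.single (A * R) S
    rw [e1, e2] at h
    exact ⟨A * R, h, 1, 0, by simp⟩

end Pool.Agent.MP_993212_an.H16
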