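import Pool.Agent.MP_993212_an.H16.Spec

/-! The value of a step over the integers, and the potential on presentations. -/

set_option linter.unusedSectionVars false

namespace Pool.Agent.MP_993212_an.H16

open Matrix Polynomial Finset Function

/-- the parts used below -/
structure Base : Prop where
  per : PerN
  tri : TriN
  cnt : CntStmt
  loc : LocStmt
  w : WStmt
  tr : TrStmt

variable {U V W : Type} [Fintype U] [DecidableEq U] [Fintype V] [DecidableEq V] [Fintype W]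
  [DecidableEq W]

theorem md_pos {k : ℕ} (hk : k ≠ 0) : 0 < md k :=
  Nat.mul_pos (Nat.pos_of_ne_zero hk) (Nat.factorial_pos _)

theorem fN_zero (oV : V → ℕ) (oW : W → ℕ) (R : Matrix V W ℕ) (S : Matrix W V ℕ) :
    fN 0 oV oW R S = 0 := by simp [fN, comb, gy]

theorem f_zero (oV : V → ℕ) (oW : W → ℕ) (R : Matrix V W ℤ) (S : Matrix W V ℤ) :
    f 0 oV oW R S = 0 := fN_zero _ _ _ _

/-- congruence of integer matrices -/
def Cg {m n : Type} (c : ℕ) (R R' : Matrix m n ℤ) : Prop := ∀ i j, R i j ≡ R' i j [ZMOD c]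

theorem Cg.refl {m n : Type} (c : ℕ) (R : Matrix m n ℤ) : Cg c R R := fun _ _ => Int.ModEq.refl _

theorem Cg.symm {m n : Type} {c : ℕ} {R R' : Matrix m n ℤ} (h : Cg c R R') : Cg c R' R :=
  fun i j => (h i j).symm

theorem Cg.trans {m n : Type} {c : ℕ} {R R' R'' : Matrix m n ℤ} (h : Cg c R R') (h' : Cg c R' R'') :
    Cg c R R'' := fun i j => (h i j).trans (h' i j)

theorem Cg.mul {m n : Type} {c : ℕ} {R R' : Matrix m V ℤ} {S S' : Matrix V n ℤ} (h : Cg c R R')
    (h' : Cg c S S') : Cg c (R * S) (R' * S') := fun i j => by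
  rw [mul_apply, mul_apply]
  exact Int.ModEq.sum fun v _ => (h i v).mul (h' v j)

theorem zz_res_apply {m n : Type} {c : ℕ} (hc : 0 < c) (R : Matrix m n ℤ) (i : m) (j : n) :
    zz (res c R) i j = R i j % c := by
  rw [zz_apply, res, map_apply, Int.toNat_of_nonneg (Int.emod_nonneg _ (by omega))]

theorem cg_res {m n : Type} {c : ℕ} (hc : 0 < c) (R : Matrix m n ℤ) : Cg c (zz (res c R)) R :=
  fun i j => by rw [zz_res_apply hc]; exact Int.mod_modEq _ _

theorem res_ne {m n : Type} {c : ℕ} {R : Matrix m n ℤ} {i : m} {j : n} (h : res c R i j ≠ 0) :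
    R i j ≠ 0 := fun e => h (by simp [res, e])

theorem f_congr {k : ℕ} (oV : V → ℕ) (oW : W → ℕ) {R R' : Matrix V W ℤ} {S S' : Matrix W V ℤ}
    (h : Cg (md k) R R') (h' : Cg (md k) S S') : f k oV oW R S = f k oV oW R' S' := by
  have e1 : res (md k) R = res (md k) R' := by
    ext i j
    simp only [res, map_apply]
    rw [h i j]
  have e2 : res (md k) S = res (md k) S' := by
    ext i j
    simp only [res, map_apply]
    rw [h' i j]
  rw [f, f, e1, e2]

theorem exists_zz {m n : Type} {R : Matrix m n ℤ} (h : ∀ i j, 0 ≤ R i j) : ∃ R', zz R' = R :=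
  ⟨R.map Int.toNat, by
    ext i j
    rw [zz_apply, map_apply, Int.toNat_of_nonneg (h i j)]⟩

theorem trace_zz (A : Matrix V V ℕ) : trace (zz A) = ((trace A : ℕ) : ℤ) := by
  simp [trace, zz_apply]

theorem zz_inc (e : V → W) : zz (inc e) = inc e := by
  ext i j
  simp [zz_apply, inc]

theorem zz_fromBlocks {a b c d : Type} (A : Matrix a c ℕ) (B : Matrix a d ℕ) (C : Matrix b c ℕ)
    (D : Matrix b d ℕ) : zz (fromBlocks A B C D) = fromBlocks (zz A) (zz B) (zz C) (zz D) :=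
  fromBlocks_map _ _ _ _ _

theorem zz_zero {a b : Type} : zz (0 : Matrix a b ℕ) = 0 := by
  ext i j
  simp [zz_apply]

theorem Cg.fromBlocks {a b c d : Type} {n : ℕ} {A A' : Matrix a c ℤ} {B B' : Matrix a d ℤ}
    {C C' : Matrix b c ℤ} {D D' : Matrix b d ℤ} (h1 : Cg n A A') (h2 : Cg n B B') (h3 : Cg n C C')
    (h4 : Cg n D D') : Cg n (fromBlocks A B C D) (fromBlocks A' B' C' D') := by
  rintro (i | i) (j | j)
  exacts [h1 i j, h2 i j, h3 i j, h4 i j]

theorem pot_congr {k : ℕ} [NeZero k] (o : V → ℕ) (h : V → ZMod k) {A A' : Matrix V V ℤ}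
    (e : Cg (md k) A A') : pot k o h A = pot k o h A' := by
  refine sum_congr rfl fun v _ => ?_
  split_ifs
  · congr 1
    push_cast
    refine prod_congr rfl fun i _ => (ZMod.intCast_eq_intCast_iff _ _ _).2 ?_
    exact (e _ _).of_dvd (by unfold md; push_cast; exact Dvd.intro _ rfl)
  · rfl

namespace Base

variable (hB : Base)
include hB

theorem f_zz (k : ℕ) {oV : V → ℕ} {oW : W → ℕ} (h1 : Injective oV) (h2 : Injective oW)
    (R : Matrix V W ℕ) (S : Matrix W V ℕ) : f k oV oW (zz R) (zz S) = fN k oV oW R S := by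
  rcases eq_or_ne k 0 with rfl | hk
  · rw [f_zero, fN_zero]
  refine hB.per V W oV oW _ _ _ _ k h1 h2 (fun v w => ?_) fun w v => ?_
  · exact Int.natCast_modEq_iff.1 (cg_res (md_pos hk) (zz R) v w)
  · exact Int.natCast_modEq_iff.1 (cg_res (md_pos hk) (zz S) w v)

theorem f_tri (k : ℕ) {oU : U → ℕ} {oV : V → ℕ} {oW : W → ℕ} (h1 : Injective oU)
    (h2 : Injective oV) (h3 : Injective oW) (R₁ : Matrix U V ℤ) (R₂ : Matrix V W ℤ)
    (S₃ : Matrix W U ℤ) :
    f k oU oV R₁ (R₂ * S₃) + f k oV oW R₂ (S₃ * R₁) = f k oU oW (R₁ * R₂) S₃ := by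
  rcases eq_or_ne k 0 with rfl | hk
  · simp [f_zero]
  have c1 := cg_res (md_pos hk) R₁
  have c2 := cg_res (md_pos hk) R₂
  have c3 := cg_res (md_pos hk) S₃
  rw [← f_congr oU oV c1 (c2.mul c3), ← f_congr oV oW c2 (c3.mul c1),
    ← f_congr oU oW (c1.mul c2) c3, ← zz_mul, ← zz_mul, ← zz_mul, hB.f_zz k h1 h2, hB.f_zz k h2 h3,
    hB.f_zz k h1 h3]
  exact hB.tri U V W oU oV oW _ _ _ k h1 h2 h3

theorem f_mono (k : ℕ) {oV : V → ℕ} {oW : W → ℕ} (h1 : Injective oV) (h2 : Injective oW)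
    {R R' : Matrix V W ℤ} {S S' : Matrix W V ℤ} (r0 : ∀ v w, 0 ≤ R' v w) (s0 : ∀ w v, 0 ≤ S' w v)
    (r1 : ∀ v w, R' v w ≤ R v w) (s1 : ∀ w v, S' w v ≤ S w v)
    (ht : ∀ j, 1 ≤ j → j ≤ k → trace ((R * S) ^ j) = trace ((R' * S') ^ j)) :
    f k oV oW R S = f k oV oW R' S' := by
  obtain ⟨R, rfl⟩ := exists_zz fun v w => (r0 v w).trans (r1 v w)
  obtain ⟨S, rfl⟩ := exists_zz fun v w => (s0 v w).trans (s1 v w)
  obtain ⟨R', rfl⟩ := exists_zz r0
  obtain ⟨S', rfl⟩ := exists_zz s0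
  rw [hB.f_zz k h1 h2, hB.f_zz k h1 h2]
  refine hB.cnt.mono V W oV oW R R' S S' k (fun v w => by simpa [zz_apply] using r1 v w)
    (fun v w => by simpa [zz_apply] using s1 v w) fun j a b => ?_
  have := ht j a b
  rw [← zz_mul, ← zz_mul, ← zz_pow, ← zz_pow, trace_zz, trace_zz] at this
  exact_mod_cast this

theorem f_emb (k : ℕ) {oV : V → ℕ} {oW : W → ℕ} (h1 : Injective oV) (h2 : Injective oW)
    (e : V → W) (he : ∀ u v, oV u ≤ oV v ↔ oW (e u) ≤ oW (e v)) (S : Matrix W V ℤ) :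
    f k oV oW (inc e) S = 0 := by
  rcases eq_or_ne k 0 with rfl | hk
  · exact f_zero _ _ _ _
  rw [← f_congr oV oW (Cg.refl _ _) (cg_res (md_pos hk) S), ← zz_inc, hB.f_zz k h1 h2]
  exact hB.loc.emb V W oV oW e _ k h1 h2 he

theorem f_sum (k : ℕ) {o : U → ℕ} {oV : V → ℕ} {oW : W → ℕ} (h0 : Injective o) (h1 : Injective oV)
    (h2 : Injective oW) (l1 : ∀ u v, o u < oV v) (l2 : ∀ u w, o u < oW w) (A : Matrix U U ℤ)
    (R : Matrix V W ℤ) (S : Matrix W V ℤ) :
    f k (Sum.elim o oV) (Sum.elim o oW) (fromBlocks 1 0 0 R) (fromBlocks A 0 0 S) =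
      f k oV oW R S := by
  rcases eq_or_ne k 0 with rfl | hk
  · rw [f_zero, f_zero]
  have i1 : Injective (Sum.elim o oV) := h0.sumElim h1 fun u v => (l1 u v).ne
  have i2 : Injective (Sum.elim o oW) := h0.sumElim h2 fun u v => (l2 u v).ne
  have c1 := cg_res (md_pos hk) R
  have c2 := cg_res (md_pos hk) S
  have c3 := cg_res (md_pos hk) A
  rw [← f_congr _ _ ((Cg.refl _ 1).fromBlocks (Cg.refl _ 0) (Cg.refl _ 0) c1)
    (c3.fromBlocks (Cg.refl _ 0) (Cg.refl _ 0) c2), ← zz_one, ← zz_zero, ← zz_zero, ← zz_zero,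
    ← zz_zero, ← zz_fromBlocks, ← zz_fromBlocks, hB.f_zz k i1 i2]
  exact hB.loc.sum U V W o oV oW _ _ _ k h0 h1 h2 l1 l2

theorem f_lev (k : ℕ) [NeZero k] {oV : V → ℕ} {oW : W → ℕ} (h1 : Injective oV) (h2 : Injective oW)
    (hV : V → ZMod k) (hW : W → ZMod k) {R : Matrix V W ℤ} {S : Matrix W V ℤ}
    (g1 : ∀ v w, R v w ≠ 0 → hW w = hV v) (g2 : ∀ w v, S w v ≠ 0 → hV v = hW w - 1) :
    f k oV oW R S = pot k oV hV (R * S) - pot k oW hW (S * R) := by
  have c1 := cg_res (md_pos (NeZero.ne k)) R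
  have c2 := cg_res (md_pos (NeZero.ne k)) S
  rw [f, hB.loc.lev V W oV oW (res (md k) R) (res (md k) S) k hV hW h1 h2 (fun v w h => g1 v w (res_ne h))
    (fun w v h => g2 w v (res_ne h)), zz_mul, zz_mul, pot_congr _ _ (c1.mul c2),
    pot_congr _ _ (c2.mul c1)]

theorem fv_adm {oV : V → ℕ} {oW : W → ℕ} (h1 : Injective oV) (h2 : Injective oW)
    (R : Matrix V W ℕ) (S : Matrix W V ℕ) : fv oV oW (zz R) (zz S) ∈ Adm (R * S) := by
  have : fv oV oW (zz R) (zz S) = fun k => fN k oV oW R S := funext fun k => hB.f_zz k h1 h2 R S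
  rw [this]
  exact (hB.cnt.adm V W oV oW R S).1

theorem adm_step (R : Matrix V W ℕ) (S : Matrix W V ℕ) : Adm (R * S) = Adm (S * R) :=
  (hB.cnt.adm V W (fun _ => 0) (fun _ => 0) R S).2

theorem adm_ch {A : Matrix V V ℕ} {B : Matrix W W ℕ} {T : Matrix V W ℕ} (h : Ch A B T) :
    Adm A = Adm B := by
  induction h with
  | refl => rfl
  | step R S _ ih => rw [ih, hB.adm_step]

end Base

/-- functions on ranked presentations -/
abbrev PT (G : Type) : Type 1 :=
  ∀ (V : Type) [Fintype V] [DecidableEq V], (V → ℕ) → Matrix V V ℤ → (V → G) → Val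

variable {G : Type} [AddCommGroup G] [Module ℤ[X] G]

/-- a potential for the steps between index types with ranks at least `b` -/
def IsPot (b : ℕ) (p : PT G) : Prop :=
  ∀ (V W : Type) [Fintype V] [DecidableEq V] [Fintype W] [DecidableEq W] (oV : V → ℕ)
    (oW : W → ℕ) (R : Matrix V W ℤ) (S : Matrix W V ℤ) (κ : W → G), Injective oV →
    Injective oW → (∀ v, b ≤ oV v) → (∀ w, b ≤ oW w) → Pres (pen (S * R)) κ →
    fv oV oW R S = p W oW (S * R) κ - p V oV (R * S) (pull R κ)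

/-- the potential -/
noncomputable def pt (G : Type) [AddCommGroup G] [Module ℤ[X] G] : PT G :=
  Classical.epsilon (IsPot 0)

theorem IsPot.mono {b b' : ℕ} {p : PT G} (h : IsPot b p) (hb : b ≤ b') : IsPot b' p :=
  fun V W _ _ _ _ oV oW R S κ h1 h2 h3 h4 =>
    h V W oV oW R S κ h1 h2 (fun v => hb.trans (h3 v)) fun w => hb.trans (h4 w)

theorem Base.pt_isPot (hB : Base) (G : Type) [AddCommGroup G] [Module ℤ[X] G] (b : ℕ) :
    IsPot b (pt G) := by
  refine IsPot.mono (Classical.epsilon_spec (p := IsPot 0) ?_) (Nat.zero_le b)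
  obtain ⟨p, hp⟩ := hB.w Val (fun V W _ _ _ _ oV oW R S => fv oV oW R S)
    (fun U V W _ _ _ _ _ _ oU oV oW R₁ R₂ S₃ h1 h2 h3 =>
      funext fun k => hB.f_tri k h1 h2 h3 R₁ R₂ S₃) G
  exact ⟨p, fun V W _ _ _ _ oV oW R S κ h1 h2 _ _ => hp V W oV oW R S κ h1 h2⟩

theorem pull_one (κ : V → G) : pull (1 : Matrix V V ℤ) κ = κ := by
  funext v
  simp [pull, one_apply, apply_ite C, ite_smul]

theorem pull_mul (R : Matrix U V ℤ) (S : Matrix V W ℤ) (κ : W → G) :
    pull (R * S) κ = pull R (pull S κ) := by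
  funext u
  simp only [pull, mul_apply, map_sum, map_mul, sum_smul, smul_sum, mul_smul]
  exact sum_comm

theorem pull_inc (e : V → W) (κ : W → G) : pull (inc e : Matrix V W ℤ) κ = κ ∘ e := by
  funext v
  simp [pull, inc, apply_ite C, ite_smul]

theorem pull_smul (R : Matrix V W ℤ) (c : ℤ[X]) (κ : W → G) :
    pull R (fun w => c • κ w) = fun v => c • pull R κ v := by
  funext v
  simp only [pull, smul_sum, smul_comm c]

theorem Pres.row {P : Matrix V V ℤ[X]} {ξ : V → G} (h : Pres P ξ) (u : V) :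
    ∑ v, P u v • ξ v = 0 :=
  (h.2 (P u)).2 ⟨Pi.single u 1, by simp; rfl⟩

theorem Pres.smul_pull {A : Matrix V V ℤ} {κ : V → G} (h : Pres (pen A) κ) (u : V) :
    (X : ℤ[X]) • pull A κ u = κ u := by
  have := h.row u
  simp only [pen, Matrix.sub_apply, Matrix.smul_apply, map_apply, smul_eq_mul, sub_smul, sum_sub_distrib,
    one_apply, ite_smul, one_smul, zero_smul, sum_ite_eq, mem_univ, if_true, mul_smul] at this
  rw [pull, smul_sum]
  exact (sub_eq_zero.1 this).symm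

theorem pen_coeff (A : Matrix V V ℤ) (u v : V) :
    (pen A u v).coeff 0 = if u = v then 1 else 0 := by
  simp only [pen, Matrix.sub_apply, Matrix.smul_apply, map_apply, smul_eq_mul, one_apply]
  split_ifs <;> simp

/-- an injective rank exists -/
noncomputable def rk0 (V : Type) [Fintype V] : V → ℕ := fun v => Fintype.equivFin V v

theorem rk0_inj : Injective (rk0 V) := Fin.val_injective.comp (Fintype.equivFin V).injective

namespace Base

variable (hB : Base)
include hB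

theorem pres_ch {A : Matrix V V ℤ} {B : Matrix W W ℤ} {T : Matrix V W ℤ} (h : Ch A B T)
    {κ : W → G} (hκ : Pres (pen B) κ) : Pres (pen A) (pull T κ) := by
  induction h with
  | refl => rwa [pull_one]
  | step R S _ ih => rw [pull_mul]; exact ih (hB.tr.pres_pull _ _ G R S _ hκ)

theorem chV_pt {oV : V → ℕ} {oW : W → ℕ} {A : Matrix V V ℤ} {B : Matrix W W ℤ} {T : Matrix V W ℤ}
    {v : Val} (h0 : Injective oV) (h : ChV oV A oW B T v) :
    Injective oW ∧ Ch A B T ∧ ∀ κ : W → G, Pres (pen B) κ →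
      v = pt G W oW B κ - pt G V oV A (pull T κ) := by
  induction h with
  | refl => exact ⟨h0, Ch.refl, fun κ _ => by rw [pull_one, sub_self]⟩
  | step oX R S hX _ ih =>
    refine ⟨hX, Ch.step R S ih.2.1, fun κ hκ => ?_⟩
    rw [ih.2.2 _ (hB.tr.pres_pull _ _ G R S _ hκ), hB.pt_isPot G 0 _ _ _ oX R S κ ih.1 hX
      (fun _ => Nat.zero_le _) (fun _ => Nat.zero_le _) hκ, pull_mul]
    abel

theorem ch_adm {oV : V → ℕ} {A : Matrix V V ℕ} {B : Matrix W W ℕ} {T : Matrix V W ℕ}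
    (h0 : Injective oV) (h : Ch A B T) : ∀ (oW : W → ℕ) (κ : W → G), Injective oW →
      Pres (pen (zz B)) κ → pt G W oW (zz B) κ - pt G V oV (zz A) (pull (zz T) κ) ∈ Adm A := by
  induction h with
  | refl =>
    intro oW κ h1 hκ
    have e := hB.pt_isPot G 0 _ _ oV oW 1 (zz A) κ h0 h1 (fun _ => Nat.zero_le _)
      (fun _ => Nat.zero_le _) (by rwa [Matrix.mul_one])
    rw [Matrix.mul_one, Matrix.one_mul] at e
    rw [zz_one, ← e, ← zz_one]
    simpa using hB.fv_adm h0 h1 1 A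
  | @step W X _ _ _ _ R S T h ih =>
    intro oX κ h1 hκ
    rw [zz_mul] at hκ
    have e := hB.pt_isPot G 0 _ _ (rk0 W) oX (zz R) (zz S) κ rk0_inj h1 (fun _ => Nat.zero_le _)
      (fun _ => Nat.zero_le _) hκ
    have a1 := ih (rk0 W) (pull (zz R) κ) rk0_inj
      (by rw [zz_mul]; exact hB.tr.pres_pull _ _ G _ _ _ hκ)
    have a2 := hB.fv_adm (rk0_inj (V := W)) h1 R S
    rw [← hB.adm_ch h, e] at a2
    have := add_mem a2 a1
    rw [zz_mul, sub_add_sub_cancel] at this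
    rwa [zz_mul, zz_mul, pull_mul]

theorem real_adm {oV : V → ℕ} {oW : W → ℕ} {A : Matrix V V ℕ} {B : Matrix W W ℕ}
    {R : Matrix V W ℤ} (h0 : Injective oV) (h1 : Injective oW) (h : Real A B R) {κ : W → G}
    (hκ : Pres (pen (zz B)) κ) (hR : Pres (pen (zz A)) (pull R κ)) :
    pt G W oW (zz B) κ - pt G V oV (zz A) (pull R κ) ∈ Adm A := by
  obtain ⟨T, h, a, b, e⟩ := h
  have a1 := hB.ch_adm h0 ((Ch.pow A b).trans h) oW κ h1 hκ
  have a2 := hB.ch_adm h0 (Ch.pow A a) oV (pull R κ) h0 hR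
  rw [zz_mul, zz_pow, ← e, pull_mul] at a1
  rw [zz_pow] at a2
  simpa using sub_mem a1 a2

theorem nec : NecStmt := by
  intro V W _ _ _ _ oV oW A B R T v a b h0 h e hR
  obtain ⟨G, _, _, κ, hκ⟩ := hB.tr.pres_ex W (pen (zz B))
  obtain ⟨h1, h2, h3⟩ := hB.chV_pt (G := G) h0 h
  rw [h3 κ hκ]
  exact hB.real_adm h0 h1 (hR.of_eq e.symm) hκ (hB.pres_ch h2 hκ)

end Base

end Pool.Agent.MP_993212_an.H16
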