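import Pool.Agent.MP_993212_an.H16.Rel

/-! The interface between the positive normal form and the obstruction. -/

namespace Pool.Agent.MP_993212_an.H16

open Matrix Polynomial Function

variable {V s G : Type} [Fintype V] [DecidableEq V] [Fintype s] [DecidableEq s] [AddCommGroup G]
  [Module ℤ[X] G]

/-- `P = 1 - N` presents `G` with classes `ξ`, and its linear model is joined to `A` over `ℕ` by a
chain that respects the classes up to a shift -/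
def Hon (A : Matrix V V ℕ) (ι : V → G) (P : Matrix s s ℤ[X]) (ξ : s → G) : Prop :=
  One P ∧ Pres P ξ ∧ ∃ (L : ℕ) (C : Matrix (s × Fin (L + 1)) (s × Fin (L + 1)) ℕ)
    (T : Matrix V (s × Fin (L + 1)) ℕ) (a b : ℕ), Dg (L + 1) P ∧ zz C = lin (L + 1) (1 - P) ∧
    Ch A C T ∧ ∀ v, (X : ℤ[X]) ^ a • ι v = (X : ℤ[X]) ^ b • pull (zz T) (lv (L + 1) ξ) v

/-- `P'` is `P` with the state `i` delayed by `δ i` -/
def Dly (δ : s → ℕ) (P P' : Matrix s s ℤ[X]) : Prop :=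
  ∀ i j, P' i j * X ^ δ j = X ^ δ i * P i j

/-- the low normal form: `per i ≠ 0` marks a single loop state of length `per i` -/
def LowStmt : Prop :=
  ∀ (V W G : Type) [Fintype V] [DecidableEq V] [Fintype W] [DecidableEq W] [AddCommGroup G]
    [Module ℤ[X] G] (A : Matrix V V ℕ) (B : Matrix W W ℕ) (R : Matrix V W ℕ) (S : Matrix W V ℕ)
    (l : ℕ) (κ : W → G), Prim A → Prim B → 2 ≤ ∑ u, ∑ v, A u v → 1 ≤ l → A * R = R * B →
    S * A = B * S → R * S = A ^ l → S * R = B ^ l → Pres (pen (zz B)) κ →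
    Pres (pen (zz A)) (pull (zz R) κ) →
    ∃ (h ν : ℕ) (s : Type) (_ : Fintype s) (_ : DecidableEq s) (P₁ P₂ : Matrix s s ℤ[X])
      (ξ₁ ξ₂ : s → G) (dg : s → ℤ[X]) (per : s → ℕ) (a b : s),
      Hon A (pull (zz R) κ) P₁ ξ₁ ∧ Hon B κ P₂ ξ₂ ∧
      (∀ i j, X ^ (2 * ν + 2) ∣ (P₁ - diagonal dg) i j) ∧
      (∀ i j, X ^ (2 * ν + 2) ∣ (P₂ - diagonal dg) i j) ∧
      (∀ i, per i ≠ 0 → dg i = 1 - X ^ per i) ∧ (∀ i, per i ≤ ν) ∧
      (∀ k, 1 ≤ k → k < h → k ≤ ν →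
        ((Finset.univ.filter fun i => per i = k).card : ℤ) * k = np k A) ∧
      (∀ k, 1 ≤ k → h ≤ k → k ≤ ν → ∃ i, per i = k) ∧
      a ≠ b ∧ dg a = 1 ∧ dg b = 1 ∧ H15.Three s ∧
      ∀ (π : Equiv.Perm s) (δ : s → ℕ) (P' : Matrix s s ℤ[X]), (∀ i, per (π i) = per i) →
        (∀ i, per i = 0 → π i = i ∧ δ i = 0) → (∀ i, δ i ≤ ν) → Dly δ (P₁.submatrix π π) P' →
        ∃ v ∈ H15.Hn s (H15.tI (ν + 1)), ∃ U ∈ H15.El s ℤ[X],
          pl v.val ξ₂ = (fun i => (X : ℤ[X]) ^ δ i • ξ₁ (π i)) ∧ P' * v.val = U.val * P₂ ∧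
          (U ∈ H15.Hn s (H15.tI ν) → Real A B (zz R))

end Pool.Agent.MP_993212_an.H16
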