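import Pool.Agent.MP_993212_an.H16.Lev
import Pool.Agent.MP_993212_an.H16.Low

/-! The parts of the step from the low normal form to sufficiency. -/

namespace Pool.Agent.MP_993212_an.H16

open Matrix Polynomial Function H15

/-- ROW DLOC: a unit delay of the state `i` gives a presentation, and its effect on coordinate `k`
of the potential depends only on the matrices modulo `t ^ (k + 2)` -/
structure DLocStmt : Prop where
  pres : ∀ (s G : Type) [Fintype s] [DecidableEq s] [AddCommGroup G] [Module ℤ[X] G] (i : s)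
    (P P' : Matrix s s ℤ[X]) (ξ : s → G), One P → One P' → Dly (Pi.single i 1) P P' → Pres P ξ →
    Pres P' fun j => (X : ℤ[X]) ^ (Pi.single i 1 : s → ℕ) j • ξ j
  loc : ∀ (s G G' : Type) [Fintype s] [DecidableEq s] [AddCommGroup G] [Module ℤ[X] G]
    [AddCommGroup G'] [Module ℤ[X] G'] (k : ℕ) (o : s → ℕ) (i : s) (P P' Q Q' : Matrix s s ℤ[X])
    (ξ : s → G) (κ : s → G'), k ≠ 0 → Three s → Injective o → One P → One P' → One Q → One Q' →
    Dly (Pi.single i 1) P P' → Dly (Pi.single i 1) Q Q' → Sm (k + 1) P Q → Sm (k + 1) P' Q' →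
    Pres P ξ → Pres Q κ →
    pn o P' (fun j => (X : ℤ[X]) ^ (Pi.single i 1 : s → ℕ) j • ξ j) k - pn o P ξ k =
      pn o Q' (fun j => (X : ℤ[X]) ^ (Pi.single i 1 : s → ℕ) j • κ j) k - pn o Q κ k

/-- ROW DVAL: the value of a unit delay on a diagonal model -/
def DValStmt : Prop :=
  ∀ (s : Type) [Fintype s] [DecidableEq s] (dg : s → ℤ[X]) (i : s) (p : ℕ), 1 ≤ p →
    (∀ j, (dg j).coeff 0 = 1) → dg i = 1 - X ^ p →
    ∃ (G : Type) (_ : AddCommGroup G) (_ : Module ℤ[X] G) (o : s → ℕ) (κ : s → G), Injective o ∧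
      Pres (diagonal dg) κ ∧ ∀ k,
        pn o (diagonal dg) (fun j => (X : ℤ[X]) ^ (Pi.single i 1 : s → ℕ) j • κ j) k -
          pn o (diagonal dg) κ k = if k = p then -1 else 0

/-- ROW DELAY (from DLOC and DVAL): the value of a general delay -/
def DelayStmt : Prop :=
  ∀ (s G : Type) [Fintype s] [DecidableEq s] [AddCommGroup G] [Module ℤ[X] G] (ν : ℕ) (o : s → ℕ)
    (P : Matrix s s ℤ[X]) (ξ : s → G) (dg : s → ℤ[X]) (per δ : s → ℕ), Three s → Injective o →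
    One P → Pres P ξ → (∀ i j, X ^ (2 * ν + 2) ∣ (P - diagonal dg) i j) →
    (∀ i, per i ≠ 0 → dg i = 1 - X ^ per i) → (∀ i, per i = 0 → δ i = 0) → (∀ i, δ i ≤ ν) →
    ∃ P', Dly δ P P' ∧ One P' ∧ Pres P' (fun i => (X : ℤ[X]) ^ δ i • ξ i) ∧
      (∀ i j, X ^ (ν + 2) ∣ (P' - diagonal dg) i j) ∧ ∀ k, 1 ≤ k → k ≤ ν →
        pn o P' (fun i => (X : ℤ[X]) ^ δ i • ξ i) k - pn o P ξ k =
          -∑ i ∈ Finset.univ.filter fun i => per i = k, (δ i : ZMod k)

/-- ROW SWV: the value of the exchange of two loops of length `p` -/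
def SwValStmt : Prop :=
  ∀ (s G : Type) [Fintype s] [DecidableEq s] [AddCommGroup G] [Module ℤ[X] G] (k p : ℕ) (o : s → ℕ)
    (P : Matrix s s ℤ[X]) (ξ : s → G) (dg : s → ℤ[X]) (i j : s), k ≠ 0 → 1 ≤ p → k ≠ p → Three s →
    Injective o → One P → Pres P ξ → Sm k P (diagonal dg) → i ≠ j → dg i = 1 - X ^ p →
    dg j = 1 - X ^ p →
    pn o (P.submatrix (Equiv.swap i j) (Equiv.swap i j)) (ξ ∘ Equiv.swap i j) k - pn o P ξ k =
      comb k 0 (Pi.single p 1)

/-- ROW SOLVE: every admissible value is the value of a relabelling followed by a delay -/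
def SolveStmt : Prop :=
  ∀ (V s : Type) [Fintype V] [DecidableEq V] [Fintype s] [DecidableEq s] (A : Matrix V V ℕ)
    (h ν : ℕ) (per : s → ℕ) (φ : Equiv.Perm s → Val) (w : Val), w ∈ Adm A →
    (∀ k, 1 ≤ k → k < h → k ≤ ν →
      ((Finset.univ.filter fun i => per i = k).card : ℤ) * k = np k A) →
    (∀ k, 1 ≤ k → h ≤ k → k ≤ ν → ∃ i, per i = k) →
    (∀ k, 1 ≤ k → k ≤ ν → φ 1 k = 0) →
    (∀ π τ : Equiv.Perm s, (∀ i, per (π i) = per i) → (∀ i, per i = 0 → π i = i) →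
      ∀ k, 1 ≤ k → k ≤ ν → φ (π * τ) k = φ π k + φ τ k) →
    (∀ i j, i ≠ j → per i = per j → per i ≠ 0 → ∀ k, 1 ≤ k → k ≤ ν → k ≠ per i →
      φ (Equiv.swap i j) k = comb k 0 (Pi.single (per i) 1)) →
    ∃ (π : Equiv.Perm s) (δ : s → ℕ), (∀ i, per (π i) = per i) ∧
      (∀ i, per i = 0 → π i = i ∧ δ i = 0) ∧ (∀ i, δ i ≤ ν) ∧ ∀ k, 1 ≤ k → k ≤ ν →
        φ π k - ∑ i ∈ Finset.univ.filter fun i => per i = k, (δ i : ZMod k) = w k

/-- ROW HON: honest presentations have the potential of `A` up to an admissible value -/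
def HonStmt : Prop :=
  ∀ (V s G : Type) [Fintype V] [DecidableEq V] [Fintype s] [DecidableEq s] [AddCommGroup G]
    [Module ℤ[X] G] (oV : V → ℕ) (o : s → ℕ) (A : Matrix V V ℕ) (ι : V → G) (P : Matrix s s ℤ[X])
    (ξ : s → G), Injective oV → Injective o → Pres (pen (zz A)) ι → Hon A ι P ξ →
    pn o P ξ - pt G V oV (zz A) ι ∈ Adm A

/-- ROW PRE: the module of a shift equivalence with an admissible value, and the small case -/
structure PreStmt : Prop where
  pre : ∀ (V W : Type) [Fintype V] [DecidableEq V] [Fintype W] [DecidableEq W] (oV : V → ℕ)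
    (oW : W → ℕ) (A : Matrix V V ℕ) (B : Matrix W W ℕ) (R : Matrix V W ℕ) (T : Matrix V W ℤ)
    (v : Val) (a b : ℕ), Injective oV → A * R = R * B → ChV oV (zz A) oW (zz B) T v →
    zz A ^ a * zz R = zz A ^ b * T → v ∈ Adm A →
    ∃ (G : Type) (_ : AddCommGroup G) (_ : Module ℤ[X] G) (κ : W → G), Injective oW ∧
      Adm B = Adm A ∧ Pres (pen (zz B)) κ ∧ Pres (pen (zz A)) (pull (zz R) κ) ∧
      pt G W oW (zz B) κ - pt G V oV (zz A) (pull (zz R) κ) ∈ Adm A
  small : ∀ (V W : Type) [Fintype V] [DecidableEq V] [Fintype W] [DecidableEq W]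
    (A : Matrix V V ℕ) (B : Matrix W W ℕ) (R : Matrix V W ℕ) (S : Matrix W V ℕ) (l : ℕ),
    Prim A → Prim B → 1 ≤ l → A * R = R * B → S * A = B * S → R * S = A ^ l → S * R = B ^ l →
    ¬2 ≤ ∑ u, ∑ v, A u v → Real A B (zz R)

/-- ROW KLINK: the potential detects the symbols -/
def KlinkStmt : Prop :=
  ∀ (s G : Type) [Fintype s] [DecidableEq s] [AddCommGroup G] [Module ℤ[X] G] (ν : ℕ) (o : s → ℕ)
    (P : Matrix s s ℤ[X]) (ξ : s → G) (dg : s → ℤ[X]) (a b : s) (U : GL s ℤ[X]), Three s → a ≠ b →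
    dg a = 1 → dg b = 1 → One P → Sm ν P (diagonal dg) → Pres P ξ → Injective o →
    U ∈ El s ℤ[X] → U ∈ Cn s (tI (ν + 1)) →
    (∀ k, 1 ≤ k → k ≤ ν → pn o (U.val * P) ξ k = pn o P ξ k) → U ∈ Hn s (tI ν)

end Pool.Agent.MP_993212_an.H16
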