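import Pool.Agent.MP_993212_an.H16.KlinkA
import Pool.Agent.MP_993212_an.H16.Spec4

/-! The potential detects the symbols. -/

set_option linter.unusedSectionVars false

namespace Pool.Agent.MP_993212_an.H16

open Matrix Polynomial Finset Function H15

variable {V s : Type} [Fintype V] [DecidableEq V] [Fintype s] [DecidableEq s] {G G' : Type}
  [AddCommGroup G] [Module ℤ[X] G] [AddCommGroup G'] [Module ℤ[X] G']

theorem ext_hh (f : V ↪ s) (e : ℤ[X]) (i j : V) : ext f (hh xe e i j) = hh xe e (f i) (f j) := by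
  simp only [hh, map_mul, map_inv, ext_xe]

theorem sigma_val (hB : Base) (hP : PotStmt) (h3 : Three s) {dg : s → ℤ[X]} {a b : s} (hab : a ≠ b)
    (da : dg a = 1) (db : dg b = 1) {j : ℕ} (hj : 1 ≤ j) {P : Matrix s s ℤ[X]} (q : One P)
    (hD : Sm (j + 1) P (diagonal dg)) {ξ : s → G} (hξ : Pres P ξ) {o : s → ℕ} (ho : Injective o) :
    pn o ((sy a b (X ^ j : ℤ[X]) X * hh xe (X ^ (j + 1)) b a).val * P) ξ (j + 1) =
      pn o P ξ (j + 1) - 1 := by
  have hk : j + 1 ≠ 0 := by omega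
  let f : Bool ↪ s := ⟨fun x => cond x a b, fun x y => by
    cases x <;> cases y <;> simp [hab, hab.symm]⟩
  have d0 : ∀ i, (dg i).coeff 0 = 1 := fun i => by
    simpa [q i i] using (hD.coeff_eq (u := i) (v := i) rfl (Nat.zero_le _)).symm
  have d1 : ∀ v, dg (f v) = 1 := fun v => by
    cases v
    exacts [db, da]
  obtain ⟨G₀, _, _, o', β, oV, i1, i2, b1, key⟩ := model_ext hB f d0 d1
  obtain ⟨p, hp, κ, h1⟩ := key PUnit 0
  obtain ⟨G₁, _, _, ξ₁, x1⟩ := hB.tr.pres_ex Bool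
    (diagonal fun x => 1 - X ^ (j + 1) * sg ℤ[X] true false x)
  obtain ⟨p', hp', κ', h2⟩ := key G₁ ξ₁
  have tf : true ≠ false := by simp
  have fa : f true = a := rfl
  have fb : f false = b := rfl
  clear_value f
  have eh : (hh xe (X ^ (j + 1) : ℤ[X]) b a).val =
      extM f (hh xe (X ^ (j + 1) : ℤ[X]) false true : GL Bool ℤ[X]).val := by
    have := ext_hh f (X ^ (j + 1)) false true
    rw [fa, fb] at this
    rw [← this, ext_val]
  have es : (sy a b (X ^ j : ℤ[X]) X).val = extM f (sy true false (X ^ j : ℤ[X]) X).val := by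
    have := ext_sy f true false (X ^ j : ℤ[X]) X
    rw [fa, fb] at this
    rw [← this, ext_val]
  obtain ⟨c1, c2⟩ := hh_block hB hp i2 b1 hk tf.symm
  have pm : ∀ {W G : Type} [Fintype W] [DecidableEq W] [AddCommGroup G] [Module ℤ[X] G]
      (g : GL W ℤ[X]) {P : Matrix W W ℤ[X]} {ξ : W → G}, Pres P ξ → Pres (g.val * P) ξ :=
    fun g _ _ h => h.mul g.inv_mul
  obtain ⟨c3, c4, c5⟩ := h1 _ c1 (by
    have := pm (hh xe (X ^ (j + 1) : ℤ[X]) false true) pres_one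
    rwa [mul_one] at this)
  obtain ⟨c6, c7, c8⟩ := h1 1 one_one pres_one
  rw [map_one, one_mul] at c6 c7 c8
  have q0 : One (diagonal fun x => 1 - X ^ (j + 1) * sg ℤ[X] true false x) := fun u v => by
    rw [diagonal_apply]
    split_ifs <;> simp [pow_succ', mul_assoc]
  have q1 : One (sy true false (X ^ j : ℤ[X]) X).val := fun u v => by
    rw [(sm_sy hj tf).coeff_eq rfl (Nat.zero_le _), diagonal_apply]
    split_ifs <;> simp [pow_succ', mul_assoc]
  obtain ⟨d3, d4, d5⟩ := h2 _ q0 x1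
  obtain ⟨-, -, d6⟩ := h2 _ (q1.mul q0) (pm _ x1)
  have e1 := pn_El hB hk h3 (sy_mem_El a b (X ^ j) X) i1 c3.inv0 d3.inv0
    ((sm_extM f (sm_hh hk tf)).mul (sm_refl _ _)) c4 d4
  have e2 := pn_El hB hk h3 (mul_mem (sy_mem_El a b (X ^ j) X) (hh_mem_El (X ^ (j + 1)) b a)) i1
    q.inv0 c6.inv0 hD hξ c7
  have e3 := pn_rank hB hk h3 ho i1 ((inv0_gl _).mul q.inv0) q.inv0
    (by simpa only [one_mul] using (sm_sigma hj hab).mul (sm_refl _ P))
    (pm (sy a b (X ^ j : ℤ[X]) X * hh xe (X ^ (j + 1)) b a) hξ) hξ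
  rw [map_mul, ← es, Matrix.mul_assoc] at d6
  rw [d6, d5, sy_block hB hP hp' i2 b1 hj tf x1, c5, c2, ← c8, ← eh, ← Matrix.mul_assoc,
    ← Units.val_mul] at e1
  linear_combination e1 + e2 + e3

theorem klink (hB : Base) (hP : PotStmt) (h3 : Three s) {dg : s → ℤ[X]} {a b : s} (hab : a ≠ b)
    (da : dg a = 1) (db : dg b = 1) {ν : ℕ} {P : Matrix s s ℤ[X]} (q : One P)
    (hD : Sm ν P (diagonal dg)) {ξ : s → G} (hξ : Pres P ξ) {o : s → ℕ} (ho : Injective o)
    {U : GL s ℤ[X]} (hU : U ∈ El s ℤ[X]) (hC : U ∈ Cn s (tI (ν + 1)))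
    (h : ∀ k, 1 ≤ k → k ≤ ν → pn o (U.val * P) ξ k = pn o P ξ k) : U ∈ Hn s (tI ν) := by
  suffices ∀ k, k ≤ ν → U ∈ Hn s (tI k) from this ν le_rfl
  intro k
  induction k with
  | zero => intro _; rwa [tI_zero, Hn_top h3]
  | succ j ih =>
    intro hj
    rcases Nat.eq_zero_or_pos j with rfl | j1
    · exact mem_Hn_one hU (Cn_mono (tI_anti (by omega)) hC)
    have hk : j + 1 ≠ 0 := by omega
    let S := El s ℤ[X] ⊓ Cn s (tI (j + 1 + 1))
    let φ : S →* Multiplicative (ZMod (j + 1)) := MonoidHom.mk'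
      (fun g => Multiplicative.ofAdd (pn o (g.1.val * P) ξ (j + 1) - pn o P ξ (j + 1))) fun g g' => by
        have := pn_El hB hk h3 g.2.1 ho ((inv0_gl g'.1).mul q.inv0) q.inv0
          (by simpa only [one_mul] using (sim_of_Cn _ g'.2.2).mul (sm_refl _ P))
          (hξ.mul g'.1.inv_mul) hξ
        rw [← ofAdd_add, Subgroup.coe_mul, Units.val_mul, Matrix.mul_assoc]
        congr 1
        linear_combination this
    have hφ : ∀ g : S, (φ g).toAdd = pn o (g.1.val * P) ξ (j + 1) - pn o P ξ (j + 1) := fun _ => rfl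
    obtain ⟨n, hn⟩ := lemmaK h3 j1 hab (ih (by omega)) (Cn_mono (tI_anti (by omega)) hC)
    let π := QuotientGroup.mk' (Hn s (tI (j + 1)))
    have m : ∀ {g}, g ∈ Hn s (tI (j + 1)) ↔ π g = 1 := fun {g} => (QuotientGroup.eq_one_iff g).symm
    let σ : S := ⟨sy a b (X ^ j) X * hh xe (X ^ (j + 1)) b a,
      mul_mem (sy_mem_El _ _ _ _) (hh_mem_El _ _ _),
      mem_Cn.2 fun u v => mem_tI.2 (sm_iff.1 (sm_sigma j1 hab) u v)⟩
    have πσ : π σ.1 = π (sy a b (X ^ j) X) := by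
      rw [map_mul, m.1 (hh_mem_Hn (mem_tI.2 dvd_rfl) _ _), mul_one]
    have πU : π U = π (sy a b (X ^ j) X) ^ n := by
      have := m.1 hn
      rw [map_mul, map_inv, map_zpow, inv_mul_eq_one] at this
      exact this.symm
    let U' : S := ⟨U, hU, Cn_mono (tI_anti (by omega)) hC⟩
    have w1 : ((σ ^ n)⁻¹ * U').1 ∈ Hn s (tI (j + 1)) := by
      rw [m, Subgroup.coe_mul, Subgroup.coe_inv, Subgroup.coe_zpow, map_mul, map_inv, map_zpow, πσ,
        πU, inv_mul_cancel]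
    obtain ⟨r, hr⟩ := lemmaK h3 (by omega) hab w1 ((σ ^ n)⁻¹ * U').2.2
    let γ : S := ⟨sy a b (X ^ (j + 1)) X, sy_mem_El _ _ _ _,
      sy_mem_Cn _ _ (mem_tI.2 (by rw [← pow_succ]))⟩
    have v1 : φ γ = 1 := toAdd_eq_zero.1 (by rw [hφ, sy_zero hB hk ho hab q hξ, sub_self])
    have v2 : φ U' = 1 := toAdd_eq_zero.1 (by rw [hφ, h _ (by omega) hj, sub_self])
    have v3 : φ ((γ ^ r)⁻¹ * ((σ ^ n)⁻¹ * U')) = 1 := toAdd_eq_zero.1 (by
      rw [hφ]
      exact sub_eq_zero.2 (pn_Hn hB hk h3 hr ho q.inv0 hξ))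
    have v4 : (φ σ).toAdd = -1 := by
      rw [hφ, sigma_val hB hP h3 hab da db j1 q (hD.mono hj) hξ ho]
      ring
    rw [map_mul, map_mul, map_inv, map_inv, map_zpow, map_zpow, v1, v2, _root_.one_zpow,
      _root_.inv_one, one_mul, mul_one, inv_eq_one, ← toAdd_eq_zero, toAdd_zpow, v4, smul_neg,
      neg_eq_zero, zsmul_one, ZMod.intCast_zmod_eq_zero_iff_dvd] at v3
    obtain ⟨c, rfl⟩ := v3
    rw [m, πU, _root_.zpow_mul, zpow_natCast, sy_pow_order h3 (mk_xe _) hab (mem_tI.2 dvd_rfl),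
      _root_.one_zpow]

theorem klinkStmt (hB : Base) (hP : PotStmt) : KlinkStmt :=
  fun _ _ _ _ _ _ _ _ _ _ _ _ _ _ h3 hab da db q hD hξ ho hU hC h =>
    klink hB hP h3 hab da db q hD hξ ho hU hC h

end Pool.Agent.MP_993212_an.H16
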