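import Pool.Agent.MP_993212_an.H16.Lev

/-! The potential detects the symbols. -/

set_option linter.unusedSectionVars false

namespace Pool.Agent.MP_993212_an.H16

open Matrix Polynomial Finset Function H15

variable {V s : Type} [Fintype V] [DecidableEq V] [Fintype s] [DecidableEq s] {G G' : Type}
  [AddCommGroup G] [Module ℤ[X] G] [AddCommGroup G'] [Module ℤ[X] G']

theorem One.mul {P Q : Matrix V V ℤ[X]} (h : One P) (h' : One Q) : One (P * Q) := by
  rw [one_iff, cof_mul0, one_iff.1 h, one_iff.1 h', one_mul]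

theorem pres_one : Pres (1 : Matrix V V ℤ[X]) (0 : V → PUnit) :=
  ⟨fun g => ⟨0, rfl⟩, fun y => iff_of_true rfl ⟨y, by simp⟩⟩

theorem hh_block (hB : Base) {β : ℕ} {p : PT PUnit} (hp : IsPot β p) {o : V → ℕ} (ho : Injective o)
    (b1 : ∀ v, β ≤ o v) {k : ℕ} (hk : k ≠ 0) {a b : V} (hab : a ≠ b) :
    One (hh xe (X ^ k : ℤ[X]) a b).val ∧
      pp p o (hh xe (X ^ k : ℤ[X]) a b).val 0 k = pp p o 1 0 k := by
  have := NeZero.mk hk
  let Z : Matrix V V ℤ[X] → Prop := fun P => One P ∧ Gd (0 : V → ZMod k) P ∧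
    Pres P (0 : V → PUnit) ∧ pp p o P 0 k = pp p o 1 0 k
  have z1 : ∀ (P : Matrix V V ℤ[X]) (i j : V) (α : ℤ), i ≠ j → Z P →
      Z ((1 + single i j (C α * X ^ k)) * P) := fun P i j α hij z => by
    have e := pp_lev hB hp ho b1 z.1 z.2.1 ((dg_dgr P).mono (Nat.le_add_right _ k))
      (L := dgr P + k + k) (m := k) (by omega) (by omega) (by omega) hij (by simp) α z.2.2.1
    rw [ph_zero, ph_zero, add_zero, add_zero] at e
    exact ⟨(one_letter i j α (by omega)).mul z.1, (Gd.one.add (Gd.single (by simp) α)).mul z.2.1,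
      z.2.2.1.mul (tv_inv hij _), e.trans z.2.2.2⟩
  have z2 : ∀ (P : Matrix V V ℤ[X]) (g g' : Matrix V V ℤ), g * g' = 1 → Z P →
      Z (g.map C * P * g'.map C) := fun P g g' hg z => by
    obtain ⟨c1, c2, c3, c4⟩ := pp_lev_conj hB hp ho b1 z.1 z.2.1 hg z.2.2.1
    exact ⟨c1, c2, c3, c4.trans z.2.2.2⟩
  have i1 : (1 + single a b 1 : Matrix V V ℤ) * (1 - single a b 1) = 1 := by
    simp [mul_sub, add_mul, hab.symm]
  have z := z2 _ _ _ i1 (z1 _ b a 1 hab.symm (z2 _ _ _ (mul_eq_one_comm.1 i1)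
    (z1 _ b a (-1) hab.symm (z1 _ a b 1 hab ⟨one_one, Gd.one, pres_one, rfl⟩))))
  have m1 : (1 + single a b 1 : Matrix V V ℤ).map C = (xe a b (1 : ℤ[X])).val := by
    rw [xe_val hab, Matrix.map_add _ (map_add C), mapC_one, Matrix.map_single _ _ _ C, map_one]
  have m2 : (1 - single a b 1 : Matrix V V ℤ).map C = (xe a b (1 : ℤ[X]))⁻¹.val := by
    rw [xe_inv_val hab, Matrix.map_sub _ (map_sub C), mapC_one, Matrix.map_single _ _ _ C, map_one]
  rw [m1, m2, ← xe_val hab, ← xe_val hab.symm, ← xe_val hab.symm, mul_one] at z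
  simp only [← Units.val_mul, map_one, one_mul, map_neg, neg_mul, xe_neg] at z
  have e : hh xe (X ^ k : ℤ[X]) a b = xe a b 1 * (xe b a (X ^ k) * ((xe a b 1)⁻¹ *
      ((xe b a (X ^ k))⁻¹ * xe a b (X ^ k)) * xe a b 1)) * (xe a b 1)⁻¹ := by
    rw [hh]
    group
  rw [e]
  exact ⟨z.1, z.2.2.2⟩

theorem sy_congr {R : Type} [CommRing R] {J : Ideal R} {i j : V} (hij : i ≠ j) {x y : R}
    (h1 : x * x * y ∈ J) (h2 : x * y * y ∈ J) (a b : V) :
    (sy i j x y).val a b - diagonal (fun a => 1 + x * y * sg R i j a) a b ∈ J := by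
  rw [← Ideal.Quotient.eq]
  have e1 : gm (Ideal.Quotient.mk J) (sy i j x y) =
      sy i j (Ideal.Quotient.mk J x) (Ideal.Quotient.mk J y) := by
    simp [sy, gm_xe, map_commutatorElement]
  have e2 := congrArg (fun g : GL V (R ⧸ J) => g.val a b) e1
  have e3 : ∀ x y : R ⧸ J, x * x * y = 0 → x * y * y = 0 →
      (sy i j x y).val = diagonal fun a => 1 + x * y * sg _ i j a := fun x y c1 c2 => by
    have e1 : (diagonal fun a => 1 + x * y * sg (R ⧸ J) i j a) =
        1 + single i i (x * y) - single j j (x * y) := by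
      ext a b
      by_cases h : a = b
      · subst h
        simp [sg, Matrix.single_apply, mul_sub, add_sub_assoc, eq_comm]
      · have h1 : ¬(i = a ∧ i = b) := fun h1 => h (h1.1.symm.trans h1.2)
        have h2 : ¬(j = a ∧ j = b) := fun h1 => h (h1.1.symm.trans h1.2)
        simp [h, h1, h2]
    have d1 : x * y * x = 0 := by linear_combination c1
    rw [e1, sy, commutatorElement_def]
    simp only [Units.val_mul, xe_val hij, xe_val hij.symm, xe_inv_val hij, xe_inv_val hij.symm]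
    simp [mul_add, add_mul, mul_sub, sub_mul, hij, hij.symm, d1, c2, mul_comm y x]
    abel
  rw [gm_val, e3 _ _ (by rw [← map_mul, ← map_mul]; exact Ideal.Quotient.eq_zero_iff_mem.2 h1)
    (by rw [← map_mul, ← map_mul]; exact Ideal.Quotient.eq_zero_iff_mem.2 h2)] at e2
  refine e2.trans ?_
  simp [diagonal_apply, sg, apply_ite (Ideal.Quotient.mk J)]

theorem sm_sy {j : ℕ} (hj : 1 ≤ j) {a b : V} (hab : a ≠ b) :
    Sm (j + 1) (sy a b (X ^ j : ℤ[X]) X).val (diagonal fun x => 1 + X ^ (j + 1) * sg _ a b x) :=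
  sm_iff.2 fun u v => by
    have := mem_tI.1 (sy_congr (J := tI (j + 1 + 1)) hab (x := X ^ j) (y := X)
      (mem_tI.2 (by rw [← pow_add, ← pow_succ]; exact pow_dvd_pow _ (by omega)))
      (mem_tI.2 (by rw [← pow_succ, ← pow_succ])) u v)
    rwa [← pow_succ] at this

theorem sm_hh {k : ℕ} (hk : k ≠ 0) {a b : V} (hab : a ≠ b) :
    Sm k (hh xe (X ^ k : ℤ[X]) b a).val (diagonal fun x => 1 - X ^ k * sg _ a b x) :=
  sm_iff.2 fun u v => by
    have := mem_tI.1 (hh_congr (J := tI (k + 1)) hab.symm (e := X ^ k)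
      (mem_tI.2 (by rw [← pow_add]; exact pow_dvd_pow _ (by omega))) u v)
    have e : (fun x => 1 + X ^ k * sg ℤ[X] b a x) = fun x => 1 - X ^ k * sg _ a b x := by
      funext x
      simp only [sg]
      ring
    rwa [e] at this

theorem sm_sy_mul {j : ℕ} (hj : 1 ≤ j) {a b : V} (hab : a ≠ b) :
    Sm (j + 1) ((sy a b (X ^ j : ℤ[X]) X).val * diagonal fun x => 1 - X ^ (j + 1) * sg _ a b x) 1 := by
  refine ((sm_sy hj hab).mul (sm_refl _ _)).trans (sm_iff.2 fun u v => ?_)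
  rw [diagonal_mul_diagonal, ← diagonal_one, ← Matrix.sub_apply, diagonal_sub, diagonal_apply]
  split_ifs
  · exact ⟨-(X ^ j * sg _ a b u ^ 2), by ring⟩
  · simp

theorem sy_block (hB : Base) (hP : PotStmt) {β : ℕ} {p : PT G} (hp : IsPot β p) {o : V → ℕ}
    (ho : Injective o) (b1 : ∀ v, β ≤ o v) {j : ℕ} (hj : 1 ≤ j) {a b : V} (hab : a ≠ b) {ξ : V → G}
    (hξ : Pres (diagonal fun x => 1 - X ^ (j + 1) * sg ℤ[X] a b x) ξ) :
    pp p o ((sy a b (X ^ j : ℤ[X]) X).val * diagonal fun x => 1 - X ^ (j + 1) * sg _ a b x) ξ (j + 1) =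
      pp p o (diagonal fun x => 1 - X ^ (j + 1) * sg _ a b x) ξ (j + 1) - 1 := by
  set Q : Matrix V V ℤ[X] := diagonal fun x => 1 - X ^ (j + 1) * sg _ a b x with hQ
  let h : V → ZMod (j + 1) := fun x => if x = b then 1 else 0
  have ha : h b + (j : ℕ) = h a := by
    have : ((j + 1 : ℕ) : ZMod (j + 1)) = 0 := ZMod.natCast_self _
    simp only [h, if_true, if_neg hab]
    rw [← this]
    push_cast
    ring
  have hb : h a + (1 : ℕ) = h b := by simp [h, hab]
  have cq : ∀ d u v, ((1 - Q) u v).coeff d =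
      if d = j + 1 ∧ u = v then (if u = a then 1 else 0) - if u = b then 1 else 0 else 0 :=
    fun d u v => by
      rw [hQ, ← diagonal_one, diagonal_sub, diagonal_apply]
      by_cases c : u = v
      · simp only [c, if_true, and_true, Pi.sub_apply, sub_sub_cancel, sg, mul_sub, coeff_sub,
          mul_ite, mul_one, mul_zero, apply_ite (coeff · d), coeff_X_pow, coeff_zero]
        split_ifs <;> simp
      · simp [c]
  have q0 : One Q := by
    have := one_of_sub (M := 1 - Q) fun u v => by rw [cq, if_neg (by simp)]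
    rwa [sub_sub_cancel] at this
  have g0 : Gd h Q := by
    simpa using Gd.one.sub (show Gd h (1 - Q) from fun d u v c => by
      rw [cq] at c
      obtain ⟨rfl, rfl⟩ : d = j + 1 ∧ u = v := by_contra fun e => c (if_neg e)
      simp)
  let x1 : Matrix V V ℤ[X] := 1 + single b a (C (-1) * X ^ 1)
  let x2 : Matrix V V ℤ[X] := 1 + single a b (C (-1) * X ^ j)
  let x3 : Matrix V V ℤ[X] := 1 + single b a (C 1 * X ^ 1)
  let x4 : Matrix V V ℤ[X] := 1 + single a b (C 1 * X ^ j)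
  let n := dgr Q + dgr (x1 * Q) + dgr (x2 * (x1 * Q)) + dgr (x3 * (x2 * (x1 * Q))) + j
  have q1 := (one_letter b a (-1) le_rfl).mul q0
  have q2 := (one_letter a b (-1) hj).mul q1
  have q3 := (one_letter b a 1 le_rfl).mul q2
  have q4 := (one_letter a b 1 hj).mul q3
  have g1 := (Gd.one.add (Gd.single hb (-1))).mul g0
  have g2 := (Gd.one.add (Gd.single ha (-1))).mul g1
  have g3 := (Gd.one.add (Gd.single hb 1)).mul g2
  have r1 := hξ.mul (tv_inv hab.symm (C (-1) * X ^ 1))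
  have r2 := r1.mul (tv_inv hab (C (-1) * X ^ j))
  have r3 := r2.mul (tv_inv hab.symm (C 1 * X ^ 1))
  have e1 := pp_lev hB hp ho b1 q0 g0 (n := n) (L := n + n) ((dg_dgr _).mono (by omega)) le_rfl
    (by omega) (by omega) hab.symm hb (-1) hξ
  have e2 := pp_lev hB hp ho b1 q1 g1 (n := n) (L := n + n)
    ((dg_dgr (x1 * Q)).mono (by omega)) hj (by omega) (by omega) hab ha (-1) r1
  have e3 := pp_lev hB hp ho b1 q2 g2 (n := n) (L := n + n)
    ((dg_dgr (x2 * (x1 * Q))).mono (by omega)) le_rfl (by omega) (by omega) hab.symm hb 1 r2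
  have e4 := pp_lev hB hp ho b1 q3 g3 (n := n) (L := n + n)
    ((dg_dgr (x3 * (x2 * (x1 * Q)))).mono (by omega)) hj (by omega) (by omega) hab ha 1 r3
  have e : (sy a b (X ^ j : ℤ[X]) X).val * Q = x4 * (x3 * (x2 * (x1 * Q))) := by
    simp only [x1, x2, x3, x4, ← xe_val hab, ← xe_val hab.symm, sy, commutatorElement_def,
      Units.val_mul, Matrix.mul_assoc, map_one, map_neg, one_mul, neg_mul, xe_neg, pow_one]
  have p0 : ph h (n + n) o Q = -1 := by
    rw [ph, lin_eq, hP V (j + 1) (n + n + 1) o h (cof (1 - Q)) (by omega)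
      (fun d u v c => (cq d u v).trans (if_neg (by omega)))
      fun u v c => (cq _ u v).trans (if_neg (by simp [c]))]
    simp only [cof, map_apply, cq]
    simp [h, hab.symm]
  have p1 : ph h (n + n) o (x4 * (x3 * (x2 * (x1 * Q)))) = 0 := by
    have z : ∀ d u v, d ≤ j + 1 → cof (1 - x4 * (x3 * (x2 * (x1 * Q)))) d u v = 0 :=
      fun d u v c => by
        have := (sm_sy_mul hj hab).coeff_eq (u := u) (v := v) rfl c
        rw [← hQ, e] at this
        simp [cof, this]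
    rw [ph, lin_eq, hP V (j + 1) (n + n + 1) o h _ (by omega) (fun d u v c => z d u v c.le)
      fun u v _ => z _ u v le_rfl]
    simp [z]
  rw [e]
  simp only [x1, x2, x3, x4] at p1 ⊢
  linear_combination e1 + e2 + e3 + e4 + p0 - p1

theorem sy_zero (hB : Base) {k : ℕ} (hk : k ≠ 0) {o : s → ℕ} (ho : Injective o) {a b : s}
    (hab : a ≠ b) {P : Matrix s s ℤ[X]} (q0 : One P) {ξ : s → G} (hξ : Pres P ξ) :
    pn o ((sy a b (X ^ k : ℤ[X]) X).val * P) ξ k = pn o P ξ k := by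
  have hp := hB.pt_isPot G 0
  have lw : ∀ {Q : Matrix s s ℤ[X]}, One Q → Lowm k (fun _ => 0) (1 - Q) := fun q =>
    ⟨q.sub, by simp⟩
  have z : ∀ {Q : Matrix s s ℤ[X]} (α : ℤ), One Q → Pres Q ξ →
      pp (pt G) o ((1 + single a b (C α * X ^ k)) * Q) ξ k = pp (pt G) o Q ξ k := fun α q x => by
    have := pp_letter hB hk ho hp hp (fun _ => Nat.zero_le _) (lw q) (lw q) (fun _ _ _ _ => rfl)
      hab (m := k) (by omega) (Or.inl le_rfl) (α := α) (α' := 0)
      (fun c => c.2.elim (by omega) fun c => absurd c.2 hab) x x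
    simpa [sub_eq_zero] using this
  have q1 := (one_letter b a (-1) le_rfl).mul q0
  have q2 := (one_letter a b (-1) (m := k) (by omega)).mul q1
  have q3 := (one_letter b a 1 le_rfl).mul q2
  have q4 := (one_letter a b 1 (m := k) (by omega)).mul q3
  have r1 := hξ.mul (tv_inv hab.symm (C (-1) * X ^ 1))
  have r2 := r1.mul (tv_inv hab (C (-1) * X ^ k))
  have r3 := r2.mul (tv_inv hab.symm (C 1 * X ^ 1))
  have e3 := pp_letter hB hk ho hp hp (fun _ => Nat.zero_le _) (lw q2) (lw q1) (fun u v d c => by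
    rw [add_mul (1 : Matrix s s ℤ[X]) (single a b _), one_mul, Matrix.add_apply, coeff_add,
      add_eq_left]
    by_cases e : u = a
    · rw [e, single_mul_apply_same, mul_assoc, coeff_C_mul, coeff_X_pow_mul']
      rcases c.2 with c | ⟨rfl, rfl⟩
      · rw [if_neg (by omega), mul_zero]
      · rw [if_pos le_rfl, Nat.sub_self, q1, if_neg (by rw [e]; exact hab.symm), mul_zero]
    · rw [single_mul_apply_of_ne (h := e), coeff_zero]) hab.symm le_rfl (Or.inl le_rfl) (α := 1)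
    (α' := 1) (fun _ => rfl) r2 r1
  have e : ∀ Q, (sy a b (X ^ k : ℤ[X]) X).val * Q = (1 + single a b (C 1 * X ^ k)) *
      ((1 + single b a (C 1 * X ^ 1)) * ((1 + single a b (C (-1) * X ^ k)) *
        ((1 + single b a (C (-1) * X ^ 1)) * Q))) := fun Q => by
    simp only [← xe_val hab, ← xe_val hab.symm, sy, commutatorElement_def,
      Units.val_mul, Matrix.mul_assoc, map_one, map_neg, one_mul, neg_mul, xe_neg, pow_one]
  have e5 : (1 + single b a (C 1 * X ^ 1)) * ((1 + single b a (C (-1) * X ^ 1)) * P) = P := by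
    rw [← xe_val hab.symm, ← xe_val hab.symm, ← Matrix.mul_assoc, ← Units.val_mul, ← xe_add]
    simp
  rw [e5, z _ q1 r1] at e3
  rw [e, q4.pn, q0.pn, z _ q3 r3]
  linear_combination e3

theorem sm_extM {k : ℕ} (f : V ↪ s) {M M' : Matrix V V ℤ[X]} (h : Sm k M M') :
    Sm k (extM f M) (extM f M') := sm_iff.2 fun u v => by
  rw [extM_def, extM_def, ← Matrix.sub_apply, add_sub_add_left_eq_sub, ← Matrix.sub_mul,
    ← Matrix.mul_sub, sub_sub_sub_cancel_right]
  simp only [mul_apply]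
  exact dvd_sum fun _ _ => (dvd_sum fun _ _ => (sm_iff.1 h _ _).mul_left _).mul_right _

theorem model_ext (hB : Base) (f : V ↪ s) {dg : s → ℤ[X]} (d0 : ∀ i, (dg i).coeff 0 = 1)
    (d1 : ∀ v, dg (f v) = 1) :
    ∃ (G₀ : Type) (_ : AddCommGroup G₀) (_ : Module ℤ[X] G₀) (o : s → ℕ) (β : ℕ) (oV : V → ℕ),
      Injective o ∧ Injective oV ∧ (∀ v, β ≤ oV v) ∧
      ∀ (G₁ : Type) [AddCommGroup G₁] [Module ℤ[X] G₁] (ξ₁ : V → G₁), ∃ p : PT G₁,
      IsPot β p ∧ ∃ κ : s → G₀ × G₁, ∀ M : Matrix V V ℤ[X], One M → Pres M ξ₁ →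
        One (extM f M * diagonal dg) ∧ Pres (extM f M * diagonal dg) κ ∧
          pn o (extM f M * diagonal dg) κ = pp p oV M ξ₁ := by
  obtain ⟨G₀, _, _, o', β, oV, ξ₀, i1, i2, b1, hm⟩ := model hB f f.injective d0
  refine ⟨G₀, inferInstance, inferInstance, o', β, oV, i1, i2, b1, fun G₁ _ _ ξ₁ => ?_⟩
  obtain ⟨p, hp, h⟩ := hm G₁
  refine ⟨p, hp, extend f (fun v => (0, ξ₁ v)) fun x => (ξ₀ x, 0), fun M m1 m2 =>
    h _ _ M ξ₁ m1 m2 (fun u v => ?_) (fun x y c => ?_) (fun v => f.injective.extend_apply _ _ v)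
      fun x c => extend_apply' _ _ _ fun ⟨v, d⟩ => c v d⟩
  · rw [mul_diagonal, extM_apply, d1, mul_one]
  · rw [mul_diagonal, c.elim (fun c => extM_left f M c y) (extM_right f M x), ← mul_diagonal,
      one_mul]

theorem sm_sigma {j : ℕ} (hj : 1 ≤ j) {a b : s} (hab : a ≠ b) :
    Sm (j + 1) (sy a b (X ^ j : ℤ[X]) X * hh xe (X ^ (j + 1)) b a).val 1 :=
  ((sm_refl _ _).mul (sm_hh (by omega) hab)).trans (sm_sy_mul hj hab)

end Pool.Agent.MP_993212_an.H16
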