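import Pool.Agent.MP_993212_an.H16.Spec

/-! Three evaluations of the sign and gyration number. -/

namespace Pool.Agent.MP_993212_an.H16

open Matrix Finset Function

theorem loc_mkKey_lt {a b c r s a' b' c' r' s' : ℕ} :
    mkKey a b c r s < mkKey a' b' c' r' s' ↔ a < a' ∨ a = a' ∧ (b < b' ∨ b = b' ∧
      (c < c' ∨ c = c' ∧ (r < r' ∨ r = r' ∧ s < s'))) := by
  simp only [mkKey, Prod.Lex.toLex_lt_toLex]

theorem loc_mkKey_inj {a b c r s a' b' c' r' s' : ℕ} (h : mkKey a b c r s = mkKey a' b' c' r' s') :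
    a = a' ∧ b = b' ∧ c = c' ∧ r = r' ∧ s = s' := by
  simpa only [mkKey, toLex_inj, Prod.mk.injEq] using h

theorem loc_lex_lt {d : ℕ} {x y : Fin d → Key} :
    toLex x < toLex y ↔ ∃ i, (∀ j < i, x j = y j) ∧ x i < y i := Iff.rfl

theorem loc_lex_congr {d : ℕ} {x y x' y' : Fin d → Key} (h1 : ∀ n, x n < y n ↔ x' n < y' n)
    (h2 : ∀ n, y n < x n ↔ y' n < x' n) : toLex x ≤ toLex y ↔ toLex x' ≤ toLex y' := by
  have h3 : ∀ n, y n = x n ↔ y' n = x' n := fun n => by
    rw [le_antisymm_iff, le_antisymm_iff, ← not_lt, ← not_lt, ← not_lt, ← not_lt, h1, h2]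
  rw [← not_lt, ← not_lt]
  refine not_congr (loc_lex_lt.trans (Iff.trans ?_ loc_lex_lt.symm))
  simp only [h2, h3]

theorem loc_lex_first {d : ℕ} [NeZero d] {x y : Fin d → Key} (h : x 0 < y 0) : toLex x < toLex y :=
  loc_lex_lt.2 ⟨0, fun j hj => absurd hj (Fin.zero_le j).not_gt, h⟩

section Keys

variable {V W : Type} {d : ℕ} [NeZero d] {oV : V → ℕ} {oW : W → ℕ}

theorem loc_cast_surj (i : ZMod d) : ∃ n : Fin d, ((n : ℕ) : ZMod d) = i :=
  ⟨⟨i.val, ZMod.val_lt i⟩, ZMod.natCast_zmod_val i⟩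

theorem loc_keyA_inj (hV : Injective oV) (hW : Injective oW) :
    Injective (keyA oV oW : (ZMod d → Ed V W) → _) := fun z z' h => funext fun i => by
  obtain ⟨n, rfl⟩ := loc_cast_surj i
  obtain ⟨h1, -, h2, h3, h4⟩ := loc_mkKey_inj (congrFun (toLex_inj.1 h) n)
  exact Prod.ext (hV h1) (Prod.ext (hW h2) (Prod.ext h3 h4))

theorem loc_keyB_inj (hV : Injective oV) (hW : Injective oW) :
    Injective (keyB oV oW : (ZMod d → Ed V W) → _) := fun z z' h => funext fun i => by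
  obtain ⟨n, hn⟩ := loc_cast_surj i
  obtain ⟨m, hm⟩ := loc_cast_surj (i - 1)
  obtain ⟨h1, -, -, h2, -⟩ := loc_mkKey_inj (congrFun (toLex_inj.1 h) n)
  obtain ⟨-, -, h3, -, h4⟩ := loc_mkKey_inj (congrFun (toLex_inj.1 h) m)
  rw [hn] at h1 h2
  rw [hm, sub_add_cancel] at h3 h4
  exact Prod.ext (hV h3) (Prod.ext (hW h1) (Prod.ext h4 h2))

omit [NeZero d] in
theorem loc_keys_iff {z z' : ZMod d → Ed V W} (h0 : ∀ i, (z i).2.2.1 = 0)
    (h0' : ∀ i, (z' i).2.2.1 = 0)
    (h1 : ∀ i, oV (z i).1 ≤ oV (z' i).1 ↔ oW (z i).2.1 ≤ oW (z' i).2.1)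
    (h2 : ∀ i, oV (z' i).1 ≤ oV (z i).1 ↔ oW (z' i).2.1 ≤ oW (z i).2.1) :
    keyA oV oW z ≤ keyA oV oW z' ↔ keyB oV oW z ≤ keyB oV oW z' := by
  refine loc_lex_congr (fun n => ?_) fun n => ?_ <;>
  · have a1 := h1 ((n : ℕ) : ZMod d)
    have a2 := h2 ((n : ℕ) : ZMod d)
    have a3 := h1 (((n : ℕ) : ZMod d) + 1)
    have a4 := h2 (((n : ℕ) : ZMod d) + 1)
    rw [loc_mkKey_lt, loc_mkKey_lt, h0, h0, h0', h0']
    omega

theorem loc_keyA_lt {z z' : ZMod d → Ed V W} (h : oV (z 0).1 < oV (z' 0).1) :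
    keyA oV oW z < keyA oV oW z' :=
  loc_lex_first (loc_mkKey_lt.2 (Or.inl (by simpa using h)))

theorem loc_keyB_lt {z z' : ZMod d → Ed V W} (h : oW (z 0).2.1 < oW (z' 0).2.1) :
    keyB oV oW z < keyB oV oW z' :=
  loc_lex_first (loc_mkKey_lt.2 (Or.inl (by simpa using h)))

omit [NeZero d] in
theorem loc_rot_zero {E : Type} (z : ZMod d → E) : rot 0 z = z := funext fun i => by simp [rot]

omit [NeZero d] in
theorem loc_rot_at {E : Type} (z : ZMod d → E) (j : ZMod d) : rot j z 0 = z j := by simp [rot]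

omit [NeZero d] in
/-- a word whose letters have distinct first ranks is least when its first rank is least -/
theorem loc_isBase {Θ : Type} [LinearOrder Θ] {E : Type} (K : (ZMod d → E) → Θ) (o : E → ℕ)
    (hK : ∀ z z', o (z 0) < o (z' 0) → K z < K z') {z : ZMod d → E}
    (hz : ∀ j, o (z j) = o (z 0) → j = 0) : IsBase rot K z ↔ ∀ i, o (z 0) ≤ o (z i) := by
  refine ⟨fun h i => le_of_not_gt fun hi => (h i).not_gt (hK _ _ (by rwa [loc_rot_at])),
    fun h j => ?_⟩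
  by_cases hj : j = 0
  · rw [hj, loc_rot_zero]
  · exact (hK _ _ (by
      rw [loc_rot_at]; exact lt_of_le_of_ne (h j) fun e => hj (hz j e.symm))).le

end Keys

section Split

variable {Y Θ₁ Θ₂ : Type} [LinearOrder Θ₁] [LinearOrder Θ₂] {d : ℕ} {ρ : ZMod d → Y → Y}
  {P : Finset Y}

theorem loc_free_filter (h : Free ρ P) (p : Y → Prop) [DecidablePred p]
    (hp : ∀ j, ∀ x ∈ P, p x → p (ρ j x)) : Free ρ (P.filter p) where
  zero x hx := h.zero x (mem_filter.1 hx).1
  add i j x hx := h.add i j x (mem_filter.1 hx).1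
  mem j x hx := mem_filter.2 ⟨h.mem j x (mem_filter.1 hx).1, hp j x (mem_filter.1 hx).1
    (mem_filter.1 hx).2⟩
  free j x hx := h.free j x (mem_filter.1 hx).1

theorem loc_split [NeZero d] (K₁ : Y → Θ₁) (K₂ : Y → Θ₂) (p : Y → Prop) [DecidablePred p]
    (h1 : ∀ x ∈ P, ∀ y ∈ P, p x → ¬ p y → K₁ x < K₁ y)
    (h2 : ∀ i j, ∀ x ∈ P, ∀ y ∈ P, p x → ¬ p y → K₂ (ρ i x) < K₂ (ρ j y)) :
    gyr ρ P K₁ K₂ = gyr ρ (P.filter p) K₁ K₂ + gyr ρ (P.filter fun x => ¬ p x) K₁ K₂ ∧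
      invs ρ P K₁ K₂ = invs ρ (P.filter p) K₁ K₂ + invs ρ (P.filter fun x => ¬ p x) K₁ K₂ := by
  refine ⟨(sum_filter_add_sum_filter_not P p _).symm, ?_⟩
  rw [invs, invs, invs, ← sum_filter_add_sum_filter_not P p]
  congr 1 <;> refine sum_congr rfl fun x hx => ?_ <;> rw [← sum_filter_add_sum_filter_not P p]
  · rw [add_eq_left]
    refine sum_eq_zero fun y hy => sum_eq_zero fun i _ => sum_eq_zero fun j _ => if_neg fun h => ?_
    exact h.2.2.2.2.2.not_gt (h2 i j x (mem_filter.1 hx).1 y (mem_filter.1 hy).1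
      (mem_filter.1 hx).2 (mem_filter.1 hy).2)
  · rw [add_eq_right]
    refine sum_eq_zero fun y hy => sum_eq_zero fun i _ => sum_eq_zero fun j _ => if_neg fun h => ?_
    exact h.2.2.1.not_gt (h1 y (mem_filter.1 hy).1 x (mem_filter.1 hx).1
      (mem_filter.1 hy).2 (mem_filter.1 hx).2)

end Split

variable {U V W : Type} [Fintype U] [DecidableEq U] [Fintype V] [DecidableEq V] [Fintype W]
  [DecidableEq W]

theorem loc_mem_prim {d : ℕ} [NeZero d] {R : Matrix V W ℕ} {S : Matrix W V ℕ}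
    {z : ZMod d → Ed V W} : z ∈ prim d R S ↔
      (∀ i, (z i).2.2.1 < R (z i).1 (z i).2.1 ∧ (z i).2.2.2 < S (z i).2.1 (z (i + 1)).1) ∧
        ∀ j, rot j z = z → j = 0 := by
  rw [prim, mem_filter, mem_cyc]

theorem loc_fN_congr {V' W' : Type} [Fintype V'] [DecidableEq V'] [Fintype W'] [DecidableEq W']
    {oV : V → ℕ} {oW : W → ℕ} {R : Matrix V W ℕ} {S : Matrix W V ℕ} {oV' : V' → ℕ} {oW' : W' → ℕ}
    {R' : Matrix V' W' ℕ} {S' : Matrix W' V' ℕ}
    (h : ∀ n, gyr rot (prim (n + 1) R S) (keyA oV oW) (keyB oV oW) =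
        gyr rot (prim (n + 1) R' S') (keyA oV' oW') (keyB oV' oW') ∧
      invs rot (prim (n + 1) R S) (keyA oV oW) (keyB oV oW) =
        invs rot (prim (n + 1) R' S') (keyA oV' oW') (keyB oV' oW')) (k : ℕ) :
    fN k oV oW R S = fN k oV' oW' R' S' := by
  rw [fN, fN]
  congr 1
  · cases k with
    | zero => rfl
    | succ n => exact (h n).1
  · funext d
    cases d with
    | zero => rfl
    | succ n => exact congrArg _ (h n).2

theorem loc_emb (h : AbsStmt) (oV : V → ℕ) (oW : W → ℕ) (e : V → W) (S : Matrix W V ℕ) (k : ℕ)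
    (hV : Injective oV) (hW : Injective oW) (he : ∀ u v, oV u ≤ oV v ↔ oW (e u) ≤ oW (e v)) :
    fN k oV oW (inc e) S = 0 := by
  have h1 : ∀ (d : ℕ) [NeZero d], ∀ z ∈ prim d (inc e) S, ∀ i,
      (z i).2.1 = e (z i).1 ∧ (z i).2.2.1 = 0 := fun d _ z hz i => by
    have := ((loc_mem_prim.1 hz).1 i).1
    rw [inc, of_apply] at this
    split_ifs at this with h'
    · exact ⟨h', by omega⟩
    · omega
  have h2 : ∀ n, gyr rot (prim (n + 1) (inc e) S) (keyA oV oW) (keyB oV oW) = 0 ∧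
      invs rot (prim (n + 1) (inc e) S) (keyA oV oW) (keyB oV oW) = 0 := fun n =>
    h.self _ _ _ _ _ _ _ _ (free_prim _ _ _) (loc_keyA_inj hV hW).injOn fun x hx y hy =>
      loc_keys_iff (fun i => (h1 _ x hx i).2) (fun i => (h1 _ y hy i).2)
        (fun i => by rw [(h1 _ x hx i).1, (h1 _ y hy i).1, he])
        fun i => by rw [(h1 _ x hx i).1, (h1 _ y hy i).1, he]
  rw [fN, ← comb_zero k]
  congr 1
  · cases k with
    | zero => rfl
    | succ n => exact (h2 n).1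
  · funext d
    cases d with
    | zero => rfl
    | succ n => exact Nat.cast_eq_zero.2 (h2 n).2

omit [Fintype U] [Fintype V] [DecidableEq V] [Fintype W] [DecidableEq W] in
/-- a closed path stays in one summand -/
theorem loc_side {d : ℕ} [NeZero d] {A : Matrix U U ℕ} {R : Matrix V W ℕ} {S : Matrix W V ℕ}
    {z : ZMod d → Ed (U ⊕ V) (U ⊕ W)}
    (hz : ∀ i, (z i).2.2.1 < fromBlocks (1 : Matrix U U ℕ) 0 0 R (z i).1 (z i).2.1 ∧
      (z i).2.2.2 < fromBlocks A 0 0 S (z i).2.1 (z (i + 1)).1) :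
    (∀ i, ∃ u, (z i).1 = Sum.inl u ∧ (z i).2.1 = Sum.inl u ∧ (z i).2.2.1 = 0) ∨
      ∀ i, ∃ v w, (z i).1 = Sum.inr v ∧ (z i).2.1 = Sum.inr w := by
  have h1 : ∀ i, (∃ u, (z i).1 = Sum.inl u ∧ (z i).2.1 = Sum.inl u ∧ (z i).2.2.1 = 0) ∨
      ∃ v w, (z i).1 = Sum.inr v ∧ (z i).2.1 = Sum.inr w := fun i => by
    have := (hz i).1
    rcases h : (z i).1 with u | v <;> rcases h' : (z i).2.1 with u' | w <;> rw [h, h'] at this
    · rw [fromBlocks_apply₁₁, one_apply] at this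
      split_ifs at this with e
      · exact Or.inl ⟨u, rfl, by rw [e], by omega⟩
      · omega
    · simp at this
    · simp at this
    · exact Or.inr ⟨v, w, rfl, rfl⟩
  have h2 : ∀ i, (z (i + 1)).1.isLeft = (z i).1.isLeft := fun i => by
    have := (hz i).2
    rcases h1 i with ⟨u, a, b, -⟩ | ⟨v, w, a, b⟩ <;> rcases h : (z (i + 1)).1 with u' | v' <;>
      rw [b, h] at this <;> simp_all
  have h3 : ∀ i, (z i).1.isLeft = (z 0).1.isLeft := fun i => by
    rw [← ZMod.natCast_zmod_val i]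
    induction i.val with
    | zero => rw [Nat.cast_zero]
    | succ n ih => rw [Nat.cast_succ, h2, ih]
  rcases h1 0 with ⟨u, a, -⟩ | ⟨v, w, a, -⟩
  · refine Or.inl fun i => (h1 i).resolve_right ?_
    rintro ⟨v, w, b, -⟩
    simpa [a, b] using h3 i
  · refine Or.inr fun i => (h1 i).resolve_left ?_
    rintro ⟨u, b, -⟩
    simpa [a, b] using h3 i

theorem loc_sum (h : AbsStmt) (o : U → ℕ) (oV : V → ℕ) (oW : W → ℕ) (A : Matrix U U ℕ)
    (R : Matrix V W ℕ) (S : Matrix W V ℕ) (k : ℕ) (ho : Injective o) (hV : Injective oV)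
    (hW : Injective oW) (h1 : ∀ u v, o u < oV v) (h2 : ∀ u w, o u < oW w) :
    fN k (Sum.elim o oV) (Sum.elim o oW) (fromBlocks 1 0 0 R) (fromBlocks A 0 0 S) =
      fN k oV oW R S := by
  refine loc_fN_congr (fun n => ?_) k
  set P := prim (n + 1) (fromBlocks (1 : Matrix U U ℕ) 0 0 R) (fromBlocks A 0 0 S) with hP
  let p : (ZMod (n + 1) → Ed (U ⊕ V) (U ⊕ W)) → Prop := fun z => (z 0).1.isLeft
  have hl : ∀ z ∈ P, p z → ∀ i, ∃ u, (z i).1 = Sum.inl u ∧ (z i).2.1 = Sum.inl u ∧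
      (z i).2.2.1 = 0 := fun z hz hp => (loc_side (loc_mem_prim.1 hz).1).resolve_right fun h' => by
    obtain ⟨v, w, a, -⟩ := h' 0
    simp [p, a] at hp
  have hr : ∀ z ∈ P, ¬ p z → ∀ i, ∃ v w, (z i).1 = Sum.inr v ∧ (z i).2.1 = Sum.inr w :=
    fun z hz hp => (loc_side (loc_mem_prim.1 hz).1).resolve_left fun h' => by
      obtain ⟨u, a, -⟩ := h' 0
      simp [p, a] at hp
  have iV : Injective (Sum.elim o oV) := ho.sumElim hV fun u v => (h1 u v).ne
  have iW : Injective (Sum.elim o oW) := ho.sumElim hW fun u w => (h2 u w).ne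
  obtain ⟨e1, e2⟩ := loc_split (ρ := rot) (P := P) (keyA (Sum.elim o oV) (Sum.elim o oW))
    (keyB (Sum.elim o oV) (Sum.elim o oW)) p
    (fun x hx y hy a b => loc_keyA_lt (by
      obtain ⟨u, a', -⟩ := hl x hx a 0
      obtain ⟨v, w, b', -⟩ := hr y hy b 0
      rw [a', b']
      exact h1 u v))
    (fun i j x hx y hy a b => loc_keyB_lt (by
      obtain ⟨u, -, a', -⟩ := hl x hx a i
      obtain ⟨v, w, -, b'⟩ := hr y hy b j
      rw [loc_rot_at, loc_rot_at, a', b']
      exact h2 u w))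
  obtain ⟨a1, a2⟩ := h.self _ _ _ _ rot (P.filter p) (keyA (Sum.elim o oV) (Sum.elim o oW))
    (keyB (Sum.elim o oV) (Sum.elim o oW))
    (loc_free_filter (free_prim _ _ _) p fun j x hx a => by
      obtain ⟨u, a', -⟩ := hl x hx a j
      simp [p, loc_rot_at, a']) (loc_keyA_inj iV iW).injOn fun x hx y hy => by
      have a := hl x (mem_filter.1 hx).1 (mem_filter.1 hx).2
      have b := hl y (mem_filter.1 hy).1 (mem_filter.1 hy).2
      refine loc_keys_iff (fun i => (a i).choose_spec.2.2) (fun i => (b i).choose_spec.2.2)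
        (fun i => ?_) fun i => ?_ <;>
      · obtain ⟨u, a1, a2, -⟩ := a i
        obtain ⟨u', b1, b2, -⟩ := b i
        rw [a1, a2, b1, b2]
        rfl
  let e : (ZMod (n + 1) → Ed V W) → ZMod (n + 1) → Ed (U ⊕ V) (U ⊕ W) :=
    fun z i => (Sum.inr (z i).1, Sum.inr (z i).2.1, (z i).2.2)
  have ei : Injective e := fun z z' h' => funext fun i => by
    have := congrFun h' i
    simp only [e, Prod.mk.injEq, Sum.inr.injEq] at this
    exact Prod.ext this.1 (Prod.ext this.2.1 this.2.2)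
  have em : ∀ z, e z ∈ P ↔ z ∈ prim (n + 1) R S := fun z => by
    rw [loc_mem_prim, loc_mem_prim]
    exact and_congr Iff.rfl (forall_congr' fun j => imp_congr_left (ei.eq_iff (a := rot j z)))
  obtain ⟨b1, b2⟩ := h.transport _ _ _ _ _ _ _ rot rot (prim (n + 1) R S) (P.filter fun x => ¬ p x)
    (keyA oV oW) (keyB oV oW) (keyA (Sum.elim o oV) (Sum.elim o oW))
    (keyB (Sum.elim o oV) (Sum.elim o oW)) e (free_prim _ _ _)
    ⟨fun z hz => mem_coe.2 (mem_filter.2 ⟨(em z).2 hz, by simp [p, e]⟩), ei.injOn, fun z hz => by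
      obtain ⟨a, b⟩ := mem_filter.1 (mem_coe.1 hz)
      choose v w c c' using hr z a b
      have : e (fun i => (v i, w i, (z i).2.2)) = z :=
        funext fun i => Prod.ext (c i).symm (Prod.ext (c' i).symm rfl)
      exact ⟨_, (em _).1 (this.symm ▸ a), this⟩⟩
    (fun _ _ _ => rfl) (fun _ _ _ _ => Iff.rfl) fun _ _ _ _ => Iff.rfl
  rw [e1, e2, a1, a2, b1, b2, zero_add, zero_add]
  exact ⟨rfl, rfl⟩

/-- counting the closed paths over a word of vertices -/
theorem loc_count {M : Type} [AddCommMonoid M] (d : ℕ) [NeZero d] (R : Matrix V W ℕ)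
    (S : Matrix W V ℕ) (F : (ZMod d → V) → M) :
    ∑ z ∈ cyc d R S, F (fun i => (z i).1) = ∑ v, (∏ i, (R * S) (v i) (v (i + 1))) • F v := by
  rw [← sum_fiberwise (cyc d R S) fun z i => (z i).1]
  refine sum_congr rfl fun v _ => ?_
  rw [sum_congr rfl fun z hz => congrArg F (mem_filter.1 hz).2, sum_const]
  congr 1
  have : (cyc d R S).filter (fun z => (fun i => (z i).1) = v) = Fintype.piFinset fun i =>
      univ.biUnion fun w => {v i} ×ˢ {w} ×ˢ range (R (v i) w) ×ˢ range (S w (v (i + 1))) := by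
    ext z
    simp only [mem_filter, mem_cyc, Fintype.mem_piFinset, mem_biUnion, mem_univ, true_and,
      mem_product, mem_singleton, mem_range, funext_iff]
    constructor
    · rintro ⟨a, b⟩ i
      exact ⟨_, b i, rfl, by rw [← b]; exact (a i).1, by rw [← b]; exact (a i).2⟩
    · intro a
      have b : ∀ i, (z i).1 = v i := fun i => (a i).choose_spec.1
      refine ⟨fun i => ?_, b⟩
      obtain ⟨w, -, rfl, c⟩ := a i
      rw [b, b]
      exact c
  rw [this, Fintype.card_piFinset]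
  refine prod_congr rfl fun i _ => ?_
  rw [card_biUnion, mul_apply]
  · simp
  · intro w _ w' _ hw
    refine disjoint_left.2 fun x a b => hw ?_
    simp only [mem_product, mem_singleton] at a b
    exact a.2.1.symm.trans b.2.1

omit [DecidableEq V] [DecidableEq W] in
theorem loc_shift {M : Type} [AddCommMonoid M] (d : ℕ) [NeZero d] (R : Matrix V W ℕ)
    (S : Matrix W V ℕ) (F : (ZMod d → W) → M) :
    ∑ z ∈ cyc d R S, F (fun i => (z i).2.1) = ∑ z ∈ cyc d S R, F (fun i => (z i).1) := by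
  refine sum_nbij' (fun z i => ((z i).2.1, (z (i + 1)).1, (z i).2.2.2, (z (i + 1)).2.2.1))
    (fun z i => ((z (i - 1)).2.1, (z i).1, (z (i - 1)).2.2.2, (z i).2.2.1)) (fun z hz => ?_)
    (fun z hz => ?_) (fun z _ => ?_) (fun z _ => ?_) fun _ _ => rfl
  · rw [mem_cyc] at hz ⊢
    exact fun i => ⟨(hz i).2, (hz (i + 1)).1⟩
  · rw [mem_cyc] at hz ⊢
    refine fun i => ⟨?_, ?_⟩
    · simpa using (hz (i - 1)).2
    · simpa using (hz i).1
  · funext i
    simp
  · funext i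
    simp

theorem loc_pot (k : ℕ) [NeZero k] (o : V → ℕ) (h : V → ZMod k) (R : Matrix V W ℕ)
    (S : Matrix W V ℕ) : pot k o h (zz (R * S)) =
      ∑ z ∈ cyc k R S, if ∀ i, o (z 0).1 ≤ o (z i).1 then h (z 0).1 else 0 := by
  rw [loc_count k R S fun v => if ∀ i, o (v 0) ≤ o (v i) then h (v 0) else 0, pot]
  refine sum_congr rfl fun v _ => ?_
  split_ifs
  · simp [zz_apply]
  · simp

theorem loc_lev (h : AbsStmt) (oV : V → ℕ) (oW : W → ℕ) (R : Matrix V W ℕ) (S : Matrix W V ℕ)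
    (k : ℕ) [NeZero k] (hV : V → ZMod k) (hW : W → ZMod k) (iV : Injective oV) (iW : Injective oW)
    (h1 : ∀ v w, R v w ≠ 0 → hW w = hV v) (h2 : ∀ w v, S w v ≠ 0 → hV v = hW w - 1) :
    fN k oV oW R S = pot k oV hV (zz (R * S)) - pot k oW hW (zz (S * R)) := by
  classical
  have a1 : ∀ (d : ℕ) [NeZero d], ∀ z ∈ cyc d R S, ∀ i, hW (z i).2.1 = hV (z i).1 :=
    fun d _ z hz i => h1 _ _ (Nat.ne_zero_of_lt (mem_cyc.1 hz i).1)
  have a2 : ∀ (d : ℕ) [NeZero d], ∀ z ∈ cyc d R S, ∀ n : ℕ, hV (z n).1 = hV (z 0).1 - n :=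
    fun d _ z hz n => by
      induction n with
      | zero => simp
      | succ n ih =>
        rw [Nat.cast_succ, Nat.cast_succ, h2 _ _ (Nat.ne_zero_of_lt (mem_cyc.1 hz n).2),
          a1 d z hz, ih, sub_sub]
  have a3 : ∀ d, d < k → xi oV oW R S d = 0 := fun d hd => by
    cases d with
    | zero => rfl
    | succ n =>
      have : prim (n + 1) R S = ∅ := eq_empty_of_forall_notMem fun z hz => by
        have := a2 (n + 1) z (mem_filter.1 hz).1 (n + 1)
        rw [ZMod.natCast_self, eq_comm, sub_eq_self, ZMod.natCast_eq_zero_iff] at this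
        exact (Nat.le_of_dvd n.succ_pos this).not_gt hd
      simp [xi, this, invs]
  have a4 : ∀ z ∈ cyc k R S, ∀ j, hV (z j).1 = hV (z 0).1 - j := fun z hz j => by
    simpa only [ZMod.natCast_zmod_val] using a2 k z hz j.val
  have a5 : prim k R S = cyc k R S := filter_true_of_mem fun z hz j hj => by
    have := a4 z hz j
    rwa [← loc_rot_at z j, hj, eq_comm, sub_eq_self] at this
  have a6 : fN k oV oW R S = gyr rot (prim k R S) (keyA oV oW) (keyB oV oW) := by
    rw [fN, comb, sum_eq_zero, mul_zero, add_zero]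
    · obtain ⟨n, rfl⟩ := Nat.exists_eq_succ_of_ne_zero (NeZero.ne k)
      rfl
    · intro i hi
      rw [a3 _ (Nat.div_lt_self (NeZero.pos k) (Nat.one_lt_two_pow (by
        have := (mem_Icc.1 hi).1
        omega)))]
      simp
  rw [a6, h.graded _ _ _ k rot _ _ _ (fun z => hV (z 0).1) (free_prim _ _ _)
    (loc_keyA_inj iV iW).injOn (loc_keyB_inj iV iW).injOn fun j z hz => by
      rw [loc_rot_at]; exact a4 z (mem_filter.1 hz).1 j, a5, loc_pot, loc_pot,
    ← loc_shift k R S fun w => if ∀ i, oW (w 0) ≤ oW (w i) then hW (w 0) else 0]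
  congr 1 <;> refine sum_congr rfl fun z hz => ?_
  · refine if_congr (loc_isBase _ (fun x : Ed V W => oV x.1) (fun _ _ => loc_keyA_lt)
      fun j hj => ?_) rfl rfl
    have := a4 z hz j
    rwa [iV hj, eq_comm, sub_eq_self] at this
  · refine if_congr (loc_isBase _ (fun x : Ed V W => oW x.2.1) (fun _ _ => loc_keyB_lt)
      fun j hj => ?_) (a1 k z hz 0).symm rfl
    have := a4 z hz j
    rwa [← a1 k z hz, ← a1 k z hz, iW hj, eq_comm, sub_eq_self] at this

theorem loc_of (h : AbsStmt) : LocStmt where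
  emb _ _ _ _ _ _ := loc_emb h
  sum _ _ _ _ _ _ _ _ _ := loc_sum h
  lev _ _ _ _ _ _ := loc_lev h

end Pool.Agent.MP_993212_an.H16
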