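import Pool.Agent.MP_993212_an.H16.CV

/-! Three evaluations of the obstruction on loop systems. -/

namespace Pool.Agent.MP_993212_an.H16

open Matrix Function

/-- ROW POT: the potential of a system whose shortest closed paths are loops of length `k` -/
def PotStmt : Prop :=
  ∀ (V : Type) [Fintype V] [DecidableEq V] (k : ℕ) [NeZero k] (L : ℕ) (o : V → ℕ)
    (h : V → ZMod k) (c : ℕ → Matrix V V ℤ), k ≤ L → (∀ d u v, d < k → c d u v = 0) →
    (∀ u v, u ≠ v → c k u v = 0) →
    pot k (rkL o L) (hL h L) (linc L c) = ∑ v, ((c k v v : ℤ) : ZMod k) * h v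

/-- ROW ROT: the shift on one orbit of length `p` -/
def RotStmt : Prop :=
  ∀ (p L k : ℕ) (o : Unit → ℕ), 1 ≤ p → p ≤ L →
    f k (rkL o L) (rkL o L) (linc L fun d => if d = p then 1 else 0) 1 = if k = p then -1 else 0

/-- ROW SWAP: the exchange of two orbits of length `p` -/
def SwapStmt : Prop :=
  ∀ (p L k : ℕ) (o : Bool → ℕ), 1 ≤ p → p ≤ L → Injective o → k ≠ p →
    f k (rkL o L) (rkL o L) (inc fun q : Bool × Fin L => (!q.1, q.2))
      ((inc fun q : Bool × Fin L => (!q.1, q.2)) * linc L fun d => if d = p then 1 else 0) =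
      comb k 0 (Pi.single p 1)

end Pool.Agent.MP_993212_an.H16
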