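import Pool.Agent.MP_993212_an.H16.Blk
import Pool.Agent.MP_993212_an.H16.Spec3

/-! Graded evaluations, relabelling and change of ranks. -/

set_option linter.unusedSectionVars false

namespace Pool.Agent.MP_993212_an.H16

open Matrix Polynomial Finset Function H15

variable {U V W s : Type} [Fintype U] [DecidableEq U] [Fintype V] [DecidableEq V] [Fintype W]
  [DecidableEq W] [Fintype s] [DecidableEq s] {G G' : Type} [AddCommGroup G] [Module ℤ[X] G]
  [AddCommGroup G'] [Module ℤ[X] G']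

/-- congruence modulo `t ^ (k + 1)` -/
abbrev Sm (k : ℕ) (P P' : Matrix V V ℤ[X]) : Prop := Sim k (fun _ => 0) P P'

theorem sm_iff {k : ℕ} {P P' : Matrix V V ℤ[X]} :
    Sm k P P' ↔ ∀ u v, (X : ℤ[X]) ^ (k + 1) ∣ P u v - P' u v :=
  ⟨fun h u v => h.same u v rfl, fun h => ⟨by simp, by simp, fun u v _ => h u v⟩⟩

theorem sm_refl (k : ℕ) (P : Matrix V V ℤ[X]) : Sm k P P := sm_iff.2 (by simp)

theorem gr_El {k : ℕ} {g : GL V ℤ[X]} (h : g ∈ El V ℤ[X]) : (g, g) ∈ Gr k fun _ : V => 0 := by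
  refine (Subgroup.closure_le ((Gr k fun _ : V => 0).comap
    ((MonoidHom.id _).prod (MonoidHom.id _)))).2 ?_ h
  rintro _ ⟨i, j, a, rfl⟩
  exact gr_xe (by simp) (by simp)

theorem pn_El (hB : Base) {k : ℕ} (hk : k ≠ 0) (h3 : Three V) {g : GL V ℤ[X]} (h : g ∈ El V ℤ[X])
    {o : V → ℕ} (ho : Injective o) {P P' : Matrix V V ℤ[X]} (i : Inv0 P) (i' : Inv0 P')
    (e : Sm k P P') {ξ : V → G} {ξ' : V → G'} (hξ : Pres P ξ) (hξ' : Pres P' ξ') :
    pn o (g.val * P) ξ k - pn o P ξ k = pn o (g.val * P') ξ' k - pn o P' ξ' k :=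
  (Gr_le_Rel hB hk h3 _ (gr_El h)).2.2 G G' o P P' ξ ξ' ho i i' e hξ hξ'

theorem Inv0.equiv {P : Matrix W W ℤ[X]} (h : Inv0 P) (E : V ≃ W) : Inv0 (P.submatrix E E) := by
  have : cof (P.submatrix E E) 0 = (cof P 0).submatrix E E := rfl
  rwa [Inv0, this, det_submatrix_equiv_self]

theorem pn_perm (hB : Base) {k : ℕ} (hk : k ≠ 0) (h3 : Three V) (τ : Equiv.Perm V) {o : V → ℕ}
    (ho : Injective o) {P P' : Matrix V V ℤ[X]} (i : Inv0 P) (i' : Inv0 P') (e : Sm k P P')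
    {ξ : V → G} {ξ' : V → G'} (hξ : Pres P ξ) (hξ' : Pres P' ξ') :
    pn o (P.submatrix τ τ) (ξ ∘ τ) k - pn o P ξ k =
      pn o (P'.submatrix τ τ) (ξ' ∘ τ) k - pn o P' ξ' k := by
  have c1 : IsC (pu ℤ[X] τ) := by
    ext1 u v
    simp [pu, pm, cof, apply_ite (coeff · 0), apply_ite C]
  have m := gr_const (k := k) c1 c1 (sm_refl _ _)
  have e1 : ∀ P : Matrix V V ℤ[X], (pu ℤ[X] τ)⁻¹.val * P * (pu ℤ[X] τ).val = P.submatrix τ τ :=
    fun P => by
      have : (pu ℤ[X] τ)⁻¹.val * P * (pu ℤ[X] τ).val = pm ℤ[X] τ * P * (pm ℤ[X] τ)ᵀ := rfl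
      rw [this]
      ext1 u v
      simp [pm, mul_apply]
  have e2 : ∀ (G : Type) [AddCommGroup G] [Module ℤ[X] G] (ξ : V → G),
      pl (pu ℤ[X] τ)⁻¹.val ξ = ξ ∘ τ := fun G _ _ ξ => by
    funext u
    change ∑ w, pm _ τ u w • ξ w = _
    simp [pm, ite_smul]
  have := pn_two hB hk h3 (u := (pu ℤ[X] τ)⁻¹) (u' := (pu ℤ[X] τ)⁻¹) (inv_mem m) m ho i i' e hξ hξ'
  rwa [e1, e1, e2, e2] at this

theorem exists_rank {o o' : V → ℕ} (h : Injective o) (h' : Injective o') :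
    ∃ τ : Equiv.Perm V, ∀ u v, o u ≤ o v ↔ o' (τ u) ≤ o' (τ v) := by
  have key : ∀ o : V → ℕ, Injective o → ∃ E : Fin (Fintype.card V) ≃ V,
      ∀ i j, o (E i) ≤ o (E j) ↔ i ≤ j := fun o ho => by
    let _ := LinearOrder.lift' o ho
    exact ⟨(monoEquivOfFin V rfl).toEquiv, fun i j => (monoEquivOfFin V rfl).le_iff_le⟩
  obtain ⟨E, hE⟩ := key o h
  obtain ⟨E', hE'⟩ := key o' h'
  exact ⟨E.symm.trans E', fun u v => by simpa [hE'] using hE (E.symm u) (E.symm v)⟩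

theorem pn_rank (hB : Base) {k : ℕ} (hk : k ≠ 0) (h3 : Three V) {o o' : V → ℕ} (ho : Injective o)
    (ho' : Injective o') {P P' : Matrix V V ℤ[X]} (i : Inv0 P) (i' : Inv0 P') (e : Sm k P P')
    {ξ : V → G} {ξ' : V → G'} (hξ : Pres P ξ) (hξ' : Pres P' ξ') :
    pn o P ξ k - pn o' P ξ k = pn o P' ξ' k - pn o' P' ξ' k := by
  obtain ⟨τ, hτ⟩ := exists_rank ho ho'
  have z : ∀ (Q : Matrix V V ℤ[X]) w w', (∀ v, τ v ≠ w') → Q w w' = (1 : Matrix V V ℤ[X]) w w' :=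
    fun Q w w' c => absurd (τ.apply_symm_apply w') (c _)
  rw [pn_src hB τ τ.injective ho ho' hτ i (i.equiv τ) (z _) hξ (hξ.equiv τ),
    pn_src hB τ τ.injective ho ho' hτ i' (i'.equiv τ) (z _) hξ' (hξ'.equiv τ)]
  linear_combination -pn_perm hB hk h3 τ ho i i' e hξ hξ'

section Graded

variable {k : ℕ}

/-- graded matrices -/
def Gd (h : V → ZMod k) (P : Matrix V V ℤ[X]) : Prop :=
  ∀ d u v, (P u v).coeff d ≠ 0 → h v + d = h u

variable {h : V → ZMod k} {P Q : Matrix V V ℤ[X]}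

theorem Gd.one : Gd h 1 := fun d u v c => by
  rw [one_apply] at c
  split_ifs at c with e
  · rw [e, show d = 0 from by_contra fun e => c (by simp [coeff_one, e])]
    simp
  · simp at c

theorem Gd.add (a : Gd h P) (b : Gd h Q) : Gd h (P + Q) := fun d u v c => by
  by_cases e : (P u v).coeff d = 0
  · exact b d u v (by simpa [e] using c)
  · exact a d u v e

theorem Gd.neg (a : Gd h P) : Gd h (-P) := fun d u v c => a d u v (by simpa using c)

theorem Gd.sub (a : Gd h P) (b : Gd h Q) : Gd h (P - Q) := by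
  simpa only [sub_eq_add_neg] using a.add b.neg

theorem Gd.mul (a : Gd h P) (b : Gd h Q) : Gd h (P * Q) := fun d u v c => by
  rw [mul_apply, finsetSum_coeff] at c
  obtain ⟨w, -, c⟩ := exists_ne_zero_of_sum_ne_zero c
  rw [coeff_mul] at c
  obtain ⟨q, hq, c⟩ := exists_ne_zero_of_sum_ne_zero c
  rw [← a _ _ _ (left_ne_zero_of_mul c), ← b _ _ _ (right_ne_zero_of_mul c),
    ← mem_antidiagonal.1 hq]
  push_cast
  ring

theorem Gd.single {a b : V} {m : ℕ} (e : h b + m = h a) (α : ℤ) :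
    Gd h (single a b (C α * X ^ m)) := fun d u v c => by
  rw [coeff_single] at c
  split_ifs at c with c1
  · obtain ⟨rfl, rfl, rfl⟩ := c1
    exact e
  · exact absurd rfl c

variable [NeZero k]

/-- the graded potential of a polynomial matrix -/
noncomputable def ph (h : V → ZMod k) (L : ℕ) (o : V → ℕ) (P : Matrix V V ℤ[X]) : ZMod k :=
  pot k (rkL o (L + 1)) (hL h (L + 1)) (lin (L + 1) (1 - P))

theorem ph_zero (L : ℕ) (o : V → ℕ) (P : Matrix V V ℤ[X]) : ph (0 : V → ZMod k) L o P = 0 := by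
  refine sum_eq_zero fun v _ => ?_
  split_ifs with c
  · by_cases e : ∏ i, lin (L + 1) (1 - P) (v i) (v (i + 1)) = 0
    · simp [e]
    · simp [hL, pot_linc_zero k (L + 1) o 0 (cof (1 - P)) v c e]
  · rfl

theorem pp_lev (hB : Base) {β : ℕ} {p : PT G} (hp : IsPot β p) {o : V → ℕ} (ho : Injective o)
    (b1 : ∀ v, β ≤ o v) (q1 : One Q) (g1 : Gd h Q) {n m L : ℕ} (d1 : Dg n Q) (hm : 1 ≤ m)
    (hn : m ≤ n) (hL' : n + m ≤ L + 1) {a b : V} (hab : a ≠ b) (e : h b + m = h a) (α : ℤ)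
    {ξ : V → G} (hξ : Pres Q ξ) :
    pp p o ((1 + single a b (C α * X ^ m)) * Q) ξ k + ph h L o ((1 + single a b (C α * X ^ m)) * Q) =
      pp p o Q ξ k + ph h L o Q := by
  let Y := 1 - Q - single a b (C α * X ^ m : ℤ[X])
  have e0 : Q = 1 - (Y + single a b (C α * X ^ m)) := by simp [Y]
  have y0 : ∀ u v, (Y u v).coeff 0 = 0 := fun u v => by
    simp only [Y]
    rw [Matrix.sub_apply, coeff_sub, q1.sub, coeff_single, if_neg (by omega), sub_zero]
  have yd : Dg (L + 1 - m) Y := fun u v => by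
    refine (natDegree_sub_le _ _).trans (max_le ((d1.one_sub u v).trans (by omega)) ?_)
    rw [single_apply]
    split_ifs
    · exact (natDegree_C_mul_X_pow_le α m).trans (by omega)
    · simp
  have yg : Gd h Y := (Gd.one.sub g1).sub (Gd.single e α)
  have r := congrFun (pp_row hB hp ho b1 y0 yd hm (by omega) hab α (e0 ▸ hξ)) k
  have gv : ∀ Z : Matrix V V ℤ[X], Gd h Z → ∀ x, vec (L + 1) (fun v => C α * X ^ m * Z b v) x ≠ 0 →
      hL h (L + 1) x = hL h (L + 1) (a, 0) - 1 := fun Z hZ x c => by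
    have := (Gd.single e α).mul hZ (x.2 + 1) a x.1 (by simpa [vec] using c)
    simp only [hL, ← this, Fin.val_zero]
    push_cast
    ring
  have l := rrv_lev hB k m _ (rkL o (L + 1)) (hL h (L + 1)) (lin (L + 1) Y) (a, 0) _ _
    (rkL_inj ho _) (linc_graded yg) (gv 1 Gd.one) (gv Y yg) (dies_row Y y0 yd hm (by omega) hab α)
  rw [lin_adr, lin_adr, row_form1, row_form2 _ hab] at l
  rw [← e0] at r l
  simp only [frow, Pi.sub_apply] at r
  have e1 : Y + single a b (C α * X ^ m) = 1 - Q := by simp [Y]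
  rw [e1] at l
  simp only [ph]
  linear_combination r - l

theorem pp_lev_conj (hB : Base) {β : ℕ} {p : PT G} (hp : IsPot β p) {o : V → ℕ} (ho : Injective o)
    (b1 : ∀ v, β ≤ o v) (q1 : One Q) (g1 : Gd (0 : V → ZMod k) Q) {g g' : Matrix V V ℤ}
    (hg : g * g' = 1) {ξ : V → G} (hξ : Pres Q ξ) :
    One (g.map C * Q * g'.map C) ∧ Gd (0 : V → ZMod k) (g.map C * Q * g'.map C) ∧
      Pres (g.map C * Q * g'.map C) (pull g ξ) ∧
      pp p o (g.map C * Q * g'.map C) (pull g ξ) k = pp p o Q ξ k := by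
  have i1 : g.map (C : ℤ → ℤ[X]) * g'.map C = 1 := by rw [← mapC_mul, hg, mapC_one]
  have i2 : g'.map (C : ℤ → ℤ[X]) * g.map C = 1 := mul_eq_one_comm.1 i1
  have gc : ∀ g : Matrix V V ℤ, Gd (0 : V → ZMod k) (g.map C) := fun g d u v c => by
    rw [show d = 0 from by_contra fun e => c (by rw [map_apply, coeff_C, if_neg e])]
    simp
  have e1 : 1 - (1 - Q) * g'.map C * g.map C = Q := by
    rw [Matrix.mul_assoc, i2, mul_one, sub_sub_cancel]
  have e2 : 1 - g.map C * ((1 - Q) * g'.map C) = g.map C * Q * g'.map C := by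
    rw [sub_mul, mul_sub, one_mul, i1, sub_sub_cancel, Matrix.mul_assoc]
  have x : Pres (g.map C * Q * g'.map C) (pull g ξ) := (hξ.mul i2).mul_right i2
  have n0 : ∀ u v, (((1 - Q) * g'.map C) u v).coeff 0 = 0 := fun u v => by
    simp only [mul_apply, finsetSum_coeff, mul_coeff_zero, q1.sub, zero_mul, sum_const_zero]
  have r := congrFun (pp_conj hB hp ho b1 n0 (L := dgr Q)
    ((((dg_dgr Q).mono (Nat.le_succ _)).one_sub).mul_C _) g (e1.symm ▸ hξ) (e2.symm ▸ x)) k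
  rw [cv_lev hB k _ ho 0 (c := cof ((1 - Q) * g'.map C)) (fun _ _ _ => rfl)
    ((Gd.one.sub g1).mul (gc g')), ← cof_C_mul,
    ← cof_mul_C, ← lin_eq, ← lin_eq, ← sub_sub_cancel 1 (g.map C * _),
    ← sub_sub_cancel 1 (_ * g.map C)] at r
  have z := ph_zero (k := k) (dgr Q) o
  simp only [ph] at z
  rw [z, z, sub_sub_cancel, sub_sub_cancel, e1, e2] at r
  refine ⟨e2 ▸ one_C_mul n0 g, ((gc g).mul g1).mul (gc g'), x, ?_⟩
  simp only [Pi.sub_apply] at r
  linear_combination -r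

end Graded

end Pool.Agent.MP_993212_an.H16
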