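import Pool.Agent.MP_993212_an.H16.PP

/-! Locality: entries that lie on no short cycle do not change the values of the two chains. -/

set_option linter.unusedSectionVars false

namespace Pool.Agent.MP_993212_an.H16

open Matrix Polynomial Finset Function

variable {U V W : Type} [Fintype U] [DecidableEq U] [Fintype V] [DecidableEq V] [Fintype W]
  [DecidableEq W] {G G' : Type} [AddCommGroup G] [Module ℤ[X] G] [AddCommGroup G'] [Module ℤ[X] G']

/-- coefficients that can lie on a cycle of length at most `k` -/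
def Short (k : ℕ) (cl : V → ℕ) (u v : V) (d : ℕ) : Prop := cl u = cl v ∧ (d < k ∨ d = k ∧ u = v)

instance (k : ℕ) (cl : V → ℕ) (u v : V) (d : ℕ) : Decidable (Short k cl u v d) := by
  unfold Short
  infer_instance

/-- zero constant term, and block triangular up to degree `k` -/
def Lowm (k : ℕ) (cl : V → ℕ) (M : Matrix V V ℤ[X]) : Prop :=
  (∀ u v, (M u v).coeff 0 = 0) ∧ ∀ u v d, d ≤ k → cl v < cl u → (M u v).coeff d = 0

theorem det_near {k : ℕ} {cl : V → ℕ} {M M' : Matrix V V ℤ[X]} (h : Lowm k cl M)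
    (h' : Lowm k cl M') (e : ∀ u v d, Short k cl u v d → (M u v).coeff d = (M' u v).coeff d) :
    (X : ℤ[X]) ^ (k + 1) ∣ (1 - M).det - (1 - M').det := by
  rw [det_apply, det_apply, ← sum_sub_distrib]
  refine dvd_sum fun σ _ => ?_
  rw [← smul_sub, Units.smul_def, zsmul_eq_mul]
  refine Dvd.dvd.mul_left ?_ _
  have low : ∀ N : Matrix V V ℤ[X], Lowm k cl N → ∀ i, cl i < cl (σ i) →
      (X : ℤ[X]) ^ (k + 1) ∣ ∏ j, (1 - N) (σ j) j := fun N hN i hi => by
    refine Dvd.dvd.trans ?_ (dvd_prod_of_mem _ (mem_univ i))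
    rw [Matrix.sub_apply, one_apply_ne (fun c => by rw [c] at hi; exact lt_irrefl _ hi), zero_sub,
      dvd_neg, X_pow_dvd_iff]
    exact fun d hd => hN.2 _ _ d (by omega) hi
  by_cases c : ∃ i, cl i < cl (σ i)
  · obtain ⟨i, hi⟩ := c
    exact dvd_sub (low M h i hi) (low M' h' i hi)
  have same : ∀ i, cl (σ i) = cl i := by
    have := (sum_eq_sum_iff_of_le (s := univ) (f := fun i => cl (σ i)) (g := cl)
      fun i _ => not_lt.1 fun d => c ⟨i, d⟩).1 (Equiv.sum_comp σ cl)
    exact fun i => this i (mem_univ i)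
  have pr : ∀ (n : ℕ) (s : Finset V), (∀ i ∈ s, (X : ℤ[X]) ^ n ∣ (1 - M) (σ i) i - (1 - M') (σ i) i) →
      (X : ℤ[X]) ^ n ∣ ∏ i ∈ s, (1 - M) (σ i) i - ∏ i ∈ s, (1 - M') (σ i) i := fun n s hs => by
    rw [← Ideal.mem_span_singleton, ← Ideal.Quotient.eq, map_prod, map_prod]
    exact prod_congr rfl fun i hi => Ideal.Quotient.eq.2 (Ideal.mem_span_singleton.2 (hs i hi))
  have dk : ∀ i, (X : ℤ[X]) ^ k ∣ (1 - M) (σ i) i - (1 - M') (σ i) i := fun i => by
    rw [Matrix.sub_apply, Matrix.sub_apply, sub_sub_sub_cancel_left, X_pow_dvd_iff]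
    exact fun d hd => by rw [coeff_sub, e _ _ d ⟨same i, Or.inl hd⟩, sub_self]
  by_cases c2 : ∃ i, σ i ≠ i
  · obtain ⟨i, hi⟩ := c2
    have hi2 : σ (σ i) ≠ σ i := fun d => hi (σ.injective d)
    have x1 : ∀ N : Matrix V V ℤ[X], Lowm k cl N → ∀ j, σ j ≠ j → X ∣ (1 - N) (σ j) j :=
      fun N hN j hj => by
        rw [Matrix.sub_apply, one_apply_ne hj, zero_sub, dvd_neg, X_dvd_iff]
        exact hN.1 _ _
    have sp : ∀ F : V → ℤ[X], ∏ j, F j = F i * (F (σ i) * ∏ j ∈ (univ.erase i).erase (σ i), F j) :=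
      fun F => by rw [mul_prod_erase _ _ (mem_erase.2 ⟨hi, mem_univ _⟩), mul_prod_erase _ _ (mem_univ _)]
    rw [sp, sp fun j => (1 - M') (σ j) j]
    obtain ⟨a, ha⟩ := dk i
    obtain ⟨b, hb⟩ := dk (σ i)
    obtain ⟨r, hr⟩ := pr k ((univ.erase i).erase (σ i)) fun j _ => dk j
    obtain ⟨x, hx⟩ := x1 M h _ hi2
    obtain ⟨y, hy⟩ := x1 M' h' _ hi
    generalize ∏ j ∈ (univ.erase i).erase (σ i), (1 - M) (σ j) j = r1 at *
    generalize ∏ j ∈ (univ.erase i).erase (σ i), (1 - M') (σ j) j = r2 at *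
    refine ⟨a * x * r1 + y * b * r1 + y * (1 - M') (σ (σ i)) (σ i) * r, ?_⟩
    linear_combination ((1 - M) (σ (σ i)) (σ i) * r1) * ha + (X ^ k * a * r1) * hx +
      ((1 - M') (σ i) i * r1) * hb + (X ^ k * b * r1) * hy +
      ((1 - M') (σ i) i * (1 - M') (σ (σ i)) (σ i)) * hr +
      (X ^ k * r * (1 - M') (σ (σ i)) (σ i)) * hy
  · refine pr _ _ fun i _ => ?_
    have : σ i = i := by_contra fun d => c2 ⟨i, d⟩
    rw [this, Matrix.sub_apply, Matrix.sub_apply, sub_sub_sub_cancel_left, X_pow_dvd_iff]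
    exact fun d hd => by rw [coeff_sub, e _ _ d ⟨rfl, by simp; omega⟩, sub_self]

/-- coefficientwise modification -/
noncomputable def pmc (φ : ℕ → ℤ → ℤ) (q : ℤ[X]) : ℤ[X] :=
  ∑ d ∈ q.support, monomial d (φ d (q.coeff d))

theorem coeff_pmc {φ : ℕ → ℤ → ℤ} (h : ∀ d, φ d 0 = 0) (q : ℤ[X]) (n : ℕ) :
    (pmc φ q).coeff n = φ n (q.coeff n) := by
  simp only [pmc, finsetSum_coeff, coeff_monomial, sum_ite_eq', mem_support_iff]
  split_ifs with c
  · rfl
  · rw [not_not.1 c, h]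

/-- nonnegative residues of the selected coefficients -/
noncomputable def rep (c : ℕ) (sel : V → V → ℕ → Prop) [∀ u v d, Decidable (sel u v d)]
    (Y : Matrix V V ℤ[X]) : Matrix V V ℤ[X] :=
  of fun u v => pmc (fun d x => if sel u v d then x % c else 0) (Y u v)

theorem coeff_rep (c : ℕ) (sel : V → V → ℕ → Prop) [∀ u v d, Decidable (sel u v d)]
    (Y : Matrix V V ℤ[X]) (u v : V) (d : ℕ) :
    (rep c sel Y u v).coeff d = if sel u v d then (Y u v).coeff d % c else 0 :=
  coeff_pmc (φ := fun d x => if sel u v d then x % c else 0) (by simp) _ _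

theorem Dg.rep {L : ℕ} {Y : Matrix V V ℤ[X]} (h : Dg L Y) (c : ℕ) (sel : V → V → ℕ → Prop)
    [∀ u v d, Decidable (sel u v d)] : Dg L (rep c sel Y) := fun u v =>
  natDegree_le_iff_coeff_eq_zero.2 fun d hd => by
    rw [coeff_rep, coeff_eq_zero_of_natDegree_lt ((h u v).trans_lt hd)]
    simp

theorem Lowm.rep {k : ℕ} {cl : V → ℕ} {Y : Matrix V V ℤ[X]} (h : Lowm k cl Y) (c : ℕ)
    (sel : V → V → ℕ → Prop) [∀ u v d, Decidable (sel u v d)] : Lowm k cl (rep c sel Y) :=
  ⟨fun u v => by simp [coeff_rep, h.1], fun u v d a b => by simp [coeff_rep, h.2 u v d a b]⟩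

theorem vec_mon (L m : ℕ) (α : ℤ) (q : V → ℤ[X]) (x : V × Fin L) :
    vec L (fun v => C α * X ^ m * q v) x =
      α * if m ≤ x.2 + 1 then (q x.1).coeff (x.2 + 1 - m) else 0 := by
  rw [vec, mul_assoc, coeff_C_mul, coeff_X_pow_mul']

theorem frow_congr (k L : ℕ) (o : V → ℕ) {Y Y' : Matrix V V ℤ[X]} (a b : V) {α α' : ℤ} (m : ℕ)
    (h1 : ∀ d, Cg (md k) (cof Y d) (cof Y' d)) (h2 : α ≡ α' [ZMOD md k]) :
    frow L o Y a b α m k = frow L o Y' a b α' m k := by
  rw [frow, frow, Pi.sub_apply, Pi.sub_apply]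
  congr 1
  · refine rrv_congr k m _ _ _ _ _ _ _ (linc_cg h1) fun x => ?_
    rw [vec_mon, vec_mon]
    refine h2.mul ?_
    split_ifs
    exacts [h1 _ _ _, Int.ModEq.refl _]
  · refine rrv_congr k m _ _ _ _ _ _ _ (linc_cg h1) fun x => ?_
    rw [vec_mon, vec_mon]
    exact h2.mul (Int.ModEq.refl _)

theorem Base.trace_lin (hB : Base) {k L : ℕ} {M M' : Matrix V V ℤ[X]}
    (h1 : ∀ u v, (M u v).coeff 0 = 0) (h1' : ∀ u v, (M' u v).coeff 0 = 0) (h2 : Dg L M)
    (h2' : Dg L M') (e : (X : ℤ[X]) ^ (k + 1) ∣ (1 - M).det - (1 - M').det) :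
    ∀ j, 1 ≤ j → j ≤ k → trace (lin L M ^ j) = trace (lin L M' ^ j) :=
  hB.tr.trace_eq _ _ _ _ k (by rwa [hB.tr.det_lin V L M h1 h2, hB.tr.det_lin V L M' h1' h2'])

theorem row_gen {L m : ℕ} {Y : Matrix V V ℤ[X]} (hY : ∀ u v, (Y u v).coeff 0 = 0)
    (hd : Dg (L + 1 - m) Y) (hm : 1 ≤ m) (hm2 : m ≤ L + 1) (a : V) (α : ℤ) (q : V → ℤ[X])
    (hq : ∀ v, (q v).natDegree ≤ L + 1 - m) :
    (∀ u v, ((Y + of fun u v => if u = a then C α * X ^ m * q v else 0 : Matrix V V ℤ[X]) u v).coeff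
      0 = 0) ∧
      Dg (L + 1) (Y + of fun u v => if u = a then C α * X ^ m * q v else 0) := by
  have c0 : (C α * X ^ m : ℤ[X]).coeff 0 = 0 := by
    rw [coeff_C_mul, coeff_X_pow, if_neg (by omega), mul_zero]
  have cd : (C α * X ^ m : ℤ[X]).natDegree ≤ m := natDegree_C_mul_X_pow_le α m
  refine ⟨fun u v => ?_, fun u v => ?_⟩
  · rw [Matrix.add_apply, coeff_add, hY, of_apply]
    split_ifs
    · rw [mul_coeff_zero, c0, zero_mul, add_zero]
    · simp
  · rw [Matrix.add_apply, of_apply]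
    refine (natDegree_add_le _ _).trans (max_le ((hd u v).trans (by omega)) ?_)
    split_ifs
    · have := hq v
      exact natDegree_mul_le.trans (by omega)
    · simp

theorem det_row {a b : V} (hab : a ≠ b) (c : ℤ[X]) (P : Matrix V V ℤ[X]) :
    ((1 + single a b c) * P).det = P.det := by
  rw [det_mul, show (1 + single a b c).det = 1 from det_transvection_of_ne a b hab c, one_mul]

theorem frow_mono (hB : Base) (k : ℕ) {L m : ℕ} {o : V → ℕ} (ho : Injective o)
    {Y Y' : Matrix V V ℤ[X]} (hY : ∀ u v, (Y u v).coeff 0 = 0) (hY' : ∀ u v, (Y' u v).coeff 0 = 0)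
    (hd : Dg (L + 1 - m) Y) (hd' : Dg (L + 1 - m) Y') (hm : 1 ≤ m) (hm2 : m ≤ L + 1) {a b : V}
    (hab : a ≠ b) {α α' : ℤ} (y0 : ∀ d u v, 0 ≤ cof Y' d u v)
    (y1 : ∀ d u v, cof Y' d u v ≤ cof Y d u v) (a0 : 0 ≤ α') (a1 : α' ≤ α)
    (e : (X : ℤ[X]) ^ (k + 1) ∣ (1 - (Y + single a b (C α * X ^ m))).det -
      (1 - (Y' + single a b (C α' * X ^ m))).det) :
    frow L o Y a b α m k = frow L o Y' a b α' m k := by
  have d1 : ∀ v, ((1 : Matrix V V ℤ[X]) b v).natDegree ≤ L + 1 - m := fun v => by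
    rw [one_apply]
    split_ifs <;> simp
  rw [frow, frow, Pi.sub_apply, Pi.sub_apply]
  congr 1
  · refine rrv_mono hB k m _ _ _ _ _ _ _ (rkL_inj ho _) (linc_nonneg y0) (linc_le y1)
      (fun x => ?_) (fun x => ?_) ?_
    · rw [vec_mon]
      refine mul_nonneg a0 ?_
      split_ifs
      exacts [y0 _ _ _, le_rfl]
    · rw [vec_mon, vec_mon]
      split_ifs
      exacts [mul_le_mul a1 (y1 _ _ _) (y0 _ _ _) (a0.trans a1), by simp]
    · rw [lin_adr, lin_adr]
      have g1 := row_gen hY hd hm hm2 a α (Y b) (hd b)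
      have g2 := row_gen hY' hd' hm hm2 a α' (Y' b) (hd' b)
      refine hB.trace_lin g1.1 g2.1 g1.2 g2.2 ?_
      rwa [row_form2 _ hab, row_form2 _ hab, sub_sub_cancel, sub_sub_cancel, det_row hab,
        det_row hab]
  · have n1 : ∀ v n, 0 ≤ ((1 : Matrix V V ℤ[X]) b v).coeff n := fun v n => by
      rw [one_apply]
      split_ifs
      · rw [coeff_one]
        split_ifs <;> simp
      · simp
    refine rrv_mono hB k m _ _ _ _ _ _ _ (rkL_inj ho _) (linc_nonneg y0) (linc_le y1)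
      (fun x => ?_) (fun x => ?_) ?_
    · rw [vec_mon]
      refine mul_nonneg a0 ?_
      split_ifs
      exacts [n1 _ _, le_rfl]
    · rw [vec_mon, vec_mon]
      split_ifs
      exacts [mul_le_mul_of_nonneg_right a1 (n1 _ _), by simp]
    · rw [lin_adr, lin_adr]
      have g1 := row_gen hY hd hm hm2 a α _ d1
      have g2 := row_gen hY' hd' hm hm2 a α' _ d1
      refine hB.trace_lin g1.1 g2.1 g1.2 g2.2 ?_
      rwa [row_form1, row_form1]

theorem coeff_single (a b u v : V) (α : ℤ) (m d : ℕ) :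
    (single a b (C α * X ^ m : ℤ[X]) u v).coeff d = if a = u ∧ b = v ∧ d = m then α else 0 := by
  rw [single_apply]
  by_cases h : a = u ∧ b = v
  · simp [h, coeff_X_pow]
  · rw [if_neg h, if_neg fun c => h ⟨c.1, c.2.1⟩, coeff_zero]

theorem Lowm.add_single {k m : ℕ} {cl : V → ℕ} {Y : Matrix V V ℤ[X]} (h : Lowm k cl Y) {a b : V}
    (hm : 1 ≤ m) (hl : cl a ≤ cl b ∨ k < m) (α : ℤ) :
    Lowm k cl (Y + single a b (C α * X ^ m)) := by
  refine ⟨fun u v => ?_, fun u v d h1 h2 => ?_⟩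
  · rw [Matrix.add_apply, coeff_add, h.1, coeff_single, if_neg (by omega), add_zero]
  · rw [Matrix.add_apply, coeff_add, h.2 u v d h1 h2, coeff_single, if_neg, add_zero]
    rintro ⟨rfl, rfl, rfl⟩
    omega

theorem frow_near (hB : Base) {k : ℕ} (hk : k ≠ 0) {L m : ℕ} {o : V → ℕ} (ho : Injective o)
    {cl : V → ℕ} {Y Y' : Matrix V V ℤ[X]} (hY : Lowm k cl Y) (hY' : Lowm k cl Y')
    (hd : Dg (L + 1 - m) Y) (hd' : Dg (L + 1 - m) Y') (hm : 1 ≤ m) (hm2 : m ≤ L + 1) {a b : V}
    (hab : a ≠ b) (hl : cl a ≤ cl b ∨ k < m) {α α' : ℤ} (hα : Short k cl a b m → α = α')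
    (e : ∀ u v d, Short k cl u v d → (Y u v).coeff d = (Y' u v).coeff d) :
    frow L o Y a b α m k = frow L o Y' a b α' m k := by
  have hc : ((md k : ℕ) : ℤ) ≠ 0 := by exact_mod_cast (md_pos hk).ne'
  have one : ∀ (Y : Matrix V V ℤ[X]) (α : ℤ), Lowm k cl Y → Dg (L + 1 - m) Y →
      frow L o Y a b α m k = frow L o (rep (md k) (Short k cl) Y) a b
        (if Short k cl a b m then α % md k else 0) m k := by
    intro Y α hY hd
    rw [frow_congr k L o (Y' := rep (md k) (fun _ _ _ => True) Y) a b (α' := α % md k) m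
      (fun d u v => by
        simp only [cof, map_apply, coeff_rep, if_true]
        exact (Int.mod_modEq _ _).symm) (Int.mod_modEq _ _).symm]
    refine frow_mono hB k ho (hY.rep _ _).1 (hY.rep _ _).1 (hd.rep _ _) (hd.rep _ _) hm hm2 hab
      (fun d u v => ?_) (fun d u v => ?_) ?_ ?_ (det_near ((hY.rep _ _).add_single hm hl _)
        ((hY.rep _ _).add_single hm hl _) fun u v d hs => ?_)
    · simp only [cof, map_apply, coeff_rep]
      split_ifs
      exacts [Int.emod_nonneg _ hc, le_rfl]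
    · simp only [cof, map_apply, coeff_rep, if_true]
      split_ifs
      exacts [le_rfl, Int.emod_nonneg _ hc]
    · split_ifs
      exacts [Int.emod_nonneg _ hc, le_rfl]
    · split_ifs
      exacts [le_rfl, Int.emod_nonneg _ hc]
    · simp only [Matrix.add_apply, coeff_add, coeff_rep, coeff_single, if_true, if_pos hs]
      congr 1
      split_ifs with c1 c2
      · rfl
      · obtain ⟨rfl, rfl, rfl⟩ := c1
        exact absurd hs c2
      · rfl
  have e1 : rep (md k) (Short k cl) Y = rep (md k) (Short k cl) Y' := by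
    ext u v d
    rw [coeff_rep, coeff_rep]
    split_ifs with c
    exacts [by rw [e u v d c], rfl]
  rw [one Y α hY hd, one Y' α' hY' hd', e1]
  congr 1
  split_ifs with c
  exacts [by rw [hα c], rfl]

/-- the two matrices are block triangular with the same diagonal blocks modulo `t ^ (k + 1)` -/
structure Sim (k : ℕ) (cl : V → ℕ) (P P' : Matrix V V ℤ[X]) : Prop where
  low : ∀ u v, cl v < cl u → (X : ℤ[X]) ^ (k + 1) ∣ P u v
  low' : ∀ u v, cl v < cl u → (X : ℤ[X]) ^ (k + 1) ∣ P' u v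
  same : ∀ u v, cl u = cl v → (X : ℤ[X]) ^ (k + 1) ∣ P u v - P' u v

namespace Sim

variable {k : ℕ} {cl : V → ℕ} {P P' P'' Q Q' : Matrix V V ℤ[X]}

theorem symm (h : Sim k cl P P') : Sim k cl P' P :=
  ⟨h.low', h.low, fun u v e => dvd_sub_comm.1 (h.same u v e)⟩

theorem left (h : Sim k cl P P') : Sim k cl P P := ⟨h.low, h.low, fun _ _ _ => by simp⟩

theorem trans (h : Sim k cl P P') (h' : Sim k cl P' P'') : Sim k cl P P'' :=
  ⟨h.low, h'.low', fun u v e => by simpa using dvd_add (h.same u v e) (h'.same u v e)⟩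

theorem one : Sim k cl (1 : Matrix V V ℤ[X]) 1 :=
  ⟨fun u v e => by rw [one_apply_ne fun c => by simp [c] at e]; simp,
    fun u v e => by rw [one_apply_ne fun c => by simp [c] at e]; simp, fun _ _ _ => by simp⟩

theorem sub (h : Sim k cl P P') (h' : Sim k cl Q Q') : Sim k cl (P - Q) (P' - Q') :=
  ⟨fun u v e => dvd_sub (h.low u v e) (h'.low u v e),
    fun u v e => dvd_sub (h.low' u v e) (h'.low' u v e), fun u v e => by
      have := dvd_sub (h.same u v e) (h'.same u v e)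
      rwa [sub_sub_sub_comm] at this⟩

theorem mul (h : Sim k cl P P') (h' : Sim k cl Q Q') : Sim k cl (P * Q) (P' * Q') := by
  have low : ∀ {P P' Q Q' : Matrix V V ℤ[X]}, Sim k cl P P' → Sim k cl Q Q' → ∀ u v w,
      cl w < cl u ∨ cl v < cl w → (X : ℤ[X]) ^ (k + 1) ∣ P u w * Q w v := by
    intro P P' Q Q' h h' u v w c
    rcases c with c | c
    exacts [(h.low u w c).mul_right _, (h'.low w v c).mul_left _]
  refine ⟨fun u v e => dvd_sum fun w _ => low h h' u v w (by omega),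
    fun u v e => dvd_sum fun w _ => low h.symm h'.symm u v w (by omega), fun u v e => ?_⟩
  rw [mul_apply, mul_apply, ← sum_sub_distrib]
  refine dvd_sum fun w _ => ?_
  by_cases c : cl u = cl w
  · have : P u w * Q w v - P' u w * Q' w v =
        (P u w - P' u w) * Q w v + P' u w * (Q w v - Q' w v) := by ring
    rw [this]
    exact dvd_add ((h.same u w c).mul_right _) ((h'.same w v (by omega)).mul_left _)
  · exact dvd_sub (low h h' u v w (by omega)) (low h.symm h'.symm u v w (by omega))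

theorem lowm (h : Sim k cl P P') (h0 : ∀ u v, (P u v).coeff 0 = 0) : Lowm k cl P :=
  ⟨h0, fun u v d a b => X_pow_dvd_iff.1 (h.low u v b) d (by omega)⟩

theorem coeff_eq (h : Sim k cl P P') {u v : V} {d : ℕ} (a : cl u = cl v) (b : d ≤ k) :
    (P u v).coeff d = (P' u v).coeff d := by
  rw [← sub_eq_zero, ← coeff_sub]
  exact X_pow_dvd_iff.1 (h.same u v a) d (by omega)

theorem short (h : Sim k cl P P') (u v : V) (d : ℕ) (s : Short k cl u v d) :
    (P u v).coeff d = (P' u v).coeff d := h.coeff_eq s.1 (by have := s.2; omega)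

theorem mono (h : Sim k cl P P') {j : ℕ} (e : j ≤ k) : Sim j cl P P' :=
  have d : (X : ℤ[X]) ^ (j + 1) ∣ X ^ (k + 1) := pow_dvd_pow _ (by omega)
  ⟨fun u v c => d.trans (h.low u v c), fun u v c => d.trans (h.low' u v c),
    fun u v c => d.trans (h.same u v c)⟩

theorem of_coeff (h1 : ∀ u v d, d ≤ k → cl v < cl u → (P u v).coeff d = 0)
    (h2 : ∀ u v d, d ≤ k → cl v < cl u → (P' u v).coeff d = 0)
    (h3 : ∀ u v d, d ≤ k → cl u = cl v → (P u v).coeff d = (P' u v).coeff d) : Sim k cl P P' :=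
  ⟨fun u v c => X_pow_dvd_iff.2 fun d hd => h1 u v d (by omega) c,
    fun u v c => X_pow_dvd_iff.2 fun d hd => h2 u v d (by omega) c,
    fun u v c => X_pow_dvd_iff.2 fun d hd => by rw [coeff_sub, h3 u v d (by omega) c, sub_self]⟩

end Sim

theorem cv_sim (hB : Base) {k : ℕ} (hk : k ≠ 0) {L : ℕ} {o : V → ℕ} (ho : Injective o)
    {cl : V → ℕ} {g g' : Matrix V V ℤ} {N N' : Matrix V V ℤ[X]}
    (h0 : ∀ u v, (N u v).coeff 0 = 0) (h0' : ∀ u v, (N' u v).coeff 0 = 0) (hd : Dg L N)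
    (hd' : Dg L N') (hg : Sim k cl (g.map C) (g'.map C)) (hN : Sim k cl N N') :
    cv L o g (cof N) k = cv L o g' (cof N') k := by
  have hc : ((md k : ℕ) : ℤ) ≠ 0 := by exact_mod_cast (md_pos hk).ne'
  let sel : V → V → ℕ → Prop := fun u v d => cl u = cl v ∧ d ≤ k
  have one : ∀ (g g' : Matrix V V ℤ) (N N' : Matrix V V ℤ[X]), (∀ u v, (N u v).coeff 0 = 0) →
      Dg L N → Sim k cl (g.map C) (g'.map C) → Sim k cl N N' → cv L o g (cof N) k =
        cv L o (of fun u v => if cl u = cl v then g u v % md k else 0)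
          (cof (rep (md k) sel N)) k := by
    intro g g' N N' h0 hd hg hN
    rw [cv_congr k L o (g' := g.map fun x => x % md k)
      (c' := cof (rep (md k) (fun _ _ _ => True) N)) (fun u v => (Int.mod_modEq _ _).symm)
      fun d u v => by
        simp only [cof, map_apply, coeff_rep, if_true]
        exact (Int.mod_modEq _ _).symm]
    have l1 := (hN.lowm h0).rep (md k) fun _ _ _ => True
    have l2 := (hN.lowm h0).rep (md k) sel
    have g0 : ∀ u v, cl v < cl u → g u v = 0 := fun u v c => by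
      simpa using X_pow_dvd_iff.1 (hg.low u v c) 0 (by omega)
    refine cv_mono hB k L ho (fun u v => ?_) (fun u v => ?_) (fun d u v => ?_) (fun d u v => ?_) ?_
    · simp only [of_apply]
      split_ifs
      exacts [Int.emod_nonneg _ hc, le_rfl]
    · simp only [of_apply, map_apply]
      split_ifs
      exacts [le_rfl, Int.emod_nonneg _ hc]
    · simp only [cof, map_apply, coeff_rep]
      split_ifs
      exacts [Int.emod_nonneg _ hc, le_rfl]
    · simp only [cof, map_apply, coeff_rep, if_true]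
      split_ifs
      exacts [le_rfl, Int.emod_nonneg _ hc]
    · rw [← cof_C_mul, ← cof_C_mul, ← lin_eq, ← lin_eq]
      have z1 : ∀ (g : Matrix V V ℤ) (N : Matrix V V ℤ[X]), (∀ u v, (N u v).coeff 0 = 0) →
          ∀ u v, ((g.map C * N) u v).coeff 0 = 0 := fun g N h u v => by simp [mul_apply, h]
      have s : Sim k cl ((g.map fun x => x % md k).map C * rep (md k) (fun _ _ _ => True) N)
          ((of fun u v => if cl u = cl v then g u v % md k else 0).map C * rep (md k) sel N) := by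
        refine Sim.mul ⟨fun u v c => by simp [g0 u v c], fun u v c => by simp [c.ne'],
          fun u v c => by simp [c]⟩ (Sim.of_coeff l1.2 l2.2 fun u v d a b => ?_)
        rw [coeff_rep, coeff_rep, if_pos trivial, if_pos ⟨b, a⟩]
      exact hB.trace_lin (z1 _ _ l1.1) (z1 _ _ l2.1) ((hd.rep _ _).C_mul _) ((hd.rep _ _).C_mul _)
        (det_near (s.lowm (z1 _ _ l1.1)) (s.symm.lowm (z1 _ _ l2.1)) s.short)
  rw [one g g' N N' h0 hd hg hN, one g' g N' N h0' hd' hg.symm hN.symm]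
  congr 1
  · ext u v
    simp only [of_apply]
    split_ifs with c
    · have := hg.coeff_eq c (Nat.zero_le k)
      simp only [map_apply, coeff_C_zero] at this
      rw [this]
    · rfl
  · congr 1
    ext u v d
    rw [coeff_rep, coeff_rep]
    split_ifs with c
    exacts [by rw [hN.coeff_eq c.1 c.2], rfl]

end Pool.Agent.MP_993212_an.H16
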