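import Pool.Agent.MP_993212_an.H16.P1A

/-! Certificates for non-realisability. -/

namespace Pool.Agent.MP_993212_an.H16

open Matrix Finset Function H12 H46 Filter

namespace P1A

abbrev Cc := ℕ × ℕ × ℕ × LL × LL

def okx (cc : Cc → ℕ) (D : LL) (c : List St) (x : List ℕ) (k : ℕ) : Bool :=
  (!decide ((npP D k).1 ≤ (npP D k).2 + k) || x.getD k 0 == 0) &&
    (!((npP D k).1 == (npP D k).2) || val cc k c % k == cmb k x % k)

def bad (cc : Cc → ℕ) (D : LL) (c : List St) (N : ℕ) : Bool :=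
  (lists (N + 1) [0, 1]).all fun x => !all1 (N + 1) (okx cc D c x)

def chainOK (D E : LL) (r : ZL) (c : List St) (a b : ℕ) : Bool :=
  (runZ D c).2.2.2 && ((runZ D c).1 == E.length &&
    (eqZ E.length E.length (runZ D c).2.1 (E, []) &&
      eqZ D.length E.length (mulZ D.length D.length E.length (pw D a, []) r)
        (mulZ D.length D.length E.length (pw D b, []) (runZ D c).2.2.1)))

abbrev Cert := ℕ × List St × ℕ × ℕ × ℕ

def chk0 (cc : Cc → ℕ) (p : (LL × LL × ZL) × Cert) : Bool :=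
  negZ p.1.1.length p.1.2.1.length
      (mulZ p.1.1.length p.1.1.length p.1.2.1.length (pw p.1.1 p.2.1, []) p.1.2.2) ||
    (chainOK p.1.1 p.1.2.1 p.1.2.2 p.2.2.1 p.2.2.2.1 p.2.2.2.2.1 &&
      bad cc p.1.1 p.2.2.1 p.2.2.2.2.2)

section Prim

variable {α : Type} [Primcodable α] {cc : Cc → ℕ}

theorem P.okx (hcc : Primrec cc) {D : α → LL} {c : α → List St} {x : α → List ℕ} {k : α → ℕ}
    (hD : Primrec D) (hc : Primrec c) (hx : Primrec x) (hk : Primrec k) :
    Primrec fun a => okx cc (D a) (c a) (x a) (k a) := by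
  have := P.val hcc hk hc
  unfold P1A.okx
  fun_prop

theorem P.bad (hcc : Primrec cc) {D : α → LL} {c : α → List St} {k : α → ℕ}
    (hD : Primrec D) (hc : Primrec c) (hk : Primrec k) :
    Primrec fun a => bad cc (D a) (c a) (k a) := by
  unfold P1A.bad
  refine MP_c1eef4_lc.H62.P.all (by fun_prop) (MP_c1eef4_lc.H62.P.not (H12.P.all1 (by fun_prop) ?_))
  exact P.okx hcc (by fun_prop) (by fun_prop) (by fun_prop) (by fun_prop)

@[fun_prop] theorem P.chainOK {D E : α → LL} {r : α → ZL} {c : α → List St} {a b : α → ℕ}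
    (hD : Primrec D) (hE : Primrec E) (hr : Primrec r) (hc : Primrec c) (ha : Primrec a)
    (hb : Primrec b) : Primrec fun x => chainOK (D x) (E x) (r x) (c x) (a x) (b x) := by
  unfold P1A.chainOK; fun_prop

theorem P.chk0 (hcc : Primrec cc) : Primrec (chk0 cc) := by
  have : Primrec fun p : (LL × LL × ZL) × Cert => P1A.bad cc p.1.1 p.2.2.1 p.2.2.2.2.2 :=
    P.bad hcc (by fun_prop) (by fun_prop) (by fun_prop)
  unfold P1A.chk0
  fun_prop

end Prim

theorem okx_iff {cc : Cc → ℕ} {D : LL} {c : List St} {x : List ℕ} {k : ℕ} :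
    okx cc D c x k = true ↔
      (np k (toM D.length D.length D) ≤ k → x.getD k 0 = 0) ∧
        (np k (toM D.length D.length D) = 0 →
          (val cc k c : ZMod k) = comb k 0 fun d => (x.getD d 0 : ℕ)) := by
  rw [← npP_eq, ← cmb_eq, ZMod.natCast_eq_natCast_iff']
  simp only [okx, Bool.and_eq_true, Bool.or_eq_true, Bool.not_eq_true', decide_eq_false_iff_not,
    beq_iff_eq, beq_eq_false_iff_ne]
  refine and_congr ?_ ?_
  · rw [← imp_iff_not_or]
    exact imp_congr_left (by omega)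
  · rw [← imp_iff_not_or]
    exact imp_congr_left (by omega)

theorem bad_iff {cc : Cc → ℕ} {D : LL} {c : List St} {N : ℕ} : bad cc D c N = true ↔
    ∀ x ∈ lists (N + 1) [0, 1], ¬∀ k ≤ N, okx cc D c x k = true := by
  simp only [bad, List.all_eq_true, Bool.not_eq_true', ← Bool.not_eq_true, all1_iff]
  refine forall₂_congr fun x _ => not_congr ⟨fun h k hk => h ⟨k, by omega⟩, fun h k => ?_⟩
  exact h k (by omega)

theorem not_adm_of_bad {cc : Cc → ℕ} {D : LL} {c : List St} {N : ℕ} (h : bad cc D c N = true) :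
    (fun k => (val cc k c : ZMod k) : Val) ∉ Adm (toM D.length D.length D) := by
  rintro ⟨g, x, h1, h2, h3⟩
  have hx : ∀ d ≤ N, ((List.range (N + 1)).map fun d => (x d % 2).toNat).getD d 0 =
      (x d % 2).toNat := fun d hd => by
    simp [List.getD_eq_getElem?_getD, Nat.lt_succ_of_le hd]
  refine bad_iff.1 h ((List.range (N + 1)).map fun d => (x d % 2).toNat) ?_ fun k hk => ?_
  · have := mem_lists [0, 1] ((List.range (N + 1)).map fun d => (x d % 2).toNat) (by
      intro y hy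
      obtain ⟨d, -, rfl⟩ := List.mem_map.1 hy
      simp only [List.mem_cons, List.not_mem_nil, or_false]
      omega)
    simpa using this
  · refine okx_iff.2 ⟨fun hk' => ?_, fun hk' => ?_⟩
    · rw [hx k hk, h2 k hk']
      rfl
    · refine (h3 k).trans ?_
      rw [h1 k hk']
      refine comb_congr k 0 fun d hd => ?_
      rw [hx d (hd.trans hk)]
      omega

theorem exists_bad {cc : Cc → ℕ} {D : LL} {c : List St}
    (h : (fun k => (val cc k c : ZMod k) : Val) ∉ Adm (toM D.length D.length D)) :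
    ∃ N, bad cc D c N = true := by
  classical
  by_contra hN
  have h1 : ∀ N, ∃ x : List ℕ, ∀ k ≤ N, okx cc D c x k = true := fun N => by
    by_contra h2
    exact hN ⟨N, bad_iff.2 fun x _ h3 => h2 ⟨x, h3⟩⟩
  choose x hx using h1
  let U : Ultrafilter ℕ := hyperfilter ℕ
  have hU : ∀ k, ∀ᶠ N in (U : Filter ℕ), k ≤ N := fun k =>
    (Nat.hyperfilter_le_atTop) (eventually_ge_atTop k)
  let y : ℕ → ℤ := fun d => if ∀ᶠ N in (U : Filter ℕ), (x N).getD d 0 % 2 = 0 then 0 else 1
  have hy : ∀ d, ∀ᶠ N in (U : Filter ℕ), y d % 2 = (((x N).getD d 0 : ℕ) : ℤ) % 2 := fun d => by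
    by_cases h2 : ∀ᶠ N in (U : Filter ℕ), (x N).getD d 0 % 2 = 0
    · refine h2.mono fun N h3 => ?_
      simp only [y, if_pos h2]
      omega
    · refine (Ultrafilter.eventually_not.2 h2).mono fun N h3 => ?_
      simp only [y, if_neg h2]
      omega
  refine h ⟨fun k => (val cc k c : ZMod k) - comb k 0 y, y, fun k hk => ?_, fun d hd => ?_,
    fun k => ?_⟩
  · have h2 : ∀ᶠ N in (U : Filter ℕ), ∀ d ∈ Finset.range (k + 1),
        y d % 2 = (((x N).getD d 0 : ℕ) : ℤ) % 2 :=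
      (eventually_all_finset _).2 fun d _ => hy d
    obtain ⟨N, h3, h4⟩ := ((hU k).and h2).exists
    rw [sub_eq_zero, (okx_iff.1 (hx N k h3)).2 hk]
    exact comb_congr k 0 fun d hd => (h4 d (Finset.mem_range.2 (by omega))).symm
  · refine if_pos ((hU d).mono fun N h3 => ?_)
    rw [(okx_iff.1 (hx N d h3)).1 hd]
  · simp [comb]

theorem chainOK_iff {D E : LL} {r : ZL} {c : List St} {a b : ℕ} : chainOK D E r c a b = true ↔
    (runZ D c).2.2.2 = true ∧ (runZ D c).1 = E.length ∧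
      zM E.length E.length (runZ D c).2.1 = zz (toM E.length E.length E) ∧
      zz (toM D.length D.length D) ^ a * zM D.length E.length r =
        zz (toM D.length D.length D) ^ b * zM D.length E.length (runZ D c).2.2.1 := by
  simp only [chainOK, Bool.and_eq_true, beq_iff_eq, eqZ_iff, zM_mul, zM_pw, zM_nat E.length]

section Math

variable {V W : Type} [Fintype V] [DecidableEq V] [Fintype W] [DecidableEq W]

theorem pow_ne_zero_of_prim [Nonempty V] {A : Matrix V V ℕ} (h : Prim A) (n : ℕ) : A ^ n ≠ 0 := by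
  obtain ⟨m, hm, h⟩ := h
  have h1 : ∀ k i j, 0 < (A ^ (m * (k + 1))) i j := by
    intro k
    induction k with
    | zero => simpa using h
    | succ k ih =>
      intro i j
      rw [mul_add, mul_one, pow_add, Matrix.mul_apply]
      exact Finset.sum_pos (fun l _ => Nat.mul_pos (ih i l) (h l j)) Finset.univ_nonempty
  intro h2
  obtain ⟨i⟩ := ‹Nonempty V›
  have h3 := h1 n i i
  obtain ⟨t, ht⟩ : ∃ t, m * (n + 1) = n + t := ⟨m * (n + 1) - n, by
    have : n + 1 ≤ m * (n + 1) := Nat.le_mul_of_pos_left _ hm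
    omega⟩
  rw [ht, pow_add, h2, Matrix.zero_mul] at h3
  exact lt_irrefl _ h3

theorem not_real_of_neg [Nonempty V] {A : Matrix V V ℕ} {B : Matrix W W ℕ} {R : Matrix V W ℤ}
    (h : Prim A) {j : ℕ} (hj : ∀ v w, (zz A ^ j * R) v w ≤ 0) : ¬Real A B R := by
  rintro ⟨T, hT, a, b, e⟩
  obtain ⟨T', n, -, h2, -⟩ := hT.rev
  have h1 : zz (A ^ (j + b) * T) = zz (A ^ a) * (zz A ^ j * R) := by
    rw [zz_mul, zz_pow, zz_pow, pow_add, Matrix.mul_assoc, ← e, ← Matrix.mul_assoc,
      ← Matrix.mul_assoc, ← pow_add, ← pow_add, add_comm]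
  have h3 : A ^ (j + b) * T = 0 := by
    ext v w
    have h4 : zz (A ^ (j + b) * T) v w ≤ 0 := by
      rw [h1, Matrix.mul_apply]
      exact Finset.sum_nonpos fun u _ =>
        mul_nonpos_of_nonneg_of_nonpos (Int.natCast_nonneg _) (hj u w)
    rw [zz_apply] at h4
    simpa using h4
  refine pow_ne_zero_of_prim h (j + b + n) ?_
  rw [pow_add, ← h2, ← Matrix.mul_assoc, h3, Matrix.zero_mul]

theorem zz_toNat {m n : Type} {R : Matrix m n ℤ} (h : ∀ i j, 0 ≤ R i j) :
    zz (R.map Int.toNat) = R := by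
  ext i j
  exact Int.toNat_of_nonneg (h i j)

theorem real_of_adm (hS : SufStmt) {oV : V → ℕ} {oW : W → ℕ} {A : Matrix V V ℕ}
    {B : Matrix W W ℕ} {R T : Matrix V W ℤ} {S : Matrix W V ℤ} {l j a b : ℕ} {v : Val}
    (ho : Injective oV) (hA : Prim A) (hB : Prim B) (h : ZSE A B R S l)
    (h1 : ∀ v w, 0 ≤ (zz A ^ j * R) v w) (h2 : ∀ w v, 0 ≤ (zz B ^ j * S) w v)
    (hc : ChV oV (zz A) oW (zz B) T v) (e : zz A ^ a * R = zz A ^ b * T) (hv : v ∈ Adm A) :
    Real A B R := by
  obtain ⟨e1, e2, e3, e4⟩ := h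
  have f1 : zz (A * (zz A ^ j * R).map Int.toNat) = zz A ^ (j + 1) * R := by
    rw [zz_mul, zz_toNat h1, ← Matrix.mul_assoc, ← pow_succ']
  have f2 := zz_toNat h2
  have h3 := hS V W oV oW A B (A * (zz A ^ j * R).map Int.toNat) ((zz B ^ j * S).map Int.toNat)
    (j + 1 + j + l) T v a (j + 1 + b) ho hA hB (by omega) (zz_inj ?_) (zz_inj ?_) (zz_inj ?_)
    (zz_inj ?_) hc ?_ hv
  · rw [f1] at h3
    exact h3.of_eq (a := j + 1) (b := 0) (by rw [pow_zero, Matrix.one_mul])
  · rw [zz_mul, zz_mul _ B, f1, Matrix.mul_assoc, ← e1, ← Matrix.mul_assoc, ← Matrix.mul_assoc,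
      ← pow_succ, ← pow_succ']
  · rw [zz_mul, zz_mul B, f2, Matrix.mul_assoc, e2, ← Matrix.mul_assoc, ← Matrix.mul_assoc,
      ← pow_succ, ← pow_succ']
  · rw [zz_mul, f1, f2, zz_pow, Matrix.mul_assoc, ← Matrix.mul_assoc R, ← pow_inter e1,
      Matrix.mul_assoc, e3, ← pow_add, ← pow_add, add_assoc (j + 1)]
  · rw [zz_mul, f1, f2, zz_pow, Matrix.mul_assoc, ← Matrix.mul_assoc S, pow_inter' e2,
      Matrix.mul_assoc, e4, ← pow_add, ← pow_add]
    congr 1
    omega
  · rw [f1, ← Matrix.mul_assoc, ← pow_add, add_comm a, pow_add, Matrix.mul_assoc, e,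
      ← Matrix.mul_assoc, ← pow_add]

end Math

end P1A

theorem p1_dec {α β : Type} [Primcodable α] [Primcodable β] {q : α × β → Bool} (hq : Primrec q) :
    ∃ q' : α × ℕ → Bool, Primrec q' ∧ ∀ a, (∃ w, q' (a, w) = true) ↔ ∃ c, q (a, c) = true := by
  refine ⟨fun p => ((Encodable.decode (α := β) p.2).map fun c => q (p.1, c)).getD false, ?_,
    fun a => ⟨?_, ?_⟩⟩
  · refine Primrec.option_getD.comp (Primrec.option_map (Primrec.decode.comp Primrec.snd) ?_)
      (Primrec.const false)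
    exact hq.comp ((Primrec.fst.comp Primrec.fst).pair Primrec.snd)
  · rintro ⟨w, hw⟩
    cases h : Encodable.decode (α := β) w with
    | none => simp [h] at hw
    | some c => exact ⟨c, by simpa [h] using hw⟩
  · rintro ⟨c, hc⟩
    exact ⟨Encodable.encode c, by simpa using hc⟩

open P1A in
theorem p1_of (hN : NecStmt) (hS : SufStmt) (hF : FullStmt) (hP : PFStmt) (hC : CodeStmt) :
    H46.P1 := by
  obtain ⟨cc, hcc, hcod⟩ := hC
  obtain ⟨q, hq, key⟩ := p1_dec (P.chk0 hcc)
  refine ⟨q, hq, fun D E r S l hD hE pD pE hZ => ?_⟩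
  have : Nonempty (Fin D.length) := ⟨⟨0, hD⟩⟩
  refine Iff.trans ?_ (key (D, E, r)).symm
  have hch : ∀ c a b, chainOK D E r c a b = true →
      ChV (Fin.val : Fin D.length → ℕ) (zz (toM D.length D.length D)) (Fin.val : Fin E.length → ℕ)
        (zz (toM E.length E.length E)) (zM D.length E.length (runZ D c).2.2.1)
        fun k => (val cc k c : ZMod k) := fun c a b h => by
    obtain ⟨h1, h2, h3, -⟩ := chainOK_iff.1 h
    rw [← h3]
    exact run_sound hcod D c h1 _ h2
  constructor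
  · intro hR
    rcases hP.sign _ _ _ _ _ _ _ pD pE hZ with ⟨j, h1, h2⟩ | ⟨j, h1, -⟩
    · obtain ⟨T, hT, a, b, e⟩ := hF _ _ _ _ _ _ _ hZ.1 hZ.2.1 hZ.2.2.1 hZ.2.2.2
      obtain ⟨c, h3, h4, h5, h6⟩ := run_complete D hT E.length (Equiv.refl _)
      rw [Equiv.coe_refl, submatrix_id_id] at h5 h6
      have h7 : chainOK D E r c a b = true := chainOK_iff.2 ⟨h3, h4, h5, by rw [h6]; exact e⟩
      obtain ⟨N, hN⟩ := exists_bad (cc := cc) (D := D) (c := c) fun hv =>
        hR (real_of_adm hS Fin.val_injective pD pE hZ h1 h2 (hch c a b h7)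
          (chainOK_iff.1 h7).2.2.2 hv)
      exact ⟨(0, c, a, b, N), by simp only [chk0, h7, hN, Bool.and_self, Bool.or_true]⟩
    · refine ⟨(j, [], 0, 0, 0), ?_⟩
      simp only [chk0, Bool.or_eq_true]
      exact Or.inl (negZ_iff.2 (by rw [zM_mul, zM_pw]; exact h1))
  · rintro ⟨⟨j, c, a, b, N⟩, h⟩
    simp only [chk0, Bool.or_eq_true, Bool.and_eq_true] at h
    rcases h with h | ⟨h1, h2⟩
    · have h1 := negZ_iff.1 h
      rw [zM_mul, zM_pw] at h1
      exact not_real_of_neg pD h1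
    · exact fun hR => not_adm_of_bad h2 (hN _ _ _ _ _ _ _ _ _ a b Fin.val_injective
        (hch c a b h1) (chainOK_iff.1 h1).2.2.2 hR)

end Pool.Agent.MP_993212_an.H16
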