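import Pool.Agent.MP_993212_an.H16.Spec

/-! Periodicity of the sign and gyration number in the entries. -/

namespace Pool.Agent.MP_993212_an.H16

open Matrix Finset Function

/-! ### binomial coefficients -/

theorem per_dvd_choose {k M j : ℕ} (hM : md k ∣ M) (h1 : 1 ≤ j) (h2 : j ≤ 2 * k) :
    k ∣ M.choose j := by
  obtain ⟨j, rfl⟩ : ∃ i, j = i + 1 := ⟨j - 1, by omega⟩
  cases M with
  | zero => simp
  | succ M =>
    obtain ⟨t, ht⟩ := hM
    obtain ⟨c, hc⟩ := Nat.dvd_factorial (show 0 < j + 1 by omega) h2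
    have h := Nat.add_one_mul_choose_eq M j
    refine ⟨c * t * M.choose j, Nat.eq_of_mul_eq_mul_right (show 0 < j + 1 by omega) ?_⟩
    rw [← h]
    conv_lhs => rw [ht, md, hc]
    ring

theorem per_choose_add {k M a : ℕ} (hM : md k ∣ M) (ha : a ≤ 2 * k) (N : ℕ) :
    (((N + M).choose a : ℕ) : ZMod k) = (N.choose a : ℕ) := by
  rw [Nat.add_choose_eq, Nat.cast_sum, sum_eq_single (a, 0)]
  · simp
  · rintro ⟨i, j⟩ hij hne
    have h1 : i + j = a := mem_antidiagonal.1 hij
    have h2 : 1 ≤ j := by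
      by_contra h
      exact hne (by rw [Prod.mk.injEq]; omega)
    rw [Nat.cast_mul, (ZMod.natCast_eq_zero_iff _ _).2 (per_dvd_choose hM h2 (by omega)), mul_zero]
  · intro h; simp at h

theorem per_choose {k a N N' : ℕ} (ha : a ≤ 2 * k) (h : N ≡ N' [MOD md k]) :
    ((N.choose a : ℕ) : ZMod k) = (N'.choose a : ℕ) := by
  rcases le_total N N' with h1 | h1
  · rw [← per_choose_add ((Nat.modEq_iff_dvd' h1).1 h) ha N, Nat.add_sub_cancel' h1]
  · rw [← per_choose_add ((Nat.modEq_iff_dvd' h1).1 h.symm) ha N', Nat.add_sub_cancel' h1]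

theorem per_trunc {A : Type} [AddCommMonoid A] (g : ℕ → A) (m N : ℕ) (hg : ∀ a, m < a → g a = 0) :
    ∑ a ∈ range (N + 1), N.choose a • g a = ∑ a ∈ range (m + 1), N.choose a • g a := by
  rw [sum_subset (range_mono (show N + 1 ≤ N + m + 1 by omega)),
    sum_subset (range_mono (show m + 1 ≤ N + m + 1 by omega))]
  · intro a _ ha
    rw [hg a (by simpa using ha), smul_zero]
  · intro a _ ha
    rw [Nat.choose_eq_zero_of_lt (by simpa using ha), zero_smul]

/-! ### sums of weights that depend only on the order of the indices -/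

theorem per_iso {S S' : Finset ℕ} (h : S.card = S'.card) :
    ∃ φ ψ : ℕ → ℕ, (∀ a ∈ S, φ a ∈ S' ∧ ψ (φ a) = a) ∧ (∀ b ∈ S', ψ b ∈ S ∧ φ (ψ b) = b) ∧
      ∀ a ∈ S, ∀ b ∈ S, a ≤ b ↔ φ a ≤ φ b := by
  let e : S ≃o S' := (S.orderIsoOfFin h).symm.trans (S'.orderIsoOfFin rfl)
  refine ⟨fun a => if h : a ∈ S then e ⟨a, h⟩ else a,
    fun b => if h : b ∈ S' then e.symm ⟨b, h⟩ else b, fun a ha => ?_, fun b hb => ?_,
    fun a ha b hb => ?_⟩
  · simp [ha]
  · simp [hb]
  · simp [ha, hb]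

section Single

variable {ι : Type} [Fintype ι] [DecidableEq ι] (p : ι → Prop) [DecidablePred p]
  (B : ι → Finset ℕ)

/-- index functions whose values on the chosen slots fill the set `S` -/
def perFib (S : Finset ℕ) : Finset (ι → ℕ) :=
  (Fintype.piFinset fun s => if p s then S else B s).filter fun x => (univ.filter p).image x = S

theorem per_mem_fib {S : Finset ℕ} {x : ι → ℕ} :
    x ∈ perFib p B S ↔ (∀ s, ¬ p s → x s ∈ B s) ∧ (∀ s, p s → x s ∈ S) ∧
      ∀ a ∈ S, ∃ s, p s ∧ x s = a := by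
  rw [perFib, mem_filter, Fintype.mem_piFinset]
  constructor
  · rintro ⟨h1, h2⟩
    refine ⟨fun s hs => by simpa [hs] using h1 s, fun s hs => by simpa [hs] using h1 s,
      fun a ha => ?_⟩
    rw [← h2] at ha
    simpa using ha
  · rintro ⟨h1, h2, h3⟩
    refine ⟨fun s => ?_, ?_⟩
    · split_ifs with h
      · exact h2 s h
      · exact h1 s h
    · ext a
      simp only [mem_image, mem_filter, mem_univ, true_and]
      exact ⟨fun ⟨s, hs, e⟩ => e ▸ h2 s hs, h3 a⟩

theorem per_map_fib {S S' : Finset ℕ} {φ ψ : ℕ → ℕ} (h1 : ∀ a ∈ S, φ a ∈ S' ∧ ψ (φ a) = a)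
    (h2 : ∀ b ∈ S', ψ b ∈ S ∧ φ (ψ b) = b) {x : ι → ℕ} (hx : x ∈ perFib p B S) :
    (fun s => if p s then φ (x s) else x s) ∈ perFib p B S' ∧
      (fun s => if p s then ψ (if p s then φ (x s) else x s) else
        (if p s then φ (x s) else x s)) = x := by
  rw [per_mem_fib] at hx
  obtain ⟨a1, a2, a3⟩ := hx
  refine ⟨(per_mem_fib p B).2 ⟨fun s hs => ?_, fun s hs => ?_, fun b hb => ?_⟩, ?_⟩
  · simpa [hs] using a1 s hs
  · simpa [hs] using (h1 _ (a2 s hs)).1
  · obtain ⟨s, hs, e⟩ := a3 _ (h2 b hb).1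
    exact ⟨s, hs, by simp [hs, e, (h2 b hb).2]⟩
  · funext s
    by_cases hs : p s
    · simp [hs, (h1 _ (a2 s hs)).2]
    · simp [hs]

variable {k : ℕ} (w : (ι → ℕ) → ZMod k)

theorem per_fib_card (hw : ∀ x y, (∀ s, ¬ p s → x s = y s) →
      (∀ s t, p s → p t → (x s ≤ x t ↔ y s ≤ y t)) → w x = w y)
    {S S' : Finset ℕ} (h : S.card = S'.card) :
    ∑ x ∈ perFib p B S, w x = ∑ x ∈ perFib p B S', w x := by
  obtain ⟨φ, ψ, h1, h2, h3⟩ := per_iso h
  refine sum_nbij' (fun x s => if p s then φ (x s) else x s)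
    (fun x s => if p s then ψ (x s) else x s) (fun x hx => (per_map_fib p B h1 h2 hx).1)
    (fun x hx => (per_map_fib p B h2 h1 hx).1) (fun x hx => (per_map_fib p B h1 h2 hx).2)
    (fun x hx => (per_map_fib p B h2 h1 hx).2) fun x hx => hw _ _ (fun s hs => by simp [hs]) ?_
  intro s t hs ht
  have a2 := ((per_mem_fib p B).1 hx).2.1
  simpa [hs, ht] using h3 _ (a2 s hs) _ (a2 t ht)

theorem per_expand (hw : ∀ x y, (∀ s, ¬ p s → x s = y s) →
      (∀ s t, p s → p t → (x s ≤ x t ↔ y s ≤ y t)) → w x = w y) {m : ℕ}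
    (hm : Fintype.card ι ≤ m) (N : ℕ) :
    ∑ x ∈ Fintype.piFinset fun s => if p s then range N else B s, w x =
      ∑ a ∈ range (m + 1), N.choose a • ∑ x ∈ perFib p B (range a), w x := by
  rw [← per_trunc (fun a => ∑ x ∈ perFib p B (range a), w x) m N]
  · have e := sum_powerset_apply_card (fun a => ∑ x ∈ perFib p B (range a), w x) (x := range N)
    rw [card_range] at e
    rw [← e, ← sum_fiberwise_of_maps_to (t := (range N).powerset)
      (g := fun x => (univ.filter p).image x)]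
    · refine sum_congr rfl fun S hS => ?_
      rw [← per_fib_card p B w hw (S := S) (card_range _).symm]
      refine sum_congr ?_ fun _ _ => rfl
      ext x
      rw [perFib, mem_filter, mem_filter, Fintype.mem_piFinset, Fintype.mem_piFinset]
      refine and_congr_left fun hx => forall_congr' fun s => ?_
      split_ifs with hs
      · have : x s ∈ S := hx ▸ mem_image_of_mem x (by simpa using hs)
        exact iff_of_true (mem_powerset.1 hS this) this
      · rfl
    · intro x hx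
      rw [mem_powerset]
      intro a ha
      obtain ⟨s, hs, rfl⟩ := mem_image.1 ha
      have := Fintype.mem_piFinset.1 hx s
      rwa [if_pos (mem_filter.1 hs).2] at this
  · intro a ha
    refine sum_eq_zero fun x hx => ?_
    have h1 := congrArg card (mem_filter.1 hx).2
    have h2 : ((univ.filter p).image x).card ≤ Fintype.card ι :=
      card_image_le.trans (card_le_univ _)
    rw [card_range] at h1
    omega

theorem per_single (hw : ∀ x y, (∀ s, ¬ p s → x s = y s) →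
      (∀ s t, p s → p t → (x s ≤ x t ↔ y s ≤ y t)) → w x = w y)
    (hm : Fintype.card ι ≤ 2 * k) {N N' : ℕ} (h : N ≡ N' [MOD md k]) :
    ∑ x ∈ Fintype.piFinset fun s => if p s then range N else B s, w x =
      ∑ x ∈ Fintype.piFinset fun s => if p s then range N' else B s, w x := by
  rw [per_expand p B w hw hm, per_expand p B w hw hm]
  refine sum_congr rfl fun a ha => ?_
  rw [nsmul_eq_mul, nsmul_eq_mul, per_choose (Nat.lt_succ_iff.1 (mem_range.1 ha)) h]

end Single

theorem per_labels {ι L : Type} [Fintype ι] [DecidableEq ι] [Fintype L] [DecidableEq L] {k : ℕ}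
    (lab : ι → L) (w : (ι → ℕ) → ZMod k)
    (hw : ∀ x y, (∀ s t, lab s = lab t → (x s ≤ x t ↔ y s ≤ y t)) → w x = w y)
    (hm : Fintype.card ι ≤ 2 * k) (n n' : L → ℕ) (h : ∀ l, n l ≡ n' l [MOD md k]) :
    ∑ x ∈ Fintype.piFinset fun s => range (n (lab s)), w x =
      ∑ x ∈ Fintype.piFinset fun s => range (n' (lab s)), w x := by
  suffices H : ∀ (T : Finset L) (n : L → ℕ), (∀ l, n l ≡ n' l [MOD md k]) →
      (∀ l, l ∉ T → n l = n' l) → ∑ x ∈ Fintype.piFinset fun s => range (n (lab s)), w x =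
        ∑ x ∈ Fintype.piFinset fun s => range (n' (lab s)), w x from
    H univ n h fun l hl => absurd (mem_univ l) hl
  intro T
  induction T using Finset.induction_on with
  | empty =>
    intro n _ h2
    rw [show n = n' from funext fun l => h2 l (notMem_empty l)]
  | insert l0 T _ ih =>
    intro n h1 h2
    rw [← ih (update n l0 (n' l0)) (fun l => ?_) (fun l hl => ?_)]
    · have e := per_single (fun s => lab s = l0) (fun s => range (n (lab s))) w
        (fun x y a1 a2 => hw x y fun s t hst => by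
          by_cases hs : lab s = l0
          · exact a2 s t hs (hst ▸ hs)
          · rw [a1 s hs, a1 t (hst ▸ hs)]) hm (h1 l0)
      convert e using 4 with s s
      · split_ifs with hs
        · rw [hs]
        · rfl
      · split_ifs with hs
        · rw [hs, update_self]
        · rw [update_of_ne hs]
    · by_cases hl : l = l0
      · rw [hl, update_self]
      · rw [update_of_ne hl]; exact h1 l
    · by_cases hl0 : l = l0
      · rw [hl0, update_self]
      · rw [update_of_ne hl0]; exact h2 l (by simp [hl0, hl])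

/-! ### words -/

section Words

variable {V W I : Type}

/-- two families of edges with the same vertices and the same order of parallel edges -/
structure PerSim (σ : I → I) (z z' : I → Ed V W) : Prop where
  v : ∀ i, (z i).1 = (z' i).1
  w : ∀ i, (z i).2.1 = (z' i).2.1
  r : ∀ i j, (z i).1 = (z j).1 → (z i).2.1 = (z j).2.1 →
    ((z i).2.2.1 ≤ (z j).2.2.1 ↔ (z' i).2.2.1 ≤ (z' j).2.2.1)
  s : ∀ i j, (z i).2.1 = (z j).2.1 → (z (σ i)).1 = (z (σ j)).1 →
    ((z i).2.2.2 ≤ (z j).2.2.2 ↔ (z' i).2.2.2 ≤ (z' j).2.2.2)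

/-- the family with given vertices and indices -/
def perMk (u : I → V × W) (x : I ⊕ I → ℕ) : I → Ed V W :=
  fun i => ((u i).1, (u i).2, x (Sum.inl i), x (Sum.inr i))

/-- the labels of the slots -/
def perLab (σ : I → I) (u : I → V × W) : I ⊕ I → (V × W) ⊕ (W × V) :=
  Sum.map u fun i => ((u i).2, (u (σ i)).1)

/-- the bounds -/
def perBd (R : Matrix V W ℕ) (S : Matrix W V ℕ) : (V × W) ⊕ (W × V) → ℕ :=
  Sum.elim (fun q => R q.1 q.2) fun q => S q.1 q.2

variable [Fintype V] [DecidableEq V] [Fintype W] [DecidableEq W] [Fintype I] [DecidableEq I]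

omit [DecidableEq V] [DecidableEq W] in
theorem per_sum_eq {T A : Type} [AddCommMonoid A] (σ : I → I) (φ : T ≃ (I → Ed V W))
    (R : Matrix V W ℕ) (S : Matrix W V ℕ) (P : Finset T)
    (hP : ∀ t, t ∈ P ↔ ∀ i, (φ t i).2.2.1 < R (φ t i).1 (φ t i).2.1 ∧
      (φ t i).2.2.2 < S (φ t i).2.1 (φ t (σ i)).1) (w : (I → Ed V W) → A) :
    ∑ t ∈ P, w (φ t) = ∑ u : I → V × W,
      ∑ x ∈ Fintype.piFinset fun s => range (perBd R S (perLab σ u s)), w (perMk u x) := by
  rw [sum_sigma']
  refine sum_nbij' (fun t => ⟨fun i => ((φ t i).1, (φ t i).2.1),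
    Sum.elim (fun i => (φ t i).2.2.1) fun i => (φ t i).2.2.2⟩) (fun q => φ.symm (perMk q.1 q.2))
    (fun t ht => ?_) (fun q hq => ?_) (fun t _ => ?_) (fun q _ => ?_) fun t _ => rfl
  · rw [mem_sigma, Fintype.mem_piFinset]
    refine ⟨mem_univ _, fun s => mem_range.2 ?_⟩
    cases s with
    | inl i => exact ((hP t).1 ht i).1
    | inr i => exact ((hP t).1 ht i).2
  · rw [mem_sigma, Fintype.mem_piFinset] at hq
    rw [hP, φ.apply_symm_apply]
    exact fun i => ⟨mem_range.1 (hq.2 (Sum.inl i)), mem_range.1 (hq.2 (Sum.inr i))⟩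
  · rw [Equiv.symm_apply_eq]; rfl
  · obtain ⟨u, x⟩ := q
    simp only [φ.apply_symm_apply]
    congr 1
    funext s
    cases s <;> rfl

theorem per_words {T : Type} {k : ℕ} (σ : I → I) (φ : T ≃ (I → Ed V W))
    {R R' : Matrix V W ℕ} {S S' : Matrix W V ℕ} (hR : ∀ v w, R v w ≡ R' v w [MOD md k])
    (hS : ∀ w v, S w v ≡ S' w v [MOD md k]) (P P' : Finset T)
    (hP : ∀ t, t ∈ P ↔ ∀ i, (φ t i).2.2.1 < R (φ t i).1 (φ t i).2.1 ∧
      (φ t i).2.2.2 < S (φ t i).2.1 (φ t (σ i)).1)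
    (hP' : ∀ t, t ∈ P' ↔ ∀ i, (φ t i).2.2.1 < R' (φ t i).1 (φ t i).2.1 ∧
      (φ t i).2.2.2 < S' (φ t i).2.1 (φ t (σ i)).1) (w : (I → Ed V W) → ZMod k)
    (hw : ∀ z z', PerSim σ z z' → w z = w z') (hI : Fintype.card I ≤ k) :
    ∑ t ∈ P, w (φ t) = ∑ t ∈ P', w (φ t) := by
  rw [per_sum_eq σ φ R S P hP, per_sum_eq σ φ R' S' P' hP']
  refine sum_congr rfl fun u _ => per_labels (perLab σ u) (fun x => w (perMk u x))
    (fun x y h => hw _ _ ⟨fun _ => rfl, fun _ => rfl, fun i j h1 h2 => ?_, fun i j h1 h2 => ?_⟩)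
    (by rw [Fintype.card_sum]; omega) _ _ fun l => ?_
  · exact h (Sum.inl i) (Sum.inl j) (congrArg Sum.inl (Prod.ext h1 h2))
  · exact h (Sum.inr i) (Sum.inr j) (congrArg Sum.inr (Prod.ext h1 h2))
  · cases l with
    | inl q => exact hR _ _
    | inr q => exact hS _ _

end Words

/-! ### comparison of keys -/

/-- `a, b` compare in the same way as `a', b'` -/
def PerCmp {Θ : Type} [LinearOrder Θ] (a b a' b' : Θ) : Prop := (a < b ↔ a' < b') ∧ (a = b ↔ a' = b')

theorem PerCmp.le {Θ : Type} [LinearOrder Θ] {a b a' b' : Θ} (h : PerCmp a b a' b') :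
    a ≤ b ↔ a' ≤ b' := by
  rw [le_iff_lt_or_eq, le_iff_lt_or_eq, h.1, h.2]

theorem per_cmp_of_le {a b a' b' : ℕ} (h1 : a ≤ b ↔ a' ≤ b') (h2 : b ≤ a ↔ b' ≤ a') :
    PerCmp a b a' b' := by
  constructor <;> omega

theorem per_cmp_key {a b c a' b' c' r s r' s' r₁ s₁ r₁' s₁' : ℕ}
    (h : a = a' → b = b' → c = c' → PerCmp r r' r₁ r₁' ∧ PerCmp s s' s₁ s₁') :
    PerCmp (mkKey a b c r s) (mkKey a' b' c' r' s') (mkKey a b c r₁ s₁) (mkKey a' b' c' r₁' s₁') := by
  simp only [PerCmp, mkKey, Prod.Lex.toLex_lt_toLex, EmbeddingLike.apply_eq_iff_eq,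
    Prod.mk.injEq] at h ⊢
  by_cases h1 : a = a'
  · by_cases h2 : b = b'
    · by_cases h3 : c = c'
      · obtain ⟨⟨e1, e2⟩, e3, e4⟩ := h h1 h2 h3
        rw [e1, e2, e3, e4]
        exact ⟨Iff.rfl, Iff.rfl⟩
      · simp [h3]
    · simp [h2]
  · simp [h1]

theorem per_cmp_lex {d : ℕ} {f g f' g' : Fin d → Key} (h : ∀ n, PerCmp (f n) (g n) (f' n) (g' n)) :
    PerCmp (toLex f) (toLex g) (toLex f') (toLex g') := by
  constructor
  · show (∃ i, (∀ j, j < i → f j = g j) ∧ f i < g i) ↔ ∃ i, (∀ j, j < i → f' j = g' j) ∧ f' i < g' i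
    exact exists_congr fun i => and_congr (forall_congr' fun j => imp_congr_right fun _ => (h j).2)
      (h i).1
  · rw [EmbeddingLike.apply_eq_iff_eq, EmbeddingLike.apply_eq_iff_eq, funext_iff, funext_iff]
    exact forall_congr' fun n => (h n).2

section Keys

variable {V W I : Type} {σ : I → I} {z z' : I → Ed V W} {d : ℕ} {oV : V → ℕ} {oW : W → ℕ}

/-- a closed path in the index set -/
def PerPath (σ : I → I) (e : ZMod d → I) : Prop := ∀ i, e (i + 1) = σ (e i)

theorem PerPath.rot {e : ZMod d → I} (h : PerPath σ e) (j : ZMod d) : PerPath σ (rot j e) :=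
  fun i => by
    show e (i + 1 + j) = σ (e (i + j))
    rw [add_right_comm, h]

theorem PerSim.cr (h : PerSim σ z z') {i j : I} (h1 : (z i).1 = (z j).1)
    (h2 : (z i).2.1 = (z j).2.1) : PerCmp (z i).2.2.1 (z j).2.2.1 (z' i).2.2.1 (z' j).2.2.1 :=
  per_cmp_of_le (h.r i j h1 h2) (h.r j i h1.symm h2.symm)

theorem PerSim.cs (h : PerSim σ z z') {i j : I} (h1 : (z i).2.1 = (z j).2.1)
    (h2 : (z (σ i)).1 = (z (σ j)).1) : PerCmp (z i).2.2.2 (z j).2.2.2 (z' i).2.2.2 (z' j).2.2.2 :=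
  per_cmp_of_le (h.s i j h1 h2) (h.s j i h1.symm h2.symm)

theorem PerSim.keyA (h : PerSim σ z z') (hV : Injective oV) (hW : Injective oW)
    {e e' : ZMod d → I} (he : PerPath σ e) (he' : PerPath σ e') :
    PerCmp (keyA oV oW (z ∘ e)) (keyA oV oW (z ∘ e')) (keyA oV oW (z' ∘ e))
      (keyA oV oW (z' ∘ e')) := by
  refine per_cmp_lex fun n => ?_
  simp only [Function.comp_apply, ← h.v, ← h.w]
  refine per_cmp_key fun h1 h2 h3 => ⟨h.cr (hV h1) (hW h3), h.cs (hW h3) ?_⟩
  rw [← he, ← he']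
  exact hV h2

theorem PerSim.keyB (h : PerSim σ z z') (hV : Injective oV) (hW : Injective oW)
    {e e' : ZMod d → I} (he : PerPath σ e) (he' : PerPath σ e') :
    PerCmp (keyB oV oW (z ∘ e)) (keyB oV oW (z ∘ e')) (keyB oV oW (z' ∘ e))
      (keyB oV oW (z' ∘ e')) := by
  refine per_cmp_lex fun n => ?_
  simp only [Function.comp_apply, ← h.v, ← h.w]
  refine per_cmp_key fun h1 h2 h3 => ⟨h.cs (hW h1) ?_, h.cr (hV h3) (hW h2)⟩
  rw [← he, ← he']
  exact hV h3

theorem PerSim.symm (h : PerSim σ z z') : PerSim σ z' z :=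
  ⟨fun i => (h.v i).symm, fun i => (h.w i).symm,
    fun i j h1 h2 => (h.r i j (by rwa [h.v, h.v]) (by rwa [h.w, h.w])).symm,
    fun i j h1 h2 => (h.s i j (by rwa [h.w, h.w]) (by rwa [h.v, h.v])).symm⟩

theorem PerSim.eq_of (h : PerSim σ z z') {e e' : ZMod d → I} (he : PerPath σ e)
    (he' : PerPath σ e') (h0 : z ∘ e = z ∘ e') : z' ∘ e = z' ∘ e' := by
  funext i
  have h1 : z (e i) = z (e' i) := congrFun h0 i
  have h2 : z (σ (e i)) = z (σ (e' i)) := by rw [← he, ← he']; exact congrFun h0 (i + 1)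
  refine Prod.ext ?_ (Prod.ext ?_ (Prod.ext ?_ ?_))
  · simp only [Function.comp_apply, ← h.v, h1]
  · simp only [Function.comp_apply, ← h.w, h1]
  · exact (h.cr (by rw [h1]) (by rw [h1])).2.1 (by rw [h1])
  · exact (h.cs (by rw [h1]) (by rw [h2])).2.1 (by rw [h1])

theorem PerSim.prim (h : PerSim σ z z') {e : ZMod d → I} (he : PerPath σ e) :
    (∀ j, rot j (z ∘ e) = z ∘ e → j = 0) ↔ ∀ j, rot j (z' ∘ e) = z' ∘ e → j = 0 :=
  forall_congr' fun j => imp_congr_left
    ⟨h.eq_of (he.rot j) he, h.symm.eq_of (he.rot j) he⟩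

theorem PerSim.baseA (h : PerSim σ z z') (hV : Injective oV) (hW : Injective oW)
    {e : ZMod d → I} (he : PerPath σ e) :
    IsBase rot (H16.keyA oV oW) (z ∘ e) ↔ IsBase rot (H16.keyA oV oW) (z' ∘ e) :=
  forall_congr' fun j => (h.keyA hV hW he (he.rot j)).le

theorem PerSim.baseB (h : PerSim σ z z') (hV : Injective oV) (hW : Injective oW)
    {e : ZMod d → I} (he : PerPath σ e) (i : ZMod d) :
    IsBase rot (H16.keyB oV oW) (rot i (z ∘ e)) ↔ IsBase rot (H16.keyB oV oW) (rot i (z' ∘ e)) :=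
  forall_congr' fun j => (h.keyB hV hW (he.rot i) ((he.rot i).rot j)).le

end Keys

section Main

variable {V W : Type} [Fintype V] [DecidableEq V] [Fintype W] [DecidableEq W] {oV : V → ℕ}
  {oW : W → ℕ} {R R' : Matrix V W ℕ} {S S' : Matrix W V ℕ} {k : ℕ}

open Classical in
theorem per_gy (hV : Injective oV) (hW : Injective oW) (hR : ∀ v w, R v w ≡ R' v w [MOD md k])
    (hS : ∀ w v, S w v ≡ S' w v [MOD md k]) : gy oV oW R S k = gy oV oW R' S' k := by
  cases k with
  | zero => rfl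
  | succ n =>
    simp only [gy, gyr, prim, sum_filter]
    refine per_words (· + 1) (Equiv.refl _) hR hS _ _ (fun _ => mem_cyc) (fun _ => mem_cyc)
      (fun z : ZMod (n + 1) → Ed V W => if ∀ j, rot j z = z → j = 0 then ∑ j : ZMod (n + 1),
        if IsBase rot (keyA oV oW) z ∧ IsBase rot (keyB oV oW) (rot j z) then j else 0 else 0)
      (fun z z' h => ?_) (ZMod.card _).le
    have he : PerPath (· + 1) (id : ZMod (n + 1) → ZMod (n + 1)) := fun _ => rfl
    exact if_congr (h.prim he) (sum_congr rfl fun j _ =>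
      if_congr (and_congr (h.baseA hV hW he) (h.baseB hV hW he j)) rfl rfl) rfl

open Classical in
theorem per_xi (hV : Injective oV) (hW : Injective oW) (hR : ∀ v w, R v w ≡ R' v w [MOD md k])
    (hS : ∀ w v, S w v ≡ S' w v [MOD md k]) {d : ℕ} (hd : 2 * d ≤ k) :
    ((xi oV oW R S d : ℤ) : ZMod k) = (xi oV oW R' S' d : ℤ) := by
  cases d with
  | zero => rfl
  | succ n =>
    have key : ∀ (R : Matrix V W ℕ) (S : Matrix W V ℕ), ((xi oV oW R S (n + 1) : ℤ) : ZMod k) =
        ∑ t ∈ cyc (n + 1) R S ×ˢ cyc (n + 1) R S,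
          if ∀ j, rot j t.1 = t.1 → j = 0 then if ∀ j, rot j t.2 = t.2 → j = 0 then
            ∑ i : ZMod (n + 1), ∑ j : ZMod (n + 1),
              if IsBase rot (keyA oV oW) t.1 ∧ IsBase rot (keyA oV oW) t.2 ∧
                keyA oV oW t.1 < keyA oV oW t.2 ∧ IsBase rot (keyB oV oW) (rot i t.1) ∧
                IsBase rot (keyB oV oW) (rot j t.2) ∧
                keyB oV oW (rot j t.2) < keyB oV oW (rot i t.1) then (1 : ZMod k) else 0
            else 0 else 0 := by
      intro R S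
      rw [xi, Int.cast_natCast, sum_product]
      simp only [invs, prim, sum_filter, Nat.cast_sum, Nat.cast_ite, Nat.cast_one, Nat.cast_zero]
      refine sum_congr rfl fun x _ => ?_
      split_ifs
      · exact sum_congr rfl fun y _ => if_congr Iff.rfl (sum_congr rfl fun i _ =>
          sum_congr rfl fun j _ => if_congr Iff.rfl rfl rfl) rfl
      · simp
    have hm : ∀ (R : Matrix V W ℕ) (S : Matrix W V ℕ) t,
        t ∈ cyc (n + 1) R S ×ˢ cyc (n + 1) R S ↔ ∀ i,
          ((Equiv.sumArrowEquivProdArrow _ _ _).symm t i).2.2.1 <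
            R ((Equiv.sumArrowEquivProdArrow _ _ _).symm t i).1
              ((Equiv.sumArrowEquivProdArrow _ _ _).symm t i).2.1 ∧
          ((Equiv.sumArrowEquivProdArrow _ _ _).symm t i).2.2.2 <
            S ((Equiv.sumArrowEquivProdArrow _ _ _).symm t i).2.1
              ((Equiv.sumArrowEquivProdArrow _ _ _).symm t (Sum.map (· + 1) (· + 1) i)).1 := by
      intro R S t
      rw [mem_product, mem_cyc, mem_cyc, Sum.forall]
      rfl
    rw [key, key]
    refine per_words (Sum.map (· + 1) (· + 1)) (Equiv.sumArrowEquivProdArrow _ _ _).symm hR hS _ _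
      (hm R S) (hm R' S') (fun z : ZMod (n + 1) ⊕ ZMod (n + 1) → Ed V W =>
        if ∀ j, rot j (z ∘ Sum.inl) = z ∘ Sum.inl → j = 0 then
          if ∀ j, rot j (z ∘ Sum.inr) = z ∘ Sum.inr → j = 0 then
            ∑ i : ZMod (n + 1), ∑ j : ZMod (n + 1),
              if IsBase rot (keyA oV oW) (z ∘ Sum.inl) ∧ IsBase rot (keyA oV oW) (z ∘ Sum.inr) ∧
                keyA oV oW (z ∘ Sum.inl) < keyA oV oW (z ∘ Sum.inr) ∧
                IsBase rot (keyB oV oW) (rot i (z ∘ Sum.inl)) ∧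
                IsBase rot (keyB oV oW) (rot j (z ∘ Sum.inr)) ∧
                keyB oV oW (rot j (z ∘ Sum.inr)) < keyB oV oW (rot i (z ∘ Sum.inl))
              then (1 : ZMod k) else 0 else 0 else 0)
      (fun z z' h => ?_) (by rw [Fintype.card_sum, ZMod.card]; omega)
    have h1 : PerPath (Sum.map (· + 1) (· + 1))
        (Sum.inl : ZMod (n + 1) → ZMod (n + 1) ⊕ ZMod (n + 1)) := fun _ => rfl
    have h2 : PerPath (Sum.map (· + 1) (· + 1))
        (Sum.inr : ZMod (n + 1) → ZMod (n + 1) ⊕ ZMod (n + 1)) := fun _ => rfl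
    exact if_congr (h.prim h1) (if_congr (h.prim h2) (sum_congr rfl fun i _ => sum_congr rfl
      fun j _ => if_congr (and_congr (h.baseA hV hW h1) (and_congr (h.baseA hV hW h2)
        (and_congr (h.keyA hV hW h1 h2).1 (and_congr (h.baseB hV hW h1 i)
          (and_congr (h.baseB hV hW h2 j) (h.keyB hV hW (h2.rot j) (h1.rot i)).1))))) rfl rfl)
      rfl) rfl

end Main

theorem perN : PerN := by
  intro V W _ _ _ _ oV oW R R' S S' k hV hW hR hS
  rw [fN, fN, comb, comb, per_gy hV hW hR hS]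
  refine congrArg (fun x => gy oV oW R' S' k + ((k / 2 : ℕ) : ZMod k) * x) ?_
  refine sum_congr rfl fun i hi => if_congr Iff.rfl (per_xi hV hW hR hS ?_) rfl
  have h1 : 2 ≤ 2 ^ i := by
    calc 2 = 2 ^ 1 := rfl
      _ ≤ 2 ^ i := Nat.pow_le_pow_right (by norm_num) (mem_Icc.1 hi).1
  calc 2 * (k / 2 ^ i) ≤ 2 ^ i * (k / 2 ^ i) := Nat.mul_le_mul_right _ h1
    _ ≤ k := Nat.mul_div_le _ _

end Pool.Agent.MP_993212_an.H16
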