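import Pool.Agent.MP_993212_an.H16.Spec
import Pool.Agent.MP_993212_an.H18.PF

/-! Signs of integer shift equivalences between primitive matrices, and abundance of periods. -/

set_option linter.unusedSectionVars false

namespace Pool.Agent.MP_993212_an.H16

open Matrix Finset H18

section Sign

variable {V W : Type} [Fintype V] [DecidableEq V] [Fintype W] [DecidableEq W]

theorem pf_prim [Nonempty V] {A : Matrix V V ℕ} (h : Prim A) : H18.Prim A :=
  ⟨inferInstance, let ⟨n, h1, h2⟩ := h; ⟨n, h1, fun u v => (h2 u v).ne'⟩⟩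

theorem pf_prim_tr {A : Matrix V V ℕ} (h : H18.Prim A) : H18.Prim Aᵀ := by
  obtain ⟨h0, n, h1, h2⟩ := h
  exact ⟨h0, n, h1, fun u v => by rw [← transpose_pow]; exact h2 v u⟩

theorem pf_left {A : Matrix V V ℕ} {l l' : ℝ} {p z : V → ℝ} (hp : cr Aᵀ *ᵥ p = l' • p)
    (hz : cr A *ᵥ z = l • z) : l * (z ⬝ᵥ p) = l' * (z ⬝ᵥ p) := by
  have h1 : cr Aᵀ = (cr A)ᵀ := rfl
  calc l * (z ⬝ᵥ p) = (cr A *ᵥ z) ⬝ᵥ p := by rw [hz, smul_dotProduct, smul_eq_mul]
    _ = z ⬝ᵥ (cr Aᵀ *ᵥ p) := by rw [h1, dotProduct_mulVec, vecMul_transpose]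
    _ = l' * (z ⬝ᵥ p) := by rw [hp, dotProduct_smul, smul_eq_mul]

theorem pf_dot_pos [Nonempty V] {x p : V → ℝ} (hx : ∀ v, 0 < x v) (hp : ∀ v, 0 < p v) :
    0 < x ⬝ᵥ p :=
  Finset.sum_pos (fun v _ => mul_pos (hx v) (hp v)) univ_nonempty

theorem pf_nonneg {A : Matrix V V ℕ} (hA : H18.Prim A) {l l' μ : ℝ} {x p z : V → ℝ} (hl : 0 < l)
    (hx : ∀ v, 0 < x v) (hx' : cr A *ᵥ x = l • x) (hp : ∀ v, 0 < p v)
    (hp' : cr Aᵀ *ᵥ p = l' • p) (hz : cr A *ᵥ z = μ • z) (hμ : l ≤ μ) (h0 : z ⬝ᵥ p = 0) (v : V) :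
    0 ≤ z v := by
  have := hA.1
  by_contra hneg
  push Not at hneg
  have hε : 0 < -z v / x v := div_pos (by linarith) (hx v)
  obtain ⟨m, hm⟩ := (pf_prim_tr hA).rep hp hp' (z + (-z v / x v) • x) (by
    rw [add_dotProduct, h0, zero_add, smul_dotProduct, smul_eq_mul]
    exact mul_pos hε (pf_dot_pos hx hp))
  have h1 := hm m le_rfl v
  have h2 : cr Aᵀ = (cr A)ᵀ := rfl
  rw [h2, ← transpose_pow, vecMul_transpose, mulVec_add, mulVec_smul, pow_mulVec_eig hz,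
    pow_mulVec_eig hx'] at h1
  simp only [Pi.add_apply, Pi.smul_apply, smul_eq_mul] at h1
  have h3 : -z v / x v * (l ^ m * x v) = -z v * l ^ m := by
    field_simp [(hx v).ne']
  have h4 : l ^ m ≤ μ ^ m := pow_le_pow_left₀ hl.le hμ m
  rw [h3] at h1
  nlinarith

theorem pf_zero {A : Matrix V V ℕ} (hA : H18.Prim A) {l l' μ : ℝ} {x p z : V → ℝ} (hl : 0 < l)
    (hx : ∀ v, 0 < x v) (hx' : cr A *ᵥ x = l • x) (hp : ∀ v, 0 < p v)
    (hp' : cr Aᵀ *ᵥ p = l' • p) (hz : cr A *ᵥ z = μ • z) (hμ : l ≤ μ) (h0 : z ⬝ᵥ p = 0) :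
    z = 0 := by
  funext v
  have h1 := pf_nonneg hA hl hx hx' hp hp' hz hμ h0 v
  have h2 := pf_nonneg hA (z := -z) hl hx hx' hp hp' (by rw [mulVec_neg, hz, smul_neg]) hμ
    (by rw [neg_dotProduct, h0, neg_zero]) v
  simp only [Pi.neg_apply] at h2
  exact le_antisymm (by simpa using h2) h1

/-- an integer matrix as a real matrix -/
def pfR {m n : Type} (R : Matrix m n ℤ) : Matrix m n ℝ := R.map (Int.castRingHom ℝ)

theorem pfR_mul {l n : Type} (R : Matrix l V ℤ) (S : Matrix V n ℤ) :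
    pfR (R * S) = pfR R * pfR S := Matrix.map_mul

theorem pfR_zz (A : Matrix V W ℕ) : pfR (zz A) = cr A := by
  ext u v
  simp [pfR, zz]

theorem pfR_pow (A : Matrix V V ℕ) (k : ℕ) : pfR (zz A ^ k) = cr A ^ k := by
  rw [← zz_pow, pfR_zz, cr_pow]

theorem pf_le {A : Matrix V V ℕ} {B : Matrix W W ℕ} (hA : H18.Prim A) (hB : H18.Prim B)
    {R : Matrix V W ℤ} {S : Matrix W V ℤ} {k : ℕ} (h1 : zz A * R = R * zz B)
    (h2 : S * R = zz B ^ k) {l μ : ℝ} {x : V → ℝ} {y : W → ℝ} (hl : 0 < l) (hx : ∀ v, 0 < x v)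
    (hx' : cr A *ᵥ x = l • x) (hy : ∀ v, 0 < y v) (hy' : cr B *ᵥ y = μ • y) (hμ : l ≤ μ) :
    μ = l ∧ ∃ c : ℝ, c ≠ 0 ∧ pfR R *ᵥ y = c • x := by
  have := hA.1
  obtain ⟨w⟩ := hB.1
  obtain ⟨l', p, -, hp, hp'⟩ := (pf_prim_tr hA).perron
  have hz : cr A *ᵥ (pfR R *ᵥ y) = μ • (pfR R *ᵥ y) := by
    rw [mulVec_mulVec, ← pfR_zz, ← pfR_mul, h1, pfR_mul, pfR_zz, ← mulVec_mulVec, hy', mulVec_smul]
  have hne : pfR R *ᵥ y ≠ 0 := by
    intro h0
    have h3 : pfR S *ᵥ (pfR R *ᵥ y) = μ ^ k • y := by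
      rw [mulVec_mulVec, ← pfR_mul, h2, pfR_pow, pow_mulVec_eig hy']
    rw [h0, mulVec_zero] at h3
    have h4 := congrFun h3 w
    simp only [Pi.zero_apply, Pi.smul_apply, smul_eq_mul] at h4
    exact (mul_pos (pow_pos (hl.trans_le hμ) k) (hy w)).ne h4
  have hxp := pf_dot_pos hx hp
  have e1 : l = l' := mul_right_cancel₀ hxp.ne' (pf_left hp' hx')
  have e2 : μ = l := by
    by_contra hne'
    refine hne (pf_zero hA hl hx hx' hp hp' hz hμ ?_)
    have h3 := pf_left hp' hz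
    rw [← e1, ← sub_eq_zero, ← sub_mul] at h3
    exact (mul_eq_zero.1 h3).resolve_left (sub_ne_zero.2 hne')
  have h5 : pfR R *ᵥ y - ((pfR R *ᵥ y) ⬝ᵥ p / (x ⬝ᵥ p)) • x = 0 := by
    refine pf_zero hA hl hx hx' hp hp' (μ := l) ?_ le_rfl ?_
    · rw [mulVec_sub, mulVec_smul, hz, hx', e2, smul_sub, smul_comm]
    · rw [sub_dotProduct, smul_dotProduct, smul_eq_mul, div_mul_cancel₀ _ hxp.ne', sub_self]
  rw [sub_eq_zero] at h5
  refine ⟨e2, _, fun h0 => hne ?_, h5⟩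
  rw [h5, h0, zero_smul]

theorem pf_ev {A : Matrix V V ℕ} {B : Matrix W W ℕ} (hB : H18.Prim B) {R : Matrix V W ℤ}
    (h1 : zz A * R = R * zz B) {μ : ℝ} {y : W → ℝ} (hy : ∀ v, 0 < y v) (hy' : cr B *ᵥ y = μ • y)
    (hR : ∀ v, 0 < (pfR R *ᵥ y) v) :
    ∃ m0 : ℕ, ∀ m : ℕ, m0 ≤ m → ∀ v w, 0 ≤ (zz A ^ m * R) v w := by
  choose m hm using fun v => hB.rep hy hy' (pfR R v) (hR v)
  refine ⟨univ.sup m, fun k hk v w => ?_⟩
  have h2 := hm v k ((le_sup (mem_univ v)).trans hk) w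
  have h3 : (pfR R v ᵥ* cr B ^ k) w = pfR (zz A ^ k * R) v w := by
    rw [H12.pow_inter h1 k, pfR_mul, pfR_pow]
    rfl
  rw [h3] at h2
  have h4 : (0 : ℝ) < ((zz A ^ k * R) v w : ℤ) := h2
  exact_mod_cast h4.le

theorem pf_sign (A : Matrix V V ℕ) (B : Matrix W W ℕ) (R : Matrix V W ℤ) (S : Matrix W V ℤ)
    (k : ℕ) (hA : Prim A) (hB : Prim B) (h : H46.ZSE A B R S k) :
    (∃ j : ℕ, (∀ v w, 0 ≤ (zz A ^ j * R) v w) ∧ ∀ w v, 0 ≤ (zz B ^ j * S) w v) ∨
      ∃ j : ℕ, (∀ v w, (zz A ^ j * R) v w ≤ 0) ∧ ∀ w v, (zz B ^ j * S) w v ≤ 0 := by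
  cases isEmpty_or_nonempty V with
  | inl hV => exact Or.inl ⟨0, fun v => isEmptyElim v, fun _ v => isEmptyElim v⟩
  | inr hV =>
  cases isEmpty_or_nonempty W with
  | inl hW => exact Or.inl ⟨0, fun _ w => isEmptyElim w, fun w => isEmptyElim w⟩
  | inr hW =>
  have hA := pf_prim hA
  have hB := pf_prim hB
  obtain ⟨h1, h2, h3, h4⟩ := h
  obtain ⟨l, x, hl, hx, hx'⟩ := hA.perron
  obtain ⟨μ, y, hμ, hy, hy'⟩ := hB.perron
  have hl0 : 0 < l := by linarith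
  have hμ0 : 0 < μ := by linarith
  have e : l ≤ μ := by
    by_contra hlt
    push Not at hlt
    exact hlt.ne' (pf_le hB hA h2.symm h3 hμ0 hy hy' hx hx' hlt.le).1
  obtain ⟨-, c, hc, hR⟩ := pf_le hA hB h1 h4 hl0 hx hx' hy hy' e
  have hS : pfR S *ᵥ x = (μ ^ k / c) • y := by
    have h5 : pfR S *ᵥ (pfR R *ᵥ y) = μ ^ k • y := by
      rw [mulVec_mulVec, ← pfR_mul, h4, pfR_pow, pow_mulVec_eig hy']
    rw [hR, mulVec_smul] at h5
    rw [div_eq_inv_mul, mul_smul, ← h5, smul_smul, inv_mul_cancel₀ hc, one_smul]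
  rcases lt_or_gt_of_ne hc with hc' | hc'
  · have n1 : pfR (-R) = -pfR R := by ext; simp [pfR]
    have n2 : pfR (-S) = -pfR S := by ext; simp [pfR]
    obtain ⟨m1, hm1⟩ := pf_ev (A := A) hB (R := -R) (by rw [Matrix.mul_neg, Matrix.neg_mul, h1])
      hy hy' fun v => by
        rw [n1, neg_mulVec, hR]
        simpa using mul_neg_of_neg_of_pos hc' (hx v)
    obtain ⟨m2, hm2⟩ := pf_ev (A := B) hA (R := -S) (by rw [Matrix.mul_neg, Matrix.neg_mul, h2])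
      hx hx' fun v => by
        rw [n2, neg_mulVec, hS]
        simpa using mul_neg_of_neg_of_pos (div_neg_of_pos_of_neg (pow_pos hμ0 k) hc') (hy v)
    refine Or.inr ⟨max m1 m2, fun v w => ?_, fun w v => ?_⟩
    · simpa [Matrix.mul_neg] using hm1 _ (le_max_left m1 m2) v w
    · simpa [Matrix.mul_neg] using hm2 _ (le_max_right m1 m2) w v
  · obtain ⟨m1, hm1⟩ := pf_ev (A := A) hB h1 hy hy' fun v => by
      rw [hR]
      exact mul_pos hc' (hx v)
    obtain ⟨m2, hm2⟩ := pf_ev (A := B) hA h2.symm hx hx' fun v => by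
      rw [hS]
      exact mul_pos (div_pos (pow_pos hμ0 k) hc') (hy v)
    exact Or.inl ⟨max m1 m2, hm1 _ (le_max_left m1 m2), hm2 _ (le_max_right m1 m2)⟩

end Sign

section Abund

variable {V : Type} [Fintype V] [DecidableEq V] {A : Matrix V V ℕ}

theorem pf_pos_mono (hA : H18.Prim A) {i j : ℕ} (hi : ∀ u v, (A ^ i) u v ≠ 0) (hij : i ≤ j) :
    ∀ u v, (A ^ j) u v ≠ 0 := by
  induction j, hij using Nat.le_induction with
  | base => exact hi
  | succ j _ ih =>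
    intro u v
    obtain ⟨w, hw⟩ := hA.out u
    rw [pow_succ']
    exact mul_ne_zero_of hw (ih w v)

theorem pf_supp_mul {P Q : Matrix V V ℕ} (h : ∀ u v, P u v ≠ 0 ↔ Q u v ≠ 0) (T : Matrix V V ℕ)
    (u v : V) (h1 : (P * T) u v ≠ 0) : (Q * T) u v ≠ 0 := by
  obtain ⟨w, h2, h3⟩ := exists_of_mul_ne_zero h1
  exact mul_ne_zero_of ((h u w).1 h2) h3

theorem pf_exp (hA : H18.Prim A) {j : ℕ} (hj : 2 ^ (Fintype.card V * Fintype.card V) ≤ j) :
    ∀ u v, (A ^ j) u v ≠ 0 := by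
  classical
  have key : ∀ a b : ℕ, a < b → (∀ u v, (A ^ a) u v ≠ 0 ↔ (A ^ b) u v ≠ 0) →
      ∀ u v, (A ^ a) u v ≠ 0 := by
    intro a b hab h
    obtain ⟨d, rfl⟩ := Nat.exists_eq_add_of_lt hab
    have h1 : ∀ t u v, (A ^ (a + t * (d + 1))) u v ≠ 0 → (A ^ a) u v ≠ 0 := by
      intro t
      induction t with
      | zero => simp
      | succ t ih =>
        intro u v h2
        apply ih
        rw [show a + (t + 1) * (d + 1) = (a + d + 1) + t * (d + 1) by ring, pow_add] at h2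
        rw [pow_add]
        exact pf_supp_mul (fun u v => (h u v).symm) _ u v h2
    obtain ⟨-, N, -, hN⟩ := id hA
    exact fun u v => h1 N u v (pf_pos_mono hA hN (by nlinarith) u v)
  obtain ⟨a, b, hab, h⟩ := Fintype.exists_ne_map_eq_of_card_lt
    (fun i : Fin (2 ^ (Fintype.card V * Fintype.card V) + 1) =>
      fun q : V × V => decide ((A ^ (i : ℕ)) q.1 q.2 ≠ 0)) (by simp)
  have h' : ∀ u v, (A ^ (a : ℕ)) u v ≠ 0 ↔ (A ^ (b : ℕ)) u v ≠ 0 := fun u v =>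
    not_congr (by simpa using congrFun h (u, v))
  rcases lt_or_gt_of_ne hab with h1 | h1
  · exact pf_pos_mono hA (key a b h1 h') (by omega)
  · exact pf_pos_mono hA (key b a h1 fun u v => (h' u v).symm) (by omega)

/-- sum of the entries -/
def pfS (P : Matrix V V ℕ) : ℕ := ∑ u, ∑ v, P u v

theorem pfS_mul (P Q : Matrix V V ℕ) (c : ℕ) (h : ∀ w, c ≤ ∑ v, Q w v) :
    c * pfS P ≤ pfS (P * Q) := by
  simp only [pfS, Matrix.mul_apply, mul_sum]
  refine sum_le_sum fun u _ => ?_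
  rw [sum_comm]
  refine sum_le_sum fun w _ => ?_
  rw [← mul_sum, mul_comm]
  exact Nat.mul_le_mul_left _ (h w)

theorem pfS_mono (hA : H18.Prim A) : Monotone fun a => pfS (A ^ a) := by
  refine monotone_nat_of_le_succ fun a => ?_
  have := pfS_mul (A ^ a) A 1 fun w => by
    obtain ⟨v, hv⟩ := hA.out w
    exact (Nat.one_le_iff_ne_zero.2 hv).trans
      (single_le_sum (f := fun v => A w v) (fun _ _ => Nat.zero_le _) (mem_univ v))
  rwa [one_mul, ← pow_succ] at this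

theorem pfS_double (h2 : 2 ≤ pfS A) {e : ℕ} (he : ∀ u v, (A ^ e) u v ≠ 0) (a t : ℕ) :
    2 ^ t * pfS (A ^ a) ≤ pfS (A ^ (a + t * (e + 1))) := by
  induction t with
  | zero => simp
  | succ t ih =>
    have h1 := pfS_mul (A ^ (a + t * (e + 1))) (A ^ e * A) 2 fun w => by
      refine h2.trans ?_
      simp only [pfS, Matrix.mul_apply]
      rw [sum_comm]
      refine sum_le_sum fun v _ => sum_le_sum fun u _ => ?_
      exact Nat.le_mul_of_pos_left _ (Nat.pos_of_ne_zero (he w u))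
    rw [← pow_succ, ← pow_add] at h1
    rw [show a + (t + 1) * (e + 1) = a + t * (e + 1) + (e + 1) by ring, pow_succ 2 t]
    nlinarith

theorem pfS_le_trace {P : Matrix V V ℕ} (hP : ∀ u v, P u v ≠ 0) (Q : Matrix V V ℕ) :
    pfS Q ≤ trace (P * Q) := by
  simp only [pfS, trace, diag_apply, Matrix.mul_apply]
  rw [sum_comm]
  refine sum_le_sum fun v _ => sum_le_sum fun u _ => ?_
  exact Nat.le_mul_of_pos_left _ (Nat.pos_of_ne_zero (hP v u))

theorem trace_le_pfS (Q : Matrix V V ℕ) : trace Q ≤ pfS Q :=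
  sum_le_sum fun u _ => single_le_sum (f := fun v => Q u v) (fun _ _ => Nat.zero_le _) (mem_univ u)

theorem pf_two_pow (t : ℕ) : t * (t + 1) < 2 ^ (t + 1) := by
  induction t with
  | zero => simp
  | succ t ih =>
    have := Nat.lt_two_pow_self (n := t)
    rw [pow_succ 2 (t + 1), pow_succ 2 t] at *
    nlinarith

theorem pf_np (hA : H18.Prim A) {k : ℕ} (hk : k ≠ 0) :
    (trace (A ^ k) : ℕ) - ((k / 2 * pfS (A ^ (k / 2)) : ℕ) : ℤ) ≤ np k A := by
  rw [np, ← Nat.insert_self_properDivisors hk, sum_insert Nat.self_notMem_properDivisors,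
    Nat.div_self (Nat.pos_of_ne_zero hk), ArithmeticFunction.moebius_apply_one, one_mul,
    sub_eq_add_neg]
  gcongr
  have h1 : ∀ e ∈ k.properDivisors, e ∈ Icc 1 (k / 2) := by
    intro e he
    obtain ⟨⟨c, hc⟩, h2⟩ := Nat.mem_properDivisors.1 he
    have h3 : e ≠ 0 := by rintro rfl; simp at hc; exact hk hc
    have h4 : 2 ≤ c := by
      rcases c with _ | _ | c
      · simp at hc; exact absurd hc hk
      · simp at hc; omega
      · omega
    rw [mem_Icc, Nat.le_div_iff_mul_le two_pos]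
    exact ⟨Nat.pos_of_ne_zero h3, by nlinarith⟩
  have h2 : k.properDivisors.card ≤ k / 2 := by simpa using card_le_card h1
  have h3 : ∀ e ∈ k.properDivisors, -((pfS (A ^ (k / 2)) : ℕ) : ℤ) ≤
      ArithmeticFunction.moebius (k / e) * ((trace (A ^ e) : ℕ) : ℤ) := by
    intro e he
    have h4 : trace (A ^ e) ≤ pfS (A ^ (k / 2)) :=
      (trace_le_pfS _).trans (pfS_mono hA (mem_Icc.1 (h1 e he)).2)
    have h5 := (abs_le.1 (ArithmeticFunction.abs_moebius_le_one (n := k / e))).1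
    have h6 : (0 : ℤ) ≤ (trace (A ^ e) : ℕ) := Int.natCast_nonneg _
    have h7 : ((trace (A ^ e) : ℕ) : ℤ) ≤ (pfS (A ^ (k / 2)) : ℕ) := by exact_mod_cast h4
    nlinarith
  have h4 := card_nsmul_le_sum _ _ _ h3
  refine le_trans ?_ h4
  rw [smul_neg, neg_le_neg_iff, nsmul_eq_mul]
  exact_mod_cast Nat.mul_le_mul_right _ h2

theorem pf_abund (A : Matrix V V ℕ) (hA : Prim A) (h2 : 2 ≤ ∑ u, ∑ v, A u v) (k : ℕ)
    (hk : big (Fintype.card V) ≤ k) : 0 < np k A := by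
  cases isEmpty_or_nonempty V with
  | inl hV => simp at h2
  | inr hV =>
  have hA := pf_prim hA
  obtain ⟨e, he⟩ : ∃ e, e = 2 ^ (Fintype.card V * Fintype.card V) := ⟨_, rfl⟩
  have he1 : 1 ≤ e := he ▸ Nat.one_le_two_pow
  have hk' : 400 * (e * e) ≤ k := by
    rw [big, pow_succ, show (4 : ℕ) = 2 * 2 from rfl, mul_pow, ← he] at hk
    omega
  have hpos := pf_exp hA he.ge
  obtain ⟨t, ht⟩ : ∃ t, t = k / (8 * e) := ⟨_, rfl⟩
  have h8 : 0 < 8 * e := by omega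
  have ht1 : t * (8 * e) ≤ k := ht ▸ Nat.div_mul_le_self _ _
  have ht2 : k < (t + 1) * (8 * e) := by
    rw [← Nat.div_lt_iff_lt_mul h8]
    omega
  have ht3 : 8 * e ≤ t := by
    rw [ht, Nat.le_div_iff_mul_le h8]
    nlinarith
  have h3 := pfS_double h2 hpos (k / 2) t
  have h4 : k / 2 + t * (e + 1) + e ≤ k := by
    have : 2 * (k / 2) ≤ k := Nat.mul_div_le k 2
    nlinarith
  obtain ⟨a, ha⟩ : ∃ a, k = e + a := ⟨k - e, by omega⟩
  have h5 : pfS (A ^ a) ≤ trace (A ^ k) := by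
    rw [ha, pow_add]
    exact pfS_le_trace hpos _
  have h6 : pfS (A ^ (k / 2 + t * (e + 1))) ≤ pfS (A ^ a) := pfS_mono hA (by omega)
  have h7 : 0 < pfS (A ^ (k / 2)) := by
    have h8 : pfS (A ^ 1) ≤ pfS (A ^ (k / 2)) := pfS_mono hA (by
      rw [Nat.le_div_iff_mul_le two_pos]; nlinarith)
    rw [pow_one] at h8
    exact lt_of_lt_of_le two_pos (le_trans h2 h8)
  have h9 : k / 2 < 2 ^ t := by
    have := pf_two_pow t
    rw [Nat.div_lt_iff_lt_mul two_pos, ← pow_succ]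
    nlinarith
  have h10 : k / 2 * pfS (A ^ (k / 2)) < trace (A ^ k) :=
    (Nat.mul_lt_mul_of_pos_right h9 h7).trans_le (h3.trans (h6.trans h5))
  refine lt_of_lt_of_le ?_ (pf_np hA (by nlinarith))
  rw [sub_pos]
  exact_mod_cast h10

end Abund

theorem pfStmt : PFStmt where
  sign _ _ _ _ _ _ A B R S l hA hB h := pf_sign A B R S l hA hB h
  abund _ _ _ A hA h2 k hk := pf_abund A hA h2 k hk

theorem pf_of (_h : CntStmt) : PFStmt := pfStmt

end Pool.Agent.MP_993212_an.H16
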