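import Pool.Agent.MP_993212_an.H16.Spec

/-! Determinants, traces and presentations of linear models. -/

namespace Pool.Agent.MP_993212_an.H16

open Matrix Polynomial Finset Function

section Jacobi

variable {K V : Type} [CommRing K] [Fintype V] [DecidableEq V]

theorem tr_jacobi (P : Matrix V V K[X]) :
    derivative P.det = trace (adjugate P * P.map fun f => derivative f) := by
  have h : ∀ i, (adjugate P * P.map fun f => derivative f) i i =
      (P.updateCol i fun r => derivative (P r i)).det := fun i => by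
    rw [← cramer_apply, cramer_eq_adjugate_mulVec]
    rfl
  simp only [trace, Matrix.diag_apply, h, det_apply', map_sum]
  rw [sum_comm]
  refine sum_congr rfl fun σ _ => ?_
  rw [derivative_mul, derivative_intCast, zero_mul, zero_add, derivative_prod_finset, mul_sum]
  refine sum_congr rfl fun i _ => congrArg _ ?_
  rw [← mul_prod_erase univ _ (mem_univ i), updateCol_self, mul_comm]
  refine congrArg _ (prod_congr rfl fun j hj => ?_)
  rw [updateCol_ne (ne_of_mem_erase hj)]

/-- the generating polynomial of the first traces -/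
noncomputable def trGen (k : ℕ) (A : Matrix V V K) : K[X] :=
  ∑ j ∈ range k, C (trace (A ^ (j + 1))) * X ^ j

theorem trGen_coeff (k : ℕ) (A : Matrix V V K) {j : ℕ} (hj : j < k) :
    (trGen k A).coeff j = trace (A ^ (j + 1)) := by
  simp only [trGen, finsetSum_coeff, coeff_C_mul_X_pow]
  rw [sum_ite_eq, if_pos (mem_range.2 hj)]

theorem tr_newton (k : ℕ) (A : Matrix V V K) :
    (X : K[X]) ^ k ∣ derivative (pen A).det + (pen A).det * trGen k A := by
  set A' : Matrix V V K[X] := A.map C with hA'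
  have hd : ((pen A).map fun f => derivative f) = -A' := by
    ext1 u v
    simp only [pen, hA', map_apply, Matrix.sub_apply, Matrix.smul_apply, smul_eq_mul,
      Matrix.neg_apply, one_apply]
    split_ifs <;> simp
  have hg : pen A * ∑ j ∈ range k, ((X : K[X]) • A') ^ j = 1 - ((X : K[X]) • A') ^ k :=
    mul_neg_geom_sum _ _
  have ha : adjugate (pen A) = (pen A).det • ∑ j ∈ range k, ((X : K[X]) • A') ^ j +
      (X : K[X]) ^ k • (adjugate (pen A) * A' ^ k) := by
    have := congrArg (adjugate (pen A) * ·) hg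
    simp only [← Matrix.mul_assoc, adjugate_mul, Matrix.smul_mul, Matrix.one_mul, Matrix.mul_sub,
      Matrix.mul_one, smul_pow ((X : K[X])) A' k, Matrix.mul_smul] at this
    rw [this, sub_add_cancel]
  have ht : trace ((∑ j ∈ range k, ((X : K[X]) • A') ^ j) * A') = trGen k A := by
    rw [Finset.sum_mul, trace_sum, trGen]
    refine sum_congr rfl fun j _ => ?_
    rw [_root_.smul_pow, Matrix.smul_mul, ← pow_succ, trace_smul, smul_eq_mul, mul_comm]
    refine congrArg (· * _) ?_
    have : A' ^ (j + 1) = (A ^ (j + 1)).map C := (map_pow (C : K →+* K[X]).mapMatrix A (j + 1)).symm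
    rw [this]
    exact (AddMonoidHom.map_trace (C : K →+* K[X]) _).symm
  refine ⟨-trace (adjugate (pen A) * A' ^ k * A'), ?_⟩
  rw [tr_jacobi, hd, Matrix.mul_neg, trace_neg, ← ht]
  nth_rewrite 1 [ha]
  simp only [Matrix.add_mul, Matrix.smul_mul, trace_add, trace_smul, smul_eq_mul]
  ring

theorem tr_coeff_zero (A : Matrix V V K) : (pen A).det.coeff 0 = 1 := by
  rw [coeff_zero_eq_eval_zero]
  exact eval_charpolyRev

theorem tr_trace_eq {W : Type} [Fintype W] [DecidableEq W] (A : Matrix V V K) (B : Matrix W W K)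
    (k : ℕ) (h : (X : K[X]) ^ (k + 1) ∣ (pen A).det - (pen B).det) (j : ℕ) (h1 : 1 ≤ j)
    (hj : j ≤ k) : trace (A ^ j) = trace (B ^ j) := by
  have a1 : (X : K[X]) ^ k ∣ (pen A).det - (pen B).det := (pow_dvd_pow _ (Nat.le_succ k)).trans h
  have a2 : (X : K[X]) ^ k ∣ derivative (pen A).det - derivative (pen B).det := by
    obtain ⟨q, hq⟩ := h
    rw [← derivative_sub, hq, derivative_mul, derivative_X_pow_succ]
    exact ((dvd_mul_left _ _).mul_right _).add ((pow_dvd_pow _ (Nat.le_succ k)).mul_right _)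
  have a3 : (X : K[X]) ^ k ∣ (pen A).det * (trGen k A - trGen k B) := by
    have := (((tr_newton k A).sub (tr_newton k B)).sub a2).sub (a1.mul_right (trGen k B))
    refine (dvd_iff_dvd_of_dvd_sub ?_).1 this
    exact ⟨0, by ring⟩
  have a4 : IsCoprime ((X : K[X]) ^ k) (pen A).det := by
    refine IsCoprime.pow_left ⟨-divX (pen A).det, 1, ?_⟩
    have := divX_mul_X_add (pen A).det
    rw [tr_coeff_zero, map_one] at this
    linear_combination -this
  obtain ⟨i, rfl⟩ : ∃ i, j = i + 1 := ⟨j - 1, by omega⟩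
  have := X_pow_dvd_iff.1 (a4.dvd_of_dvd_mul_left a3) i (by omega)
  rwa [coeff_sub, trGen_coeff k A (by omega), trGen_coeff k B (by omega), sub_eq_zero] at this

end Jacobi

section Pres

variable {K V W G : Type} [CommRing K] [Fintype V] [DecidableEq V] [Fintype W] [DecidableEq W]
  [AddCommGroup G] [Module K[X] G]

omit [DecidableEq V] [DecidableEq W] in
theorem tr_sum_vecMul (P : Matrix W V K[X]) (κ : V → G) (y : W → K[X]) :
    ∑ w, y w • ∑ v, P w v • κ v = ∑ v, (y ᵥ* P) v • κ v := by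
  simp only [smul_sum, smul_smul, vecMul, dotProduct, sum_smul]
  exact sum_comm

theorem tr_pres_swap (P : Matrix W V K[X]) (Q : Matrix V W K[X]) (κ : V → G)
    (h : Pres (1 - Q * P) κ) : Pres (1 - P * Q) fun w => ∑ v, P w v • κ v := by
  refine ⟨fun g => ?_, fun y => ?_⟩
  · obtain ⟨y, rfl⟩ := h.1 g
    refine ⟨y ᵥ* Q, ?_⟩
    have h0 := (h.2 _).2 ⟨y, rfl⟩
    rw [vecMul_sub, vecMul_one] at h0
    simp only [Pi.sub_apply, sub_smul, sum_sub_distrib] at h0
    rw [tr_sum_vecMul, vecMul_vecMul, sub_eq_zero.1 h0]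
  · rw [tr_sum_vecMul, h.2]
    constructor
    · rintro ⟨z, hz⟩
      refine ⟨y + z ᵥ* Q, ?_⟩
      have e1 : Q * (1 - P * Q) = (1 - Q * P) * Q := by
        simp only [Matrix.mul_sub, Matrix.sub_mul, Matrix.mul_one, Matrix.one_mul, Matrix.mul_assoc]
      rw [add_vecMul, vecMul_vecMul, e1, ← vecMul_vecMul, ← hz, vecMul_sub, vecMul_one,
        vecMul_vecMul, sub_add_cancel]
    · rintro ⟨z, rfl⟩
      refine ⟨z ᵥ* P, ?_⟩
      rw [vecMul_vecMul, vecMul_vecMul]
      simp only [Matrix.mul_sub, Matrix.sub_mul, Matrix.mul_one, Matrix.one_mul, Matrix.mul_assoc]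

theorem tr_pres_unit {P U : Matrix V V K[X]} (hU : IsUnit U) {κ : V → G} (h : Pres P κ) :
    Pres (U * P) κ := by
  obtain ⟨u, rfl⟩ := hU
  refine ⟨h.1, fun y => (h.2 y).trans ⟨?_, ?_⟩⟩
  · rintro ⟨z, rfl⟩
    refine ⟨z ᵥ* (↑u⁻¹ : Matrix V V K[X]), ?_⟩
    rw [vecMul_vecMul, Units.inv_mul_cancel_left]
  · rintro ⟨z, rfl⟩
    exact ⟨z ᵥ* (u : Matrix V V K[X]), by rw [vecMul_vecMul]⟩

theorem tr_pres_pull (R : Matrix V W K) (S : Matrix W V K) (κ : W → G)
    (h : Pres (pen (S * R)) κ) : Pres (pen (R * S)) (pull R κ) := by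
  have e1 : pen (S * R) = 1 - ((X : K[X]) • S.map C) * R.map C := by
    rw [pen, Matrix.map_mul, Matrix.smul_mul]
  have e2 : pen (R * S) = 1 - R.map C * ((X : K[X]) • S.map C) := by
    rw [pen, Matrix.map_mul, Matrix.mul_smul]
  rw [e1] at h
  rw [e2]
  exact tr_pres_swap _ _ κ h

theorem tr_pres_shift (P : Matrix V V K[X]) (ξ : V → G)
    (h0 : ∀ u v, (P u v).coeff 0 = if u = v then 1 else 0) (h : Pres P ξ) :
    Pres P (fun v => (X : K[X]) • ξ v) ∧ Bijective fun g : G => (X : K[X]) • g := by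
  have e : P = 1 - (X : K[X]) • P.map fun f => -divX f := by
    ext1 u v
    have := divX_mul_X_add (P u v)
    rw [h0] at this
    simp only [Matrix.sub_apply, Matrix.smul_apply, map_apply, smul_eq_mul, one_apply]
    split_ifs at this ⊢ with huv
    · rw [map_one] at this; linear_combination -this
    · rw [map_zero] at this; linear_combination -this
  have h1 : Pres P fun v => (X : K[X]) • ξ v := by
    have := tr_pres_swap ((X : K[X]) • (1 : Matrix V V K[X])) (P.map fun f => -divX f) ξ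
      (by rw [Matrix.mul_smul, Matrix.mul_one, ← e]; exact h)
    rw [Matrix.smul_mul, Matrix.one_mul, ← e] at this
    simpa [one_apply] using this
  have h2 : ∀ y : V → K[X], ∑ v, y v • (X : K[X]) • ξ v = (X : K[X]) • ∑ v, y v • ξ v := fun y => by
    rw [smul_sum]
    exact sum_congr rfl fun v _ => smul_comm _ _ _
  refine ⟨h1, (injective_iff_map_eq_zero (DistribSMul.toAddMonoidHom G (X : K[X]))).2 fun g hg => ?_,
    fun g => ?_⟩
  · obtain ⟨y, rfl⟩ := h.1 g
    exact (h.2 y).2 ((h1.2 y).1 ((h2 y).trans hg))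
  · obtain ⟨y, rfl⟩ := h1.1 g
    exact ⟨_, (h2 y).symm⟩

theorem tr_pres_ex (P : Matrix V V K[X]) :
    ∃ (G : Type) (_ : AddCommGroup G) (_ : Module K[X] G) (ξ : V → G), Pres P ξ := by
  let N : Submodule K[X] (V → K[X]) := LinearMap.range P.vecMulLinear
  have h : ∀ y : V → K[X], ∑ v, y v • N.mkQ (Pi.single v 1) = N.mkQ y := fun y => by
    simp only [← map_smul, ← map_sum]
    exact congrArg _ (pi_eq_sum_univ' y).symm
  refine ⟨(V → K[X]) ⧸ N, inferInstance, inferInstance, fun v => N.mkQ (Pi.single v 1),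
    fun g => ?_, fun y => ?_⟩
  · obtain ⟨y, rfl⟩ := N.mkQ_surjective g
    exact ⟨y, h y⟩
  · rw [h, Submodule.mkQ_apply, Submodule.Quotient.mk_eq_zero]
    exact ⟨fun ⟨z, hz⟩ => ⟨z, hz.symm⟩, fun ⟨z, hz⟩ => ⟨z, hz.symm⟩⟩

end Pres

section Lin

variable {K V : Type} [CommRing K] [Fintype V] [DecidableEq V]

/-- the shift between levels -/
def trN (K V : Type) [CommRing K] [DecidableEq V] (L : ℕ) : Matrix (V × Fin L) (V × Fin L) K :=
  Matrix.of fun p q => if p.1 = q.1 ∧ (p.2 : ℕ) = q.2 + 1 then 1 else 0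

/-- powers of the variable along the levels -/
noncomputable def trXi (K V : Type) [CommRing K] [DecidableEq V] (L : ℕ) :
    Matrix (V × Fin L) V K[X] :=
  Matrix.of fun p v => if p.1 = v then X ^ (p.2 : ℕ) else 0

/-- the coefficients -/
noncomputable def trQ (L : ℕ) (M : Matrix V V K[X]) : Matrix V (V × Fin L) K[X] :=
  Matrix.of fun u q => X * C ((M u q.1).coeff (q.2 + 1))

theorem trN_pow (L n : ℕ) (p q : V × Fin L) (h : (p.2 : ℕ) < n) : (trN K V L ^ n) p q = 0 := by
  induction n generalizing p with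
  | zero => omega
  | succ n ih =>
    rw [pow_succ', Matrix.mul_apply]
    refine sum_eq_zero fun r _ => ?_
    simp only [trN, of_apply]
    split_ifs with hr
    · exact mul_eq_zero_of_right _ (ih r (by omega))
    · exact zero_mul _

theorem trN_nil (L : ℕ) : IsNilpotent (trN K V L) :=
  ⟨L, by ext p q; exact trN_pow L L p q p.2.2⟩

theorem trQ_mul_trXi (L : ℕ) (M : Matrix V V K[X]) (h0 : ∀ u v, (M u v).coeff 0 = 0)
    (hL : ∀ u v, (M u v).natDegree ≤ L) : trQ L M * trXi K V L = M := by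
  ext1 u v
  rw [Matrix.mul_apply, Fintype.sum_prod_type, sum_eq_single v]
  · simp only [trQ, trXi, of_apply, if_true]
    rw [Fin.sum_univ_eq_sum_range (fun j => X * C ((M u v).coeff (j + 1)) * X ^ j) L]
    conv_rhs => rw [(M u v).as_sum_range_C_mul_X_pow' (Nat.lt_succ_of_le (hL u v)),
      sum_range_succ', h0, map_zero, zero_mul, add_zero]
    exact sum_congr rfl fun j _ => by ring
  · intro w _ hw
    simp [trXi, hw]
  · intro h
    exact absurd (mem_univ v) h

theorem pen_mul_trXi (L : ℕ) (p : V × Fin L) (v : V) :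
    (pen (trN K V L) * trXi K V L) p v = if p.1 = v ∧ (p.2 : ℕ) = 0 then 1 else 0 := by
  obtain ⟨u, i, hi⟩ := p
  rw [pen, Matrix.sub_mul, Matrix.one_mul, Matrix.smul_mul, Matrix.sub_apply, Matrix.smul_apply,
    Matrix.mul_apply]
  rcases i with _ | i
  · simp [trN, trXi]
  · rw [sum_eq_single (u, ⟨i, by omega⟩)]
    · simp [trN, trXi, pow_succ']
    · rintro ⟨w, j⟩ _ hne
      have : ¬ (u = w ∧ i = (j : ℕ)) := by
        rintro ⟨rfl, rfl⟩
        exact hne rfl
      simp [trN, this]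
    · intro h
      exact absurd (mem_univ _) h

theorem pen_lin (L : ℕ) (M : Matrix V V K[X]) :
    pen (lin L M) = pen (trN K V L) * (1 - trXi K V L * trQ L M) := by
  rw [Matrix.mul_sub, Matrix.mul_one, ← Matrix.mul_assoc]
  ext1 p q
  rw [Matrix.sub_apply, Matrix.mul_apply, sum_eq_single p.1]
  · rw [pen_mul_trXi]
    by_cases hp : (p.2 : ℕ) = 0
    · simp [pen, lin, trN, trQ, hp]
    · simp [pen, lin, trN, hp]
  · intro w _ hw
    rw [pen_mul_trXi, if_neg fun h => hw h.1.symm, zero_mul]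
  · intro h
    exact absurd (mem_univ _) h

theorem tr_det_trN [IsDomain K] (L : ℕ) : (pen (trN K V L)).det = 1 := by
  obtain ⟨r, -, hr⟩ := Polynomial.isUnit_iff.1 (isUnit_charpolyRev_of_isNilpotent (trN_nil (K := K) (V := V) L))
  have h0 := tr_coeff_zero (trN K V L)
  change C r = (pen (trN K V L)).det at hr
  rw [← hr, coeff_C_zero] at h0
  rw [← hr, h0, map_one]

theorem tr_det_lin [IsDomain K] (L : ℕ) (M : Matrix V V K[X]) (h0 : ∀ u v, (M u v).coeff 0 = 0)
    (hL : ∀ u v, (M u v).natDegree ≤ L) : (pen (lin L M)).det = (1 - M).det := by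
  rw [pen_lin, det_mul, tr_det_trN, one_mul, det_one_sub_mul_comm, trQ_mul_trXi L M h0 hL]

theorem tr_pres_lin [IsDomain K] {G : Type} [AddCommGroup G] [Module K[X] G] (L : ℕ)
    (M : Matrix V V K[X]) (ξ : V → G) (h0 : ∀ u v, (M u v).coeff 0 = 0)
    (hL : ∀ u v, (M u v).natDegree ≤ L) (h : Pres (1 - M) ξ) :
    Pres (pen (lin L M)) fun q : V × Fin L => (X : K[X]) ^ (q.2 : ℕ) • ξ q.1 := by
  rw [pen_lin]
  refine tr_pres_unit ((isUnit_iff_isUnit_det _).2 (by rw [tr_det_trN]; exact isUnit_one)) ?_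
  have := tr_pres_swap (trXi K V L) (trQ L M) ξ (by rw [trQ_mul_trXi L M h0 hL]; exact h)
  simpa [trXi] using this

end Lin

theorem trStmt : TrStmt where
  det_lin _ _ _ L M h0 hL := tr_det_lin L M h0 hL
  trace_eq _ _ _ _ _ _ A B k h j h1 hj := tr_trace_eq A B k h j h1 hj
  pres_lin _ _ _ _ _ _ L M ξ _ h0 hL h := tr_pres_lin L M ξ h0 hL h
  pres_pull _ _ _ _ _ _ _ _ _ R S κ h := tr_pres_pull R S κ h
  pres_shift _ _ _ _ _ _ P ξ h0 h := tr_pres_shift P ξ h0 h
  pres_ex _ _ _ P := tr_pres_ex P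

end Pool.Agent.MP_993212_an.H16
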