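import Pool.Agent.MP_993212_an.H16.Spec

/-! The triangle identity over the natural numbers. -/

namespace Pool.Agent.MP_993212_an.H16

open Matrix Finset Function

section Generic

variable {α β : Type}

abbrev TriK (α : Type) : Type := ∀ n : ℕ, (ZMod (n + 1) → α) → Lex (Fin (n + 1) → Key)

abbrev TriP (α : Type) : Type := ∀ n : ℕ, Finset (ZMod (n + 1) → α)

noncomputable def triG (P : TriP α) (K₁ K₂ : TriK α) : (d : ℕ) → ZMod d
  | 0 => 0
  | n + 1 => gyr rot (P n) (K₁ n) (K₂ n)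

noncomputable def triX (P : TriP α) (K₁ K₂ : TriK α) : ℕ → ℤ
  | 0 => 0
  | n + 1 => (invs rot (P n) (K₁ n) (K₂ n) : ℕ)

noncomputable def triT (P : TriP α) (K₁ K₂ : TriK α) (k : ℕ) : ZMod k :=
  comb k (triG P K₁ K₂ k) (triX P K₁ K₂)

theorem tri_comb_congr (k : ℕ) (g : ZMod k) (x x' : ℕ → ℤ)
    (h : ∀ d, (x d : ZMod 2) = (x' d : ZMod 2)) : comb k g x = comb k g x' := by
  unfold comb
  congr 1
  rw [mul_sum, mul_sum]
  refine sum_congr rfl fun i hi => ?_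
  split_ifs with hd
  · have h2 : 2 ∣ k := (dvd_pow_self 2 (by have := (mem_Icc.1 hi).1; omega)).trans hd
    obtain ⟨m, hm⟩ := (ZMod.intCast_eq_intCast_iff_dvd_sub _ _ 2).1 (h (k / 2 ^ i))
    have e : x' (k / 2 ^ i) = x (k / 2 ^ i) + 2 * m := by push_cast at hm; linarith
    have z : ((k / 2 : ℕ) : ZMod k) * 2 = 0 := by
      have : ((k / 2 * 2 : ℕ) : ZMod k) = 0 := by
        rw [Nat.div_mul_cancel h2]; exact ZMod.natCast_self k
      simpa using this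
    rw [e]
    push_cast
    rw [mul_add, ← mul_assoc, z, zero_mul, add_zero]
  · rfl

theorem triT_add (h : AbsStmt) {P : TriP α} {K₁ K₂ K₃ : TriK α} (hP : ∀ n, Free rot (P n))
    (h₁ : ∀ n, Set.InjOn (K₁ n) (P n)) (h₂ : ∀ n, Set.InjOn (K₂ n) (P n))
    (h₃ : ∀ n, Set.InjOn (K₃ n) (P n)) (k : ℕ) :
    triT P K₁ K₂ k + triT P K₂ K₃ k = triT P K₁ K₃ k := by
  unfold triT
  rw [← comb_add]
  have e : triG P K₁ K₂ k + triG P K₂ K₃ k = triG P K₁ K₃ k := by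
    cases k with
    | zero => simp [triG]
    | succ n => exact (h.add _ _ _ _ _ _ _ _ _ _ (hP n) (h₁ n) (h₂ n) (h₃ n)).1
  rw [e]
  refine tri_comb_congr _ _ _ _ fun d => ?_
  cases d with
  | zero => simp [triX]
  | succ n =>
    have := (h.add _ _ _ _ _ _ _ _ _ _ (hP n) (h₁ n) (h₂ n) (h₃ n)).2
    simpa [triX] using this

theorem triT_tr (h : AbsStmt) {P : TriP α} {P' : TriP β} {K₁ K₂ : TriK α} {K₁' K₂' : TriK β}
    (e : ∀ n : ℕ, (ZMod (n + 1) → α) → ZMod (n + 1) → β) (hP : ∀ n, Free rot (P n))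
    (hb : ∀ n, Set.BijOn (e n) (P n) (P' n)) (he : ∀ n j x, e n (rot j x) = rot j (e n x))
    (h₁ : ∀ n, ∀ x ∈ P n, K₁ n x = K₁' n (e n x)) (h₂ : ∀ n, ∀ x ∈ P n, K₂ n x = K₂' n (e n x))
    (k : ℕ) : triT P K₁ K₂ k = triT P' K₁' K₂' k := by
  have key := fun n => h.transport _ _ _ _ _ _ (n + 1) rot rot (P n) (P' n) (K₁ n) (K₂ n) (K₁' n)
    (K₂' n) (e n) (hP n) (hb n) (fun j x _ => he n j x)
    (fun x hx y hy => by rw [h₁ n x hx, h₁ n y hy]) (fun x hx y hy => by rw [h₂ n x hx, h₂ n y hy])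
  have e1 : triG P K₁ K₂ k = triG P' K₁' K₂' k := by
    cases k with
    | zero => rfl
    | succ n => exact (key n).1
  have e2 : triX P K₁ K₂ = triX P' K₁' K₂' := by
    funext d
    cases d with
    | zero => rfl
    | succ n => simp only [triX, (key n).2]
  unfold triT
  rw [e1, e2]

variable {d : ℕ}

/-- words of least period `d` -/
def TriPrim (z : ZMod d → α) : Prop := ∀ j, rot j z = z → j = 0

theorem tri_rot_rot (i j : ZMod d) (z : ZMod d → α) : rot i (rot j z) = rot (i + j) z := by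
  funext n
  simp [rot, add_assoc]

theorem tri_free {C : Set (ZMod d → α)} {P : Finset (ZMod d → α)}
    (hC : ∀ j, ∀ x ∈ C, rot j x ∈ C) (hP : ∀ z, z ∈ P ↔ z ∈ C ∧ TriPrim z) : Free rot P where
  zero x _ := by funext n; simp [rot]
  add i j x _ := tri_rot_rot i j x
  mem j x hx := by
    rw [hP] at hx ⊢
    refine ⟨hC j x hx.1, fun i hi => hx.2 i ?_⟩
    have := congrArg (rot (-j)) hi
    rw [tri_rot_rot, tri_rot_rot, tri_rot_rot] at this
    have e1 : -j + i + j = i := by ring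
    have e2 : rot (-j + j) x = x := by funext n; simp [rot]
    rwa [e1, e2] at this
  free j x hx h := ((hP x).1 hx).2 j h

theorem tri_bij {C : Set (ZMod d → α)} {C' : Set (ZMod d → β)} {P : Finset (ZMod d → α)}
    {P' : Finset (ZMod d → β)} {e : (ZMod d → α) → ZMod d → β} (hb : Set.BijOn e C C')
    (hC : ∀ j, ∀ x ∈ C, rot j x ∈ C) (he : ∀ j x, e (rot j x) = rot j (e x))
    (hP : ∀ z, z ∈ P ↔ z ∈ C ∧ TriPrim z) (hP' : ∀ z, z ∈ P' ↔ z ∈ C' ∧ TriPrim z) :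
    Set.BijOn e P P' := by
  refine ⟨fun x hx => ?_, fun x hx y hy hxy => ?_, fun y hy => ?_⟩
  · have hx := (hP x).1 hx
    refine (hP' _).2 ⟨hb.mapsTo hx.1, fun j hj => hx.2 j ?_⟩
    exact hb.injOn (hC j x hx.1) hx.1 ((he j x).trans hj)
  · exact hb.injOn ((hP x).1 hx).1 ((hP y).1 hy).1 hxy
  · have hy := (hP' y).1 hy
    obtain ⟨x, hx, rfl⟩ := hb.surjOn hy.1
    refine ⟨x, (hP x).2 ⟨hx, fun j hj => hy.2 j ?_⟩, rfl⟩
    rw [← he, hj]

end Generic

section Words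

variable {α V : Type}

/-- cyclic words all of whose letters, with the source of the next letter, lie in `F` -/
def triC (F : Set (α × V)) (src : α → V) (d : ℕ) : Set (ZMod d → α) :=
  {y | ∀ i, (y i, src (y (i + 1))) ∈ F}

theorem triC_rot (F : Set (α × V)) (src : α → V) (d : ℕ) :
    ∀ j, ∀ x ∈ triC F src d, rot j x ∈ triC F src d := fun j x hx i => by
  have := hx (i + j)
  simpa only [rot, add_right_comm i j 1] using this

theorem triC_fin {F : Set (α × V)} (hF : F.Finite) (src : α → V) (n : ℕ) :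
    {y | y ∈ triC F src (n + 1) ∧ TriPrim y}.Finite := by
  refine (Set.Finite.pi' (t := fun _ : ZMod (n + 1) => Prod.fst '' F)
    fun _ => hF.image _).subset ?_
  intro y hy i
  exact ⟨_, hy.1 i, rfl⟩

noncomputable def triW {F : Set (α × V)} (hF : F.Finite) (src : α → V) : TriP α :=
  fun n => (triC_fin hF src n).toFinset

theorem mem_triW {F : Set (α × V)} (hF : F.Finite) (src : α → V) (n : ℕ) (z : ZMod (n + 1) → α) :
    z ∈ triW hF src n ↔ z ∈ triC F src (n + 1) ∧ TriPrim z := by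
  simp [triW]

theorem free_triW {F : Set (α × V)} (hF : F.Finite) (src : α → V) (n : ℕ) :
    Free rot (triW hF src n) := tri_free (triC_rot F src _) (mem_triW hF src n)

abbrev TriO : Type := ℕ ×ₗ ℕ ×ₗ ℕ

def triKey (o : V → ℕ) (src : α → V) (κ : α × V → TriO) : TriK α := fun n y =>
  toLex fun m => toLex (o (src (y ((m : ℕ) : ZMod (n + 1)))),
    toLex (o (src (y (((m : ℕ) : ZMod (n + 1)) + 1))),
      κ (y ((m : ℕ) : ZMod (n + 1)), src (y (((m : ℕ) : ZMod (n + 1)) + 1)))))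

/-- the key separates parallel edges -/
def TriSep (F : Set (α × V)) (src : α → V) (κ : α × V → TriO) : Prop :=
  ∀ p ∈ F, ∀ q ∈ F, src p.1 = src q.1 → p.2 = q.2 → κ p = κ q → p = q

theorem triKey_inj {F : Set (α × V)} (hF : F.Finite) {o : V → ℕ} {src : α → V}
    {κ : α × V → TriO} (ho : Injective o) (hκ : TriSep F src κ) (n : ℕ) :
    Set.InjOn (triKey o src κ n) (triW hF src n) := by
  intro x hx y hy hxy
  have hx := ((mem_triW hF src n x).1 hx).1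
  have hy := ((mem_triW hF src n y).1 hy).1
  funext i
  have h := congrFun (toLex.injective hxy) ⟨i.val, ZMod.val_lt i⟩
  simp only [ZMod.natCast_zmod_val, toLex_inj, Prod.mk.injEq] at h
  exact congrArg Prod.fst (hκ _ (hx i) _ (hy i) (ho h.1) (ho h.2.1) h.2.2)

theorem triKey_bk (h : AbsStmt) (hb : BKStmt) {F : Set (α × V)} (hF : F.Finite) {o : V → ℕ}
    {src : α → V} {κ₁ κ₂ : α × V → TriO} (ho : Injective o) (h₁ : TriSep F src κ₁)
    (h₂ : TriSep F src κ₂) (k : ℕ) :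
    triT (triW hF src) (triKey o src κ₁) (triKey o src κ₂) k = 0 := by
  classical
  let _ : Fintype F := hF.fintype
  let s : F → V := fun e => src e.1.1
  let t : F → V := fun e => e.1.2
  have key := hb F V TriO TriO o s t (fun e => κ₁ e.1) (fun e => κ₂ e.1) ho
    (fun e e' a b c => Subtype.ext (h₁ _ e.2 _ e'.2 a b c))
    (fun e e' a b c => Subtype.ext (h₂ _ e.2 _ e'.2 a b c)) k
  have e0 : triT (fun n => gprim (n + 1) s t) (fun _ => gkey o s t fun e => κ₁ e.1)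
      (fun _ => gkey o s t fun e => κ₂ e.1) k = 0 := by
    rw [← key]
    unfold triT
    congr 1
  rw [← e0]
  let C : ∀ n : ℕ, Set (ZMod (n + 1) → F) := fun n => {z | ∀ i, t (z i) = s (z (i + 1))}
  have hC : ∀ n j, ∀ x ∈ C n, rot j x ∈ C n := fun n j x hx i => by
    have := hx (i + j)
    simpa only [rot, add_right_comm i j 1] using this
  have hm : ∀ n z, z ∈ gprim (n + 1) s t ↔ z ∈ C n ∧ TriPrim z := fun n z => by
    simp [gprim, C, TriPrim]
  have hk : ∀ (κ : α × V → TriO) (n : ℕ), ∀ x ∈ gprim (n + 1) s t,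
      gkey o s t (fun e => κ e.1) x = triKey o src κ n fun i => (x i).1.1 := by
    intro κ n x hx
    have hx := ((hm n x).1 hx).1
    unfold gkey triKey
    congr 1
    funext m
    have := hx ((m : ℕ) : ZMod (n + 1))
    simp only [s, t] at this ⊢
    rw [← this]
  symm
  refine triT_tr h (fun n z i => (z i).1.1) (fun n => tri_free (hC n) (hm n)) (fun n => ?_)
    (fun n j x => rfl) (hk κ₁) (hk κ₂) k
  refine tri_bij (C := C n) (C' := triC F src (n + 1)) ⟨fun z hz i => ?_, fun z hz z' hz' e => ?_,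
    fun y hy => ?_⟩ (hC n) (fun j x => rfl) (hm n) (mem_triW hF src n)
  · have := hz i
    simp only [s, t] at this
    rw [← this]
    exact (z i).2
  · funext i
    refine Subtype.ext (Prod.ext (congrFun e i) ?_)
    have a := hz i
    have b := hz' i
    simp only [s, t] at a b
    rw [a, b]
    exact congrArg src (congrFun e (i + 1))
  · exact ⟨fun i => ⟨_, hy i⟩, fun i => rfl, rfl⟩

end Words

section Triple

variable {A B C : Type} [Fintype A] [Fintype B] [Fintype C]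

omit [Fintype A] [Fintype C] in
/-- numbering of the paths of length two -/
theorem tri_code (M : Matrix A B ℕ) (N : Matrix B C ℕ) :
    ∃ c : A → C → B × ℕ × ℕ → ℕ, ∀ a e, Set.BijOn (c a e)
      {p | p.2.1 < M a p.1 ∧ p.2.2 < N p.1 e} {s | s < (M * N) a e} := by
  classical
  have key : ∀ a e, ∃ c : B × ℕ × ℕ → ℕ, Set.BijOn c
      {p | p.2.1 < M a p.1 ∧ p.2.2 < N p.1 e} {s | s < (M * N) a e} := by
    intro a e
    let S : Finset (B × ℕ × ℕ) :=
      univ.biUnion fun b => (range (M a b) ×ˢ range (N b e)).image fun q => (b, q)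
    have hS : (S : Set (B × ℕ × ℕ)) = {p | p.2.1 < M a p.1 ∧ p.2.2 < N p.1 e} := by
      ext ⟨b, r, s⟩
      simp only [S, coe_biUnion, coe_univ, Set.mem_univ, Set.iUnion_true, Set.mem_iUnion,
        mem_coe, mem_image, mem_product, mem_range, Prod.mk.injEq, Set.mem_ofPred_eq]
      constructor
      · rintro ⟨b', q, hq, rfl, rfl⟩
        exact hq
      · exact fun hq => ⟨b, (r, s), hq, rfl, rfl⟩
    have hc : S.card = (M * N) a e := by
      rw [card_biUnion, Matrix.mul_apply]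
      · refine sum_congr rfl fun b _ => ?_
        rw [card_image_of_injective _ (fun q q' h => (Prod.mk.inj h).2), card_product, card_range,
          card_range]
      · intro b _ b' _ hne
        rw [Function.onFun, disjoint_left]
        intro p hp hp'
        obtain ⟨q, -, rfl⟩ := mem_image.1 hp
        obtain ⟨q', -, h⟩ := mem_image.1 hp'
        exact hne (Prod.mk.inj h).1.symm
    have hT : ((range ((M * N) a e) : Finset ℕ) : Set ℕ) = {s | s < (M * N) a e} := by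
      ext s
      simp
    rw [← hS, ← hT]
    refine S.finite_toSet.exists_bijOn_of_encard_eq ?_
    rw [Set.encard_coe_eq_coe_finsetCard, Set.encard_coe_eq_coe_finsetCard, hc, card_range]
  choose c hc using key
  exact ⟨c, hc⟩

abbrev TriL (A B C : Type) : Type := A × B × C × ℕ × ℕ × ℕ

/-- paths of length three with their end point -/
def triF (M₁ : Matrix A B ℕ) (M₂ : Matrix B C ℕ) (M₃ : Matrix C A ℕ) : Set (TriL A B C × A) :=
  {p | p.1.2.2.2.1 < M₁ p.1.1 p.1.2.1 ∧ p.1.2.2.2.2.1 < M₂ p.1.2.1 p.1.2.2.1 ∧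
    p.1.2.2.2.2.2 < M₃ p.1.2.2.1 p.2}

theorem tri_bound {X Y : Type} [Fintype X] [Fintype Y] (M : Matrix X Y ℕ) :
    ∃ N, ∀ a b, M a b ≤ N := by
  obtain ⟨N, hN⟩ := (Set.finite_range fun p : X × Y => M p.1 p.2).bddAbove
  exact ⟨N, fun a b => hN ⟨(a, b), rfl⟩⟩

theorem triF_fin (M₁ : Matrix A B ℕ) (M₂ : Matrix B C ℕ) (M₃ : Matrix C A ℕ) :
    (triF M₁ M₂ M₃).Finite := by
  obtain ⟨N₁, h₁⟩ := tri_bound M₁
  obtain ⟨N₂, h₂⟩ := tri_bound M₂
  obtain ⟨N₃, h₃⟩ := tri_bound M₃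
  refine ((Set.finite_univ.prod (Set.finite_univ.prod (Set.finite_univ.prod
    ((Set.finite_Iio N₁).prod ((Set.finite_Iio N₂).prod (Set.finite_Iio N₃)))))).prod
    Set.finite_univ).subset ?_
  rintro p ⟨a, b, c⟩
  exact ⟨⟨trivial, trivial, trivial, a.trans_le (h₁ _ _), b.trans_le (h₂ _ _),
    c.trans_le (h₃ _ _)⟩, trivial⟩

noncomputable def triM (M₁ : Matrix A B ℕ) (M₂ : Matrix B C ℕ) (M₃ : Matrix C A ℕ) :
    TriP (TriL A B C) := triW (triF_fin M₁ M₂ M₃) Prod.fst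

/-- the shift by a third of a letter -/
def triS {d : ℕ} (y : ZMod d → TriL A B C) : ZMod d → TriL B C A := fun i =>
  ((y i).2.1, (y i).2.2.1, (y (i + 1)).1, (y i).2.2.2.2.1, (y i).2.2.2.2.2, (y (i + 1)).2.2.2.1)

omit [Fintype A] [Fintype B] [Fintype C] in
theorem triS_rot {d : ℕ} (j : ZMod d) (y : ZMod d → TriL A B C) :
    triS (rot j y) = rot j (triS y) := by
  funext i
  simp only [triS, rot, add_right_comm i j 1]

theorem triS_bij (M₁ : Matrix A B ℕ) (M₂ : Matrix B C ℕ) (M₃ : Matrix C A ℕ) (n : ℕ) :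
    Set.BijOn (triS (A := A) (B := B) (C := C) (d := n + 1)) (triM M₁ M₂ M₃ n)
      (triM M₂ M₃ M₁ n) := by
  refine tri_bij (C := triC (triF M₁ M₂ M₃) Prod.fst (n + 1))
    (C' := triC (triF M₂ M₃ M₁) Prod.fst (n + 1)) ⟨fun y hy i => ?_, fun y _ y' _ e => ?_,
    fun z hz => ?_⟩ (triC_rot _ _ _) triS_rot (mem_triW _ _ n) (mem_triW _ _ n)
  · exact ⟨(hy i).2.1, (hy i).2.2, (hy (i + 1)).1⟩
  · funext i
    have a := congrFun e i
    have b := congrFun e (i - 1)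
    simp only [triS, sub_add_cancel, Prod.mk.injEq] at a b
    exact Prod.ext b.2.2.1 (Prod.ext a.1 (Prod.ext a.2.1 (Prod.ext b.2.2.2.2.2
      (Prod.ext a.2.2.2.1 a.2.2.2.2.1))))
  · refine ⟨fun i => ((z (i - 1)).2.2.1, (z i).1, (z i).2.1, (z (i - 1)).2.2.2.2.2,
      (z i).2.2.2.1, (z i).2.2.2.2.1), fun i => ?_, ?_⟩
    · have a := hz i
      have b := hz (i - 1)
      simp only [triF, Set.mem_ofPred_eq, sub_add_cancel, add_sub_cancel_right] at a b ⊢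
      exact ⟨b.2.2, a.1, a.2.1⟩
    · funext i
      simp only [triS, add_sub_cancel_right]

variable [DecidableEq A] [DecidableEq B] [DecidableEq C]

theorem tri_mem_prim {d : ℕ} [NeZero d] (R : Matrix A B ℕ) (S : Matrix B A ℕ)
    (z : ZMod d → Ed A B) : z ∈ prim d R S ↔ z ∈ (cyc d R S : Set _) ∧ TriPrim z := by
  simp only [prim, mem_filter, mem_coe, TriPrim]

/-- the last two edges are read as one edge -/
def triE (c : B → A → C × ℕ × ℕ → ℕ) {d : ℕ} (y : ZMod d → TriL A B C) : ZMod d → Ed A B :=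
  fun i => ((y i).1, (y i).2.1, (y i).2.2.2.1,
    c (y i).2.1 (y (i + 1)).1 ((y i).2.2.1, (y i).2.2.2.2.1, (y i).2.2.2.2.2))

omit [Fintype A] [Fintype B] [Fintype C] [DecidableEq A] [DecidableEq B] [DecidableEq C] in
theorem triE_rot (c : B → A → C × ℕ × ℕ → ℕ) {d : ℕ} (j : ZMod d) (y : ZMod d → TriL A B C) :
    triE c (rot j y) = rot j (triE c y) := by
  funext i
  simp only [triE, rot, add_right_comm i j 1]

omit [DecidableEq C] in
theorem triE_bij (M₁ : Matrix A B ℕ) (M₂ : Matrix B C ℕ) (M₃ : Matrix C A ℕ)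
    {c : B → A → C × ℕ × ℕ → ℕ} (hc : ∀ a e, Set.BijOn (c a e)
      {p | p.2.1 < M₂ a p.1 ∧ p.2.2 < M₃ p.1 e} {s | s < (M₂ * M₃) a e}) (n : ℕ) :
    Set.BijOn (triE c (d := n + 1)) (triM M₁ M₂ M₃ n) (prim (n + 1) M₁ (M₂ * M₃)) := by
  refine tri_bij (C := triC (triF M₁ M₂ M₃) Prod.fst (n + 1))
    (C' := cyc (n + 1) M₁ (M₂ * M₃)) ⟨fun y hy => ?_, fun y hy y' hy' e => ?_,
    fun z hz => ?_⟩ (triC_rot _ _ _) (triE_rot c) (mem_triW _ _ n) (tri_mem_prim _ _)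
  · exact mem_coe.2 (mem_cyc.2 fun i => ⟨(hy i).1, (hc _ _).mapsTo (hy i).2⟩)
  · funext i
    have a := congrFun e i
    have b := congrFun e (i + 1)
    simp only [triE, Prod.mk.injEq] at a b
    have h1 := (hy i).2
    have h2 := (hy' i).2
    have a4 := a.2.2.2
    simp only at h1 h2
    rw [← a.2.1, ← b.1] at h2 a4
    have := (hc _ _).injOn (x₁ := ((y i).2.2.1, (y i).2.2.2.2.1, (y i).2.2.2.2.2))
      (x₂ := ((y' i).2.2.1, (y' i).2.2.2.2.1, (y' i).2.2.2.2.2)) h1 h2 a4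
    simp only [Prod.mk.injEq] at this
    exact Prod.ext a.1 (Prod.ext a.2.1 (Prod.ext this.1 (Prod.ext a.2.2.1
      (Prod.ext this.2.1 this.2.2))))
  · have hz := mem_cyc.1 (mem_coe.1 hz)
    choose p hp hp' using fun i => (hc _ _).surjOn (hz i).2
    refine ⟨fun i => ((z i).1, (z i).2.1, (p i).1, (z i).2.2.1, (p i).2.1, (p i).2.2),
      fun i => ⟨(hz i).1, hp i⟩, ?_⟩
    funext i
    simp only [triE]
    rw [hp' i]

/-- the first two edges are read as one edge -/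
def triD (c : A → C → B × ℕ × ℕ → ℕ) {d : ℕ} (y : ZMod d → TriL A B C) : ZMod d → Ed A C :=
  fun i => ((y i).1, (y i).2.2.1,
    c (y i).1 (y i).2.2.1 ((y i).2.1, (y i).2.2.2.1, (y i).2.2.2.2.1), (y i).2.2.2.2.2)

omit [DecidableEq B] in
theorem triD_bij (M₁ : Matrix A B ℕ) (M₂ : Matrix B C ℕ) (M₃ : Matrix C A ℕ)
    {c : A → C → B × ℕ × ℕ → ℕ} (hc : ∀ a e, Set.BijOn (c a e)
      {p | p.2.1 < M₁ a p.1 ∧ p.2.2 < M₂ p.1 e} {s | s < (M₁ * M₂) a e}) (n : ℕ) :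
    Set.BijOn (triD c (d := n + 1)) (triM M₁ M₂ M₃ n) (prim (n + 1) (M₁ * M₂) M₃) := by
  refine tri_bij (C := triC (triF M₁ M₂ M₃) Prod.fst (n + 1))
    (C' := cyc (n + 1) (M₁ * M₂) M₃) ⟨fun y hy => ?_, fun y hy y' hy' e => ?_,
    fun z hz => ?_⟩ (triC_rot _ _ _) (fun _ _ => rfl) (mem_triW _ _ n) (tri_mem_prim _ _)
  · exact mem_coe.2 (mem_cyc.2 fun i => ⟨(hc _ _).mapsTo ⟨(hy i).1, (hy i).2.1⟩, (hy i).2.2⟩)
  · funext i
    have a := congrFun e i
    simp only [triD, Prod.mk.injEq] at a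
    have h1 := And.intro (hy i).1 (hy i).2.1
    have h2 := And.intro (hy' i).1 (hy' i).2.1
    have a4 := a.2.2.1
    simp only at h1 h2
    rw [← a.1, ← a.2.1] at h2 a4
    have := (hc _ _).injOn (x₁ := ((y i).2.1, (y i).2.2.2.1, (y i).2.2.2.2.1))
      (x₂ := ((y' i).2.1, (y' i).2.2.2.1, (y' i).2.2.2.2.1)) h1 h2 a4
    simp only [Prod.mk.injEq] at this
    exact Prod.ext a.1 (Prod.ext this.1 (Prod.ext a.2.1 (Prod.ext this.2.1
      (Prod.ext this.2.2 a.2.2.2))))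
  · have hz := mem_cyc.1 (mem_coe.1 hz)
    choose p hp hp' using fun i => (hc _ _).surjOn (hz i).1
    refine ⟨fun i => ((z i).1, (p i).1, (z i).2.1, (p i).2.1, (p i).2.2, (z i).2.2.2),
      fun i => ⟨(hp i).1, (hp i).2, (hz i).2⟩, ?_⟩
    funext i
    simp only [triD]
    rw [hp' i]

theorem tri_fN (k : ℕ) (oA : A → ℕ) (oB : B → ℕ) (R : Matrix A B ℕ) (S : Matrix B A ℕ) :
    fN k oA oB R S = triT (fun n => prim (n + 1) R S) (fun _ => keyA oA oB)
      (fun _ => keyB oA oB) k := by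
  unfold fN triT
  congr 1

/-- the edge key in which the last two edges are one -/
def triκ₁ (oB : B → ℕ) (c : B → A → C × ℕ × ℕ → ℕ) (p : TriL A B C × A) : TriO :=
  toLex (oB p.1.2.1, toLex (p.1.2.2.2.1, c p.1.2.1 p.2 (p.1.2.2.1, p.1.2.2.2.2.1, p.1.2.2.2.2.2)))

/-- the edge key in which the first two edges are one -/
def triκ₂ (oC : C → ℕ) (c : A → C → B × ℕ × ℕ → ℕ) (p : TriL A B C × A) : TriO :=
  toLex (oC p.1.2.2.1, toLex (c p.1.1 p.1.2.2.1 (p.1.2.1, p.1.2.2.2.1, p.1.2.2.2.2.1),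
    p.1.2.2.2.2.2))

omit [Fintype A] [Fintype B] [DecidableEq A] [DecidableEq B] [DecidableEq C] in
theorem triκ₁_sep (M₁ : Matrix A B ℕ) (M₂ : Matrix B C ℕ) (M₃ : Matrix C A ℕ) {oB : B → ℕ}
    (ho : Injective oB) {c : B → A → C × ℕ × ℕ → ℕ} (hc : ∀ a e, Set.BijOn (c a e)
      {p | p.2.1 < M₂ a p.1 ∧ p.2.2 < M₃ p.1 e} {s | s < (M₂ * M₃) a e}) :
    TriSep (triF M₁ M₂ M₃) Prod.fst (triκ₁ oB c) := by
  rintro ⟨⟨a, b, c₁, r, s, t⟩, e⟩ hp ⟨⟨a', b', c₂, r', s', t'⟩, e'⟩ hq h1 h2 h3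
  simp only [triκ₁, toLex_inj, Prod.mk.injEq] at h1 h2 h3
  obtain ⟨h3, h4, h5⟩ := h3
  obtain rfl := ho h3
  subst h1 h2 h4
  have := (hc _ _).injOn (x₁ := (c₁, s, t)) (x₂ := (c₂, s', t')) hp.2 hq.2 h5
  simp only [Prod.mk.injEq] at this
  obtain ⟨rfl, rfl, rfl⟩ := this
  rfl

omit [Fintype A] [Fintype C] [DecidableEq A] [DecidableEq B] [DecidableEq C] in
theorem triκ₂_sep (M₁ : Matrix A B ℕ) (M₂ : Matrix B C ℕ) (M₃ : Matrix C A ℕ) {oC : C → ℕ}
    (ho : Injective oC) {c : A → C → B × ℕ × ℕ → ℕ} (hc : ∀ a e, Set.BijOn (c a e)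
      {p | p.2.1 < M₁ a p.1 ∧ p.2.2 < M₂ p.1 e} {s | s < (M₁ * M₂) a e}) :
    TriSep (triF M₁ M₂ M₃) Prod.fst (triκ₂ oC c) := by
  rintro ⟨⟨a, b, c₁, r, s, t⟩, e⟩ hp ⟨⟨a', b', c₂, r', s', t'⟩, e'⟩ hq h1 h2 h3
  simp only [triκ₂, toLex_inj, Prod.mk.injEq] at h1 h2 h3
  obtain ⟨h3, h4, h5⟩ := h3
  obtain rfl := ho h3
  subst h1 h2 h5
  have := (hc _ _).injOn (x₁ := (b, r, s)) (x₂ := (b', r', s')) ⟨hp.1, hp.2.1⟩ ⟨hq.1, hq.2.1⟩ h4
  simp only [Prod.mk.injEq] at this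
  obtain ⟨rfl, rfl, rfl⟩ := this
  rfl

omit [Fintype A] [Fintype B] [Fintype C] [DecidableEq A] [DecidableEq B] [DecidableEq C]

theorem tri_keyA₁ (oA : A → ℕ) (oB : B → ℕ) (c : B → A → C × ℕ × ℕ → ℕ) (n : ℕ)
    (y : ZMod (n + 1) → TriL A B C) :
    triKey oA Prod.fst (triκ₁ oB c) n y = keyA oA oB (triE c y) :=
  congrArg toLex (funext fun _ => rfl)

theorem tri_keyB₁ (oA : A → ℕ) (oB : B → ℕ) (c : B → A → C × ℕ × ℕ → ℕ) (n : ℕ)
    (y : ZMod (n + 1) → TriL A B C) :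
    triKey oB Prod.fst (triκ₂ oA c) n (triS y) = keyB oA oB (triE c y) :=
  congrArg toLex (funext fun _ => rfl)

theorem tri_keyA₂ (oA : A → ℕ) (oC : C → ℕ) (c : A → C → B × ℕ × ℕ → ℕ) (n : ℕ)
    (y : ZMod (n + 1) → TriL A B C) :
    triKey oA Prod.fst (triκ₂ oC c) n y = keyA oA oC (triD c y) :=
  congrArg toLex (funext fun _ => rfl)

theorem tri_keyB₂ (oA : A → ℕ) (oC : C → ℕ) (c : A → C → B × ℕ × ℕ → ℕ) (n : ℕ)
    (y : ZMod (n + 1) → TriL A B C) :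
    triKey oC Prod.fst (triκ₁ oA c) n (triS (triS y)) = keyB oA oC (triD c y) :=
  congrArg toLex (funext fun _ => rfl)

end Triple

theorem tri_of (h : AbsStmt) (hb : BKStmt) : TriN := by
  intro U V W _ _ _ _ _ _ oU oV oW R₁ R₂ S₃ k hU hV hW
  obtain ⟨c₁₂, h₁₂⟩ := tri_code R₁ R₂
  obtain ⟨c₂₃, h₂₃⟩ := tri_code R₂ S₃
  obtain ⟨c₃₁, h₃₁⟩ := tri_code S₃ R₁
  have hP : ∀ n, Free rot (triM R₁ R₂ S₃ n) := free_triW _ _
  have b1 := triS_bij R₁ R₂ S₃
  have b2 : ∀ n, Set.BijOn (fun y : ZMod (n + 1) → TriL U V W => triS (triS y))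
      (triM R₁ R₂ S₃ n) (triM S₃ R₁ R₂ n) := fun n => (triS_bij R₂ S₃ R₁ n).comp (b1 n)
  let KA : TriK (TriL U V W) := triKey oU Prod.fst (triκ₁ oV c₂₃)
  let KA' : TriK (TriL U V W) := triKey oU Prod.fst (triκ₂ oW c₁₂)
  let KB : TriK (TriL U V W) := fun n y => triKey oV Prod.fst (triκ₂ oU c₂₃) n (triS y)
  let KB' : TriK (TriL U V W) := fun n y => triKey oV Prod.fst (triκ₁ oW c₃₁) n (triS y)
  let KC : TriK (TriL U V W) := fun n y => triKey oW Prod.fst (triκ₂ oV c₃₁) n (triS (triS y))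
  let KC' : TriK (TriL U V W) := fun n y => triKey oW Prod.fst (triκ₁ oU c₁₂) n (triS (triS y))
  have sA := triκ₁_sep R₁ R₂ S₃ hV h₂₃
  have sA' := triκ₂_sep R₁ R₂ S₃ hW h₁₂
  have sB := triκ₂_sep R₂ S₃ R₁ hU h₂₃
  have sB' := triκ₁_sep R₂ S₃ R₁ hW h₃₁
  have sC := triκ₂_sep S₃ R₁ R₂ hV h₃₁
  have sC' := triκ₁_sep S₃ R₁ R₂ hU h₁₂
  have iA : ∀ n, Set.InjOn (KA n) (triM R₁ R₂ S₃ n) := triKey_inj _ hU sA
  have iA' : ∀ n, Set.InjOn (KA' n) (triM R₁ R₂ S₃ n) := triKey_inj _ hU sA'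
  have iB : ∀ n, Set.InjOn (KB n) (triM R₁ R₂ S₃ n) := fun n =>
    (triKey_inj (triF_fin R₂ S₃ R₁) hV sB n).comp (b1 n).injOn (b1 n).mapsTo
  have iB' : ∀ n, Set.InjOn (KB' n) (triM R₁ R₂ S₃ n) := fun n =>
    (triKey_inj (triF_fin R₂ S₃ R₁) hV sB' n).comp (b1 n).injOn (b1 n).mapsTo
  have iC : ∀ n, Set.InjOn (KC n) (triM R₁ R₂ S₃ n) := fun n =>
    (triKey_inj (triF_fin S₃ R₁ R₂) hW sC n).comp (b2 n).injOn (b2 n).mapsTo
  have iC' : ∀ n, Set.InjOn (KC' n) (triM R₁ R₂ S₃ n) := fun n =>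
    (triKey_inj (triF_fin S₃ R₁ R₂) hW sC' n).comp (b2 n).injOn (b2 n).mapsTo
  have zA : triT (triM R₁ R₂ S₃) KA KA' k = 0 := triKey_bk h hb _ hU sA sA' k
  have zB : triT (triM R₁ R₂ S₃) KB KB' k = 0 := by
    rw [← triKey_bk h hb (triF_fin R₂ S₃ R₁) hV sB sB' k]
    exact triT_tr h (P' := triM R₂ S₃ R₁) (fun _ => triS) hP b1 (fun _ => triS_rot)
      (fun _ _ _ => rfl) (fun _ _ _ => rfl) k
  have zC : triT (triM R₁ R₂ S₃) KC KC' k = 0 := by
    rw [← triKey_bk h hb (triF_fin S₃ R₁ R₂) hW sC sC' k]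
    exact triT_tr h (P' := triM S₃ R₁ R₂) (fun _ y => triS (triS y)) hP b2
      (fun _ j y => by rw [triS_rot, triS_rot]) (fun _ _ _ => rfl) (fun _ _ _ => rfl) k
  have e1 : triT (triM R₁ R₂ S₃) KA KB k = fN k oU oV R₁ (R₂ * S₃) := by
    rw [tri_fN]
    exact triT_tr h (fun _ => triE c₂₃) hP (triE_bij R₁ R₂ S₃ h₂₃) (fun _ => triE_rot c₂₃)
      (fun n y _ => tri_keyA₁ oU oV c₂₃ n y) (fun n y _ => tri_keyB₁ oU oV c₂₃ n y) k
  have e2 : triT (triM R₁ R₂ S₃) KB' KC k = fN k oV oW R₂ (S₃ * R₁) := by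
    rw [tri_fN]
    exact triT_tr h (fun _ y => triE c₃₁ (triS y)) hP
      (fun n => (triE_bij R₂ S₃ R₁ h₃₁ n).comp (b1 n)) (fun _ j y => by rw [triS_rot, triE_rot])
      (fun n y _ => tri_keyA₁ oV oW c₃₁ n (triS y))
      (fun n y _ => tri_keyB₁ oV oW c₃₁ n (triS y)) k
  have e3 : triT (triM R₁ R₂ S₃) KA' KC' k = fN k oU oW (R₁ * R₂) S₃ := by
    rw [tri_fN]
    exact triT_tr h (fun _ => triD c₁₂) hP (triD_bij R₁ R₂ S₃ h₁₂) (fun _ _ _ => rfl)
      (fun n y _ => tri_keyA₂ oU oW c₁₂ n y) (fun n y _ => tri_keyB₂ oU oW c₁₂ n y) k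
  have a1 := triT_add h hP iA iB iB' k
  have a2 := triT_add h hP iA iB' iC k
  have a3 := triT_add h hP iA iC iC' k
  have a4 := triT_add h hP iA iA' iC' k
  rw [zB, add_zero] at a1
  rw [zC, add_zero] at a3
  rw [zA, zero_add] at a4
  rw [← e1, ← e2, ← e3, a1, a2, a3, a4]

end Pool.Agent.MP_993212_an.H16
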