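import Mathlib

/-! Row W, first part: potentials on lattices and on modules with an endomorphism. -/

namespace Pool.Agent.MP_993212_an.H16

open Finset Function

section Order

variable {T Q : Type} [SemilatticeSup T] [AddCommGroup Q]

/-- A function on the pairs `a y ≤ x ≤ y` which is additive on triangles has a potential. -/
theorem w_order (a : T → T) (ha : ∀ x y, a (x ⊔ y) = a x ⊔ a y) (hl : ∀ x, a x ≤ x)
    (he : ∀ x y, ∃ n, a^[n] y ≤ x) (h : T → T → Q)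
    (tri : ∀ x y z, x ≤ y → y ≤ z → a z ≤ x → h x y + h y z = h x z) :
    ∃ q : T → Q, ∀ x y, x ≤ y → a y ≤ x → h x y = q y - q x := by
  rcases isEmpty_or_nonempty T with _ | ⟨⟨o⟩⟩
  · exact ⟨fun _ => 0, fun x => isEmptyElim x⟩
  have mono : Monotone a := fun x y g => by rw [← sup_eq_right, ← ha, sup_eq_right.2 g]
  have h0 : ∀ x, h x x = 0 := fun x => by simpa using tri x x x le_rfl le_rfl (hl x)
  have st : ∀ x z k, a (x ⊔ a^[k] z) ≤ x ⊔ a^[k + 1] z := fun x z k => by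
    rw [ha, iterate_succ_apply']
    exact sup_le_sup_right (hl x) _
  have dec : ∀ z k, a^[k + 1] z ≤ a^[k] z := fun z k => by
    rw [iterate_succ_apply']; exact hl _
  have anti : ∀ z, Antitone fun k => a^[k] z := fun z => antitone_nat_of_succ_le (dec z)
  set H : ℕ → T → T → Q := fun n x z => ∑ k ∈ range n, h (x ⊔ a^[k + 1] z) (x ⊔ a^[k] z) with hH
  have lad : ∀ x y z n, y ≤ z → a z ≤ y →
      H n x z + h (x ⊔ a^[n] y) (x ⊔ a^[n] z) = H n x y + h (x ⊔ y) (x ⊔ z) := by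
    intro x y z n yz zy
    induction n with
    | zero => simp [hH]
    | succ n ih =>
      have e1 : x ⊔ a^[n + 1] z ≤ x ⊔ a^[n] y :=
        sup_le_sup_left (by rw [iterate_succ_apply]; exact mono.iterate n zy) x
      have t1 := tri _ _ _ e1 (sup_le_sup_left (mono.iterate n yz) x) (st x z n)
      have t2 := tri _ _ _ (sup_le_sup_left (mono.iterate (n + 1) yz) x) e1 (st x y n)
      simp only [hH, sum_range_succ] at ih ⊢
      rw [← t1, ← t2]
      linear_combination (norm := abel) ih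
  have stab : ∀ x z n m, a^[n] z ≤ x → n ≤ m → H m x z = H n x z := by
    intro x z n m g nm
    induction m, nm using Nat.le_induction with
    | base => rfl
    | succ m nm ih =>
      simp only [hH, sum_range_succ] at ih ⊢
      rw [ih, sup_eq_left.2 ((anti z nm).trans g), sup_eq_left.2 ((anti z (by omega)).trans g), h0,
        add_zero]
  choose N hN using he
  set J : T → T → Q := fun x z => H (N x z) x z with hJ
  have eJ : ∀ x z n, a^[n] z ≤ x → J x z = H n x z := fun x z n g => by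
    rw [hJ]
    exact (stab x z _ _ (hN x z) (le_max_left _ n)).symm.trans (stab x z _ _ g (le_max_right _ _))
  have edge : ∀ x y z, x ≤ y → y ≤ z → a z ≤ y → J x z = J x y + h y z := by
    intro x y z xy yz zy
    have g := (mono.iterate (N x z) yz).trans (hN x z)
    have := lad x y z (N x z) yz zy
    rw [sup_eq_left.2 g, sup_eq_left.2 (hN x z), h0, add_zero, sup_eq_right.2 xy,
      sup_eq_right.2 (xy.trans yz)] at this
    rw [eJ x y _ g, ← this]
  have add : ∀ x y z, x ≤ y → y ≤ z → J x z = J x y + J y z := by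
    intro x y z xy yz
    have key : ∀ n, J x z = J x (y ⊔ a^[n] z) + H n y z := fun n => by
      induction n with
      | zero => simp [hH, sup_eq_right.2 yz]
      | succ n ih =>
        simp only [hH, sum_range_succ] at ih ⊢
        rw [ih, edge x _ _ (xy.trans le_sup_left) (sup_le_sup_left (dec z n) y) (st y z n)]
        abel
    rw [key (N y z), sup_eq_left.2 (hN y z)]
  refine ⟨fun x => J o (x ⊔ o) - J x (x ⊔ o), fun x y xy yx => ?_⟩
  have e0 : J x x = 0 := by rw [eJ x x 0 le_rfl]; simp [hH]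
  have e1 := edge x x y le_rfl xy yx
  have e2 := add o (x ⊔ o) (y ⊔ o) le_sup_right (sup_le_sup_right xy o)
  have e3 := add x (x ⊔ o) (y ⊔ o) le_sup_left (sup_le_sup_right xy o)
  have e4 := add x y (y ⊔ o) xy le_sup_left
  rw [e0, zero_add] at e1
  beta_reduce
  rw [← e1, e2, eq_sub_of_add_eq e4.symm, e3]
  abel

end Order

section Mod

open LinearMap

/-- functions on pairs of maps between free abelian groups of finite rank -/
abbrev WFun (Q : Type) : Type 1 :=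
  ∀ (M M' : Type) [AddCommGroup M] [AddCommGroup M'] [Module.Free ℤ M] [Module.Finite ℤ M]
    [Module.Free ℤ M'] [Module.Finite ℤ M'], (M →ₗ[ℤ] M') → (M' →ₗ[ℤ] M) → Q

/-- functions on modules with an endomorphism and a map to `G` -/
abbrev WPot (Q G : Type) [AddCommGroup G] : Type 1 :=
  ∀ (M : Type) [AddCommGroup M] [Module.Free ℤ M] [Module.Finite ℤ M],
    (M →ₗ[ℤ] M) → (M →ₗ[ℤ] G) → Q

variable {Q G : Type} [AddCommGroup Q] [AddCommGroup G]

/-- the triangle identity -/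
def WTri (Φ : WFun Q) : Prop :=
  ∀ (M M' M'' : Type) [AddCommGroup M] [AddCommGroup M'] [AddCommGroup M''] [Module.Free ℤ M]
    [Module.Finite ℤ M] [Module.Free ℤ M'] [Module.Finite ℤ M'] [Module.Free ℤ M'']
    [Module.Finite ℤ M''] (r₁ : M →ₗ[ℤ] M') (r₂ : M' →ₗ[ℤ] M'') (s₃ : M'' →ₗ[ℤ] M)
    (s₁ : M' →ₗ[ℤ] M) (s₂ : M'' →ₗ[ℤ] M') (r₃ : M →ₗ[ℤ] M''), (∀ x, s₃ (r₂ x) = s₁ x) →
    (∀ x, r₁ (s₃ x) = s₂ x) → (∀ x, r₂ (r₁ x) = r₃ x) →
    Φ M M' r₁ s₁ + Φ M' M'' r₂ s₂ = Φ M M'' r₃ s₃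

/-- `π` identifies the direct limit of `α` with `(G, a)`, and `α ^ n` kills the kernel of `π` -/
structure WOb (a : G ≃ₗ[ℤ] G) (n : ℕ) {M : Type} [AddCommGroup M] (α : M →ₗ[ℤ] M)
    (π : M →ₗ[ℤ] G) : Prop where
  comm : ∀ y, π (α y) = a (π y)
  exh : ∀ g, ∃ k y, π y = a^[k] g
  ker : ∀ y, π y = 0 → α^[n] y = 0

theorem w_iter {M M' : Type} (r : M → M') (s : M' → M) (n : ℕ) (y : M) :
    (s ∘ r)^[n + 1] y = s ((r ∘ s)^[n] (r y)) := by
  induction n with
  | zero => rfl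
  | succ n ih => rw [iterate_succ_apply', ih, iterate_succ_apply']; rfl

variable {a : G ≃ₗ[ℤ] G} {M M' : Type} [AddCommGroup M] [AddCommGroup M']

theorem WOb.mono {n m : ℕ} {α : M →ₗ[ℤ] M} {π : M →ₗ[ℤ] G} (h : WOb a n α π) (nm : n ≤ m) :
    WOb a m α π :=
  ⟨h.comm, h.exh, fun y g => by
    obtain ⟨k, rfl⟩ := Nat.exists_eq_add_of_le' nm
    rw [iterate_add_apply, h.ker y g, iterate_map_zero]⟩

theorem WOb.pull {n : ℕ} {r : M →ₗ[ℤ] M'} {s : M' →ₗ[ℤ] M} {π : M' →ₗ[ℤ] G}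
    (h : WOb a n (r ∘ₗ s) π) : WOb a (n + 1) (s ∘ₗ r) (π ∘ₗ r) :=
  ⟨fun y => h.comm (r y), fun g => by
    obtain ⟨k, y, e⟩ := h.exh g
    exact ⟨k + 1, s y, by rw [iterate_succ_apply', ← e, ← h.comm]; rfl⟩, fun y g => by
    have := h.ker (r y) g
    rw [coe_comp] at this ⊢
    rw [w_iter, this, map_zero]⟩

theorem WOb.comm_iter {n : ℕ} {α : M →ₗ[ℤ] M} {π : M →ₗ[ℤ] G} (h : WOb a n α π) (k : ℕ) (y : M) :
    π (α^[k] y) = a^[k] (π y) := by
  induction k with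
  | zero => rfl
  | succ k ih => rw [iterate_succ_apply', iterate_succ_apply', h.comm, ih]

theorem WOb.free [Module.Free ℤ M] {n : ℕ} {α : M →ₗ[ℤ] M} {π : M →ₗ[ℤ] G} (h : WOb a n α π) :
    Module.IsTorsionFree ℤ G := by
  refine Module.IsTorsionFree.of_smul_eq_zero fun c g e => or_iff_not_imp_left.2 fun c0 => ?_
  obtain ⟨k, y, hy⟩ := h.exh g
  have h1 := h.ker (c • y) (by rw [map_zsmul, hy, ← iterate_map_zsmul, e, iterate_map_zero])
  rw [iterate_map_zsmul, smul_eq_zero_iff_right c0] at h1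
  have h2 := h.comm_iter n y
  rw [h1, map_zero, hy, ← iterate_add_apply] at h2
  exact (a.injective.iterate (n + k)) (by rw [← h2, iterate_map_zero])

/-- the restriction of `α` to its image -/
def wRes (α : M →ₗ[ℤ] M) : LinearMap.range α →ₗ[ℤ] LinearMap.range α :=
  α.rangeRestrict ∘ₗ (LinearMap.range α).subtype

/-- the structure map on the image of `α` -/
def wMap (a : G ≃ₗ[ℤ] G) (α : M →ₗ[ℤ] M) (π : M →ₗ[ℤ] G) : LinearMap.range α →ₗ[ℤ] G :=
  a.symm.toLinearMap ∘ₗ π ∘ₗ (LinearMap.range α).subtype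

theorem WOb.res {n : ℕ} {α : M →ₗ[ℤ] M} {π : M →ₗ[ℤ] G} (h : WOb a (n + 1) α π) :
    WOb a n (wRes α) (wMap a α π) := by
  refine ⟨fun y => ?_, fun g => ?_, ?_⟩
  · simp [wRes, wMap, h.comm]
  · obtain ⟨k, y, e⟩ := h.exh g
    exact ⟨k, α.rangeRestrict y, by simp [wMap, h.comm, e]⟩
  · rintro ⟨_, y, rfl⟩ g
    have h1 := h.ker y (by simpa [wMap, h.comm] using g)
    have h2 : ∀ (k : ℕ) (x : LinearMap.range α), ((wRes α)^[k] x : M) = α^[k] x := fun k x => by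
      induction k with
      | zero => rfl
      | succ k ih => rw [iterate_succ_apply', iterate_succ_apply', ← ih]; rfl
    exact Subtype.ext ((h2 n _).trans h1)

/-- lattices -/
def WLat (a : G ≃ₗ[ℤ] G) (L : Submodule ℤ G) : Prop :=
  L.FG ∧ (∀ x ∈ L, a x ∈ L) ∧ ∀ g, ∃ k, a^[k] g ∈ L

theorem w_mem {L : Submodule ℤ G} (h : ∀ x ∈ L, a x ∈ L) {g : G} {k m : ℕ} (hg : a^[k] g ∈ L)
    (km : k ≤ m) : a^[m] g ∈ L := by
  induction m, km using Nat.le_induction with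
  | base => exact hg
  | succ m _ ih => rw [iterate_succ_apply']; exact h _ ih

theorem WLat.sup {L L' : Submodule ℤ G} (h : WLat a L) (h' : WLat a L') : WLat a (L ⊔ L') :=
  ⟨h.1.sup h'.1, fun x hx => by
    obtain ⟨u, hu, v, hv, rfl⟩ := Submodule.mem_sup.1 hx
    rw [map_add]
    exact Submodule.add_mem_sup (h.2.1 u hu) (h'.2.1 v hv),
    fun g => (h.2.2 g).imp fun _ e => Submodule.mem_sup_left e⟩

theorem WLat.map {L : Submodule ℤ G} (h : WLat a L) : WLat a (L.map a.toLinearMap) :=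
  ⟨h.1.map _, by
    rintro _ ⟨x, hx, rfl⟩
    exact ⟨_, h.2.1 x hx, rfl⟩, fun g => by
    obtain ⟨k, e⟩ := h.2.2 g
    exact ⟨k + 1, _, e, by rw [iterate_succ_apply']; rfl⟩⟩

/-- The potential on lattices. -/
theorem w_lat [Module.IsTorsionFree ℤ G] {Φ : WFun Q} (hΦ : WTri Φ) (a : G ≃ₗ[ℤ] G) :
    ∃ q : Submodule ℤ G → Q, ∀ (L L' : Submodule ℤ G) [Module.Finite ℤ L] [Module.Finite ℤ L']
      (r : L →ₗ[ℤ] L') (s : L' →ₗ[ℤ] L), WLat a L → WLat a L' → (∀ x, (r x : G) = x) →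
      (∀ x, (s x : G) = a x) → Φ L L' r s = q L' - q L := by
  classical
  let _ : SemilatticeSup {L // WLat a L} := Subtype.semilatticeSup fun _ _ => WLat.sup
  have _ : ∀ L : {L // WLat a L}, Module.Finite ℤ L.1 := fun L => Module.Finite.iff_fg.2 L.2.1
  set b : {L // WLat a L} → {L // WLat a L} := fun L => ⟨_, L.2.map⟩ with hb
  have mb : ∀ {L L' : {L // WLat a L}}, b L' ≤ L → ∀ x ∈ L'.1, a.toLinearMap x ∈ L.1 :=
    fun g x hx => g ⟨x, hx, rfl⟩
  set h : {L // WLat a L} → {L // WLat a L} → Q := fun L L' => if g : L ≤ L' ∧ b L' ≤ L then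
    Φ L.1 L'.1 (Submodule.inclusion g.1) (a.toLinearMap.restrict (mb g.2)) else 0 with hh
  have hl : ∀ L, b L ≤ L := by
    rintro L _ ⟨x, hx, rfl⟩
    exact L.2.2.1 x hx
  obtain ⟨q, hq⟩ := w_order b (fun L L' => Subtype.ext (Submodule.map_sup _ _ _)) hl (by
    intro L L'
    have it : ∀ (k : ℕ), ∀ x ∈ (b^[k] L').1, ∃ y ∈ L'.1, x = a^[k] y := fun k => by
      induction k with
      | zero => exact fun x hx => ⟨x, hx, rfl⟩
      | succ k ih =>
        rw [iterate_succ_apply', iterate_succ']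
        rintro _ ⟨x, hx, rfl⟩
        obtain ⟨y, hy, rfl⟩ := ih x hx
        exact ⟨y, hy, rfl⟩
    obtain ⟨S, hS⟩ := L'.2.1
    choose k hk using L.2.2.2
    refine ⟨S.sup k, fun x hx => ?_⟩
    obtain ⟨y, hy, rfl⟩ := it _ x hx
    rw [← hS] at hy
    clear hx
    induction hy using Submodule.span_induction with
    | mem y hy => exact w_mem L.2.2.1 (hk y) (le_sup hy)
    | zero => rw [iterate_map_zero]; exact zero_mem _
    | add y z _ _ h1 h2 => rw [iterate_map_add]; exact add_mem h1 h2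
    | smul c y _ h1 => rw [iterate_map_zsmul]; exact Submodule.smul_mem _ c h1) h (by
    intro x y z xy yz zx
    have mono : b y ≤ b z := Submodule.map_mono yz
    simp only [hh]
    rw [dif_pos ⟨xy, mono.trans zx⟩, dif_pos ⟨yz, zx.trans xy⟩, dif_pos ⟨xy.trans yz, zx⟩]
    exact hΦ _ _ _ _ _ _ _ _ _ (fun _ => rfl) (fun _ => rfl) fun _ => rfl)
  refine ⟨fun L => if g : WLat a L then q ⟨L, g⟩ else 0, fun L L' _ _ r s g g' hr hs => ?_⟩
  have e1 : (⟨L, g⟩ : {L // WLat a L}) ≤ ⟨L', g'⟩ := fun x hx => by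
    have := (r ⟨x, hx⟩).2
    rwa [hr] at this
  have e2 : b ⟨L', g'⟩ ≤ ⟨L, g⟩ := by
    rintro _ ⟨x, hx, rfl⟩
    exact (hs ⟨x, hx⟩ : _ = a x) ▸ (s ⟨x, hx⟩).2
  beta_reduce
  rw [dif_pos g, dif_pos g', ← hq _ _ e1 e2]
  simp only [hh]
  rw [dif_pos ⟨e1, e2⟩]
  congr 1
  · exact LinearMap.ext fun x => Subtype.ext (hr x)
  · exact LinearMap.ext fun x => Subtype.ext (hs x)

/-- The potential when the structure maps are injective. -/
theorem w_inj [Module.IsTorsionFree ℤ G] {Φ : WFun Q} (hΦ : WTri Φ) (a : G ≃ₗ[ℤ] G) :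
    ∃ p : WPot Q G, ∀ (M M' : Type) [AddCommGroup M] [AddCommGroup M'] [Module.Free ℤ M]
      [Module.Finite ℤ M] [Module.Free ℤ M'] [Module.Finite ℤ M'] (r : M →ₗ[ℤ] M')
      (s : M' →ₗ[ℤ] M) (π : M' →ₗ[ℤ] G), WOb a 0 (r ∘ₗ s) π → WOb a 0 (s ∘ₗ r) (π ∘ₗ r) →
      Φ M M' r s = p M' (r ∘ₗ s) π - p M (s ∘ₗ r) (π ∘ₗ r) := by
  classical
  obtain ⟨q, hq⟩ := w_lat hΦ a
  refine ⟨fun M _ _ _ α π => if g : Injective π then q (LinearMap.range π) -
    Φ M (LinearMap.range π) π.rangeRestrict (α ∘ₗ (LinearEquiv.ofInjective π g).symm.toLinearMap)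
    else 0, fun M M' _ _ _ _ _ _ r s π h' h => ?_⟩
  have lat : ∀ {M : Type} [AddCommGroup M] [Module.Finite ℤ M] {α : M →ₗ[ℤ] M} {π : M →ₗ[ℤ] G},
      WOb a 0 α π → WLat a (LinearMap.range π) := fun h =>
    ⟨Module.Finite.iff_fg.1 inferInstance, by
      rintro _ ⟨y, rfl⟩
      exact ⟨_, h.comm y⟩, h.exh⟩
  have g' : Injective π := (injective_iff_map_eq_zero _).2 h'.ker
  have g : Injective (π ∘ₗ r) := (injective_iff_map_eq_zero _).2 h.ker
  beta_reduce
  rw [dif_pos g, dif_pos g']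
  set e' := LinearEquiv.ofInjective π g' with he'
  set e := LinearEquiv.ofInjective (π ∘ₗ r) g with he
  have le : LinearMap.range (π ∘ₗ r) ≤ LinearMap.range π := range_comp_le_range r π
  have t1 := hΦ _ _ _ r π.rangeRestrict (s ∘ₗ e'.symm.toLinearMap) s
    ((r ∘ₗ s) ∘ₗ e'.symm.toLinearMap) (π.rangeRestrict ∘ₗ r)
    (fun x => congrArg s (e'.symm_apply_apply x)) (fun _ => rfl) fun _ => rfl
  have t2 := hΦ _ _ _ (π ∘ₗ r).rangeRestrict (Submodule.inclusion le) (s ∘ₗ e'.symm.toLinearMap)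
    ((s ∘ₗ r) ∘ₗ e.symm.toLinearMap) ((π ∘ₗ r).rangeRestrict ∘ₗ s ∘ₗ e'.symm.toLinearMap)
    (π.rangeRestrict ∘ₗ r) (fun x => by
      obtain ⟨y, rfl⟩ := e.surjective x
      exact (congrArg s (e'.symm_apply_apply (r y))).trans
        (congrArg (s ∘ₗ r) (e.symm_apply_apply y)).symm) (fun _ => rfl) fun _ => rfl
  rw [hq _ _ _ _ (lat h) (lat h') (fun _ => rfl) (fun x => by
    obtain ⟨y, rfl⟩ := e'.surjective x
    exact (congrArg (fun z => π (r (s z))) (e'.symm_apply_apply y)).trans (h'.comm y))] at t2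
  rw [eq_sub_of_add_eq t1, ← t2]
  abel

/-- killing the kernel step by step -/
noncomputable def wP (Φ : WFun Q) (a : G ≃ₗ[ℤ] G) (p : WPot Q G) : ℕ → WPot Q G
  | 0 => p
  | n + 1 => fun M _ _ _ α π => wP Φ a p n (LinearMap.range α) (wRes α) (wMap a α π) -
      Φ M (LinearMap.range α) α.rangeRestrict (LinearMap.range α).subtype

/-- The potential on all objects. -/
theorem w_all {Φ : WFun Q} (hΦ : WTri Φ) (a : G ≃ₗ[ℤ] G) :
    ∃ p : WPot Q G, ∀ (M M' : Type) [AddCommGroup M] [AddCommGroup M'] [Module.Free ℤ M]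
      [Module.Finite ℤ M] [Module.Free ℤ M'] [Module.Finite ℤ M'] (r : M →ₗ[ℤ] M')
      (s : M' →ₗ[ℤ] M) (π : M' →ₗ[ℤ] G) (n : ℕ), WOb a n (r ∘ₗ s) π →
      Φ M M' r s = p M' (r ∘ₗ s) π - p M (s ∘ₗ r) (π ∘ₗ r) := by
  classical
  by_cases tf : Module.IsTorsionFree ℤ G
  swap
  · exact ⟨fun _ _ _ _ _ _ => 0, fun M M' _ _ _ _ _ _ r s π n h => (tf h.free).elim⟩
  obtain ⟨p, hp⟩ := w_inj hΦ a
  have edge : ∀ (n : ℕ) (M M' : Type) [AddCommGroup M] [AddCommGroup M'] [Module.Free ℤ M]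
      [Module.Finite ℤ M] [Module.Free ℤ M'] [Module.Finite ℤ M'] (r : M →ₗ[ℤ] M')
      (s : M' →ₗ[ℤ] M) (π : M' →ₗ[ℤ] G), WOb a n (r ∘ₗ s) π → WOb a n (s ∘ₗ r) (π ∘ₗ r) →
      Φ M M' r s = wP Φ a p n M' (r ∘ₗ s) π - wP Φ a p n M (s ∘ₗ r) (π ∘ₗ r) := by
    intro n
    induction n with
    | zero => exact hp
    | succ n ih =>
      intro M M' _ _ _ _ _ _ r s π h' h
      set r₁ : LinearMap.range (s ∘ₗ r) →ₗ[ℤ] LinearMap.range (r ∘ₗ s) := r.restrict (by
        rintro _ ⟨y, rfl⟩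
        exact ⟨r y, rfl⟩) with hr
      set s₁ : LinearMap.range (r ∘ₗ s) →ₗ[ℤ] LinearMap.range (s ∘ₗ r) := s.restrict (by
        rintro _ ⟨y, rfl⟩
        exact ⟨s y, rfl⟩) with hs
      set s₂ : LinearMap.range r →ₗ[ℤ] LinearMap.range (s ∘ₗ r) := s.restrict (by
        rintro _ ⟨y, rfl⟩
        exact ⟨y, rfl⟩) with hs2
      set j : LinearMap.range (r ∘ₗ s) →ₗ[ℤ] LinearMap.range r :=
        Submodule.inclusion (range_comp_le_range s r) with hj
      have t0 := ih _ _ r₁ s₁ (wMap a (r ∘ₗ s) π) h'.res h.res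
      have t1 := hΦ _ _ _ r.rangeRestrict (LinearMap.range r).subtype s
        (s ∘ₗ (LinearMap.range r).subtype) (r.rangeRestrict ∘ₗ s) r
        (fun _ => rfl) (fun _ => rfl) fun _ => rfl
      have t2 := hΦ _ _ _ r.rangeRestrict s₂ (LinearMap.range (s ∘ₗ r)).subtype
        (s ∘ₗ (LinearMap.range r).subtype) (j ∘ₗ r₁) (s ∘ₗ r).rangeRestrict
        (fun _ => rfl) (fun _ => rfl) fun _ => rfl
      have t3 := hΦ _ _ _ (LinearMap.range r).subtype (r ∘ₗ s).rangeRestrict j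
        (r.rangeRestrict ∘ₗ s) (LinearMap.range (r ∘ₗ s)).subtype (r₁ ∘ₗ s₂)
        (fun _ => rfl) (fun _ => rfl) fun _ => rfl
      have t4 := hΦ _ _ _ s₂ r₁ j (j ∘ₗ r₁) s₁ (r₁ ∘ₗ s₂) (fun _ => rfl) (fun _ => rfl) fun _ => rfl
      change _ = wP Φ a p n _ (r₁ ∘ₗ s₁) (wMap a (r ∘ₗ s) π) - _ -
        (wP Φ a p n _ (s₁ ∘ₗ r₁) (wMap a (r ∘ₗ s) π ∘ₗ r₁) - _)
      rw [← t1, ← t2, eq_sub_of_add_eq t3, ← t4, t0]
      abel
  have stab : ∀ (M : Type) [AddCommGroup M] [Module.Free ℤ M] [Module.Finite ℤ M]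
      (α : M →ₗ[ℤ] M) (π : M →ₗ[ℤ] G) (n m : ℕ), WOb a n α π → n ≤ m →
      wP Φ a p m M α π = wP Φ a p n M α π := by
    intro M _ _ _ α π n m h nm
    induction m, nm using Nat.le_induction with
    | base => rfl
    | succ m nm ih =>
      have e : wMap a α π ∘ₗ α.rangeRestrict = π := LinearMap.ext fun y => by simp [wMap, h.comm]
      have t := edge m _ _ α.rangeRestrict (LinearMap.range α).subtype (wMap a α π)
        (h.mono (by omega)).res (by rw [e]; exact h.mono nm)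
      rw [e] at t
      rw [← ih, wP]
      beta_reduce
      rw [t]
      exact sub_sub_cancel _ _
  refine ⟨fun M _ _ _ α π => if g : ∃ n, WOb a n α π then wP Φ a p g.choose M α π else 0,
    fun M M' _ _ _ _ _ _ r s π n h => ?_⟩
  have g' : ∃ n, WOb a n (r ∘ₗ s) π := ⟨n, h⟩
  have g : ∃ n, WOb a n (s ∘ₗ r) (π ∘ₗ r) := ⟨_, h.pull⟩
  beta_reduce
  rw [dif_pos g, dif_pos g', ← stab _ _ _ _ _ g.choose_spec (le_max_left _ g'.choose),
    ← stab _ _ _ _ _ g'.choose_spec (le_max_right g.choose _)]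
  exact edge _ _ _ r s π (g'.choose_spec.mono (le_max_right _ _))
    (g.choose_spec.mono (le_max_left _ _))

end Mod

end Pool.Agent.MP_993212_an.H16
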