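import Pool.Agent.MP_993212_an.H16.Spec
import Pool.Agent.MP_993212_an.H16.WA

/-! Row W: a function on steps over `ℤ` with the triangle identity has a potential. -/

namespace Pool.Agent.MP_993212_an.H16

open Matrix Polynomial Finset Function

section

variable {M M' M'' I J L : Type} [AddCommGroup M] [AddCommGroup M'] [AddCommGroup M''] [Fintype I]
  [DecidableEq I] [Fintype J] [DecidableEq J] [Fintype L] [DecidableEq L]

/-- the matrix of a map acting on rows -/
noncomputable def wMat (b : Module.Basis I ℤ M) (b' : Module.Basis J ℤ M') (r : M →ₗ[ℤ] M') :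
    Matrix I J ℤ := (LinearMap.toMatrix b b' r)ᵀ

omit [DecidableEq L] in
theorem wMat_mul (b : Module.Basis I ℤ M) (b' : Module.Basis J ℤ M') (b'' : Module.Basis L ℤ M'')
    (r : M →ₗ[ℤ] M') (r' : M' →ₗ[ℤ] M'') (t : M →ₗ[ℤ] M'') (h : ∀ x, r' (r x) = t x) :
    wMat b b' r * wMat b' b'' r' = wMat b b'' t := by
  rw [wMat, wMat, wMat, ← transpose_mul, ← LinearMap.toMatrix_comp,
    show r' ∘ₗ r = t from LinearMap.ext h]

omit [DecidableEq J] in
theorem wMat_vec (R : Matrix I J ℤ) :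
    wMat (Pi.basisFun ℤ I) (Pi.basisFun ℤ J) R.vecMulLinear = R := by
  ext i j
  simp [wMat, LinearMap.toMatrix_apply]

end

variable {V G : Type} [Fintype V] [DecidableEq V] [AddCommGroup G] [Module ℤ[X] G]

theorem w_C (n : ℤ) (g : G) : (C n : ℤ[X]) • g = n • g := by
  rw [eq_intCast, Int.cast_smul_eq_zsmul]

theorem w_rel {B : Matrix V V ℤ} {κ : V → G} (h : Pres (pen B) κ) (v : V) :
    κ v = (X : ℤ[X]) • ∑ w, B v w • κ w := by
  have := (h.2 (Pi.single v 1 ᵥ* pen B)).2 ⟨_, rfl⟩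
  simp only [single_one_vecMul, pen, row_apply, Matrix.sub_apply, Matrix.smul_apply, map_apply,
    smul_eq_mul, sub_smul, sum_sub_distrib, mul_smul, w_C, one_apply, ite_smul, one_smul, zero_smul,
    sum_ite_eq, mem_univ, if_true] at this
  rw [smul_sum]
  exact sub_eq_zero.1 this

theorem w_coeff (B : Matrix V V ℤ) (z : V → ℤ[X]) (w : V) :
    ((z ᵥ* pen B) w).coeff 0 = (z w).coeff 0 ∧ ∀ k, ((z ᵥ* pen B) w).coeff (k + 1) =
      (z w).coeff (k + 1) - ((fun v => (z v).coeff k) ᵥ* B) w := by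
  have e : (z ᵥ* pen B) w = z w - X * ∑ v, z v * C (B v w) := by
    rw [pen, vecMul_sub, vecMul_one, vecMul_smul]
    rfl
  rw [e]
  refine ⟨by simp, fun k => ?_⟩
  rw [coeff_sub, coeff_X_mul, finsetSum_coeff]
  simp only [coeff_mul_C]
  rfl

theorem w_bij {B : Matrix V V ℤ} {κ : V → G} (h : Pres (pen B) κ) :
    Bijective fun g : G => (X : ℤ[X]) • g := by
  refine ⟨(injective_iff_map_eq_zero (DistribSMul.toAddMonoidHom G (X : ℤ[X]))).2 fun g e => ?_,
    fun g => ?_⟩
  · obtain ⟨y, rfl⟩ := h.1 g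
    obtain ⟨z, hz⟩ := (h.2 ((X : ℤ[X]) • y)).1 (by
      rw [← e]
      simp [mul_smul])
    have : ∀ w, X ∣ z w := fun w => X_dvd_iff.2 (by rw [← (w_coeff B z w).1, ← hz]; simp)
    choose u hu using this
    refine (h.2 y).2 ⟨u, smul_right_injective _ (X_ne_zero (R := ℤ)) ?_⟩
    beta_reduce
    rw [hz, show z = (X : ℤ[X]) • u from funext hu, smul_vecMul]
  · obtain ⟨y, rfl⟩ := h.1 g
    refine ⟨∑ v, y v • ∑ w, B v w • κ w, ?_⟩
    simp only [smul_sum (r := (X : ℤ[X]))]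
    refine sum_congr rfl fun v _ => ?_
    rw [smul_comm, ← w_rel h]

/-- the map to the module given by a family of elements -/
noncomputable def wPi (κ : V → G) : (V → ℤ) →ₗ[ℤ] G := Fintype.linearCombination ℤ κ

theorem w_ob {B : Matrix V V ℤ} {κ : V → G} (h : Pres (pen B) κ) (a : G ≃ₗ[ℤ] G)
    (ha : ∀ g, a ((X : ℤ[X]) • g) = g) : ∃ n, WOb a n B.vecMulLinear (wPi κ) := by
  have comm : ∀ y, wPi κ (B.vecMulLinear y) = a (wPi κ y) := fun y => by
    simp only [wPi, Fintype.linearCombination_apply, map_sum, map_zsmul, vecMulLinear_apply, vecMul,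
      dotProduct, sum_smul, mul_smul]
    rw [sum_comm]
    refine sum_congr rfl fun v _ => ?_
    conv_rhs => rw [w_rel h v, ha, smul_sum]
  have inv : ∀ x ∈ LinearMap.range (wPi κ), a x ∈ LinearMap.range (wPi κ) := by
    rintro _ ⟨y, rfl⟩
    exact ⟨_, comm y⟩
  have add : ∀ g g', (∃ k, a^[k] g ∈ LinearMap.range (wPi κ)) →
      (∃ k, a^[k] g' ∈ LinearMap.range (wPi κ)) → ∃ k, a^[k] (g + g') ∈ LinearMap.range (wPi κ) := by
    rintro g g' ⟨k, e⟩ ⟨k', e'⟩
    refine ⟨max k k', ?_⟩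
    rw [iterate_map_add]
    exact add_mem (w_mem inv e (le_max_left _ _)) (w_mem inv e' (le_max_right _ _))
  have pw : ∀ (k : ℕ) (g : G), a^[k] ((X ^ k : ℤ[X]) • g) = g := fun k g => by
    induction k with
    | zero => simp
    | succ k ih => rw [iterate_succ_apply, pow_succ', mul_smul, ha, ih]
  obtain ⟨n, hn⟩ := (LinearMap.eventually_iSup_ker_pow_eq B.vecMulLinear).exists
  refine ⟨n, comm, fun g => ?_, fun y hy => ?_⟩
  · obtain ⟨y, rfl⟩ := h.1 g
    refine sum_induction _ (fun g => ∃ k, a^[k] g ∈ LinearMap.range (wPi κ)) add ⟨0, zero_mem _⟩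
      fun v _ => ?_
    induction y v using Polynomial.induction_on' with
    | add p q hp hq => rw [add_smul]; exact add _ _ hp hq
    | monomial k c =>
      refine ⟨k, Pi.single v c, ?_⟩
      rw [← C_mul_X_pow_eq_monomial, mul_comm, mul_smul, pw, w_C]
      simp [wPi]
  · obtain ⟨z, hz⟩ := (h.2 fun v => C (y v)).1 (by
      simpa only [w_C, wPi, Fintype.linearCombination_apply] using hy)
    have key : ∀ k, (fun v => (z v).coeff k) = B.vecMulLinear^[k] y := fun k => by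
      induction k with
      | zero => exact funext fun v => by rw [← (w_coeff B z v).1, ← hz]; simp
      | succ k ih =>
        funext v
        have := (w_coeff B z v).2 k
        rw [← hz, coeff_C_succ, ih] at this
        rw [iterate_succ_apply']
        exact (sub_eq_zero.1 this.symm)
    have h1 : y ∈ LinearMap.ker (B.vecMulLinear ^ (univ.sup (fun v => (z v).natDegree) + 1)) := by
      rw [LinearMap.mem_ker, Module.End.pow_apply, ← key]
      exact funext fun v => coeff_eq_zero_of_natDegree_lt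
        (Nat.lt_succ_of_le (le_sup (f := fun v => (z v).natDegree) (mem_univ v)))
    have h2 := Submodule.mem_iSup_of_mem (p := fun m => LinearMap.ker (B.vecMulLinear ^ m)) _ h1
    rwa [hn, LinearMap.mem_ker, Module.End.pow_apply] at h2

theorem wStmt : WStmt := by
  intro Q _ F hF G _ _
  by_cases hb : Bijective fun g : G => (X : ℤ[X]) • g
  swap
  · exact ⟨fun _ _ _ _ _ _ => 0, fun V W _ _ _ _ _ _ R S κ _ _ h => (hb (w_bij h)).elim⟩
  set a : G ≃ₗ[ℤ] G := (LinearEquiv.ofBijective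
    (DistribSMul.toAddMonoidHom G (X : ℤ[X])).toIntLinearMap hb).symm with ha
  have ha' : ∀ g, a ((X : ℤ[X]) • g) = g := a.apply_symm_apply
  obtain ⟨p, hp⟩ := w_all (Φ := fun M M' _ _ _ _ _ _ r s => F _ _ Fin.val Fin.val
    (wMat (Module.finBasis ℤ M) (Module.finBasis ℤ M') r)
    (wMat (Module.finBasis ℤ M') (Module.finBasis ℤ M) s)) (by
      intro M M' M'' _ _ _ _ _ _ _ _ _ r₁ r₂ s₃ s₁ s₂ r₃ e₁ e₂ e₃
      beta_reduce
      rw [← wMat_mul _ (Module.finBasis ℤ M'') _ _ _ _ e₁, ← wMat_mul _ (Module.finBasis ℤ M) _ _ _ _ e₂,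
        ← wMat_mul _ (Module.finBasis ℤ M') _ _ _ _ e₃]
      exact hF _ _ _ _ _ _ _ _ _ Fin.val_injective Fin.val_injective Fin.val_injective) a
  refine ⟨fun V _ _ o A κ => p (V → ℤ) A.vecMulLinear (wPi κ) - F _ _ o Fin.val
    (wMat (Pi.basisFun ℤ V) (Module.finBasis ℤ (V → ℤ)) LinearMap.id)
    (wMat (Module.finBasis ℤ (V → ℤ)) (Pi.basisFun ℤ V) A.vecMulLinear),
    fun V W _ _ _ _ oV oW R S κ hV hW h => ?_⟩
  obtain ⟨n, hn⟩ := w_ob h a ha'
  have e1 : (S * R).vecMulLinear = R.vecMulLinear ∘ₗ S.vecMulLinear :=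
    LinearMap.ext fun y => (vecMul_vecMul y S R).symm
  have e2 : (R * S).vecMulLinear = S.vecMulLinear ∘ₗ R.vecMulLinear :=
    LinearMap.ext fun y => (vecMul_vecMul y R S).symm
  have e3 : wPi (pull R κ) = wPi κ ∘ₗ R.vecMulLinear := LinearMap.ext fun y => by
    simp only [wPi, Fintype.linearCombination_apply, pull, w_C, LinearMap.comp_apply,
      vecMulLinear_apply, vecMul, dotProduct, sum_smul, mul_smul, smul_sum]
    exact sum_comm
  rw [e1] at hn
  have t0 := hp _ _ _ _ _ n hn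
  beta_reduce at t0 ⊢
  rw [e1, e2, e3]
  set eV := Pi.basisFun ℤ V
  set eW := Pi.basisFun ℤ W
  set bV := Module.finBasis ℤ (V → ℤ)
  set bW := Module.finBasis ℤ (W → ℤ)
  have t1 := hF _ _ _ oV oW Fin.val (wMat eV eW R.vecMulLinear) (wMat eW bW LinearMap.id)
    (wMat bW eV S.vecMulLinear) hV hW Fin.val_injective
  have t2 := hF _ _ _ oV Fin.val Fin.val (wMat eV bV LinearMap.id) (wMat bV bW R.vecMulLinear)
    (wMat bW eV S.vecMulLinear) hV Fin.val_injective Fin.val_injective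
  rw [wMat_mul _ _ _ _ _ S.vecMulLinear fun _ => rfl, wMat_mul _ _ _ _ _ (_ ∘ₗ _) fun _ => rfl,
    wMat_mul _ _ _ _ _ R.vecMulLinear fun _ => rfl, wMat_vec, wMat_vec] at t1
  rw [wMat_mul _ _ _ _ _ (_ ∘ₗ _) fun _ => rfl, wMat_mul _ _ _ _ _ S.vecMulLinear fun _ => rfl,
    wMat_mul _ _ _ _ _ R.vecMulLinear fun _ => rfl, t0] at t2
  rw [eq_sub_of_add_eq t1, ← t2]
  abel

end Pool.Agent.MP_993212_an.H16
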