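import Pool.Agent.MP_993212_an.H16.FZ
import Pool.Agent.MP_993212_an.H16.ABS
import Pool.Agent.MP_993212_an.H16.BK
import Pool.Agent.MP_993212_an.H16.TRI
import Pool.Agent.MP_993212_an.H16.PER
import Pool.Agent.MP_993212_an.H16.CNT
import Pool.Agent.MP_993212_an.H16.LOC
import Pool.Agent.MP_993212_an.H16.W
import Pool.Agent.MP_993212_an.H16.TR
import Pool.Agent.MP_993212_an.H16.FULL
import Pool.Agent.MP_993212_an.H16.PF
import Pool.Agent.MP_993212_an.H16.CODE
import Pool.Agent.MP_993212_an.H16.P1
import Pool.Agent.MP_993212_an.H16.P2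

/-! Necessity, and the reduction of the primitive case to sufficiency. -/

namespace Pool.Agent.MP_993212_an.H16

theorem base : Base :=
  ⟨perN, tri_of absStmt (bk_of absStmt), cnt_of absStmt, loc_of absStmt, wStmt, trStmt⟩

theorem necStmt : NecStmt := base.nec

theorem p1_of_suf (h : SufStmt) : H46.P1 := p1_of necStmt h fullStmt pfStmt codeStmt

theorem p2_of_suf (h : SufStmt) : H46.P2 := p2_of necStmt h fullStmt pfStmt

end Pool.Agent.MP_993212_an.H16
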