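import Pool.Agent.MP_993212_an.H16.Defs

/-! The sign and gyration obstruction: definitions. -/

namespace Pool.Agent.MP_993212_an.H16

open Matrix Polynomial Finset

section Abs

variable {Y Θ Θ₁ Θ₂ : Type} [LinearOrder Θ] [LinearOrder Θ₁] [LinearOrder Θ₂] {d : ℕ}

/-- `x` has the least key in its orbit -/
def IsBase (ρ : ZMod d → Y → Y) (K : Y → Θ) (x : Y) : Prop := ∀ j, K x ≤ K (ρ j x)

/-- `ρ` is a free action of `ZMod d` on the finite set `P` -/
structure Free (ρ : ZMod d → Y → Y) (P : Finset Y) : Prop where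
  zero : ∀ x ∈ P, ρ 0 x = x
  add : ∀ i j, ∀ x ∈ P, ρ i (ρ j x) = ρ (i + j) x
  mem : ∀ j, ∀ x ∈ P, ρ j x ∈ P
  free : ∀ j, ∀ x ∈ P, ρ j x = x → j = 0

variable [NeZero d]

open Classical in
/-- the gyration number of the key `K₂` against the key `K₁` -/
noncomputable def gyr (ρ : ZMod d → Y → Y) (P : Finset Y) (K₁ : Y → Θ₁) (K₂ : Y → Θ₂) : ZMod d :=
  ∑ x ∈ P, ∑ j : ZMod d, if IsBase ρ K₁ x ∧ IsBase ρ K₂ (ρ j x) then j else 0

open Classical in
/-- the number of pairs of orbits that the two keys order differently -/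
noncomputable def invs (ρ : ZMod d → Y → Y) (P : Finset Y) (K₁ : Y → Θ₁) (K₂ : Y → Θ₂) : ℕ :=
  ∑ x ∈ P, ∑ y ∈ P, ∑ i : ZMod d, ∑ j : ZMod d,
    if IsBase ρ K₁ x ∧ IsBase ρ K₁ y ∧ K₁ x < K₁ y ∧ IsBase ρ K₂ (ρ i x) ∧ IsBase ρ K₂ (ρ j y) ∧
      K₂ (ρ j y) < K₂ (ρ i x) then 1 else 0

end Abs

/-- the combination of a gyration number at period `k` and of orbit signs at periods `k / 2 ^ i` -/
def comb (k : ℕ) (g : ZMod k) (x : ℕ → ℤ) : ZMod k :=
  g + ((k / 2 : ℕ) : ZMod k) * ∑ i ∈ Icc 1 k, if 2 ^ i ∣ k then (x (k / 2 ^ i) : ZMod k) else 0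

theorem comb_add (k : ℕ) (g g' : ZMod k) (x x' : ℕ → ℤ) :
    comb k (g + g') (x + x') = comb k g x + comb k g' x' := by
  simp only [comb, Pi.add_apply, Int.cast_add, ← sum_add_distrib, add_add_add_comm,
    ← mul_add]
  congr 2
  refine sum_congr rfl fun i _ => ?_
  split_ifs <;> simp

theorem comb_zero (k : ℕ) : comb k 0 0 = 0 := by simp [comb]

theorem comb_neg (k : ℕ) (g : ZMod k) (x : ℕ → ℤ) : comb k (-g) (-x) = -comb k g x := by
  rw [eq_neg_iff_add_eq_zero, ← comb_add, neg_add_cancel, neg_add_cancel, comb_zero]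

/-- rotation of a cyclic word -/
def rot {E : Type} {d : ℕ} (j : ZMod d) (z : ZMod d → E) : ZMod d → E := fun i => z (i + j)

/-- a vertex of the first graph, a vertex of the second, an `R` edge between them and the
`S` edge that follows -/
abbrev Ed (V W : Type) : Type := V × W × ℕ × ℕ

abbrev Key : Type := ℕ ×ₗ ℕ ×ₗ ℕ ×ₗ ℕ ×ₗ ℕ

def mkKey (a b c r s : ℕ) : Key := toLex (a, toLex (b, toLex (c, toLex (r, s))))

variable {U V W : Type}

/-- the key of a cyclic word read as a word in the edges of `R * S` -/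
def keyA {d : ℕ} (oV : V → ℕ) (oW : W → ℕ) (z : ZMod d → Ed V W) : Lex (Fin d → Key) :=
  toLex fun n => mkKey (oV (z ((n : ℕ) : ZMod d)).1) (oV (z (((n : ℕ) : ZMod d) + 1)).1)
    (oW (z ((n : ℕ) : ZMod d)).2.1) (z ((n : ℕ) : ZMod d)).2.2.1 (z ((n : ℕ) : ZMod d)).2.2.2

/-- the key of a cyclic word read as a word in the edges of `S * R` -/
def keyB {d : ℕ} (oV : V → ℕ) (oW : W → ℕ) (z : ZMod d → Ed V W) : Lex (Fin d → Key) :=
  toLex fun n => mkKey (oW (z ((n : ℕ) : ZMod d)).2.1) (oW (z (((n : ℕ) : ZMod d) + 1)).2.1)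
    (oV (z (((n : ℕ) : ZMod d) + 1)).1) (z ((n : ℕ) : ZMod d)).2.2.2
    (z (((n : ℕ) : ZMod d) + 1)).2.2.1

variable [Fintype U] [DecidableEq U] [Fintype V] [DecidableEq V] [Fintype W] [DecidableEq W]

/-- closed alternating paths with `d` edges of `R` and `d` edges of `S` -/
def cyc (d : ℕ) [NeZero d] (R : Matrix V W ℕ) (S : Matrix W V ℕ) : Finset (ZMod d → Ed V W) :=
  (Fintype.piFinset fun _ => univ ×ˢ univ ×ˢ range (∑ v, ∑ w, R v w) ×ˢ
      range (∑ w, ∑ v, S w v)).filter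
    fun z => ∀ i, (z i).2.2.1 < R (z i).1 (z i).2.1 ∧ (z i).2.2.2 < S (z i).2.1 (z (i + 1)).1

omit [DecidableEq V] [DecidableEq W] in
theorem mem_cyc {d : ℕ} [NeZero d] {R : Matrix V W ℕ} {S : Matrix W V ℕ} {z : ZMod d → Ed V W} :
    z ∈ cyc d R S ↔
      ∀ i, (z i).2.2.1 < R (z i).1 (z i).2.1 ∧ (z i).2.2.2 < S (z i).2.1 (z (i + 1)).1 := by
  rw [cyc, mem_filter, and_iff_right_iff_imp]
  intro h
  simp only [Fintype.mem_piFinset, mem_product, mem_univ, mem_range, true_and]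
  intro i
  refine ⟨(h i).1.trans_le ?_, (h i).2.trans_le ?_⟩
  · exact (single_le_sum (f := fun w => R (z i).1 w) (fun _ _ => Nat.zero_le _)
      (mem_univ _)).trans (single_le_sum (f := fun v => ∑ w, R v w) (fun _ _ => Nat.zero_le _)
      (mem_univ _))
  · exact (single_le_sum (f := fun v => S (z i).2.1 v) (fun _ _ => Nat.zero_le _)
      (mem_univ _)).trans (single_le_sum (f := fun w => ∑ v, S w v) (fun _ _ => Nat.zero_le _)
      (mem_univ _))

/-- those of least period `d` -/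
def prim (d : ℕ) [NeZero d] (R : Matrix V W ℕ) (S : Matrix W V ℕ) : Finset (ZMod d → Ed V W) :=
  (cyc d R S).filter fun z => ∀ j, rot j z = z → j = 0

theorem free_prim (d : ℕ) [NeZero d] (R : Matrix V W ℕ) (S : Matrix W V ℕ) :
    Free rot (prim d R S) where
  zero x _ := by ext i <;> simp [rot]
  add i j x _ := by
    funext n
    simp [rot, add_assoc]
  mem j x hx := by
    simp only [prim, mem_filter, mem_cyc] at hx ⊢
    refine ⟨fun i => ?_, fun i hi => hx.2 i ?_⟩
    · have := hx.1 (i + j)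
      simpa only [rot, add_right_comm i j 1] using this
    · funext n
      have := congrFun hi (n - j)
      simp only [rot, sub_add_cancel] at this
      simp only [rot]
      rw [← this]
      congr 1
      ring
  free j x hx h := (mem_filter.1 hx).2 j h

noncomputable def gy (oV : V → ℕ) (oW : W → ℕ) (R : Matrix V W ℕ) (S : Matrix W V ℕ) :
    (d : ℕ) → ZMod d
  | 0 => 0
  | n + 1 => gyr rot (prim (n + 1) R S) (keyA oV oW) (keyB oV oW)

noncomputable def xi (oV : V → ℕ) (oW : W → ℕ) (R : Matrix V W ℕ) (S : Matrix W V ℕ) : ℕ → ℤ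
  | 0 => 0
  | n + 1 => (invs rot (prim (n + 1) R S) (keyA oV oW) (keyB oV oW) : ℕ)

/-- the sign and gyration number of the step `R * S ↦ S * R` over `ℕ` -/
noncomputable def fN (k : ℕ) (oV : V → ℕ) (oW : W → ℕ) (R : Matrix V W ℕ) (S : Matrix W V ℕ) :
    ZMod k := comb k (gy oV oW R S k) (xi oV oW R S)

/-- a period of `fN k` in every entry -/
def md (k : ℕ) : ℕ := k * (2 * k).factorial

/-- residues -/
def res {m n : Type} (c : ℕ) (R : Matrix m n ℤ) : Matrix m n ℕ := R.map fun x => (x % c).toNat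

/-- the extension to integer matrices -/
noncomputable def f (k : ℕ) (oV : V → ℕ) (oW : W → ℕ) (R : Matrix V W ℤ) (S : Matrix W V ℤ) :
    ZMod k := fN k oV oW (res (md k) R) (res (md k) S)

/-- the group of values -/
abbrev Val : Type := ∀ k : ℕ, ZMod k

noncomputable def fv (oV : V → ℕ) (oW : W → ℕ) (R : Matrix V W ℤ) (S : Matrix W V ℤ) : Val :=
  fun k => f k oV oW R S

/-- chains over `ℤ` on ranked index types, with the product of the left factors and the value -/
inductive ChV {V : Type} [Fintype V] [DecidableEq V] (oV : V → ℕ) (A : Matrix V V ℤ) :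
    ∀ {W : Type} [Fintype W] [DecidableEq W],
      (W → ℕ) → Matrix W W ℤ → Matrix V W ℤ → Val → Prop
  | refl : ChV oV A oV A 1 0
  | step {W X : Type} [Fintype W] [DecidableEq W] [Fintype X] [DecidableEq X] {oW : W → ℕ}
      (oX : X → ℕ) (R : Matrix W X ℤ) (S : Matrix X W ℤ) {T : Matrix V W ℤ} {v : Val} :
      Function.Injective oX → ChV oV A oW (R * S) T v →
        ChV oV A oX (S * R) (T * R) (v + fv oW oX R S)

/-- the number of points of least period `k` -/
def np (k : ℕ) (A : Matrix V V ℕ) : ℤ :=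
  ∑ e ∈ k.divisors, ArithmeticFunction.moebius (k / e) * ((trace (A ^ e) : ℕ) : ℤ)

/-- the values of shift commuting permutations of the periodic points -/
def Adm (A : Matrix V V ℕ) : AddSubgroup Val where
  carrier := {v | ∃ (g : Val) (x : ℕ → ℤ), (∀ k, np k A = 0 → g k = 0) ∧
    (∀ d, np d A ≤ d → x d = 0) ∧ ∀ k, v k = comb k (g k) x}
  add_mem' := by
    rintro v v' ⟨g, x, h1, h2, h3⟩ ⟨g', x', h1', h2', h3'⟩
    refine ⟨g + g', x + x', fun k hk => by simp [h1 k hk, h1' k hk],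
      fun d hd => by simp [h2 d hd, h2' d hd], fun k => ?_⟩
    rw [Pi.add_apply, Pi.add_apply, comb_add, h3, h3']
  zero_mem' := ⟨0, 0, fun _ _ => rfl, fun _ _ => rfl, fun k => (comb_zero k).symm⟩
  neg_mem' := by
    rintro v ⟨g, x, h1, h2, h3⟩
    refine ⟨-g, -x, fun k hk => by simp [h1 k hk], fun d hd => by simp [h2 d hd], fun k => ?_⟩
    rw [Pi.neg_apply, Pi.neg_apply, comb_neg, h3]

/-- the potential of a graded matrix -/
def pot (k : ℕ) [NeZero k] (o : V → ℕ) (h : V → ZMod k) (A : Matrix V V ℤ) : ZMod k :=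
  ∑ v : ZMod k → V, if ∀ i, o (v 0) ≤ o (v i) then
    ((∏ i, A (v i) (v (i + 1)) : ℤ) : ZMod k) * h (v 0) else 0

/-- the incidence matrix of a map -/
def inc {K : Type} [Zero K] [One K] (e : V → W) : Matrix V W K :=
  Matrix.of fun v w => if w = e v then 1 else 0

end Pool.Agent.MP_993212_an.H16
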