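import Pool.Agent.MP_993212_an.H16.Spec

/-! List codes for integer matrices, chains over the integers and numbers of periodic points. -/

namespace Pool.Agent.MP_993212_an.H16.P1A

open Matrix Finset Function H12 H46

abbrev ZL := LL × LL

abbrev St := ℕ × ℕ × ZL × ZL

def mulZ (n m k : ℕ) (R S : ZL) : ZL :=
  (tab (n + k) fun i j => mulE m R.1 S.1 i j + mulE m R.2 S.2 i j,
    tab (n + k) fun i j => mulE m R.1 S.2 i j + mulE m R.2 S.1 i j)

def eqZ (n m : ℕ) (A B : ZL) : Bool :=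
  all1 n fun i => all1 m fun j => ent A.1 i j + ent B.2 i j == ent A.2 i j + ent B.1 i j

def negZ (n m : ℕ) (A : ZL) : Bool :=
  all1 n fun i => all1 m fun j => decide (ent A.1 i j ≤ ent A.2 i j)

def resL (c N : ℕ) (R : ZL) : LL := tab N fun i j => (ent R.1 i j + (c - 1) * ent R.2 i j) % c

def stp (n : ℕ) (x : St) (st : ℕ × ZL × ZL × Bool) : ℕ × ZL × ZL × Bool :=
  (x.2.1, mulZ x.2.1 x.1 x.2.1 x.2.2.2 x.2.2.1, mulZ n x.1 x.2.1 st.2.2.1 x.2.2.1,
    st.2.2.2 && (x.1 == st.1 && eqZ x.1 x.1 st.2.1 (mulZ x.1 x.2.1 x.1 x.2.2.1 x.2.2.2)))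

def runZ (D : LL) (c : List St) : ℕ × ZL × ZL × Bool :=
  c.foldr (stp D.length) (D.length, (D, []), (pw D 0, []), true)

def val (cc : ℕ × ℕ × ℕ × LL × LL → ℕ) (k : ℕ) (c : List St) : ℕ :=
  c.foldr (fun x s => s + cc (k, x.1, x.2.1, resL (md k) (x.1 + x.2.1) x.2.2.1,
    resL (md k) (x.1 + x.2.1) x.2.2.2)) 0

def cmb (k : ℕ) (x : List ℕ) : ℕ :=
  k / 2 * sm k fun i => if k % 2 ^ (1 + i) = 0 then x.getD (k / 2 ^ (1 + i)) 0 else 0

def trL (D : LL) (k : ℕ) : ℕ := sm D.length fun i => ent (pw D k) i i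

def nxt (D : LL) (k : ℕ) (L : List (ℕ × ℕ)) : ℕ × ℕ :=
  ((if k = 0 then 0 else trL D k) + sm k fun d => if k % d = 0 then (L.getD d (0, 0)).2 else 0,
    sm k fun d => if k % d = 0 then (L.getD d (0, 0)).1 else 0)

def npL (D : LL) (N : ℕ) : List (ℕ × ℕ) := Nat.rec [] (fun k L => L ++ [nxt D k L]) N

def npP (D : LL) (k : ℕ) : ℕ × ℕ := (npL D (k + 1)).getD k (0, 0)

section Prim

variable {α : Type} [Primcodable α]

@[fun_prop] theorem P.div {f g : α → ℕ} (hf : Primrec f) (hg : Primrec g) :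
    Primrec fun a => f a / g a := Primrec.nat_div.comp hf hg

theorem prim_fact : Primrec Nat.factorial :=
  (Primrec.nat_rec₁ 1 (Primrec.nat_mul.comp (Primrec.succ.comp Primrec.fst) Primrec.snd).to₂).of_eq
    fun n => by induction n <;> simp [*, Nat.factorial]

@[fun_prop] theorem P.md {f : α → ℕ} (hf : Primrec f) : Primrec fun a => md (f a) :=
  Primrec.nat_mul.comp hf (prim_fact.comp (Primrec.nat_mul.comp (Primrec.const 2) hf))

@[fun_prop] theorem P.mulZ {n m k : α → ℕ} {R S : α → ZL} (hn : Primrec n) (hm : Primrec m)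
    (hk : Primrec k) (hR : Primrec R) (hS : Primrec S) :
    Primrec fun a => mulZ (n a) (m a) (k a) (R a) (S a) := by
  unfold P1A.mulZ; fun_prop

@[fun_prop] theorem P.eqZ {n m : α → ℕ} {R S : α → ZL} (hn : Primrec n) (hm : Primrec m)
    (hR : Primrec R) (hS : Primrec S) : Primrec fun a => eqZ (n a) (m a) (R a) (S a) := by
  unfold P1A.eqZ; fun_prop

@[fun_prop] theorem P.negZ {n m : α → ℕ} {R : α → ZL} (hn : Primrec n) (hm : Primrec m)
    (hR : Primrec R) : Primrec fun a => negZ (n a) (m a) (R a) := by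
  unfold P1A.negZ; fun_prop

@[fun_prop] theorem P.resL {n m : α → ℕ} {R : α → ZL} (hn : Primrec n) (hm : Primrec m)
    (hR : Primrec R) : Primrec fun a => resL (n a) (m a) (R a) := by
  unfold P1A.resL; fun_prop

@[fun_prop] theorem P.stp {n : α → ℕ} {x : α → St} {s : α → ℕ × ZL × ZL × Bool} (hn : Primrec n)
    (hx : Primrec x) (hs : Primrec s) : Primrec fun a => stp (n a) (x a) (s a) := by
  unfold P1A.stp; fun_prop

@[fun_prop] theorem P.runZ {D : α → LL} {c : α → List St} (hD : Primrec D) (hc : Primrec c) :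
    Primrec fun a => runZ (D a) (c a) := by
  unfold P1A.runZ; fun_prop

theorem P.val {cc : ℕ × ℕ × ℕ × LL × LL → ℕ} (hcc : Primrec cc) {k : α → ℕ} {c : α → List St}
    (hk : Primrec k) (hc : Primrec c) : Primrec fun a => val cc (k a) (c a) := by
  unfold P1A.val; fun_prop

@[fun_prop] theorem P.cmb {k : α → ℕ} {x : α → List ℕ} (hk : Primrec k) (hx : Primrec x) :
    Primrec fun a => cmb (k a) (x a) := by
  unfold P1A.cmb; fun_prop

@[fun_prop] theorem P.trL {D : α → LL} {k : α → ℕ} (hD : Primrec D) (hk : Primrec k) :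
    Primrec fun a => trL (D a) (k a) := by
  unfold P1A.trL; fun_prop

@[fun_prop] theorem P.nxt {D : α → LL} {k : α → ℕ} {L : α → List (ℕ × ℕ)} (hD : Primrec D)
    (hk : Primrec k) (hL : Primrec L) : Primrec fun a => nxt (D a) (k a) (L a) := by
  unfold P1A.nxt; fun_prop

@[fun_prop] theorem P.npL {D : α → LL} {k : α → ℕ} (hD : Primrec D) (hk : Primrec k) :
    Primrec fun a => npL (D a) (k a) := by
  unfold P1A.npL; fun_prop

@[fun_prop] theorem P.npP {D : α → LL} {k : α → ℕ} (hD : Primrec D) (hk : Primrec k) :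
    Primrec fun a => npP (D a) (k a) := by
  unfold P1A.npP; fun_prop

end Prim

theorem ent_tab' {N : ℕ} (f : ℕ → ℕ → ℕ) {i j : ℕ} (hi : i < N) (hj : j < N) :
    ent (tab N f) i j = f i j := ent_tab f ⟨i, hi⟩ ⟨j, hj⟩

theorem zM_apply (n m : ℕ) (R : ZL) (i : Fin n) (j : Fin m) :
    zM n m R i j = (ent R.1 i j : ℤ) - ent R.2 i j := rfl

theorem zM_mul (n m k : ℕ) (R S : ZL) : zM n k (mulZ n m k R S) = zM n m R * zM m k S := by
  have h : ∀ F : ℕ → ℕ → ℕ, toM n k (tab (n + k) F) = Matrix.of fun (i : Fin n) (j : Fin k) =>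
      F i j := fun F => by
    ext i j
    exact ent_tab' F (by omega) (by omega)
  have h2 : ∀ A B C D : LL, zz (Matrix.of fun (i : Fin n) (j : Fin k) =>
      mulE m A B i j + mulE m C D i j) =
      zz (toM n m A) * zz (toM m k B) + zz (toM n m C) * zz (toM m k D) := fun A B C D => by
    rw [← zz_mul, ← zz_mul]
    ext i j
    simp only [zz_apply, Matrix.of_apply, Matrix.add_apply, mulE_eq, Nat.cast_add]
  simp only [zM, mulZ, h, h2, Matrix.sub_mul, Matrix.mul_sub]
  abel

theorem eqZ_iff {n m : ℕ} {A B : ZL} : eqZ n m A B = true ↔ zM n m A = zM n m B := by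
  simp only [eqZ, all1_iff, beq_iff_eq, ← Matrix.ext_iff, zM_apply]
  refine forall_congr' fun i => forall_congr' fun j => ?_
  omega

theorem negZ_iff {n m : ℕ} {A : ZL} : negZ n m A = true ↔ ∀ i j, zM n m A i j ≤ 0 := by
  simp only [negZ, all1_iff, decide_eq_true_eq, zM_apply]
  refine forall_congr' fun i => forall_congr' fun j => ?_
  omega

theorem zM_nat (n m : ℕ) (L : LL) : zM n m (L, []) = zz (toM n m L) := by
  ext i j
  simp [zM_apply, ent, zz_apply, toM]

theorem zM_pw (D : LL) (k : ℕ) :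
    zM D.length D.length (pw D k, []) = zz (toM D.length D.length D) ^ k := by
  rw [zM_nat, pw_eq, zz_pow]

def ofZ {n m : ℕ} (A : Matrix (Fin n) (Fin m) ℤ) : ZL :=
  (ofM (A.map Int.toNat), ofM ((-A).map Int.toNat))

theorem zM_ofZ {n m : ℕ} (A : Matrix (Fin n) (Fin m) ℤ) : zM n m (ofZ A) = A := by
  ext i j
  simp only [zM, ofZ, toM_ofM, Matrix.sub_apply, zz_apply, Matrix.map_apply, Matrix.neg_apply]
  omega

theorem res_eq {c N n m : ℕ} (hc : 0 < c) (hn : n ≤ N) (hm : m ≤ N) (R : ZL) :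
    toM n m (resL c N R) = res c (zM n m R) := by
  ext i j
  have h1 : toM n m (resL c N R) i j = (ent R.1 i j + (c - 1) * ent R.2 i j) % c :=
    ent_tab' _ (by omega) (by omega)
  rw [h1, res, Matrix.map_apply, zM_apply]
  obtain ⟨c, rfl⟩ : ∃ c', c = c' + 1 := ⟨c - 1, by omega⟩
  have h2 : ((ent R.1 i j : ℤ) - ent R.2 i j) % ((c + 1 : ℕ) : ℤ) =
      (((ent R.1 i j + c * ent R.2 i j) % (c + 1) : ℕ) : ℤ) := by
    rw [Int.natCast_mod]
    refine Int.modEq_iff_dvd.2 ⟨ent R.2 i j, ?_⟩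
    push_cast
    ring
  rw [h2, Int.toNat_natCast, Nat.add_sub_cancel]

theorem fN_zero {V W : Type} [Fintype V] [DecidableEq V] [Fintype W] [DecidableEq W]
    (oV : V → ℕ) (oW : W → ℕ) (R : Matrix V W ℕ) (S : Matrix W V ℕ) : fN 0 oV oW R S = 0 := by
  simp [fN, comb, gy]

/-- the function of `CodeStmt` -/
def Cod (cc : ℕ × ℕ × ℕ × LL × LL → ℕ) : Prop :=
  ∀ (k n m : ℕ) (R S : LL),
    (cc (k, n, m, R, S) : ZMod k) = fN k Fin.val Fin.val (toM n m R) (toM m n S)

theorem f_code {cc : ℕ × ℕ × ℕ × LL × LL → ℕ} (h : Cod cc) (k n m : ℕ) (R S : ZL) :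
    (cc (k, n, m, resL (md k) (n + m) R, resL (md k) (n + m) S) : ZMod k) =
      f k Fin.val Fin.val (zM n m R) (zM m n S) := by
  rw [h, f]
  rcases Nat.eq_zero_or_pos k with rfl | hk
  · rw [fN_zero, fN_zero]
  · have hc : 0 < md k := Nat.mul_pos hk (Nat.factorial_pos _)
    rw [res_eq hc (by omega) (by omega), res_eq hc (by omega) (by omega)]

theorem run_sound {cc : ℕ × ℕ × ℕ × LL × LL → ℕ} (h : Cod cc) (D : LL) (c : List St)
    (hc : (runZ D c).2.2.2 = true) (m : ℕ) (hm : (runZ D c).1 = m) :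
    ChV (Fin.val : Fin D.length → ℕ) (zz (toM D.length D.length D)) (Fin.val : Fin m → ℕ)
      (zM m m (runZ D c).2.1) (zM D.length m (runZ D c).2.2.1) fun k => (val cc k c : ZMod k) := by
  induction c generalizing m with
  | nil =>
    obtain rfl : D.length = m := hm
    have h1 : (fun k => ((val cc k [] : ℕ) : ZMod k)) = (0 : Val) := by
      funext k
      simp [val]
    change ChV _ _ _ (zM _ _ (D, [])) (zM _ _ (pw D 0, [])) _
    rw [h1, zM_nat, zM_pw, pow_zero]
    exact ChV.refl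
  | cons x c ih =>
    obtain ⟨a, b, R, S⟩ := x
    obtain rfl : b = m := hm
    have h0 : runZ D ((a, b, R, S) :: c) = stp D.length (a, b, R, S) (runZ D c) := rfl
    rw [h0] at hc ⊢
    simp only [stp, Bool.and_eq_true, beq_iff_eq, eqZ_iff, zM_mul] at hc ⊢
    have h1 := ih hc.1 a hc.2.1.symm
    rw [hc.2.2] at h1
    have h2 : (fun k => ((val cc k ((a, b, R, S) :: c) : ℕ) : ZMod k)) =
        (fun k => ((val cc k c : ℕ) : ZMod k) : Val) +
          fv Fin.val Fin.val (zM a b R) (zM b a S) := by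
      funext k
      rw [Pi.add_apply, fv, ← f_code h, ← Nat.cast_add]
      rfl
    rw [h2]
    exact ChV.step _ _ _ Fin.val_injective h1

theorem run_step (D : LL) (c : List St) {a b : ℕ} (R : Matrix (Fin a) (Fin b) ℤ)
    (S : Matrix (Fin b) (Fin a) ℤ) (h1 : (runZ D c).2.2.2 = true) (h2 : (runZ D c).1 = a)
    (h3 : zM a a (runZ D c).2.1 = R * S) :
    ∃ c', (runZ D c').2.2.2 = true ∧ (runZ D c').1 = b ∧ zM b b (runZ D c').2.1 = S * R ∧
      zM D.length b (runZ D c').2.2.1 = zM D.length a (runZ D c).2.2.1 * R := by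
  refine ⟨(a, b, ofZ R, ofZ S) :: c, ?_⟩
  have h0 : runZ D ((a, b, ofZ R, ofZ S) :: c) = stp D.length (a, b, ofZ R, ofZ S) (runZ D c) :=
    rfl
  rw [h0]
  simp only [stp, Bool.and_eq_true, beq_iff_eq, eqZ_iff, zM_mul, zM_ofZ]
  exact ⟨⟨h1, h2.symm, h3⟩, trivial, trivial, trivial⟩

theorem run_complete (D : LL) {W : Type} [Fintype W] [DecidableEq W] {B : Matrix W W ℤ}
    {T : Matrix (Fin D.length) W ℤ} (h : H16.Ch (zz (toM D.length D.length D)) B T) (m : ℕ)
    (e : Fin m ≃ W) :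
    ∃ c, (runZ D c).2.2.2 = true ∧ (runZ D c).1 = m ∧ zM m m (runZ D c).2.1 = B.submatrix e e ∧
      zM D.length m (runZ D c).2.2.1 = T.submatrix id e := by
  induction h generalizing m with
  | refl =>
    obtain ⟨c, h1, h2, h3, h4⟩ := run_step D []
      ((1 : Matrix (Fin D.length) (Fin D.length) ℤ).submatrix id e)
      ((zz (toM D.length D.length D)).submatrix e id) rfl rfl (by
        rw [submatrix_mul_equiv, Matrix.one_mul, submatrix_id_id]
        exact zM_nat _ _ _)
    refine ⟨c, h1, h2, ?_, ?_⟩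
    · rw [h3, ← Equiv.coe_refl, submatrix_mul_equiv, Matrix.mul_one]
    · have h5 : (runZ D []).2.2.1 = (pw D 0, []) := rfl
      rw [h4, h5, zM_pw, pow_zero, Matrix.one_mul]
  | @step W X _ _ _ _ R S T _ ih =>
    obtain ⟨c, h1, h2, h3, h4⟩ := ih _ (Fintype.equivFin W).symm
    obtain ⟨c', h5, h6, h7, h8⟩ := run_step D c (R.submatrix (Fintype.equivFin W).symm e)
      (S.submatrix e (Fintype.equivFin W).symm) h1 h2 (by rw [h3, submatrix_mul_equiv])
    refine ⟨c', h5, h6, ?_, ?_⟩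
    · rw [h7, submatrix_mul_equiv]
    · rw [h8, h4, submatrix_mul_equiv]

theorem cmb_eq (k : ℕ) (x : List ℕ) :
    (cmb k x : ZMod k) = comb k 0 fun d => (x.getD d 0 : ℕ) := by
  rw [cmb, comb, zero_add, sm_eq, Nat.cast_mul, Fin.sum_univ_eq_sum_range
    (fun i => if k % 2 ^ (1 + i) = 0 then x.getD (k / 2 ^ (1 + i)) 0 else 0),
    ← Finset.Ico_add_one_right_eq_Icc, Finset.sum_Ico_eq_sum_range, Nat.add_sub_cancel,
    Nat.cast_sum]
  congr 1
  refine Finset.sum_congr rfl fun i _ => ?_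
  simp only [Nat.dvd_iff_mod_eq_zero]
  split_ifs <;> simp

theorem comb_congr (k : ℕ) (g : ZMod k) {x y : ℕ → ℤ} (h : ∀ d ≤ k, x d % 2 = y d % 2) :
    comb k g x = comb k g y := by
  simp only [comb, Finset.mul_sum]
  congr 1
  refine Finset.sum_congr rfl fun i hi => ?_
  split_ifs with h1
  · obtain ⟨t, ht⟩ := Int.modEq_iff_dvd.1 (h (k / 2 ^ i) (Nat.div_le_self _ _))
    have h2 : 2 ∣ k := (dvd_pow_self 2 (by have := (Finset.mem_Icc.1 hi).1; omega)).trans h1
    have h3 : ((k / 2 : ℕ) : ZMod k) * 2 = 0 := by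
      have h4 : (((k / 2 * 2 : ℕ)) : ZMod k) = 0 := by
        rw [Nat.div_mul_cancel h2, ZMod.natCast_self]
      simpa using h4
    rw [eq_add_of_sub_eq ht]
    push_cast
    rw [mul_add, ← mul_assoc, h3, zero_mul, zero_add]
  · rfl

theorem trL_eq (D : LL) (k : ℕ) : trL D k = trace (toM D.length D.length D ^ k) := by
  rw [trL, sm_eq]
  exact Finset.sum_congr rfl fun i _ => ent_pw D k i i

theorem np_sum {V : Type} [Fintype V] [DecidableEq V] (A : Matrix V V ℕ) (k : ℕ) (hk : 0 < k) :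
    ∑ d ∈ k.divisors, np d A = ((trace (A ^ k) : ℕ) : ℤ) := by
  refine (ArithmeticFunction.sum_eq_iff_sum_mul_moebius_eq (f := fun d => np d A)
    (g := fun e => ((trace (A ^ e) : ℕ) : ℤ))).2 (fun n _ => ?_) k hk
  simp only [Int.cast_id]
  rw [np, Nat.sum_divisorsAntidiagonal' (f := fun a b =>
    (ArithmeticFunction.moebius a : ℤ) * ((trace (A ^ b) : ℕ) : ℤ))]

theorem npL_spec (D : LL) (N : ℕ) : (npL D N).length = N ∧ ∀ d < N,
    (((npL D N).getD d (0, 0)).1 : ℤ) - ((npL D N).getD d (0, 0)).2 =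
      np d (toM D.length D.length D) := by
  induction N with
  | zero => exact ⟨rfl, fun d hd => absurd hd (Nat.not_lt_zero d)⟩
  | succ N ih =>
    have h0 : npL D (N + 1) = npL D N ++ [nxt D N (npL D N)] := rfl
    rw [h0]
    refine ⟨by simp [ih.1], fun d hd => ?_⟩
    rcases Nat.lt_succ_iff_lt_or_eq.1 hd with h | rfl
    · rw [List.getD_append _ _ _ _ (by rw [ih.1]; exact h)]
      exact ih.2 d h
    · rw [List.getD_append_right _ _ _ _ ih.1.le, ih.1, Nat.sub_self, List.getD_cons_zero]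
      rcases Nat.eq_zero_or_pos d with rfl | hd0
      · simp [nxt, sm, np]
      · have h1 := np_sum (toM D.length D.length D) d hd0
        rw [← Nat.insert_self_properDivisors hd0.ne', Finset.sum_insert (by simp)] at h1
        have h2 : ∑ e ∈ d.properDivisors, np e (toM D.length D.length D) =
            ∑ e : Fin d, if d % e = 0 then np e (toM D.length D.length D) else 0 := by
          rw [Fin.sum_univ_eq_sum_range
            (fun e => if d % e = 0 then np e (toM D.length D.length D) else 0),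
            ← Finset.sum_filter]
          refine Finset.sum_congr ?_ fun _ _ => rfl
          ext e
          simp [Nat.mem_properDivisors, Nat.dvd_iff_mod_eq_zero, and_comm]
        simp only [nxt, sm_eq, if_neg hd0.ne', trL_eq]
        push_cast
        rw [eq_sub_of_add_eq h1, h2, add_sub_assoc, ← Finset.sum_sub_distrib, sub_eq_add_neg,
          ← Finset.sum_neg_distrib]
        congr 1
        refine Finset.sum_congr rfl fun e _ => ?_
        split_ifs
        · rw [← ih.2 e e.2]; ring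
        · simp

theorem npP_eq (D : LL) (k : ℕ) :
    ((npP D k).1 : ℤ) - (npP D k).2 = np k (toM D.length D.length D) :=
  (npL_spec D (k + 1)).2 k (Nat.lt_succ_self k)

end Pool.Agent.MP_993212_an.H16.P1A
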