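import Pool.Agent.MP_993212_an.H16.Spec
import Pool.Agent.MP_993212_an.H46.Spec

/-! The realised automorphisms of a primitive matrix have bounded index. -/

namespace Pool.Agent.MP_993212_an.H16

open Matrix Finset Function H46

namespace P2Aux

section Chains

variable {U V W : Type} [Fintype U] [DecidableEq U] [Fintype V] [DecidableEq V] [Fintype W]
  [DecidableEq W]

theorem chV_trans {oU : U → ℕ} {oV : V → ℕ} {oW : W → ℕ} {A : Matrix U U ℤ} {B : Matrix V V ℤ}
    {C : Matrix W W ℤ} {T : Matrix U V ℤ} {T' : Matrix V W ℤ} {v v' : Val}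
    (h1 : ChV oU A oV B T v) (h2 : ChV oV B oW C T' v') : ChV oU A oW C (T * T') (v + v') := by
  induction h2 with
  | refl => simpa using h1
  | step oX R S hX _ ih =>
    rw [← Matrix.mul_assoc, ← add_assoc]
    exact ChV.step oX R S hX ih

theorem chV_zero {oV : V → ℕ} {oW : W → ℕ} {A : Matrix V V ℤ} {B : Matrix W W ℤ}
    {T : Matrix V W ℤ} {v : Val} (h : ChV oV A oW B T v) : v 0 = 0 := by
  induction h with
  | refl => rfl
  | step oX R S hX _ ih =>
    rw [Pi.add_apply, ih, zero_add]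
    simp [fv, f, fN, comb, gy]

theorem chV_of_ch (oV : V → ℕ) {A : Matrix V V ℤ} {B : Matrix W W ℤ} {T : Matrix V W ℤ}
    (h : Ch A B T) : ∀ oW : W → ℕ, Injective oW → ∃ v, ChV oV A oW B T v := by
  induction h with
  | refl =>
    intro oW hW
    have h := ChV.step (oV := oV) (A := A) (oW := oV) oW (1 : Matrix V V ℤ) A (T := 1) (v := 0) hW
      (by rw [Matrix.one_mul]; exact ChV.refl)
    rw [Matrix.mul_one, Matrix.mul_one] at h
    exact ⟨_, h⟩
  | @step W X _ _ _ _ R S T _ ih =>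
    intro oX hX
    obtain ⟨v, hv⟩ := ih (fun w => (Fintype.equivFin W w : ℕ))
      (Fin.val_injective.comp (Fintype.equivFin W).injective)
    exact ⟨_, ChV.step oX R S hX hv⟩

end Chains

variable {V : Type} [Fintype V] [DecidableEq V]

/-- `v` is the value of a chain over the integers that represents `x` -/
def HasVal (o : V → ℕ) (D : Matrix V V ℕ) (x : Matrix V V ℤ) (v : Val) : Prop :=
  ∃ (T : Matrix V V ℤ) (a b : ℕ), ChV o (zz D) o (zz D) T v ∧ zz D ^ a * x = zz D ^ b * T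

theorem hasVal_ex (hF : FullStmt) {o : V → ℕ} (ho : Injective o) {D : Matrix V V ℕ}
    {x x' : Matrix V V ℤ} {k : ℕ} (h : ZSE D D x x' k) : ∃ v, HasVal o D x v := by
  obtain ⟨T, hT, a, b, e⟩ := hF V V (zz D) (zz D) x x' k h.1 h.2.1 h.2.2.1 h.2.2.2
  obtain ⟨v, hv⟩ := chV_of_ch o hT o ho
  exact ⟨v, T, a, b, hv, e⟩

theorem HasVal.mul {o : V → ℕ} {D : Matrix V V ℕ} {x y : Matrix V V ℤ} {v w : Val}
    (hx : HasVal o D x v) (hy : HasVal o D y w) (hc : Commute (zz D) x) :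
    HasVal o D (x * y) (v + w) := by
  obtain ⟨T, a, b, hT, e⟩ := hx
  obtain ⟨T', c, d, hT', e'⟩ := hy
  refine ⟨T * T', a + c, d + b, chV_trans hT hT', ?_⟩
  calc zz D ^ (a + c) * (x * y) = zz D ^ a * x * (zz D ^ c * y) := by
        rw [pow_add, mul_assoc, ← mul_assoc (zz D ^ c), (hc.pow_left c).eq]
        simp only [mul_assoc]
    _ = zz D ^ d * (zz D ^ a * x) * T' := by
        rw [e', ← mul_assoc, mul_assoc (zz D ^ a), ← (hc.pow_left d).eq, ← mul_assoc, ← pow_add,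
          add_comm, pow_add, mul_assoc (zz D ^ d)]
    _ = zz D ^ (d + b) * (T * T') := by
        rw [e, pow_add]
        simp only [mul_assoc]

theorem zse_symm {D : Matrix V V ℕ} {x x' : Matrix V V ℤ} {k : ℕ} (h : ZSE D D x x' k) :
    ZSE D D x' x k := ⟨h.2.1.symm, h.1.symm, h.2.2.2, h.2.2.1⟩

theorem zse_mul {D : Matrix V V ℕ} {x x' y y' : Matrix V V ℤ} {k j : ℕ} (h : ZSE D D x x' k)
    (h' : ZSE D D y y' j) : x * y * (y' * x') = zz D ^ (j + k) := by
  have hc : Commute (zz D) x := h.1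
  rw [mul_assoc, ← mul_assoc y, h'.2.2.1, ← mul_assoc, ← (hc.pow_left j).eq, mul_assoc, h.2.2.1,
    pow_add]

/-- entrywise nonnegative -/
def NN (x : Matrix V V ℤ) : Prop := ∀ v w, 0 ≤ x v w

omit [DecidableEq V] in
theorem NN.mul {x y : Matrix V V ℤ} (hx : NN x) (hy : NN y) : NN (x * y) := fun v w => by
  rw [Matrix.mul_apply]
  exact sum_nonneg fun u _ => mul_nonneg (hx v u) (hy u w)

theorem nn_pow (D : Matrix V V ℕ) (i : ℕ) : NN (zz D ^ i) := fun v w => by
  rw [← zz_pow, zz_apply]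
  exact Nat.cast_nonneg _

omit [Fintype V] [DecidableEq V] in
theorem NN.lift {x : Matrix V V ℤ} (hx : NN x) : ∃ R : Matrix V V ℕ, zz R = x :=
  ⟨x.map Int.toNat, by
    ext v w
    exact Int.toNat_of_nonneg (hx v w)⟩

/-- eventually nonnegative -/
def Ps (D : Matrix V V ℕ) (x : Matrix V V ℤ) : Prop := ∃ i : ℕ, NN (zz D ^ i * x)

theorem Ps.mul {D : Matrix V V ℕ} {x y : Matrix V V ℤ} (hx : Ps D x) (hy : Ps D y)
    (hc : Commute (zz D) x) : Ps D (x * y) := by
  obtain ⟨i, hi⟩ := hx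
  obtain ⟨j, hj⟩ := hy
  refine ⟨i + j, ?_⟩
  have := hi.mul hj
  rwa [mul_assoc, ← mul_assoc x, ← (hc.pow_left j).eq, mul_assoc, ← mul_assoc, ← pow_add] at this

theorem pow_ne [Nonempty V] {D : Matrix V V ℕ} (hD : Prim D) (m : ℕ) : zz D ^ m ≠ 0 := by
  obtain ⟨p, hp, h⟩ := hD
  have h1 : ∀ t u v, 0 < ((D ^ p) ^ (t + 1)) u v := by
    intro t
    induction t with
    | zero => simpa using h
    | succ t ih =>
      intro u v
      rw [pow_succ, Matrix.mul_apply]
      exact sum_pos (fun w _ => Nat.mul_pos (ih u w) (h w v)) univ_nonempty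
  intro h0
  obtain ⟨c, hc⟩ : ∃ c, p * (m + 1) = m + c := ⟨p * (m + 1) - m, by
    have : m + 1 ≤ p * (m + 1) := Nat.le_mul_of_pos_left _ hp
    omega⟩
  obtain ⟨u⟩ := ‹Nonempty V›
  have h2 := h1 m u u
  have h3 : zz ((D ^ p) ^ (m + 1)) = 0 := by
    rw [← pow_mul, hc, zz_pow, pow_add, h0, zero_mul]
  have h4 : (((D ^ p) ^ (m + 1)) u u : ℤ) = 0 := congrFun (congrFun h3 u) u
  omega

theorem not_both [Nonempty V] {D : Matrix V V ℕ} (hD : Prim D) {x x' : Matrix V V ℤ} {k : ℕ}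
    (h : ZSE D D x x' k) (h1 : Ps D x) (h2 : Ps D (-x)) : False := by
  obtain ⟨i, hi⟩ := h1
  obtain ⟨j, hj⟩ := h2
  have e1 := (nn_pow D j).mul hi
  have e2 := (nn_pow D i).mul hj
  rw [← mul_assoc, ← pow_add, add_comm] at e1
  rw [← mul_assoc, ← pow_add, mul_neg] at e2
  have e3 : zz D ^ (i + j) * x = 0 := by
    ext v w
    exact le_antisymm (neg_nonneg.1 (e2 v w)) (e1 v w)
  apply pow_ne hD (i + j + k)
  rw [pow_add, ← h.2.2.1, ← mul_assoc, e3, zero_mul]

theorem sgn (hP : PFStmt) {D : Matrix V V ℕ} (hD : Prim D) {x x' : Matrix V V ℤ} {k : ℕ}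
    (h : ZSE D D x x' k) : Ps D x ∧ Ps D x' ∨ Ps D (-x) ∧ Ps D (-x') := by
  rcases hP.sign V V D D x x' k hD hD h with ⟨j, h1, h2⟩ | ⟨j, h1, h2⟩
  · exact Or.inl ⟨⟨j, h1⟩, ⟨j, h2⟩⟩
  · refine Or.inr ⟨⟨j, fun v w => ?_⟩, ⟨j, fun v w => ?_⟩⟩
    · rw [mul_neg]; exact neg_nonneg.2 (h1 v w)
    · rw [mul_neg]; exact neg_nonneg.2 (h2 v w)

theorem ps_mul [Nonempty V] (hP : PFStmt) {D : Matrix V V ℕ} (hD : Prim D)
    {x x' y y' : Matrix V V ℤ} {k j : ℕ} (h : ZSE D D x x' k) (h' : ZSE D D y y' j)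
    (e : Ps D x ↔ Ps D y) : Ps D (x * y') := by
  have hc : Commute (zz D) x := h.1
  rcases sgn hP hD h with ⟨h1, -⟩ | ⟨h1, -⟩ <;> rcases sgn hP hD h' with ⟨h3, h4⟩ | ⟨h3, h4⟩
  · exact h1.mul h4 hc
  · exact (not_both hD h' (e.1 h1) h3).elim
  · exact (not_both hD h (e.2 h3) h1).elim
  · have := h1.mul h4 hc.neg_right
    rwa [neg_mul_neg] at this

theorem real_of (hS : SufStmt) {o : V → ℕ} (ho : Injective o) {D : Matrix V V ℕ} (hD : Prim D)
    {x x' : Matrix V V ℤ} {k : ℕ} (h : ZSE D D x x' k) (h1 : Ps D x) (h2 : Ps D x') {v : Val}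
    (hv : HasVal o D x v) (ha : v ∈ Adm D) : Real D D x := by
  obtain ⟨i, hi⟩ := h1
  obtain ⟨j, hj⟩ := h2
  obtain ⟨T, a, b, hT, e⟩ := hv
  have hi' := (nn_pow D 1).mul hi
  rw [← mul_assoc, ← pow_add] at hi'
  obtain ⟨R, hR⟩ := hi'.lift
  obtain ⟨S, hS'⟩ := hj.lift
  have hc : Commute (zz D) x := h.1
  have hc' : Commute (zz D) x' := h.2.1.symm
  have hcR : Commute (zz D) (zz R) := hR ▸ ((Commute.refl _).pow_right _).mul_right hc
  have hcS : Commute (zz D) (zz S) := hS' ▸ ((Commute.refl _).pow_right _).mul_right hc'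
  have hr := hS V V o o D D R S (1 + i + j + k) T v a (1 + i + b) ho hD hD (by omega)
    (zz_inj (by rw [zz_mul, zz_mul]; exact hcR.eq))
    (zz_inj (by rw [zz_mul, zz_mul]; exact hcS.eq.symm))
    (zz_inj (by
      rw [zz_mul, zz_pow, hR, hS', mul_assoc, ← mul_assoc x, ← (hc.pow_left j).eq, mul_assoc,
        h.2.2.1, ← pow_add, ← pow_add, add_assoc (1 + i)]))
    (zz_inj (by
      rw [zz_mul, zz_pow, hR, hS', mul_assoc, ← mul_assoc x', ← (hc'.pow_left _).eq, mul_assoc,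
        h.2.2.2, ← pow_add, ← pow_add, ← add_assoc, add_comm j])) hT
    (by rw [hR, ← mul_assoc, ← pow_add, add_comm a, pow_add, mul_assoc, e, ← mul_assoc, ← pow_add])
    ha
  exact hr.of_eq (a := 1 + i) (b := 0) (by rw [pow_zero, one_mul, hR])

theorem zse_comp {D : Matrix V V ℕ} {x x' y y' : Matrix V V ℤ} {k j : ℕ} (h : ZSE D D x x' k)
    (h' : ZSE D D y y' j) : ZSE D D (x * y') (y * x') (j + k) := by
  have c1 : Commute (zz D) x := h.1
  have c2 : Commute (zz D) y := h'.1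
  have c3 : Commute (zz D) x' := h.2.1.symm
  have c4 : Commute (zz D) y' := h'.2.1.symm
  refine ⟨(c1.mul_right c4).eq, (c2.mul_right c3).eq.symm, zse_mul h (zse_symm h'), ?_⟩
  rw [add_comm]
  exact zse_mul h' (zse_symm h)

theorem small {n : ℕ} (hn : 0 < n) {D : Matrix (Fin n) (Fin n) ℕ} (hD : Prim D)
    (hs : ¬ 2 ≤ ∑ u, ∑ v, D u v) {x x' : Matrix (Fin n) (Fin n) ℤ} {k : ℕ} (h : ZSE D D x x' k)
    (h1 : Ps D x) : Real D D x := by
  obtain ⟨p, hp, hpos⟩ := hD
  have hrow : ∀ u, 1 ≤ ∑ v, D u v := by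
    intro u
    by_contra h0
    have h0 : ∀ v, D u v = 0 := fun v =>
      sum_eq_zero_iff.1 (show ∑ v, D u v = 0 by omega) v (mem_univ v)
    obtain ⟨q, rfl⟩ := Nat.exists_eq_add_of_le' hp
    have := hpos u u
    rw [pow_succ', Matrix.mul_apply] at this
    simp [h0] at this
  have hle : n ≤ ∑ u, ∑ v, D u v := by
    simpa using sum_le_sum (s := (univ : Finset (Fin n))) fun u _ => hrow u
  obtain rfl : n = 1 := by omega
  have hD1 : D = 1 := by
    ext u v
    have := hrow 0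
    simp only [univ_unique, Fin.default_eq_zero, sum_singleton] at this hs
    rw [Subsingleton.elim u 0, Subsingleton.elim v 0, Matrix.one_apply_eq]
    omega
  subst hD1
  obtain ⟨i, hi⟩ := h1
  have e := congrFun (congrFun h.2.2.1 0) 0
  rw [zz_one, one_pow, one_mul] at hi
  rw [zz_one, one_pow, Matrix.mul_apply, Matrix.one_apply_eq] at e
  simp only [univ_unique, Fin.default_eq_zero, sum_singleton] at e
  have hx : x = 1 := by
    ext u v
    rw [Subsingleton.elim u 0, Subsingleton.elim v 0, Matrix.one_apply_eq]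
    exact Int.eq_one_of_mul_eq_one_right (hi 0 0) e
  rw [hx]
  exact Real.refl _

theorem pb_big : PB big :=
  (PB.const 100).mul ((PB.const 3).pow ((PB.id.mul PB.id).add (PB.const 1)))

theorem card_code (N : ℕ) :
    Fintype.card (Bool × ∀ k : Fin N, ZMod (k + 1)) = 2 * N.factorial := by
  rw [Fintype.card_prod, Fintype.card_bool, Fintype.card_pi]
  simp only [ZMod.card]
  rw [Fin.prod_univ_eq_prod_range (fun k => k + 1) N, prod_range_add_one_eq_factorial]

end P2Aux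

open P2Aux in
theorem p2_of (hN : NecStmt) (hS : SufStmt) (hF : FullStmt) (hP : PFStmt) : H46.P2 := by
  classical
  have hg : PB fun m => 2 * (big m).factorial := (PB.const 2).mul pb_big.fact
  refine ⟨_, hg.1, hg.2, fun n D hn hD => ?_⟩
  have : Nonempty (Fin n) := ⟨⟨0, hn⟩⟩
  have ho : Injective (Fin.val : Fin n → ℕ) := Fin.val_injective
  let val : Matrix (Fin n) (Fin n) ℤ → Val := fun x =>
    if h : ∃ v, HasVal Fin.val D x v then h.choose else 0
  have hval : ∀ {x x' k}, ZSE D D x x' k → HasVal Fin.val D x (val x) := fun h => by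
    have h1 := hasVal_ex hF ho h
    simp only [val, dif_pos h1]
    exact h1.choose_spec
  let code : Matrix (Fin n) (Fin n) ℤ → Bool × ∀ k : Fin (big n), ZMod (k + 1) := fun x =>
    (decide (Ps D x), fun k => val x (k + 1))
  refine ⟨fun x => Fintype.equivFin _ (code x), fun x => ?_, fun x x' k y y' j hx hy e => ?_⟩
  · refine (Fintype.equivFin _ (code x)).2.trans_le ?_
    rw [card_code]
    exact hg.2 (Nat.le_add_right n _)
  have e : code x = code y := (Fintype.equivFin _).injective (Fin.ext e)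
  have e1 : Ps D x ↔ Ps D y := decide_eq_decide.1 (congrArg Prod.fst e)
  have e2 : ∀ k : Fin (big n), val x (k + 1) = val y (k + 1) := congrFun (congrArg Prod.snd e)
  have hz := zse_comp hx hy
  have p1 := ps_mul hP hD hx hy e1
  by_cases hs : 2 ≤ ∑ u, ∑ v, D u v
  swap
  · exact small hn hD hs hz p1
  have p2 := ps_mul hP hD hy hx e1.symm
  obtain ⟨w, hw⟩ := hasVal_ex hF ho (zse_symm hy)
  have a1 : val y + w ∈ Adm D := by
    obtain ⟨T, a, b, hT, e⟩ := (hval hy).mul hw hy.1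
    refine hN _ _ _ _ D D (y * y') T _ a b ho hT e ?_
    rw [hy.2.2.1, ← zz_pow]
    exact (Ch.pow D j).real
  have a2 : val x - val y ∈ Adm D := by
    refine ⟨val x - val y, 0, fun i hi => ?_, fun _ _ => rfl, fun i => by simp [comb]⟩
    rw [Pi.sub_apply, sub_eq_zero]
    rcases i with _ | i
    · obtain ⟨_, _, _, h1, -⟩ := hval hx
      obtain ⟨_, _, _, h2, -⟩ := hval hy
      rw [chV_zero h1, chV_zero h2]
    · refine e2 ⟨i, ?_⟩
      by_contra hlt
      have := hP.abund _ D hD hs (i + 1) (by rw [Fintype.card_fin]; omega)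
      omega
  refine real_of hS ho hD hz p1 p2 ((hval hx).mul hw hx.1) ?_
  have := (Adm D).add_mem a2 a1
  rwa [← add_assoc, sub_add_cancel] at this

end Pool.Agent.MP_993212_an.H16
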