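import Pool.Agent.MP_993212_an.H16.Spec3
import Pool.Agent.MP_993212_an.H16.Nec

/-! The potential of a loop system and the value of the shift on one orbit. -/

set_option linter.unusedSectionVars false

namespace Pool.Agent.MP_993212_an.H16

open Matrix Finset Function

theorem pot_neg_val {k : ℕ} [NeZero k] {m : ℕ} (hm : m < k) :
    (-((m : ZMod k) + 1)).val = k - 1 - m := by
  have e : -((m : ZMod k) + 1) = ((k - 1 - m : ℕ) : ZMod k) := by
    rw [neg_eq_iff_add_eq_zero, ← Nat.cast_succ, ← Nat.cast_add,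
      show m.succ + (k - 1 - m) = k by omega, ZMod.natCast_self]
  rw [e, ZMod.val_natCast_of_lt (by omega)]

theorem pot_ex {k : ℕ} [NeZero k] (i : ZMod k) : ∃ m : ℕ, m < k ∧ i = (m : ZMod k) + 1 :=
  ⟨(i - 1).val, ZMod.val_lt _, by rw [ZMod.natCast_zmod_val, sub_add_cancel]⟩

section Pot

variable {V : Type} [Fintype V] [DecidableEq V] {k : ℕ} [NeZero k] {L : ℕ}

/-- the loop of length `k` at `v` -/
def potLoop (hL : k ≤ L) (v : V) : ZMod k → V × Fin L :=
  fun i => (v, ⟨(-i).val, (ZMod.val_lt _).trans_le hL⟩)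

theorem pot_shape (hL : k ≤ L) {c : ℕ → Matrix V V ℤ} (hc : ∀ d u v, d < k → c d u v = 0)
    {z : ZMod k → V × Fin L} (h0 : ((z 0).2 : ℕ) = 0)
    (h2 : ∏ i, linc L c (z i) (z (i + 1)) ≠ 0) : z = potLoop hL (z 0).1 := by
  have h3 := fun i => prod_ne_zero_iff.1 h2 i (mem_univ _)
  have h4 : k ≤ (z (0 + 1)).2 + 1 := by
    have := h3 0
    simp only [linc, of_apply, h0, if_true] at this
    exact not_lt.1 fun h => this (hc _ _ _ h)
  have h5 : ∀ m : ℕ, m < k → (z ((m : ZMod k) + 1)).1 = (z (0 + 1)).1 ∧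
      ((z ((m : ZMod k) + 1)).2 : ℕ) + m = (z (0 + 1)).2 := by
    intro m
    induction m with
    | zero => intro _; simp
    | succ m ih =>
      intro hm
      obtain ⟨a, b⟩ := ih (by omega)
      have := h3 ((m : ZMod k) + 1)
      simp only [linc, of_apply] at this
      rw [if_neg (by omega)] at this
      split_ifs at this with h6
      · rw [Nat.cast_succ, ← h6.1, a]
        exact ⟨rfl, by omega⟩
      · exact absurd rfl this
  have hk := NeZero.pos k
  have h6 := h5 (k - 1) (by omega)
  rw [← Nat.cast_succ, show (k - 1).succ = k by omega, ZMod.natCast_self] at h6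
  funext i
  obtain ⟨m, hm, rfl⟩ := pot_ex i
  obtain ⟨a, b⟩ := h5 m hm
  refine Prod.ext (a.trans h6.1.symm) (Fin.ext ?_)
  simp only [potLoop]
  rw [pot_neg_val hm]
  omega

theorem pot_prod (hL : k ≤ L) (c : ℕ → Matrix V V ℤ) (v : V) :
    ∏ i, linc L c (potLoop hL v i) (potLoop hL v (i + 1)) = c k v v := by
  have hk := NeZero.pos k
  rw [prod_eq_single 0]
  · have := pot_neg_val (k := k) (m := 0) hk
    rw [Nat.cast_zero] at this
    simp only [linc, of_apply, potLoop, neg_zero, ZMod.val_zero, if_true, this]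
    rw [show k - 1 - 0 + 1 = k by omega]
  · intro i _ hi
    obtain ⟨m, hm, rfl⟩ := pot_ex i
    have h1 : m + 1 < k := by
      refine lt_of_le_of_ne hm fun e => hi ?_
      rw [← Nat.cast_succ, show m.succ = k from e, ZMod.natCast_self]
    have h2 := pot_neg_val (k := k) h1
    rw [Nat.cast_succ] at h2
    simp only [linc, of_apply, potLoop, pot_neg_val hm, h2]
    rw [if_neg (by omega), if_pos ⟨trivial, by omega⟩]
  · intro h
    exact absurd (mem_univ _) h

end Pot

theorem potStmt : PotStmt := by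
  intro V _ _ k _ L o h c hkL hc _
  have inj : Injective (potLoop (V := V) hkL) := fun u v e => congrArg Prod.fst (congrFun e 0)
  rw [pot, ← sum_subset (subset_univ (univ.image (potLoop (V := V) hkL))),
    sum_image fun u _ v _ e => inj e]
  · refine sum_congr rfl fun v _ => ?_
    rw [if_pos, pot_prod]
    · simp [hL, potLoop]
    · intro i
      simp [rkL, potLoop]
  · intro z _ hz
    split_ifs with h1
    · by_cases h2 : ∏ i, linc L c (z i) (z (i + 1)) = 0
      · rw [h2, Int.cast_zero, zero_mul]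
      · exact absurd (mem_image.2 ⟨_, mem_univ _,
          (pot_shape hkL hc (pot_linc_zero k L o h c z h1 h2) h2).symm⟩) hz
    · rfl

section Rot

variable {V : Type} [Fintype V] [DecidableEq V]

theorem rot_inc_pow (s : V → V) (e : ℕ) : (inc s : Matrix V V ℕ) ^ e = inc s^[e] := by
  induction e with
  | zero =>
    ext u v
    simp [inc, one_apply, eq_comm]
  | succ e ih =>
    rw [pow_succ, ih, iterate_succ']
    ext u v
    simp only [inc, mul_apply, of_apply, ite_mul, one_mul, zero_mul, sum_ite_eq', mem_univ, if_true,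
      Function.comp_apply]

variable {p L : ℕ}

/-- the successor map of the linear model of one loop -/
def rotS (h1 : 1 ≤ p) (h2 : p ≤ L) (q : Unit × Fin L) : Unit × Fin L :=
  ((), if (q.2 : ℕ) = 0 then ⟨p - 1, by omega⟩ else ⟨q.2 - 1, by omega⟩)

theorem rotS_val (h1 : 1 ≤ p) (h2 : p ≤ L) (q : Unit × Fin L) :
    ((rotS h1 h2 q).2 : ℕ) = if (q.2 : ℕ) = 0 then p - 1 else q.2 - 1 := by
  unfold rotS
  split_ifs <;> rfl

theorem rot_linc (h1 : 1 ≤ p) (h2 : p ≤ L) :
    (linc L fun d => if d = p then 1 else 0) = zz (inc (rotS h1 h2)) := by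
  ext a b
  have e : b = rotS h1 h2 a ↔ (b.2 : ℕ) = (rotS h1 h2 a).2 :=
    ⟨fun h => by rw [h], fun h => Prod.ext rfl (Fin.ext h)⟩
  simp only [linc, of_apply, zz_apply, inc, e, rotS_val, true_and]
  split_ifs <;> first | rfl | omega

theorem rot_iter (h1 : 1 ≤ p) (h2 : p ≤ L) (q : Unit × Fin L) (e : ℕ) :
    (((rotS h1 h2)^[e] q).2 : ℕ) + e ≡ q.2 [MOD p] ∧
      ((q.2 : ℕ) < p → (((rotS h1 h2)^[e] q).2 : ℕ) < p) ∧
      (p ≤ q.2 → 1 ≤ e → (((rotS h1 h2)^[e] q).2 : ℕ) < q.2) := by
  induction e with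
  | zero => exact ⟨Nat.ModEq.refl _, id, fun _ h => absurd h (by omega)⟩
  | succ e ih =>
    obtain ⟨a, b, c⟩ := ih
    rw [iterate_succ_apply', rotS_val]
    refine ⟨?_, fun h => ?_, fun h _ => ?_⟩
    · split_ifs with h
      · rw [h, zero_add] at a
        rw [show p - 1 + (e + 1) = p + e by omega]
        exact (Nat.add_modEq_left).trans a
      · rwa [show ∀ x : ℕ, x ≠ 0 → x - 1 + (e + 1) = x + e from fun x hx => by omega]
        exact h
    · have := b h
      split_ifs <;> omega
    · rcases Nat.eq_zero_or_pos e with rfl | he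
      · simp only [iterate_zero, id]
        split_ifs <;> omega
      · have := c h he
        split_ifs <;> omega

theorem rot_trace (h1 : 1 ≤ p) (h2 : p ≤ L) {e : ℕ} (he : 1 ≤ e) :
    trace ((inc (rotS h1 h2) : Matrix _ _ ℕ) ^ e) = if p ∣ e then p else 0 := by
  have key : ∀ q : Unit × Fin L, q = (rotS h1 h2)^[e] q ↔ p ∣ e ∧ (q.2 : ℕ) < p := by
    intro q
    obtain ⟨a, b, c⟩ := rot_iter h1 h2 q e
    constructor
    · intro h
      rw [← h] at a c
      refine ⟨(Nat.modEq_zero_iff_dvd).1 (Nat.ModEq.add_left_cancel' (q.2 : ℕ) a), ?_⟩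
      exact not_le.1 fun h' => lt_irrefl _ (c h' he)
    · rintro ⟨h, h'⟩
      refine Prod.ext rfl (Fin.ext (Nat.ModEq.eq_of_lt_of_lt ?_ h' (b h')))
      exact a.symm.trans ((Nat.ModEq.refl _).add ((Nat.modEq_zero_iff_dvd).2 h))
  rw [rot_inc_pow, trace]
  simp only [Matrix.diag_apply, inc, of_apply, key]
  split_ifs with h
  · simp only [h, true_and]
    rw [Fintype.sum_prod_type, Fintype.sum_unique, ← card_filter, Fin.card_filter_val_lt,
      min_eq_right h2]
  · simp [h]

theorem rot_np (h1 : 1 ≤ p) (h2 : p ≤ L) (d : ℕ) :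
    np d (inc (rotS h1 h2)) = if d = p then (p : ℤ) else 0 := by
  rcases Nat.eq_zero_or_pos d with rfl | hd
  · rw [if_neg (by omega)]
    simp [np]
  have h := (ArithmeticFunction.sum_eq_iff_sum_mul_moebius_eq
    (f := fun d => if d = p then (p : ℤ) else 0)
    (g := fun d => ((trace ((inc (rotS h1 h2) : Matrix _ _ ℕ) ^ d) : ℕ) : ℤ))).1
    (fun n hn => by
      rw [rot_trace h1 h2 hn, sum_ite_eq']
      simp [hn.ne']) d hd
  simp only [Int.cast_id] at h
  rw [Nat.sum_divisorsAntidiagonal' (f := fun a b => (ArithmeticFunction.moebius a : ℤ) *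
    ((trace ((inc (rotS h1 h2) : Matrix _ _ ℕ) ^ b) : ℕ) : ℤ))] at h
  exact h

end Rot

theorem rotStmt : RotStmt := by
  intro p L k o h1 h2
  have ho : Injective (rkL o L) := rkL_inj (fun _ _ _ => rfl) L
  split_ifs with hk
  · subst hk
    have : NeZero k := ⟨by omega⟩
    have hc : ∀ d (u v : Unit), d < k →
        (fun d => if d = k then 1 else 0 : ℕ → Matrix Unit Unit ℤ) d u v = 0 := by
      intro d u v hd
      simp [hd.ne]
    rw [base.f_lev k ho ho (hL 0 L) (hL 1 L), Matrix.mul_one, Matrix.one_mul,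
      potStmt _ k L o _ _ h2 hc fun u v e => absurd rfl e,
      potStmt _ k L o _ _ h2 hc fun u v e => absurd rfl e]
    · simp
    · intro v w e
      have := linc_graded (k := k) (h := (0 : Unit → ZMod k)) (fun d u v e => ?_) v w e
      · simp only [hL, Pi.zero_apply, Pi.one_apply] at this ⊢
        linear_combination this
      · by_cases hd : d = k
        · simp [hd]
        · simp [hd] at e
    · intro w v e
      obtain rfl : w = v := by_contra fun c => e (one_apply_ne c)
      simp [hL]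
  · obtain ⟨g, x, a, b, c⟩ := base.fv_adm ho ho (inc (rotS h1 h2)) 1
    rw [Matrix.mul_one] at a b
    have hx : x = 0 := funext fun d => b d (by
      rw [rot_np]
      split_ifs <;> omega)
    have := c k
    rw [a k (by rw [rot_np, if_neg hk]), hx, comb_zero, zz_one, ← rot_linc] at this
    exact this

end Pool.Agent.MP_993212_an.H16
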