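import Pool.Agent.MP_993212_an.H16.CV

/-! The potential of a polynomial presentation; row moves and constant conjugations. -/

set_option linter.unusedSectionVars false

namespace Pool.Agent.MP_993212_an.H16

open Matrix Polynomial Finset Function

variable {U V W : Type} [Fintype U] [DecidableEq U] [Fintype V] [DecidableEq V] [Fintype W]
  [DecidableEq W] {G G' : Type} [AddCommGroup G] [Module ℤ[X] G] [AddCommGroup G'] [Module ℤ[X] G']

/-- constant term one -/
def One (P : Matrix V V ℤ[X]) : Prop := ∀ u v, (P u v).coeff 0 = if u = v then 1 else 0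

/-- degree bound -/
def Dg {m n : Type} (L : ℕ) (P : Matrix m n ℤ[X]) : Prop := ∀ u v, (P u v).natDegree ≤ L

theorem Dg.mono {m n : Type} {L L' : ℕ} {P : Matrix m n ℤ[X]} (h : Dg L P) (e : L ≤ L') : Dg L' P :=
  fun u v => (h u v).trans e

noncomputable def dgr (P : Matrix V W ℤ[X]) : ℕ := univ.sup fun q : V × W => (P q.1 q.2).natDegree

theorem dg_dgr (P : Matrix V W ℤ[X]) : Dg (dgr P) P := fun u v =>
  le_sup (f := fun q : V × W => (P q.1 q.2).natDegree) (mem_univ (u, v))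

theorem One.sub {P : Matrix V V ℤ[X]} (h : One P) (u v : V) : ((1 - P) u v).coeff 0 = 0 := by
  rw [Matrix.sub_apply, coeff_sub, h, one_apply]
  split_ifs <;> simp

theorem one_of_sub {M : Matrix V V ℤ[X]} (h : ∀ u v, (M u v).coeff 0 = 0) : One (1 - M) := by
  intro u v
  rw [Matrix.sub_apply, coeff_sub, h, one_apply]
  split_ifs <;> simp

theorem Dg.one_sub {L : ℕ} {P : Matrix V V ℤ[X]} (h : Dg L P) : Dg L (1 - P) := fun u v => by
  rw [Matrix.sub_apply, one_apply]
  refine (natDegree_sub_le _ _).trans (max_le ?_ (h u v))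
  split_ifs <;> simp

/-- the potential of the linear model with `L + 1` levels -/
noncomputable def ppL (p : PT G) (L : ℕ) (o : V → ℕ) (P : Matrix V V ℤ[X]) (ξ : V → G) : Val :=
  p _ (rkL o (L + 1)) (lin (L + 1) (1 - P)) (lv (L + 1) ξ)

theorem Base.pres_lv (hB : Base) {L : ℕ} {P : Matrix V V ℤ[X]} {ξ : V → G} (h1 : One P)
    (h2 : Dg (L + 1) P) (h3 : Pres P ξ) : Pres (pen (lin (L + 1) (1 - P))) (lv (L + 1) ξ) :=
  hB.tr.pres_lin V G (L + 1) (1 - P) ξ (by omega) h1.sub h2.one_sub (by rwa [sub_sub_cancel])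

theorem le_rkL' {o : V → ℕ} {b L : ℕ} (h : ∀ v, b ≤ o v) (p : V × Fin L) : b ≤ rkL o L p :=
  le_rkL (by simpa using h) p

theorem IsPot.src' (hB : Base) {b : ℕ} {p : PT G} (hp : IsPot b p) {oV : V → ℕ}
    (h1 : Injective oV) (b1 : ∀ v, b ≤ oV v) (n : ℕ) :
    ∀ (W : Type) [Fintype W] [DecidableEq W] (e : V → W) (oW : W → ℕ) (B : Matrix W W ℤ)
      (ht : W → ℕ) (κ : W → G), Fintype.card W = n → Injective e → Injective oW → (∀ w, b ≤ oW w) →
      (∀ u v, oV u ≤ oV v ↔ oW (e u) ≤ oW (e v)) →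
      (∀ w w', (∀ v, e v ≠ w') → B w w' ≠ 0 → (∀ v, e v ≠ w) ∧ ht w' < ht w) → Pres (pen B) κ →
      p W oW B κ = p V oV (B.submatrix e e) (κ ∘ e) := by
  induction n using Nat.strong_induction_on with
  | _ n ih =>
    intro W _ _ e oW B ht κ hn he h2 b2 ho hz hκ
    by_cases h : (univ.filter fun w => ∀ v, e v ≠ w).Nonempty
    · obtain ⟨w0, hw0, hm⟩ := exists_max_image _ ht h
      simp only [mem_filter, mem_univ, true_and] at hw0 hm
      have s1 := hp.src hB (Subtype.val : {w // w ≠ w0} → W) Subtype.val_injective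
        (oV := oW ∘ Subtype.val) (h2.comp Subtype.val_injective) h2 (fun _ => b2 _) b2
        (fun _ _ => Iff.rfl) B (fun w w' hw => by
          obtain rfl : w' = w0 := by_contra fun c => hw ⟨w', c⟩ rfl
          by_contra c
          have := hz w w' hw0 c
          exact absurd (hm w this.1) (not_le.2 this.2)) hκ
      rw [s1.1]
      exact ih _ (by
        rw [← hn]
        exact Fintype.card_subtype_lt (x := w0) (by simp)) {w // w ≠ w0}
        (fun v => ⟨e v, hw0 v⟩) _ _ (ht ∘ Subtype.val) _ rfl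
        (fun u v c => he (congrArg Subtype.val c)) (h2.comp Subtype.val_injective) (fun _ => b2 _)
        ho (fun w w' hw c => by
          have := hz w w' (fun v c => hw v (Subtype.ext c)) c
          exact ⟨fun v c => this.1 v (congrArg Subtype.val c), this.2⟩) s1.2
    · exact (hp.src hB e he h1 h2 b1 b2 ho B
        (fun w w' hw => absurd ⟨w', mem_filter.2 ⟨mem_univ _, hw⟩⟩ h) hκ).1

theorem ppL_src (hB : Base) {b : ℕ} {p : PT G} (hp : IsPot b p) (e : V → W) (he : Injective e)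
    {oV : V → ℕ} {oW : W → ℕ} (h1 : Injective oV) (h2 : Injective oW) (b1 : ∀ v, b ≤ oV v)
    (b2 : ∀ w, b ≤ oW w) (ho : ∀ u v, oV u ≤ oV v ↔ oW (e u) ≤ oW (e v)) {L L' : ℕ} (hL : L ≤ L')
    {Q : Matrix W W ℤ[X]} (q1 : One Q) (q2 : Dg (L + 1) Q)
    (hz : ∀ w w', (∀ v, e v ≠ w') → Q w w' = (1 : Matrix W W ℤ[X]) w w') {κ : W → G}
    (hκ : Pres Q κ) : ppL p L' oW Q κ = ppL p L oV (Q.submatrix e e) (κ ∘ e) := by
  let E : V × Fin (L + 1) → W × Fin (L' + 1) := fun q => (e q.1, Fin.castLE (by omega) q.2)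
  have hE : Injective E := fun q q' h => by
    simp only [E, Prod.mk.injEq] at h
    exact Prod.ext (he h.1) (Fin.castLE_injective _ h.2)
  have := hp.src' hB (rkL_inj h1 _) (le_rkL' b1) _ _ E (rkL oW (L' + 1)) (lin (L' + 1) (1 - Q))
    (fun q => q.2) _ rfl hE (rkL_inj h2 _) (le_rkL' b2) ?_ ?_
    (hB.pres_lv q1 (q2.mono (by omega)) hκ)
  · rw [ppL, this, ppL]
    congr 1
    ext q q'
    simp only [lin, E, he.eq_iff, one_apply, submatrix_apply, of_apply, Fin.val_castLE,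
      Matrix.sub_apply]
  · intro u v
    rw [rkL_le, rkL_le]
    have a1 := ho u.1 v.1
    have a2 := ho v.1 u.1
    simp only [E, Fin.val_castLE]
    omega
  · rintro ⟨w, i⟩ ⟨w', j⟩ hw c
    have hw' : (∀ v, e v ≠ w') ∨ L < j := by
      by_contra d
      simp only [not_or, not_forall, not_not, not_lt] at d
      obtain ⟨⟨v, rfl⟩, d⟩ := d
      exact hw (v, ⟨j, by omega⟩) rfl
    simp only [lin, of_apply] at c
    split_ifs at c with c1 c2
    · refine absurd ?_ c
      rcases hw' with d | d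
      · rw [Matrix.sub_apply, hz w w' d, sub_self, coeff_zero]
      · exact coeff_eq_zero_of_natDegree_lt ((q2.one_sub w w').trans_lt (by omega))
    · refine ⟨fun v d => ?_, by simp only; omega⟩
      simp only [E, Prod.mk.injEq, Fin.ext_iff, Fin.val_castLE] at d
      rcases hw' with d' | d'
      · exact d' v.1 (d.1.trans c2.1)
      · have := v.2.2
        omega
    · exact absurd rfl c

/-- the potential of a polynomial presentation with constant term one -/
noncomputable def pp (p : PT G) (o : V → ℕ) (P : Matrix V V ℤ[X]) (ξ : V → G) : Val :=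
  ppL p (dgr P) o P ξ

theorem pp_eq (hB : Base) {b : ℕ} {p : PT G} (hp : IsPot b p) {o : V → ℕ} (h1 : Injective o)
    (b1 : ∀ v, b ≤ o v) {P : Matrix V V ℤ[X]} (q1 : One P) {L : ℕ} (q2 : Dg (L + 1) P) {ξ : V → G}
    (hξ : Pres P ξ) : pp p o P ξ = ppL p L o P ξ := by
  have a1 := ppL_src hB hp id injective_id h1 h1 b1 b1 (fun _ _ => Iff.rfl)
    (le_max_left L (dgr P)) q1 q2 (fun w w' h => absurd rfl (h w')) hξ
  have a2 := ppL_src hB hp id injective_id h1 h1 b1 b1 (fun _ _ => Iff.rfl)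
    (le_max_right L (dgr P)) q1 ((dg_dgr P).mono (Nat.le_succ _))
    (fun w w' h => absurd rfl (h w')) hξ
  exact a2.symm.trans a1

theorem pp_src (hB : Base) {b : ℕ} {p : PT G} (hp : IsPot b p) (e : V → W) (he : Injective e)
    {oV : V → ℕ} {oW : W → ℕ} (h1 : Injective oV) (h2 : Injective oW) (b1 : ∀ v, b ≤ oV v)
    (b2 : ∀ w, b ≤ oW w) (ho : ∀ u v, oV u ≤ oV v ↔ oW (e u) ≤ oW (e v))
    {Q : Matrix W W ℤ[X]} (q1 : One Q)
    (hz : ∀ w w', (∀ v, e v ≠ w') → Q w w' = (1 : Matrix W W ℤ[X]) w w') {κ : W → G}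
    (hκ : Pres Q κ) (hκ' : Pres (Q.submatrix e e) (κ ∘ e)) :
    pp p oW Q κ = pp p oV (Q.submatrix e e) (κ ∘ e) := by
  have d := (dg_dgr Q).mono (Nat.le_succ _)
  rw [pp, ppL_src hB hp e he h1 h2 b1 b2 ho le_rfl q1 d hz hκ, pp_eq hB hp h1 b1 (P := Q.submatrix e e)
    (fun u v => by rw [submatrix_apply, q1]; simp [he.eq_iff]) (fun u v => d _ _) hκ']

/-- a row of polynomials as a vector on the states of a linear model -/
def vec (L : ℕ) (q : V → ℤ[X]) : V × Fin L → ℤ := fun x => (q x.1).coeff (x.2 + 1)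

theorem vec_mul_lin {L : ℕ} (r : V → ℤ[X]) (hr : ∀ v, (r v).natDegree ≤ L) (Y : Matrix V V ℤ[X]) :
    vec (L + 1) (fun v => X * r v) ᵥ* lin (L + 1) Y =
      vec (L + 1) fun v => r v + ∑ u, C ((r u).coeff 0) * Y u v := by
  funext x
  simp only [vecMul, dotProduct, vec, Fintype.sum_prod_type, Fin.sum_univ_succ, lin, of_apply,
    coeff_X_mul, Fin.val_zero, if_true, Fin.val_succ, Nat.succ_ne_zero, if_false, sum_add_distrib,
    coeff_add, finsetSum_coeff, coeff_C_mul, add_left_inj, mul_ite, mul_one, mul_zero, zero_add]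
  rw [add_comm]
  congr 1
  rw [sum_eq_single x.1 (fun u _ hu => by simp [hu]) (by simp)]
  by_cases h : (x.2 : ℕ) < L
  · rw [sum_eq_single ⟨x.2, h⟩ (fun j _ hj => if_neg fun c => hj (Fin.ext c.2)) (by simp)]
    simp
  · rw [sum_eq_zero fun (j : Fin L) _ => if_neg fun c : _ ∧ (j : ℕ) = x.2 => h (c.2 ▸ j.2),
      coeff_eq_zero_of_natDegree_lt ((hr _).trans_lt (by omega))]

theorem lin_adr (L : ℕ) (Y : Matrix V V ℤ[X]) (a : V) (q : V → ℤ[X]) :
    adr (lin (L + 1) Y) (a, 0) (vec (L + 1) q) =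
      lin (L + 1) (Y + of fun u v => if u = a then q v else 0) := by
  ext ⟨u, i⟩ ⟨v, j⟩
  simp only [adr, lin, of_apply, Prod.mk.injEq, Matrix.add_apply, coeff_add, vec, Fin.ext_iff,
    Fin.val_zero]
  by_cases h : (i : ℕ) = 0
  · by_cases h2 : u = a <;> simp [h, h2]
  · simp [h]

theorem dies_row {L m : ℕ} (Y : Matrix V V ℤ[X]) (hY : ∀ u v, (Y u v).coeff 0 = 0)
    (hd : Dg (L + 1 - m) Y) (hm : 1 ≤ m) (hm2 : m ≤ L + 1) {a b : V} (hab : a ≠ b) (α : ℤ) :
    Dies m (lin (L + 1) Y) (a, 0) (vec (L + 1) (fun v => C α * X ^ m * (1 : Matrix V V ℤ[X]) b v) -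
      vec (L + 1) fun v => C α * X ^ m * Y b v) := by
  let z : ℕ → V × Fin (L + 1) → ℤ := fun n => vec (L + 1) fun v => X ^ n * (C α * (1 - Y) b v)
  have z0 : vec (L + 1) (fun v => C α * X ^ m * (1 : Matrix V V ℤ[X]) b v) -
      vec (L + 1) (fun v => C α * X ^ m * Y b v) = z m := by
    funext x
    simp only [z, vec, Pi.sub_apply, Matrix.sub_apply, ← coeff_sub]
    congr 1
    ring
  have deg : ∀ n, n + 1 ≤ m → ∀ v, (X ^ n * (C α * (1 - Y) b v)).natDegree ≤ L := fun n hn v => by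
    have := hd.one_sub b v
    have h2 := natDegree_C_mul_le α ((1 - Y) b v)
    have h3 := natDegree_mul_le (p := (X : ℤ[X]) ^ n) (q := C α * (1 - Y) b v)
    rw [natDegree_X_pow] at h3
    omega
  have st : ∀ n, n + 2 ≤ m → z (n + 2) ᵥ* lin (L + 1) Y = z (n + 1) := fun n hn => by
    have := vec_mul_lin _ (deg (n + 1) hn) Y
    simp only [← mul_assoc, ← pow_succ'] at this
    simp only [z, ← mul_assoc]
    rw [this]
    simp [pow_succ', mul_assoc]
  have st1 : z 1 ᵥ* lin (L + 1) Y = 0 := by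
    have := vec_mul_lin _ (deg 0 hm) Y
    simp only [pow_zero, one_mul] at this
    simp only [z, pow_one]
    rw [this]
    funext x
    have h0 := one_of_sub hY
    simp only [coeff_C_mul, h0 b, mul_ite, mul_one, mul_zero, apply_ite C, map_zero, ite_mul,
      zero_mul, sum_ite_eq, mem_univ, if_true]
    simp only [vec, coeff_add, coeff_C_mul, Matrix.sub_apply, coeff_sub, one_apply, Pi.zero_apply]
    split_ifs <;> simp [coeff_one]
  have pw : ∀ i n, n + 1 + i = m → z m ᵥ* lin (L + 1) Y ^ i = z (n + 1) := by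
    intro i
    induction i with
    | zero =>
      intro n hn
      simp [← hn]
    | succ i ih =>
      intro n hn
      rw [pow_succ, ← vecMul_vecMul, ih (n + 1) (by omega), st n (by omega)]
  rw [z0]
  refine ⟨?_, fun i hi => ?_⟩
  · obtain ⟨m, rfl⟩ := Nat.exists_eq_add_of_le' hm
    rw [pow_succ, ← vecMul_vecMul, pw m 0 (by omega), st1]
  · rw [pw i (m - i - 1) (by omega)]
    have h0 := one_of_sub hY b a
    rw [if_neg hab.symm] at h0
    simp only [z, vec, Fin.val_zero, zero_add, pow_succ', mul_assoc]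
    rw [coeff_X_mul, mul_coeff_zero, mul_coeff_zero, h0]
    simp

/-- the value of a row move -/
noncomputable def frow (L : ℕ) (o : V → ℕ) (Y : Matrix V V ℤ[X]) (a b : V) (α : ℤ) (m : ℕ) : Val :=
  rrv m _ (rkL o (L + 1)) (lin (L + 1) Y) (a, 0) (vec (L + 1) fun v => C α * X ^ m * Y b v) -
    rrv m _ (rkL o (L + 1)) (lin (L + 1) Y) (a, 0)
      (vec (L + 1) fun v => C α * X ^ m * (1 : Matrix V V ℤ[X]) b v)

theorem row_form1 (Y : Matrix V V ℤ[X]) (a b : V) (c : ℤ[X]) :
    (Y + of fun u v => if u = a then c * (1 : Matrix V V ℤ[X]) b v else 0) = Y + single a b c := by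
  ext1 u v
  simp only [Matrix.add_apply, of_apply, one_apply, single_apply, @eq_comm _ a]
  by_cases h1 : u = a <;> by_cases h2 : b = v <;> simp [h1, h2]

theorem row_form2 (Y : Matrix V V ℤ[X]) {a b : V} (hab : a ≠ b) (c : ℤ[X]) :
    (Y + of fun u v => if u = a then c * Y b v else 0) =
      1 - (1 + single a b c) * (1 - (Y + single a b c)) := by
  have e : single a b c * (Y + single a b c) = of fun u v => if u = a then c * Y b v else 0 := by
    rw [mul_add, single_mul_single_of_ne _ _ _ _ hab.symm, add_zero]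
    ext1 u v
    by_cases h : u = a
    · simp [h]
    · simp [h]
  rw [add_mul, one_mul, mul_sub, mul_one, e]
  abel

theorem Pres.mul {P W W' : Matrix V V ℤ[X]} {ξ : V → G} (h : Pres P ξ) (e : W' * W = 1) :
    Pres (W * P) ξ := by
  refine ⟨h.1, fun y => (h.2 y).trans ⟨?_, ?_⟩⟩
  · rintro ⟨z, rfl⟩
    exact ⟨z ᵥ* W', by rw [vecMul_vecMul, ← Matrix.mul_assoc, e, Matrix.one_mul]⟩
  · rintro ⟨z, rfl⟩
    exact ⟨z ᵥ* W, by rw [vecMul_vecMul]⟩

theorem tv_inv {a b : V} (hab : a ≠ b) (c : ℤ[X]) :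
    (1 - single a b c) * (1 + single a b c) = (1 : Matrix V V ℤ[X]) := by
  rw [sub_mul, one_mul, mul_add, mul_one, single_mul_single_of_ne _ _ _ _ hab.symm]
  abel

theorem pp_row (hB : Base) {β : ℕ} {p : PT G} (hp : IsPot β p) {o : V → ℕ} (h1 : Injective o)
    (b1 : ∀ v, β ≤ o v) {L m : ℕ} {Y : Matrix V V ℤ[X]} (hY : ∀ u v, (Y u v).coeff 0 = 0)
    (hd : Dg (L + 1 - m) Y) (hm : 1 ≤ m) (hm2 : m ≤ L + 1) {a b : V} (hab : a ≠ b) (α : ℤ)
    {ξ : V → G} (hξ : Pres (1 - (Y + single a b (C α * X ^ m))) ξ) :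
    pp p o ((1 + single a b (C α * X ^ m)) * (1 - (Y + single a b (C α * X ^ m)))) ξ -
      pp p o (1 - (Y + single a b (C α * X ^ m))) ξ = frow L o Y a b α m := by
  have c0 : (C α * X ^ m : ℤ[X]).coeff 0 = 0 := by
    rw [coeff_C_mul, coeff_X_pow, if_neg (by omega), mul_zero]
  have cd : (C α * X ^ m : ℤ[X]).natDegree ≤ m := natDegree_C_mul_X_pow_le α m
  have hξ' := hξ.mul (tv_inv hab (C α * X ^ m))
  have gen : ∀ q : V → ℤ[X], (∀ v, (q v).natDegree ≤ L + 1 - m) →
      One (1 - (Y + of fun u v => if u = a then C α * X ^ m * q v else 0)) ∧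
      Dg (L + 1) (1 - (Y + of fun u v => if u = a then C α * X ^ m * q v else 0)) := by
    refine fun q hq => ⟨one_of_sub fun u v => ?_, Dg.one_sub fun u v => ?_⟩
    · rw [Matrix.add_apply, coeff_add, hY, of_apply]
      split_ifs
      · rw [mul_coeff_zero, c0, zero_mul, add_zero]
      · simp
    · rw [Matrix.add_apply, of_apply]
      refine (natDegree_add_le _ _).trans (max_le ((hd u v).trans (by omega)) ?_)
      split_ifs
      · have := hq v
        exact natDegree_mul_le.trans (by omega)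
      · simp
  have g1 := gen (fun v => (1 : Matrix V V ℤ[X]) b v) fun v => by
    rw [one_apply]
    split_ifs <;> simp
  have g2 := gen (Y b) (hd b)
  rw [row_form1] at g1
  rw [row_form2 _ hab, sub_sub_cancel] at g2
  have e := rr_pot hB hp m _ (rkL o (L + 1)) (lin (L + 1) Y) (a, 0) _ _ (lv (L + 1) ξ)
    (rkL_inj h1 _) (le_rkL' b1) ?_ ?_ (dies_row Y hY hd hm hm2 hab α)
  · rw [lin_adr, lin_adr, row_form1, row_form2 _ hab] at e
    rw [pp_eq hB hp h1 b1 g1.1 g1.2 hξ, pp_eq hB hp h1 b1 g2.1 g2.2 hξ', ppL, ppL, sub_sub_cancel,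
      frow, sub_eq_sub_iff_sub_eq_sub, e]
  · rw [lin_adr, row_form1]
    simpa only [sub_sub_cancel] using hB.pres_lv g1.1 g1.2 hξ
  · rw [lin_adr, row_form2 _ hab]
    exact hB.pres_lv g2.1 g2.2 hξ'

theorem cof_C_mul (g : Matrix V V ℤ) (N : Matrix V V ℤ[X]) :
    cof (g.map C * N) = fun d => g * cof N d := by
  funext d
  ext u v
  simp [cof, mul_apply]

theorem cof_mul_C (g : Matrix V V ℤ) (N : Matrix V V ℤ[X]) :
    cof (N * g.map C) = fun d => cof N d * g := by
  funext d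
  ext u v
  simp [cof, mul_apply]

theorem Dg.C_mul {L : ℕ} {N : Matrix V V ℤ[X]} (h : Dg L N) (g : Matrix V V ℤ) :
    Dg L (g.map C * N) := fun u v =>
  natDegree_sum_le_of_forall_le _ _ fun w _ => (natDegree_C_mul_le _ _).trans (h w v)

theorem Dg.mul_C {L : ℕ} {N : Matrix V V ℤ[X]} (h : Dg L N) (g : Matrix V V ℤ) :
    Dg L (N * g.map C) := fun u v =>
  natDegree_sum_le_of_forall_le _ _ fun w _ => (natDegree_mul_C_le _ _).trans (h u w)

theorem one_C_mul {N : Matrix V V ℤ[X]} (h : ∀ u v, (N u v).coeff 0 = 0) (g : Matrix V V ℤ) :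
    One (1 - g.map C * N) := one_of_sub fun u v => by simp [mul_apply, h]

theorem one_mul_C {N : Matrix V V ℤ[X]} (h : ∀ u v, (N u v).coeff 0 = 0) (g : Matrix V V ℤ) :
    One (1 - N * g.map C) := one_of_sub fun u v => by simp [mul_apply, h]

theorem pp_conj (hB : Base) {β : ℕ} {p : PT G} (hp : IsPot β p) {o : V → ℕ} (h1 : Injective o)
    (b1 : ∀ v, β ≤ o v) {L : ℕ} {N : Matrix V V ℤ[X]} (hN : ∀ u v, (N u v).coeff 0 = 0)
    (hd : Dg (L + 1) N) (g : Matrix V V ℤ) {ξ : V → G} (hξ : Pres (1 - N * g.map C) ξ)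
    (hξ' : Pres (1 - g.map C * N) (pull g ξ)) :
    pp p o (1 - N * g.map C) ξ - pp p o (1 - g.map C * N) (pull g ξ) = cv (L + 1) o g (cof N) := by
  have a := hB.pres_lv (one_mul_C hN g) (hd.mul_C g).one_sub hξ
  rw [sub_sub_cancel, lin_eq, cof_mul_C] at a
  rw [pp_eq hB hp h1 b1 (one_mul_C hN g) (hd.mul_C g).one_sub hξ,
    pp_eq hB hp h1 b1 (one_C_mul hN g) (hd.C_mul g).one_sub hξ', ppL, ppL, sub_sub_cancel,
    sub_sub_cancel, lin_eq, lin_eq, cof_mul_C, cof_C_mul]
  exact cv_pot hB hp (L + 1) h1 (le_rkL' b1) g (cof N) a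

end Pool.Agent.MP_993212_an.H16
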