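import Pool.Agent.MP_993212_an.H16.FZ

/-! Two explicit chains: redirection of edges with the same future, and conjugation of a linear
model by a constant matrix. -/

set_option linter.unusedSectionVars false

namespace Pool.Agent.MP_993212_an.H16

open Matrix Polynomial Finset Function

variable {U V W : Type} [Fintype U] [DecidableEq U] [Fintype V] [DecidableEq V] [Fintype W]
  [DecidableEq W] {G : Type} [AddCommGroup G] [Module ℤ[X] G]

theorem trace_pow_comm (R : Matrix V W ℤ) (S : Matrix W V ℤ) {j : ℕ} (hj : 1 ≤ j) :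
    trace ((R * S) ^ j) = trace ((S * R) ^ j) := by
  obtain ⟨j, rfl⟩ := Nat.exists_eq_add_of_le' hj
  rw [pow_succ, ← Matrix.mul_assoc, H12.pow_inter (Matrix.mul_assoc R S R) j, trace_mul_comm,
    ← Matrix.mul_assoc, ← pow_succ']

theorem IsPot.src (hB : Base) {b : ℕ} {p : PT G} (hp : IsPot b p) (e : V → W) (he : Injective e)
    {oV : V → ℕ} {oW : W → ℕ} (h1 : Injective oV) (h2 : Injective oW) (b1 : ∀ v, b ≤ oV v)
    (b2 : ∀ w, b ≤ oW w) (ho : ∀ u v, oV u ≤ oV v ↔ oW (e u) ≤ oW (e v)) (B : Matrix W W ℤ)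
    (hz : ∀ w w', (∀ v, e v ≠ w') → B w w' = 0) {κ : W → G} (hκ : Pres (pen B) κ) :
    p W oW B κ = p V oV (B.submatrix e e) (κ ∘ e) ∧ Pres (pen (B.submatrix e e)) (κ ∘ e) := by
  have e1 : (inc e : Matrix V W ℤ) * B.submatrix id e = B.submatrix e e := by
    ext u v
    simp [mul_apply, inc]
  have e2 : B.submatrix id e * (inc e : Matrix V W ℤ) = B := by
    ext w w'
    simp only [mul_apply, inc, submatrix_apply, id, of_apply, mul_ite, mul_one, mul_zero]
    by_cases h : ∃ v, e v = w'
    · obtain ⟨v, rfl⟩ := h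
      simp [he.eq_iff]
    · rw [hz w w' (by simpa using h), sum_eq_zero]
      intro v _
      rw [if_neg fun c => h ⟨v, c.symm⟩]
  have := hp V W oV oW (inc e) (B.submatrix id e) κ h1 h2 b1 b2 (by rwa [e2])
  have h3 := hB.tr.pres_pull V W G (inc e) (B.submatrix id e) κ (by rwa [e2])
  rw [e1, pull_inc] at h3
  rw [e1, e2, pull_inc] at this
  refine ⟨?_, h3⟩
  rw [← sub_eq_zero, ← this]
  exact funext fun k => hB.f_emb k h1 h2 e ho _

/-- add the row vector `x` to row `a` -/
def adr (A : Matrix V V ℤ) (a : V) (x : V → ℤ) : Matrix V V ℤ :=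
  of fun i j => A i j + if i = a then x j else 0

def rrR (x : V → ℤ) : Matrix (Option V) V ℤ :=
  of fun i j => i.elim (x j) fun i => if i = j then 1 else 0

def rrS (A : Matrix V V ℤ) (a : V) : Matrix V (Option V) ℤ :=
  of fun i j => j.elim (if i = a then 1 else 0) fun j => A i j

def rrA (A : Matrix V V ℤ) (a : V) : Matrix (Option V) (Option V) ℤ :=
  of fun i j => i.elim 0 fun i => rrS A a i j

def rro (o : V → ℕ) : Option V → ℕ := fun i => i.elim (univ.sup o + 1) o

theorem rro_inj {o : V → ℕ} (h : Injective o) : Injective (rro o) := by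
  rintro (_ | i) (_ | j) e
  · rfl
  · have := le_sup (f := o) (mem_univ j)
    simp only [rro, Option.elim] at e
    omega
  · have := le_sup (f := o) (mem_univ i)
    simp only [rro, Option.elim] at e
    omega
  · rw [h e]

theorem le_rro {o : V → ℕ} {b : ℕ} (h : ∀ v, b ≤ o v) (a : V) (i : Option V) : b ≤ rro o i := by
  rcases i with _ | i
  · exact (h a).trans ((le_sup (f := o) (mem_univ a)).trans (Nat.le_succ _))
  · exact h i

theorem rrS_mul (A : Matrix V V ℤ) (a : V) (x : V → ℤ) : rrS A a * rrR x = adr A a x := by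
  ext i j
  simp [mul_apply, rrS, rrR, adr, Fintype.sum_option, add_comm]

theorem rrR_mul (A : Matrix V V ℤ) (a : V) (x : V → ℤ) :
    rrR x * rrS A a = adr (rrA A a) none (x ᵥ* rrS A a) := by
  ext (_ | i) j
  · simp [mul_apply, rrR, adr, rrA, vecMul, dotProduct]
  · simp [mul_apply, rrR, adr, rrA]

/-- the value of the first `m` redirection steps -/
noncomputable def rrv : ℕ → ∀ (V : Type) [Fintype V] [DecidableEq V],
    (V → ℕ) → Matrix V V ℤ → V → (V → ℤ) → Val
  | 0, _, _, _, _, _, _, _ => 0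
  | m + 1, V, _, _, o, A, a, x => fv (rro o) o (rrR x) (rrS A a) +
      rrv m (Option V) (rro o) (rrA A a) none (x ᵥ* rrS A a)

/-- `z` dies after `m` steps without meeting `a` -/
def Dies (m : ℕ) (A : Matrix V V ℤ) (a : V) (z : V → ℤ) : Prop :=
  z ᵥ* A ^ m = 0 ∧ ∀ i < m, (z ᵥ* A ^ i) a = 0

theorem Dies.step {m : ℕ} {A : Matrix V V ℤ} {a : V} {z : V → ℤ} (h : Dies (m + 1) A a z) :
    Dies m (rrA A a) none (z ᵥ* rrS A a) := by
  have key : ∀ i, (z ᵥ* rrS A a) ᵥ* rrA A a ^ i = (z ᵥ* A ^ i) ᵥ* rrS A a := by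
    intro i
    induction i with
    | zero => simp
    | succ i ih =>
      rw [pow_succ, ← vecMul_vecMul, ih, pow_succ, ← vecMul_vecMul]
      generalize z ᵥ* A ^ i = w
      funext j
      simp [vecMul, dotProduct, rrA, Fintype.sum_option, rrS]
  have none_eq : ∀ w : V → ℤ, (w ᵥ* rrS A a) none = w a := fun w => by
    simp [vecMul, dotProduct, rrS]
  have some_eq : ∀ (w : V → ℤ) j, (w ᵥ* rrS A a) (some j) = (w ᵥ* A) j := fun w j => by
    simp [vecMul, dotProduct, rrS]
  refine ⟨?_, fun i hi => ?_⟩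
  · rw [key]
    funext j
    rcases j with _ | j
    · rw [none_eq]
      exact h.2 m (by omega)
    · rw [some_eq, vecMul_vecMul, ← pow_succ, h.1]
      rfl
  · rw [key, none_eq]
    exact h.2 i (by omega)

theorem rr_pot (hB : Base) {b : ℕ} {p : PT G} (hp : IsPot b p) (m : ℕ) :
    ∀ (V : Type) [Fintype V] [DecidableEq V] (o : V → ℕ) (A : Matrix V V ℤ) (a : V)
      (x y : V → ℤ) (ι : V → G), Injective o → (∀ v, b ≤ o v) → Pres (pen (adr A a x)) ι →
      Pres (pen (adr A a y)) ι → Dies m A a (x - y) →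
      p V o (adr A a x) ι - rrv m V o A a x = p V o (adr A a y) ι - rrv m V o A a y := by
  induction m with
  | zero =>
    intro V _ _ o A a x y ι _ _ _ _ h
    have : x = y := sub_eq_zero.1 (by simpa using h.1)
    rw [this]
  | succ m ih =>
    intro V _ _ o A a x y ι h1 h2 hx hy h
    have one : ∀ z, Pres (pen (adr A a z)) ι → p V o (adr A a z) ι - rrv (m + 1) V o A a z =
        p (Option V) (rro o) (adr (rrA A a) none (z ᵥ* rrS A a)) (pull (rrR z) ι) -
          rrv m (Option V) (rro o) (rrA A a) none (z ᵥ* rrS A a) ∧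
        Pres (pen (adr (rrA A a) none (z ᵥ* rrS A a))) (pull (rrR z) ι) := by
      intro z hz
      rw [← rrS_mul] at hz
      have e := hp _ _ (rro o) o (rrR z) (rrS A a) ι (rro_inj h1) h1 (le_rro h2 a) h2 hz
      have e2 := hB.tr.pres_pull _ _ G _ _ _ hz
      rw [rrR_mul] at e2
      rw [rrS_mul, rrR_mul] at e
      refine ⟨?_, e2⟩
      rw [rrv, e]
      abel
    have same : pull (rrR x) ι = pull (rrR y) ι := by
      funext i
      rcases i with _ | i
      · have inj := (hB.tr.pres_shift V G _ ι (pen_coeff _) hx).2.1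
        have e := inj ((hx.smul_pull a).trans (hy.smul_pull a).symm)
        simp only [pull, adr, of_apply, if_true, map_add, add_smul, sum_add_distrib] at e
        simpa [pull, rrR] using e
      · rfl
    rw [(one x hx).1, (one y hy).1, ← same]
    refine ih _ _ _ _ _ _ _ (rro_inj h1) (le_rro h2 a) (one x hx).2 (same ▸ (one y hy).2) ?_
    rw [← sub_vecMul]
    exact h.step

theorem rrv_congr (k m : ℕ) :
    ∀ (V : Type) [Fintype V] [DecidableEq V] (o : V → ℕ) (A A' : Matrix V V ℤ) (a : V)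
      (x x' : V → ℤ), Cg (md k) A A' → (∀ v, x v ≡ x' v [ZMOD md k]) →
      rrv m V o A a x k = rrv m V o A' a x' k := by
  induction m with
  | zero => intros; rfl
  | succ m ih =>
    intro V _ _ o A A' a x x' h1 h2
    have c1 : Cg (md k) (rrR x) (rrR x') := by
      rintro (_ | i) j
      exacts [h2 j, Int.ModEq.refl _]
    have c2 : Cg (md k) (rrS A a) (rrS A' a) := by
      rintro i (_ | j)
      exacts [Int.ModEq.refl _, h1 i j]
    rw [rrv, rrv, Pi.add_apply, Pi.add_apply, fv, fv, f_congr _ _ c1 c2]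
    congr 1
    refine ih _ _ _ _ _ _ _ ?_ fun v => Int.ModEq.sum fun u _ => (h2 u).mul (c2 u v)
    rintro (_ | i) j
    exacts [Int.ModEq.refl _, c2 i j]

theorem rrv_mono (hB : Base) (k m : ℕ) :
    ∀ (V : Type) [Fintype V] [DecidableEq V] (o : V → ℕ) (A A' : Matrix V V ℤ) (a : V)
      (x x' : V → ℤ), Injective o → (∀ u v, 0 ≤ A' u v) → (∀ u v, A' u v ≤ A u v) →
      (∀ v, 0 ≤ x' v) → (∀ v, x' v ≤ x v) →
      (∀ j, 1 ≤ j → j ≤ k → trace (adr A a x ^ j) = trace (adr A' a x' ^ j)) →
      rrv m V o A a x k = rrv m V o A' a x' k := by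
  induction m with
  | zero => intros; rfl
  | succ m ih =>
    intro V _ _ o A A' a x x' ho a0 a1 x0 x1 ht
    have r0 : ∀ i j, 0 ≤ rrR x' i j := by
      rintro (_ | i) j
      · exact x0 j
      · simp only [rrR, of_apply, Option.elim]
        split_ifs <;> simp
    have r1 : ∀ i j, rrR x' i j ≤ rrR x i j := by
      rintro (_ | i) j
      exacts [x1 j, le_rfl]
    have s0 : ∀ i j, 0 ≤ rrS A' a i j := by
      rintro i (_ | j)
      · simp only [rrS, of_apply, Option.elim]
        split_ifs <;> simp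
      · exact a0 i j
    have s1 : ∀ i j, rrS A' a i j ≤ rrS A a i j := by
      rintro i (_ | j)
      exacts [le_rfl, a1 i j]
    have ht' : ∀ j, 1 ≤ j → j ≤ k →
        trace ((rrR x * rrS A a) ^ j) = trace ((rrR x' * rrS A' a) ^ j) := fun j a b => by
      rw [trace_pow_comm _ _ a, trace_pow_comm (rrR x') _ a, rrS_mul, rrS_mul, ht j a b]
    rw [rrv, rrv, Pi.add_apply, Pi.add_apply, fv, fv,
      hB.f_mono k (rro_inj ho) ho r0 s0 r1 s1 ht']
    congr 1
    refine ih _ _ _ _ _ _ _ (rro_inj ho) ?_ ?_ (fun v => sum_nonneg fun u _ =>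
      mul_nonneg (x0 u) (s0 u v)) (fun v => sum_le_sum fun u _ =>
        mul_le_mul (x1 u) (s1 u v) (s0 u v) ((x0 u).trans (x1 u))) ?_
    · rintro (_ | i) j
      exacts [le_rfl, s0 i j]
    · rintro (_ | i) j
      exacts [le_rfl, s1 i j]
    · simpa only [rrR_mul] using ht'

theorem rrv_lev (hB : Base) (k : ℕ) [NeZero k] (m : ℕ) :
    ∀ (V : Type) [Fintype V] [DecidableEq V] (o : V → ℕ) (h : V → ZMod k) (A : Matrix V V ℤ)
      (a : V) (x y : V → ℤ), Injective o → (∀ u v, A u v ≠ 0 → h v = h u - 1) →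
      (∀ v, x v ≠ 0 → h v = h a - 1) → (∀ v, y v ≠ 0 → h v = h a - 1) → Dies m A a (x - y) →
      pot k o h (adr A a x) + rrv m V o A a x k = pot k o h (adr A a y) + rrv m V o A a y k := by
  induction m with
  | zero =>
    intro V _ _ o h A a x y _ _ _ _ hd
    have : x = y := sub_eq_zero.1 (by simpa using hd.1)
    rw [this]
  | succ m ih =>
    intro V _ _ o h A a x y ho hA hx hy hd
    let h' : Option V → ZMod k := fun i => i.elim (h a - 1) h
    have gS : ∀ w v, rrS A a w v ≠ 0 → h' v = h w - 1 := by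
      rintro w (_ | v) c
      · have : w = a := by simpa [rrS] using c
        rw [this]
        rfl
      · exact hA w v c
    have one : ∀ z, (∀ v, z v ≠ 0 → h v = h a - 1) →
        pot k o h (adr A a z) + rrv (m + 1) V o A a z k =
          pot k (rro o) h' (adr (rrA A a) none (z ᵥ* rrS A a)) +
            rrv m (Option V) (rro o) (rrA A a) none (z ᵥ* rrS A a) k ∧
          ∀ v, (z ᵥ* rrS A a) v ≠ 0 → h' v = h' none - 1 := by
      intro z hz
      have gR : ∀ v w, rrR z v w ≠ 0 → h w = h' v := by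
        rintro (_ | v) w c
        · exact hz w c
        · have : v = w := by simpa [rrR] using c
          rw [this]
          rfl
      refine ⟨?_, fun v c => ?_⟩
      · rw [rrv, Pi.add_apply, fv, hB.f_lev k (rro_inj ho) ho h' h gR gS, rrS_mul, rrR_mul]
        abel
      · obtain ⟨u, -, hu⟩ := exists_ne_zero_of_sum_ne_zero c
        rw [gS u v (right_ne_zero_of_mul hu), hz u (left_ne_zero_of_mul hu)]
        rfl
    rw [(one x hx).1, (one y hy).1]
    refine ih _ _ _ _ _ _ _ (rro_inj ho) ?_ (one x hx).2 (one y hy).2 ?_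
    · rintro (_ | u) v c
      · exact absurd rfl c
      · exact gS u v c
    · rw [← sub_vecMul]
      exact hd.step

end Pool.Agent.MP_993212_an.H16
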