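import Pool.Agent.MP_993212_an.H16.Near
import Pool.Agent.MP_993212_an.H15.KStab

/-! Pairs of invertible matrices that change the potential by the same amount. -/

set_option linter.unusedSectionVars false

namespace Pool.Agent.MP_993212_an.H16

open Matrix Polynomial Finset Function H15

variable {U V W : Type} [Fintype U] [DecidableEq U] [Fintype V] [DecidableEq V] [Fintype W]
  [DecidableEq W] {G G' : Type} [AddCommGroup G] [Module ℤ[X] G] [AddCommGroup G'] [Module ℤ[X] G']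

/-- pull a family back along a polynomial matrix -/
noncomputable def pl (R : Matrix V W ℤ[X]) (κ : W → G) : V → G := fun v => ∑ w, R v w • κ w

theorem pull_eq (R : Matrix V W ℤ) (κ : W → G) : pull R κ = pl (R.map C) κ := rfl

theorem sum_pl (y : V → ℤ[X]) (R : Matrix V W ℤ[X]) (κ : W → G) :
    ∑ v, y v • pl R κ v = ∑ w, (y ᵥ* R) w • κ w := by
  simp only [pl, vecMul, dotProduct, smul_sum, sum_smul, mul_smul]
  exact sum_comm

theorem pl_mul (R : Matrix U V ℤ[X]) (S : Matrix V W ℤ[X]) (κ : W → G) :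
    pl (R * S) κ = pl R (pl S κ) := funext fun u => (sum_pl (R u) S κ).symm

theorem pl_one (κ : V → G) : pl (1 : Matrix V V ℤ[X]) κ = κ := by
  funext v
  simp [pl, one_apply, ite_smul]

theorem Pres.mul_right {P v v' : Matrix V V ℤ[X]} {ξ : V → G} (h : Pres P ξ) (e : v * v' = 1) :
    Pres (P * v) (pl v' ξ) := by
  have e' : v' * v = 1 := mul_eq_one_comm.1 e
  refine ⟨fun g => ?_, fun y => ?_⟩
  · obtain ⟨y, rfl⟩ := h.1 g
    exact ⟨y ᵥ* v, by rw [sum_pl, vecMul_vecMul, e, vecMul_one]⟩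
  · rw [sum_pl, h.2]
    constructor
    · rintro ⟨z, hz⟩
      exact ⟨z, by rw [← vecMul_vecMul, ← hz, vecMul_vecMul, e', vecMul_one]⟩
    · rintro ⟨z, rfl⟩
      exact ⟨z, by rw [vecMul_vecMul, Matrix.mul_assoc, e, Matrix.mul_one]⟩

theorem cof_mul (P : Matrix U V ℤ[X]) (Q : Matrix V W ℤ[X]) :
    (P * Q).map (fun x => x.coeff 0) = P.map (fun x => x.coeff 0) * Q.map fun x => x.coeff 0 := by
  ext u v
  simp [mul_apply]

theorem cof_mul0 (P Q : Matrix V V ℤ[X]) : cof (P * Q) 0 = cof P 0 * cof Q 0 := cof_mul P Q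

theorem cof_C (g : Matrix V V ℤ) : cof (g.map C) 0 = g := by
  ext u v
  simp [cof]

theorem one_iff {P : Matrix V V ℤ[X]} : One P ↔ cof P 0 = 1 := by
  rw [← Matrix.ext_iff]
  rfl

theorem mapC_mul (g h : Matrix V V ℤ) : (g * h).map (C : ℤ → ℤ[X]) = g.map C * h.map C :=
  Matrix.map_mul (f := (C : ℤ →+* ℤ[X]))

theorem mapC_one : (1 : Matrix V V ℤ).map (C : ℤ → ℤ[X]) = 1 :=
  Matrix.map_one _ (map_zero _) (map_one _)

/-- invertible constant term -/
def Inv0 (P : Matrix V V ℤ[X]) : Prop := IsUnit (cof P 0).det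

theorem Inv0.mul {P Q : Matrix V V ℤ[X]} (h : Inv0 P) (h' : Inv0 Q) : Inv0 (P * Q) := by
  rw [Inv0, cof_mul0, det_mul]
  exact IsUnit.mul h h'

theorem One.inv0 {P : Matrix V V ℤ[X]} (h : One P) : Inv0 P := by
  rw [Inv0, one_iff.1 h, det_one]
  exact isUnit_one

theorem one_one : One (1 : Matrix V V ℤ[X]) := by
  rw [one_iff, ← mapC_one, cof_C]

theorem inv0_gl (g : GL V ℤ[X]) : Inv0 g.val := by
  have := congrArg (fun P => (cof P 0).det) g.mul_inv
  simp only [cof_mul0, det_mul, one_iff.1 one_one, det_one] at this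
  exact IsUnit.of_mul_eq_one _ this

theorem Inv0.mul_inv {P : Matrix V V ℤ[X]} (h : Inv0 P) :
    (cof P 0).map C * (cof P 0)⁻¹.map (C : ℤ → ℤ[X]) = 1 := by
  rw [← mapC_mul, mul_nonsing_inv _ h, mapC_one]

theorem Inv0.inv_mul {P : Matrix V V ℤ[X]} (h : Inv0 P) :
    (cof P 0)⁻¹.map C * (cof P 0).map (C : ℤ → ℤ[X]) = 1 := by
  rw [← mapC_mul, nonsing_inv_mul _ h, mapC_one]

/-- normalise the constant term by a left multiplication -/
noncomputable def nrm (P : Matrix V V ℤ[X]) : Matrix V V ℤ[X] := (cof P 0)⁻¹.map C * P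

theorem One.nrm {P : Matrix V V ℤ[X]} (h : One P) : nrm P = P := by
  rw [H16.nrm, one_iff.1 h, inv_one, mapC_one, Matrix.one_mul]

theorem Inv0.one_nrm {P : Matrix V V ℤ[X]} (h : Inv0 P) : One (nrm P) := by
  rw [one_iff, nrm, cof_mul0, cof_C, nonsing_inv_mul _ h]

theorem Inv0.pres_nrm {P : Matrix V V ℤ[X]} (h : Inv0 P) {ξ : V → G} (hξ : Pres P ξ) :
    Pres (nrm P) ξ := hξ.mul h.mul_inv

theorem nrm_C_mul {g : Matrix V V ℤ} (hg : IsUnit g.det) (P : Matrix V V ℤ[X]) :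
    nrm (g.map C * P) = nrm P := by
  rw [nrm, nrm, cof_mul0, cof_C, Matrix.mul_inv_rev, mapC_mul, Matrix.mul_assoc,
    ← Matrix.mul_assoc (g⁻¹.map C), ← mapC_mul, nonsing_inv_mul _ hg, mapC_one, Matrix.one_mul]

/-- the potential of a polynomial presentation with invertible constant term -/
noncomputable def pn (o : V → ℕ) (P : Matrix V V ℤ[X]) (ξ : V → G) : Val := pp (pt G) o (nrm P) ξ

theorem One.pn {P : Matrix V V ℤ[X]} (h : One P) (o : V → ℕ) (ξ : V → G) :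
    pn o P ξ = pp (pt G) o P ξ := by rw [H16.pn, h.nrm]

theorem pn_conj (hB : Base) {o : V → ℕ} (ho : Injective o) {P : Matrix V V ℤ[X]} (h : Inv0 P)
    {ξ : V → G} (hξ : Pres P ξ) {L : ℕ} (hd : Dg (L + 1) P) :
    pn o P ξ = pp (pt G) o (P * (cof P 0)⁻¹.map C) (pull (cof P 0) ξ) +
      cv (L + 1) o (cof P 0) (cof ((cof P 0)⁻¹.map C * (1 - P * (cof P 0)⁻¹.map C))) := by
  have e1 : 1 - (cof P 0)⁻¹.map C * (1 - P * (cof P 0)⁻¹.map C) * (cof P 0).map C = nrm P := by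
    rw [Matrix.mul_assoc, sub_mul, Matrix.mul_assoc, h.inv_mul, mul_sub, one_mul, h.inv_mul,
      sub_sub_cancel, mul_one, nrm]
  have e2 : 1 - (cof P 0).map C * ((cof P 0)⁻¹.map C * (1 - P * (cof P 0)⁻¹.map C)) =
      P * (cof P 0)⁻¹.map C := by
    rw [← Matrix.mul_assoc, h.mul_inv, one_mul, sub_sub_cancel]
  have o1 : One (P * (cof P 0)⁻¹.map C) := by
    rw [one_iff, cof_mul0, cof_C, mul_nonsing_inv _ h]
  have := pp_conj hB (hB.pt_isPot G 0) ho (fun _ => Nat.zero_le _)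
    (N := (cof P 0)⁻¹.map C * (1 - P * (cof P 0)⁻¹.map C)) (L := L)
    (fun u v => by
      rw [mul_apply, finsetSum_coeff]
      exact sum_eq_zero fun w _ => by rw [mul_coeff_zero, o1.sub, mul_zero])
    ((hd.mul_C _).one_sub.C_mul _) (cof P 0) (ξ := ξ) (by rw [e1]; exact h.pres_nrm hξ)
    (by rw [e2]; exact hξ.mul_right h.inv_mul)
  rw [e1, e2] at this
  rw [← this, pn]
  abel

theorem Sim.c0 {k : ℕ} {cl : V → ℕ} {P P' : Matrix V V ℤ[X]} (h : Sim k cl P P') :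
    Sim k cl ((cof P 0).map C) ((cof P' 0).map C) := by
  have a : ∀ {P P' : Matrix V V ℤ[X]}, Sim k cl P P' → ∀ u v, cl v < cl u →
      (X : ℤ[X]) ^ (k + 1) ∣ (cof P 0).map C u v := fun h u v c => by
    simp [cof, X_pow_dvd_iff.1 (h.low u v c) 0 (by omega)]
  exact ⟨a h, a h.symm, fun u v c => by simp [cof, h.coeff_eq c (Nat.zero_le k)]⟩

theorem Sim.c0_inv {k : ℕ} {cl : V → ℕ} {P P' : Matrix V V ℤ[X]} (h : Sim k cl P P') (i : Inv0 P)
    (i' : Inv0 P') : Sim k cl ((cof P 0)⁻¹.map C) ((cof P' 0)⁻¹.map C) := by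
  have a : ∀ {P P' : Matrix V V ℤ[X]}, Sim k cl P P' → Inv0 P →
      Sim k cl ((cof P 0)⁻¹.map C) ((cof P 0)⁻¹.map C) := fun {P P'} h i => by
    have b : BlockTriangular (cof P 0) cl := fun u v c =>
      X_pow_dvd_iff.1 (h.low u v c) 0 (by omega)
    have := invertibleOfIsUnitDet _ i
    have b' := blockTriangular_inv_of_blockTriangular b
    exact ⟨fun u v c => by simp [b' c], fun u v c => by simp [b' c], fun _ _ _ => by simp⟩
  have := ((a h i).mul h.c0.symm).mul (a h.symm i')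
  rwa [Matrix.mul_assoc, i'.mul_inv, mul_one, i.inv_mul, one_mul] at this

theorem pp_letter (hB : Base) {k : ℕ} (hk : k ≠ 0) {o : V → ℕ} (ho : Injective o) {cl : V → ℕ}
    {β : ℕ} {p : PT G} {p' : PT G'} (hp : IsPot β p) (hp' : IsPot β p') (b1 : ∀ v, β ≤ o v)
    {Q Q' : Matrix V V ℤ[X]} (h : Lowm k cl (1 - Q)) (h' : Lowm k cl (1 - Q'))
    (e : ∀ u v d, Short k cl u v d → (Q u v).coeff d = (Q' u v).coeff d) {a b : V} (hab : a ≠ b)
    {m : ℕ} (hm : 1 ≤ m) (hl : cl a ≤ cl b ∨ k < m) {α α' : ℤ} (hα : Short k cl a b m → α = α')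
    {ξ : V → G} {ξ' : V → G'} (hξ : Pres Q ξ) (hξ' : Pres Q' ξ') :
    pp p o ((1 + single a b (C α * X ^ m)) * Q) ξ k - pp p o Q ξ k =
      pp p' o ((1 + single a b (C α' * X ^ m)) * Q') ξ' k - pp p' o Q' ξ' k := by
  have rw1 : ∀ (Q : Matrix V V ℤ[X]) (α : ℤ),
      1 - (1 - Q + single a b (C (-α) * X ^ m) + single a b (C α * X ^ m)) = Q := fun Q α => by
    rw [add_assoc, ← single_add, map_neg, neg_mul, neg_add_cancel, single_zero, add_zero,
      sub_sub_cancel]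
  let Y := 1 - Q + single a b (C (-α) * X ^ m : ℤ[X])
  let Y' := 1 - Q' + single a b (C (-α') * X ^ m : ℤ[X])
  have l := h.add_single hm hl (-α)
  have l' := h'.add_single hm hl (-α')
  have d : Dg (dgr Y + dgr Y' + m + 1 - m) Y := (dg_dgr Y).mono (by omega)
  have d' : Dg (dgr Y + dgr Y' + m + 1 - m) Y' := (dg_dgr Y').mono (by omega)
  have e1 := pp_row hB hp ho b1 l.1 d hm (by omega) hab α (ξ := ξ) (by rwa [rw1])
  have e2 := pp_row hB hp' ho b1 l'.1 d' hm (by omega) hab α' (ξ := ξ') (by rwa [rw1])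
  rw [rw1] at e1 e2
  refine (congrFun e1 k).trans (Eq.trans ?_ (congrFun e2 k).symm)
  refine frow_near hB hk ho l l' d d' hm (by omega) hab hl hα fun u v n s => ?_
  simp only [Matrix.add_apply, Matrix.sub_apply, coeff_add, coeff_sub, coeff_single, e u v n s]
  congr 1
  split_ifs with c
  · obtain ⟨rfl, rfl, rfl⟩ := c
    rw [hα s]
  · rfl

theorem sim_letter {k : ℕ} {cl : V → ℕ} {a b : V} {f f' : ℤ[X]}
    (h1 : cl b < cl a → X ^ (k + 1) ∣ f ∧ X ^ (k + 1) ∣ f')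
    (h2 : cl a = cl b → X ^ (k + 1) ∣ f - f') :
    Sim k cl (1 + single a b f) (1 + single a b f') := by
  have : Sim k cl (single a b (-f)) (single a b (-f')) := by
    refine ⟨fun u v c => ?_, fun u v c => ?_, fun u v c => ?_⟩ <;> simp only [single_apply] <;>
      split_ifs with d
    · obtain ⟨rfl, rfl⟩ := d
      exact dvd_neg.2 (h1 c).1
    · simp
    · obtain ⟨rfl, rfl⟩ := d
      exact dvd_neg.2 (h1 c).2
    · simp
    · obtain ⟨rfl, rfl⟩ := d
      rw [neg_sub_neg]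
      exact dvd_sub_comm.1 (h2 c)
    · simp
  simpa only [← single_neg, sub_neg_eq_add] using Sim.one.sub this

theorem one_letter (a b : V) (α : ℤ) {m : ℕ} (hm : 1 ≤ m) :
    One (1 + single a b (C α * X ^ m : ℤ[X])) := fun u v => by
  rw [Matrix.add_apply, coeff_add, coeff_single, if_neg (by omega), add_zero, one_one]

theorem pn_letter (hB : Base) {k : ℕ} (hk : k ≠ 0) {o : V → ℕ} (ho : Injective o) {cl : V → ℕ}
    {P P' : Matrix V V ℤ[X]} (i : Inv0 P) (i' : Inv0 P') (h : Sim k cl P P') {a b : V}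
    (hab : a ≠ b) {m : ℕ} (hm : 1 ≤ m) (hl : cl a ≤ cl b ∨ k < m) {α α' : ℤ}
    (hα : cl a = cl b → m ≤ k → α = α') {ξ : V → G} {ξ' : V → G'} (hξ : Pres P ξ)
    (hξ' : Pres P' ξ') :
    pn o ((1 + single a b (C α * X ^ m)) * P) ξ k - pn o P ξ k =
      pn o ((1 + single a b (C α' * X ^ m)) * P') ξ' k - pn o P' ξ' k := by
  set x : Matrix V V ℤ[X] := 1 + single a b (C α * X ^ m) with hx
  set x' : Matrix V V ℤ[X] := 1 + single a b (C α' * X ^ m) with hx'
  have ox : One x := one_letter a b α hm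
  have ox' : One x' := one_letter a b α' hm
  have dv : ∀ γ : ℤ, k < m → (X : ℤ[X]) ^ (k + 1) ∣ C γ * X ^ m := fun γ c =>
    (pow_dvd_pow X c).mul_left _
  have sx : Sim k cl x x' := sim_letter (fun c => ⟨dv _ (by omega), dv _ (by omega)⟩) fun c => by
    by_cases d : m ≤ k
    · simp [hα c d]
    · exact dvd_sub (dv _ (by omega)) (dv _ (by omega))
  have c1 : cof (x * P) 0 = cof P 0 := by rw [cof_mul0, one_iff.1 ox, one_mul]
  have c2 : cof (x' * P') 0 = cof P' 0 := by rw [cof_mul0, one_iff.1 ox', one_mul]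
  let L := dgr P + dgr P' + dgr (x * P) + dgr (x' * P')
  have d1 : Dg (L + 1) P := (dg_dgr _).mono (by omega)
  have d2 : Dg (L + 1) P' := (dg_dgr _).mono (by omega)
  have d3 : Dg (L + 1) (x * P) := (dg_dgr _).mono (by omega)
  have d4 : Dg (L + 1) (x' * P') := (dg_dgr _).mono (by omega)
  have si := h.c0_inv i i'
  have o1 : ∀ {P : Matrix V V ℤ[X]}, Inv0 P → One (P * (cof P 0)⁻¹.map C) := fun i => by
    rw [one_iff, cof_mul0, cof_C, mul_nonsing_inv _ i]
  have z : ∀ (g : Matrix V V ℤ) {Q : Matrix V V ℤ[X]}, One Q →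
      ∀ u v, ((g.map C * (1 - Q)) u v).coeff 0 = 0 := fun g Q hQ u v => by
    rw [mul_apply, finsetSum_coeff]
    exact sum_eq_zero fun w _ => by rw [mul_coeff_zero, hQ.sub, mul_zero]
  have o3 := o1 (ox.inv0.mul i)
  have o4 := o1 (ox'.inv0.mul i')
  have v1 := cv_sim hB hk ho (z _ (o1 i)) (z _ (o1 i')) ((d1.mul_C _).one_sub.C_mul _)
    ((d2.mul_C _).one_sub.C_mul _) h.c0 (si.mul (Sim.one.sub (h.mul si)))
  rw [c1] at o3
  rw [c2] at o4
  have v2 := cv_sim hB hk ho (z _ o3) (z _ o4) ((d3.mul_C _).one_sub.C_mul _)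
    ((d4.mul_C _).one_sub.C_mul _) h.c0 (si.mul (Sim.one.sub ((sx.mul h).mul si)))
  have r := pp_letter hB hk ho (hB.pt_isPot G 0) (hB.pt_isPot G' 0) (fun _ => Nat.zero_le _)
    ((Sim.one.sub (h.mul si)).lowm (o1 i).sub) ((Sim.one.sub (h.mul si)).symm.lowm (o1 i').sub)
    (h.mul si).short hab hm hl (fun s => hα s.1 (by have := s.2; omega))
    (hξ.mul_right i.inv_mul) (hξ'.mul_right i'.inv_mul)
  rw [pn_conj hB ho i hξ d1, pn_conj hB ho i' hξ' d2,
    pn_conj hB ho (ox.inv0.mul i) (hξ.mul (tv_inv hab _)) d3,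
    pn_conj hB ho (ox'.inv0.mul i') (hξ'.mul (tv_inv hab _)) d4, c1, c2]
  simp only [Pi.add_apply]
  rw [v1, v2, add_sub_add_comm, add_sub_add_comm, Matrix.mul_assoc, Matrix.mul_assoc x']
  congr 1

/-- pairs with the same effect on the `k`-th coordinate of the potential -/
def Rel (k : ℕ) (cl : V → ℕ) : Subgroup (GL V ℤ[X] × GL V ℤ[X]) where
  carrier := {w | Sim k cl w.1.val w.2.val ∧ Sim k cl w.1⁻¹.val w.2⁻¹.val ∧
    ∀ (G G' : Type) [AddCommGroup G] [Module ℤ[X] G] [AddCommGroup G'] [Module ℤ[X] G']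
      (o : V → ℕ) (P P' : Matrix V V ℤ[X]) (ξ : V → G) (ξ' : V → G'), Injective o → Inv0 P →
      Inv0 P' → Sim k cl P P' → Pres P ξ → Pres P' ξ' →
      pn o (w.1.val * P) ξ k - pn o P ξ k = pn o (w.2.val * P') ξ' k - pn o P' ξ' k}
  one_mem' := ⟨Sim.one, Sim.one, fun _ _ _ _ _ _ _ _ _ _ _ _ _ _ _ _ _ => by simp⟩
  mul_mem' := by
    rintro ⟨a, a'⟩ ⟨b, b'⟩ ⟨h1, h2, h3⟩ ⟨g1, g2, g3⟩
    refine ⟨h1.mul g1, by simpa only [Prod.fst_mul, Prod.snd_mul, _root_.mul_inv_rev,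
      Units.val_mul] using g2.mul h2, fun G G' _ _ _ _ o P P' ξ ξ' ho i i' s x x' => ?_⟩
    have e1 := g3 G G' o P P' ξ ξ' ho i i' s x x'
    have e2 := h3 G G' o _ _ ξ ξ' ho ((inv0_gl b).mul i) ((inv0_gl b').mul i') (g1.mul s)
      (x.mul b.inv_mul) (x'.mul b'.inv_mul)
    simp only [Prod.fst_mul, Prod.snd_mul, Units.val_mul, Matrix.mul_assoc] at e1 e2 ⊢
    linear_combination e1 + e2
  inv_mem' := by
    rintro ⟨a, a'⟩ ⟨h1, h2, h3⟩
    refine ⟨h2, h1, fun G G' _ _ _ _ o P P' ξ ξ' ho i i' s x x' => ?_⟩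
    have e := h3 G G' o _ _ ξ ξ' ho ((inv0_gl a⁻¹).mul i) ((inv0_gl a'⁻¹).mul i') (h2.mul s)
      (x.mul a.mul_inv) (x'.mul a'.mul_inv)
    simp only [← Matrix.mul_assoc, Units.mul_inv, Matrix.one_mul] at e
    simp only [Prod.fst_inv, Prod.snd_inv]
    linear_combination -e

theorem Rel.swap {k : ℕ} {cl : V → ℕ} {a b : GL V ℤ[X]} (h : (a, b) ∈ Rel k cl) :
    (b, a) ∈ Rel k cl :=
  ⟨h.1.symm, h.2.1.symm, fun G G' _ _ _ _ o P P' ξ ξ' ho i i' s x x' =>
    (h.2.2 G' G o P' P ξ' ξ ho i' i s.symm x' x).symm⟩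

/-- constant matrices -/
def IsC (g : GL V ℤ[X]) : Prop := g.val = (cof g.val 0).map C

theorem rel_const {k : ℕ} {cl : V → ℕ} {g g' : GL V ℤ[X]} (h : IsC g) (h' : IsC g')
    (s : Sim k cl g.val g'.val) : (g, g') ∈ Rel k cl := by
  have a : ∀ {g : GL V ℤ[X]}, IsC g → g⁻¹.val = (cof g.val 0)⁻¹.map C := fun {g} h => by
    rw [← mul_one g⁻¹.val, ← (inv0_gl g).mul_inv, ← h, ← Matrix.mul_assoc, Units.inv_mul, one_mul]
  refine ⟨s, ?_, fun G G' _ _ _ _ o P P' ξ ξ' ho i i' s x x' => ?_⟩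
  · rw [a h, a h']
    exact s.c0_inv (inv0_gl g) (inv0_gl g')
  · simp only [pn]
    rw [h, h', nrm_C_mul (inv0_gl g), nrm_C_mul (inv0_gl g'), sub_self, sub_self]

theorem sim_xe {k : ℕ} {cl : V → ℕ} {a b : V} {f f' : ℤ[X]}
    (h1 : cl b < cl a → X ^ (k + 1) ∣ f ∧ X ^ (k + 1) ∣ f')
    (h2 : cl a = cl b → X ^ (k + 1) ∣ f - f') : Sim k cl (xe a b f).val (xe a b f').val := by
  by_cases hab : a = b
  · simpa [hab] using Sim.one
  · rw [xe_val hab, xe_val hab]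
    exact sim_letter h1 h2

theorem rel_mon (hB : Base) {k : ℕ} (hk : k ≠ 0) {cl : V → ℕ} (a b : V) {m : ℕ}
    (hl : cl a ≤ cl b ∨ k < m) {α α' : ℤ} (hα : cl a = cl b → m ≤ k → α = α') :
    (xe a b (C α * X ^ m), xe a b (C α' * X ^ m)) ∈ Rel k cl := by
  have dv : ∀ γ : ℤ, k < m → (X : ℤ[X]) ^ (k + 1) ∣ C γ * X ^ m := fun γ c =>
    (pow_dvd_pow X c).mul_left _
  have sx : ∀ α α' : ℤ, (cl a = cl b → m ≤ k → α = α') →
      Sim k cl (xe a b (C α * X ^ m)).val (xe a b (C α' * X ^ m)).val := fun α α' hα =>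
    sim_xe (fun c => ⟨dv _ (by omega), dv _ (by omega)⟩) fun c => by
      by_cases d : m ≤ k
      · simp [hα c d]
      · exact dvd_sub (dv _ (by omega)) (dv _ (by omega))
  by_cases hab : a = b
  · simp only [hab, xe_self]
    exact (Rel k cl).one_mem
  rcases Nat.eq_zero_or_pos m with rfl | hm
  · have c : ∀ α : ℤ, IsC (xe a b (C α * X ^ 0 : ℤ[X])) := fun α => by
      have : (xe a b (C α * X ^ 0 : ℤ[X])).val = (1 + single a b α).map C := by
        rw [xe_val hab, Matrix.map_add _ (map_add C), mapC_one, Matrix.map_single _ _ _ C]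
        simp
      rw [IsC, this, cof_C]
    exact rel_const (c α) (c α') (sx α α' hα)
  refine ⟨sx α α' hα, ?_, fun G G' _ _ _ _ o P P' ξ ξ' ho i i' s x x' => ?_⟩
  · have := sx (-α) (-α') fun c d => by rw [hα c d]
    simpa only [map_neg, neg_mul, xe_neg] using this
  · simp only [xe_val hab]
    exact pn_letter hB hk ho i i' s hab hm hl hα x x'

theorem rel_xe_zero (hB : Base) {k : ℕ} (hk : k ≠ 0) {cl : V → ℕ} {a b : V} {f : ℤ[X]}
    (h : cl a < cl b ∨ X ^ (k + 1) ∣ f) : (xe a b f, 1) ∈ Rel k cl := by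
  have add : ∀ f g : ℤ[X], (xe a b f, 1) ∈ Rel k cl → (xe a b g, 1) ∈ Rel k cl →
      (xe a b (f + g), 1) ∈ Rel k cl := fun f g h1 h2 => by
    simpa [xe_add] using mul_mem h1 h2
  rcases h with h | ⟨r, rfl⟩
  · induction f using Polynomial.induction_on' with
    | add f g h1 h2 => exact add f g h1 h2
    | monomial n α =>
      simpa only [C_mul_X_pow_eq_monomial, map_zero, zero_mul, xe_zero] using
        rel_mon hB hk a b (m := n) (α := α) (α' := 0) (Or.inl h.le) fun c => absurd c h.ne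
  · induction r using Polynomial.induction_on' with
    | add f g h1 h2 => rw [mul_add]; exact add _ _ h1 h2
    | monomial n α =>
      have := rel_mon hB hk (cl := cl) a b (m := k + 1 + n) (α := α) (α' := 0)
        (Or.inr (by omega)) fun _ c => by omega
      rw [← C_mul_X_pow_eq_monomial, mul_left_comm, ← pow_add]
      simpa only [map_zero, zero_mul, xe_zero] using this

theorem rel_xe_same (hB : Base) {k : ℕ} (hk : k ≠ 0) {cl : V → ℕ} {a b : V} (h : cl a = cl b)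
    (f : ℤ[X]) : (xe a b f, xe a b f) ∈ Rel k cl := by
  induction f using Polynomial.induction_on' with
  | add f g h1 h2 => simpa [xe_add] using mul_mem h1 h2
  | monomial n α =>
    simpa only [C_mul_X_pow_eq_monomial] using
      rel_mon hB hk a b (m := n) (α := α) (α' := α) (Or.inl h.le) fun _ _ => rfl

theorem rel_xe (hB : Base) {k : ℕ} (hk : k ≠ 0) {cl : V → ℕ} {a b : V} {f f' : ℤ[X]}
    (h1 : cl b < cl a → X ^ (k + 1) ∣ f ∧ X ^ (k + 1) ∣ f')
    (h2 : cl a = cl b → X ^ (k + 1) ∣ f - f') : (xe a b f, xe a b f') ∈ Rel k cl := by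
  rcases lt_trichotomy (cl a) (cl b) with c | c | c
  · simpa using mul_mem (rel_xe_zero hB hk (f := f) (Or.inl c))
      (Rel.swap (rel_xe_zero hB hk (f := f') (Or.inl c)))
  · have := mul_mem (rel_xe_zero hB hk (cl := cl) (a := a) (b := b) (Or.inr (h2 c)))
      (rel_xe_same hB hk c f')
    simpa [← xe_add] using this
  · simpa using mul_mem (rel_xe_zero hB hk (cl := cl) (a := a) (b := b) (Or.inr (h1 c).1))
      (Rel.swap (rel_xe_zero hB hk (cl := cl) (a := a) (b := b) (Or.inr (h1 c).2)))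

theorem sim_of_Cn {k : ℕ} (cl : V → ℕ) {g : GL V ℤ[X]} (h : g ∈ Cn V (tI (k + 1))) :
    Sim k cl g.val 1 := by
  have a := fun u v => mem_tI.1 (mem_Cn.1 h u v)
  refine ⟨fun u v c => ?_, Sim.one.low, fun u v _ => a u v⟩
  simpa using dvd_add (a u v) (Sim.one.low (k := k) u v c)

theorem pn_Hn (hB : Base) {k : ℕ} (hk : k ≠ 0) (h3 : Three V) {g : GL V ℤ[X]}
    (h : g ∈ Hn V (tI (k + 1))) {o : V → ℕ} (ho : Injective o) {P : Matrix V V ℤ[X]} (i : Inv0 P)
    {ξ : V → G} (hξ : Pres P ξ) : pn o (g.val * P) ξ k = pn o P ξ k := by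
  have : Hn V (tI (k + 1)) ≤ (Rel k fun _ : V => 0).comap (MonoidHom.inl _ _) := by
    refine Hn_le_of_letters h3 (fun i j a ha => rel_xe_zero hB hk (Or.inr (mem_tI.1 ha)))
      fun i j c x hx => ?_
    have := rel_xe_same hB hk (cl := fun _ : V => 0) (a := i) (b := j) rfl c
    simpa using mul_mem (mul_mem this hx) (inv_mem this)
  have := (this h).2.2 G G o P P ξ ξ ho i i ⟨by simp, by simp, by simp⟩ hξ hξ
  simpa [sub_eq_zero] using this

theorem rel_Hn (hB : Base) {k : ℕ} (hk : k ≠ 0) (h3 : Three V) (cl : V → ℕ) {g : GL V ℤ[X]}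
    (h : g ∈ Hn V (tI (k + 1))) : (g, 1) ∈ Rel k cl :=
  ⟨sim_of_Cn cl (Hn_le_Cn _ h), sim_of_Cn cl (Hn_le_Cn _ (inv_mem h)),
    fun G G' _ _ _ _ o P P' ξ ξ' ho i _ _ x _ => by simp [pn_Hn hB hk h3 h ho i x]⟩

end Pool.Agent.MP_993212_an.H16
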