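import Pool.Agent.MP_993212_an.H16.POT

/-! The value of the exchange of two orbits of the same length. -/

set_option linter.unusedSectionVars false

namespace Pool.Agent.MP_993212_an.H16

open Matrix Finset Function

section Swap

variable {p L : ℕ}

/-- the exchange of the two loops -/
def swS (q : Bool × Fin L) : Bool × Fin L := (!q.1, q.2)

/-- the successor map on two loops -/
def swT (h1 : 1 ≤ p) (h2 : p ≤ L) (q : Bool × Fin L) : Bool × Fin L :=
  (q.1, (rotS h1 h2 ((), q.2)).2)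

theorem swS_swS (q : Bool × Fin L) : swS (swS q) = q := by simp [swS]

theorem swS_inj : Injective (swS : Bool × Fin L → _) := fun a b h => by
  rw [← swS_swS a, h, swS_swS]

theorem swT_swS (h1 : 1 ≤ p) (h2 : p ≤ L) (q : Bool × Fin L) :
    swT h1 h2 (swS q) = swS (swT h1 h2 q) := rfl

theorem sw_inc_mul {A B C : Type} [Fintype B] [DecidableEq B] [DecidableEq C] [Fintype A]
    [DecidableEq A] [Fintype C] (s : A → B) (t : B → C) :
    (inc s : Matrix A B ℕ) * (inc t : Matrix B C ℕ) = inc (t ∘ s) := by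
  ext u v
  simp only [inc, mul_apply, of_apply, ite_mul, one_mul, zero_mul, sum_ite_eq', mem_univ, if_true,
    Function.comp_apply]

theorem sw_linc (h1 : 1 ≤ p) (h2 : p ≤ L) :
    (linc L fun d => if d = p then 1 else 0) = zz (inc (swT h1 h2)) := by
  ext a b
  have e : b = swT h1 h2 a ↔ a.1 = b.1 ∧ (b.2 : ℕ) = (rotS h1 h2 ((), a.2)).2 :=
    ⟨fun h => by rw [h]; exact ⟨rfl, rfl⟩, fun h => Prod.ext h.1.symm (Fin.ext h.2)⟩
  simp only [linc, of_apply, zz_apply, inc, e, rotS_val]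
  by_cases h : a.1 = b.1
  · simp only [h, true_and]
    split_ifs <;> first | rfl | omega | simp
  · simp only [h, false_and, if_false]
    split_ifs <;> simp [one_apply_ne h]

theorem sw_iter (h1 : 1 ≤ p) (h2 : p ≤ L) (q : Bool × Fin L) (e : ℕ) :
    (swT h1 h2)^[e] q = (q.1, ((rotS h1 h2)^[e] ((), q.2)).2) := by
  induction e with
  | zero => rfl
  | succ e ih => rw [iterate_succ_apply', iterate_succ_apply', ih]; rfl

theorem sw_trace (h1 : 1 ≤ p) (h2 : p ≤ L) (e : ℕ) :
    trace ((inc (swT h1 h2) : Matrix _ _ ℕ) ^ e) =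
      2 * trace ((inc (rotS h1 h2) : Matrix _ _ ℕ) ^ e) := by
  rw [rot_inc_pow, rot_inc_pow, trace, trace, Fintype.sum_prod_type, Fintype.sum_prod_type,
    Fintype.sum_bool, Fintype.sum_unique (ι := Unit), two_mul]
  simp only [Matrix.diag_apply, inc, of_apply, sw_iter, Prod.ext_iff, true_and]

theorem sw_np (h1 : 1 ≤ p) (h2 : p ≤ L) (d : ℕ) :
    np d (inc (swT h1 h2)) = if d = p then 2 * (p : ℤ) else 0 := by
  have := rot_np h1 h2 d
  have e : np d (inc (swT h1 h2)) = 2 * np d (inc (rotS h1 h2)) := by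
    simp only [np, sw_trace, mul_sum]
    refine sum_congr rfl fun e _ => ?_
    push_cast
    ring
  rw [e, this]
  split_ifs <;> simp

theorem sw_card (h1 : 1 ≤ p) (h2 : p ≤ L) (d : ℕ) [NeZero d] :
    (prim d (inc swS) (inc (swT h1 h2 ∘ swS))).card = if d = p then 2 * p else 0 := by
  have h := base.cnt.card_prim _ _ (inc swS) (inc (swT h1 h2 ∘ swS)) d
  rw [sw_inc_mul, show (swT h1 h2 ∘ swS) ∘ swS = swT h1 h2 from
    funext fun q => by simp [swS_swS], sw_np] at h
  split_ifs at h ⊢ <;> exact_mod_cast h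

theorem sw_mem (h1 : 1 ≤ p) (h2 : p ≤ L) {d : ℕ} [NeZero d]
    {z : ZMod d → Ed (Bool × Fin L) (Bool × Fin L)} :
    z ∈ prim d (inc swS) (inc (swT h1 h2 ∘ swS)) ↔
      (∀ i, (z i).2.1 = swS (z i).1 ∧ (z i).2.2.1 = 0 ∧ (z i).2.2.2 = 0 ∧
        (z (i + 1)).1 = swT h1 h2 (z i).1) ∧ ∀ j, rot j z = z → j = 0 := by
  rw [loc_mem_prim]
  refine and_congr_left fun _ => forall_congr' fun i => ?_
  simp only [inc, of_apply, Function.comp_apply]
  constructor
  · rintro ⟨a, b⟩
    split_ifs at a b with c d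
    · rw [c, swS_swS] at d
      exact ⟨c, by omega, by omega, d⟩
    all_goals omega
  · rintro ⟨a, b, c, d⟩
    rw [if_pos a, if_pos (by rw [a, swS_swS, d])]
    omega

/-- the exchange on words -/
def swW {d : ℕ} (z : ZMod d → Ed (Bool × Fin L) (Bool × Fin L)) :
    ZMod d → Ed (Bool × Fin L) (Bool × Fin L) :=
  fun i => (swS (z i).1, swS (z i).2.1, (z i).2.2)

theorem swW_swW {d : ℕ} (z : ZMod d → Ed (Bool × Fin L) (Bool × Fin L)) : swW (swW z) = z := by
  funext i
  simp [swW, swS_swS]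

theorem sw_invs (h1 : 1 ≤ p) (h2 : p ≤ L) [NeZero p] {o : Bool × Fin L → ℕ} (ho : Injective o) :
    ((invs rot (prim p (inc swS) (inc (swT h1 h2 ∘ swS))) (keyA o o) (keyB o o) : ℕ) : ZMod 2) =
      1 := by
  have hF := free_prim p (inc swS) (inc (swT h1 h2 ∘ swS))
  obtain ⟨H, S, -, a, -, -, b⟩ := absStmt.invol _ _ p rot _ (keyA o o) swW hF
    (loc_keyA_inj ho ho).injOn
    (fun z hz => by
      obtain ⟨c, d⟩ := (sw_mem h1 h2).1 hz
      refine (sw_mem h1 h2).2 ⟨fun i => ?_, fun j e => d j ?_⟩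
      · obtain ⟨c1, c2, c3, c4⟩ := c i
        refine ⟨by simp only [swW, c1], c2, c3, ?_⟩
        simp only [swW, c4, swT_swS]
      · rw [← swW_swW z, ← e]
        conv_lhs => rw [e]
        rfl)
    (fun z _ => swW_swW z) fun j z _ => rfl
  rw [@filter_true_of_mem _ _ (_) _, sw_card, if_pos rfl] at a
  · have hS : S = 1 :=
      (Nat.eq_of_mul_eq_mul_left (by omega) ((mul_one _).trans a)).symm
    rw [hS, Nat.cast_one] at b
    rw [← b]
    congr 1
    refine (absStmt.transport _ _ _ _ _ _ p rot rot _ _ _ _ _ _ id hF (Set.bijOn_id _)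
      (fun _ _ _ => rfl) (fun _ _ _ _ => Iff.rfl) fun x hx y hy => ?_).2
    obtain ⟨c, -⟩ := (sw_mem h1 h2).1 hx
    obtain ⟨d, -⟩ := (sw_mem h1 h2).1 hy
    have e : ∀ u v : Bool × Fin L, o (swS u) = o (swS v) ↔ o u = o v := fun u v =>
      ⟨fun h => congrArg o (swS_inj (ho h)), fun h => by rw [ho h]⟩
    refine loc_lex_congr (fun n => ?_) fun n => ?_ <;>
    · have e1 := e (x ((n : ℕ) : ZMod p)).1 (y ((n : ℕ) : ZMod p)).1
      have e2 := e (x (((n : ℕ) : ZMod p) + 1)).1 (y (((n : ℕ) : ZMod p) + 1)).1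
      simp only [loc_mkKey_lt, swW, id, (c _).1, (d _).1, (c _).2.1, (d _).2.1, (c _).2.2.1,
        (d _).2.2.1, swS_swS]
      omega
  · intro z hz j e
    obtain ⟨c, -⟩ := (sw_mem h1 h2).1 hz
    have k : ∀ n : ℕ, (z (n : ZMod p)).1.1 = (z 0).1.1 := by
      intro n
      induction n with
      | zero => rw [Nat.cast_zero]
      | succ n ih => rw [Nat.cast_succ, (c _).2.2.2, ← ih]; rfl
    have := congrArg (fun w => (w 0).1.1) e
    simp only [loc_rot_at, swW, swS] at this
    rw [← ZMod.natCast_zmod_val j, k] at this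
    simp at this

end Swap

theorem swapStmt : SwapStmt := by
  intro p L k o h1 h2 ho hk
  have hr : Injective (rkL o L) := rkL_inj ho L
  have emp : ∀ n, n + 1 ≠ p → prim (n + 1) (inc swS) (inc (swT h1 h2 ∘ swS)) = ∅ := fun n hn =>
    card_eq_zero.1 (by rw [sw_card, if_neg hn])
  change f k _ _ (inc swS) (inc swS * _) = _
  rw [sw_linc h1 h2, ← zz_inc, ← zz_mul, sw_inc_mul, base.f_zz k hr hr, fN]
  have hg : gy (rkL o L) (rkL o L) (inc swS) (inc (swT h1 h2 ∘ swS)) k = 0 := by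
    cases k with
    | zero => rfl
    | succ n => simp only [gy, emp n hk, gyr, sum_empty]
  rw [hg]
  refine tri_comb_congr k 0 _ _ fun d => ?_
  cases d with
  | zero => rw [Pi.single_eq_of_ne (by omega)]; rfl
  | succ n =>
    by_cases hn : n + 1 = p
    · subst hn
      rw [Pi.single_eq_same, xi, Int.cast_natCast, sw_invs h1 h2 hr, Int.cast_one]
    · rw [Pi.single_eq_of_ne hn]
      simp only [xi, emp n hn, invs, sum_empty, Nat.cast_zero]

end Pool.Agent.MP_993212_an.H16
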