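import Pool.Agent.MP_993212_an.H16.Obs
import Pool.Agent.MP_993212_an.H46.Iface

/-! Statements of the parts of the obstruction theory. -/

namespace Pool.Agent.MP_993212_an.H16

open Matrix Polynomial Finset Function

open Classical in
/-- ROW ABS: gyration numbers and inversions of keys on a free `ZMod d` set -/
structure AbsStmt : Prop where
  add : ∀ (Y Θ₁ Θ₂ Θ₃ : Type) [LinearOrder Θ₁] [LinearOrder Θ₂] [LinearOrder Θ₃] (d : ℕ) [NeZero d]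
    (ρ : ZMod d → Y → Y) (P : Finset Y) (K₁ : Y → Θ₁) (K₂ : Y → Θ₂) (K₃ : Y → Θ₃), Free ρ P →
    Set.InjOn K₁ P → Set.InjOn K₂ P → Set.InjOn K₃ P →
    gyr ρ P K₁ K₂ + gyr ρ P K₂ K₃ = gyr ρ P K₁ K₃ ∧
      ((invs ρ P K₁ K₂ : ℕ) : ZMod 2) + (invs ρ P K₂ K₃ : ℕ) = (invs ρ P K₁ K₃ : ℕ)
  transport : ∀ (Y Y' Θ₁ Θ₂ Θ₁' Θ₂' : Type) [LinearOrder Θ₁] [LinearOrder Θ₂] [LinearOrder Θ₁']
    [LinearOrder Θ₂'] (d : ℕ) [NeZero d] (ρ : ZMod d → Y → Y) (ρ' : ZMod d → Y' → Y')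
    (P : Finset Y) (P' : Finset Y') (K₁ : Y → Θ₁) (K₂ : Y → Θ₂) (K₁' : Y' → Θ₁') (K₂' : Y' → Θ₂')
    (e : Y → Y'), Free ρ P → Set.BijOn e P P' → (∀ j, ∀ x ∈ P, e (ρ j x) = ρ' j (e x)) →
    (∀ x ∈ P, ∀ y ∈ P, K₁ x ≤ K₁ y ↔ K₁' (e x) ≤ K₁' (e y)) →
    (∀ x ∈ P, ∀ y ∈ P, K₂ x ≤ K₂ y ↔ K₂' (e x) ≤ K₂' (e y)) →
    gyr ρ P K₁ K₂ = gyr ρ' P' K₁' K₂' ∧ invs ρ P K₁ K₂ = invs ρ' P' K₁' K₂'
  self : ∀ (Y Θ₁ Θ₂ : Type) [LinearOrder Θ₁] [LinearOrder Θ₂] (d : ℕ) [NeZero d]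
    (ρ : ZMod d → Y → Y) (P : Finset Y) (K₁ : Y → Θ₁) (K₂ : Y → Θ₂), Free ρ P → Set.InjOn K₁ P →
    (∀ x ∈ P, ∀ y ∈ P, K₁ x ≤ K₁ y ↔ K₂ x ≤ K₂ y) → gyr ρ P K₁ K₂ = 0 ∧ invs ρ P K₁ K₂ = 0
  invol : ∀ (Y Θ : Type) [LinearOrder Θ] (d : ℕ) [NeZero d] (ρ : ZMod d → Y → Y) (P : Finset Y)
    (K : Y → Θ) (τ : Y → Y), Free ρ P → Set.InjOn K P → (∀ x ∈ P, τ x ∈ P) →
    (∀ x ∈ P, τ (τ x) = x) → (∀ j, ∀ x ∈ P, τ (ρ j x) = ρ j (τ x)) →
    ∃ H S : ℕ, (P.filter fun x => ∃ j, j ≠ 0 ∧ τ x = ρ j x).card = d * H ∧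
      (P.filter fun x => ∀ j, τ x ≠ ρ j x).card = 2 * d * S ∧ (Odd d → H = 0) ∧
      gyr ρ P K (K ∘ τ) = ((d / 2 : ℕ) : ZMod d) * H ∧ ((invs ρ P K (K ∘ τ) : ℕ) : ZMod 2) = S
  small : ∀ (Y Θ₁ Θ₂ : Type) [LinearOrder Θ₁] [LinearOrder Θ₂] (d : ℕ) [NeZero d]
    (ρ : ZMod d → Y → Y) (P : Finset Y) (K₁ : Y → Θ₁) (K₂ : Y → Θ₂), Free ρ P → P.card ≤ d →
    invs ρ P K₁ K₂ = 0
  graded : ∀ (Y Θ₁ Θ₂ : Type) [LinearOrder Θ₁] [LinearOrder Θ₂] (d : ℕ) [NeZero d]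
    (ρ : ZMod d → Y → Y) (P : Finset Y) (K₁ : Y → Θ₁) (K₂ : Y → Θ₂) (h : Y → ZMod d), Free ρ P →
    Set.InjOn K₁ P → Set.InjOn K₂ P → (∀ j, ∀ x ∈ P, h (ρ j x) = h x - j) →
    gyr ρ P K₁ K₂ = (∑ x ∈ P, if IsBase ρ K₁ x then h x else 0) -
      ∑ x ∈ P, if IsBase ρ K₂ x then h x else 0

section Graph

variable {E V Ω Ω₁ Ω₂ : Type} [Fintype E] [LinearOrder Ω₁] [LinearOrder Ω₂]

open Classical in
/-- closed paths of least period `d` in a graph with edge type `E` -/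
noncomputable def gprim (d : ℕ) [NeZero d] (src tgt : E → V) : Finset (ZMod d → E) :=
  univ.filter fun z => (∀ i, tgt (z i) = src (z (i + 1))) ∧ ∀ j, rot j z = z → j = 0

/-- the key of a closed path given by a key on edges -/
def gkey {d : ℕ} (o : V → ℕ) (src tgt : E → V) (κ : E → Ω) (z : ZMod d → E) :
    Lex (Fin d → ℕ ×ₗ ℕ ×ₗ Ω) :=
  toLex fun n => toLex (o (src (z ((n : ℕ) : ZMod d))),
    toLex (o (tgt (z ((n : ℕ) : ZMod d))), κ (z ((n : ℕ) : ZMod d))))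

noncomputable def gyG (o : V → ℕ) (src tgt : E → V) (κ₁ : E → Ω₁) (κ₂ : E → Ω₂) :
    (d : ℕ) → ZMod d
  | 0 => 0
  | n + 1 => gyr rot (gprim (n + 1) src tgt) (gkey o src tgt κ₁) (gkey o src tgt κ₂)

noncomputable def xiG (o : V → ℕ) (src tgt : E → V) (κ₁ : E → Ω₁) (κ₂ : E → Ω₂) : ℕ → ℤ
  | 0 => 0
  | n + 1 => (invs rot (gprim (n + 1) src tgt) (gkey o src tgt κ₁) (gkey o src tgt κ₂) : ℕ)

end Graph

/-- ROW BK: reordering parallel edges has value zero -/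
def BKStmt : Prop :=
  ∀ (E V Ω₁ Ω₂ : Type) [Fintype E] [LinearOrder Ω₁] [LinearOrder Ω₂] (o : V → ℕ) (src tgt : E → V)
    (κ₁ : E → Ω₁) (κ₂ : E → Ω₂), Injective o →
    (∀ e e', src e = src e' → tgt e = tgt e' → κ₁ e = κ₁ e' → e = e') →
    (∀ e e', src e = src e' → tgt e = tgt e' → κ₂ e = κ₂ e' → e = e') →
    ∀ k, comb k (gyG o src tgt κ₁ κ₂ k) (xiG o src tgt κ₁ κ₂) = 0

/-- ROW TRI: the triangle identity over `ℕ` -/
def TriN : Prop :=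
  ∀ (U V W : Type) [Fintype U] [DecidableEq U] [Fintype V] [DecidableEq V] [Fintype W]
    [DecidableEq W] (oU : U → ℕ) (oV : V → ℕ) (oW : W → ℕ) (R₁ : Matrix U V ℕ) (R₂ : Matrix V W ℕ)
    (S₃ : Matrix W U ℕ) (k : ℕ), Injective oU → Injective oV → Injective oW →
    fN k oU oV R₁ (R₂ * S₃) + fN k oV oW R₂ (S₃ * R₁) = fN k oU oW (R₁ * R₂) S₃

/-- ROW PER: periodicity in the entries -/
def PerN : Prop :=
  ∀ (V W : Type) [Fintype V] [DecidableEq V] [Fintype W] [DecidableEq W] (oV : V → ℕ) (oW : W → ℕ)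
    (R R' : Matrix V W ℕ) (S S' : Matrix W V ℕ) (k : ℕ), Injective oV → Injective oW →
    (∀ v w, R v w ≡ R' v w [MOD md k]) → (∀ w v, S w v ≡ S' w v [MOD md k]) →
    fN k oV oW R S = fN k oV oW R' S'

/-- ROW CNT: counting closed paths; edges that lie on no short closed path do not matter -/
structure CntStmt : Prop where
  card_cyc : ∀ (V W : Type) [Fintype V] [DecidableEq V] [Fintype W] [DecidableEq W]
    (R : Matrix V W ℕ) (S : Matrix W V ℕ) (d : ℕ) [NeZero d],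
    (cyc d R S).card = trace ((R * S) ^ d)
  card_prim : ∀ (V W : Type) [Fintype V] [DecidableEq V] [Fintype W] [DecidableEq W]
    (R : Matrix V W ℕ) (S : Matrix W V ℕ) (d : ℕ) [NeZero d],
    ((prim d R S).card : ℤ) = np d (R * S)
  mono : ∀ (V W : Type) [Fintype V] [DecidableEq V] [Fintype W] [DecidableEq W] (oV : V → ℕ)
    (oW : W → ℕ) (R R' : Matrix V W ℕ) (S S' : Matrix W V ℕ) (k : ℕ), (∀ v w, R' v w ≤ R v w) →
    (∀ w v, S' w v ≤ S w v) →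
    (∀ j, 1 ≤ j → j ≤ k → trace ((R * S) ^ j) = trace ((R' * S') ^ j)) →
    fN k oV oW R S = fN k oV oW R' S'
  adm : ∀ (V W : Type) [Fintype V] [DecidableEq V] [Fintype W] [DecidableEq W] (oV : V → ℕ)
    (oW : W → ℕ) (R : Matrix V W ℕ) (S : Matrix W V ℕ),
    (fun k => fN k oV oW R S) ∈ Adm (R * S) ∧ Adm (R * S) = Adm (S * R)

/-- ROW LOC: three evaluations -/
structure LocStmt : Prop where
  emb : ∀ (V W : Type) [Fintype V] [DecidableEq V] [Fintype W] [DecidableEq W] (oV : V → ℕ)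
    (oW : W → ℕ) (e : V → W) (S : Matrix W V ℕ) (k : ℕ), Injective oV → Injective oW →
    (∀ u v, oV u ≤ oV v ↔ oW (e u) ≤ oW (e v)) → fN k oV oW (inc e) S = 0
  sum : ∀ (U V W : Type) [Fintype U] [DecidableEq U] [Fintype V] [DecidableEq V] [Fintype W]
    [DecidableEq W] (o : U → ℕ) (oV : V → ℕ) (oW : W → ℕ) (A : Matrix U U ℕ) (R : Matrix V W ℕ)
    (S : Matrix W V ℕ) (k : ℕ), Injective o → Injective oV → Injective oW →
    (∀ u v, o u < oV v) → (∀ u w, o u < oW w) →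
    fN k (Sum.elim o oV) (Sum.elim o oW) (fromBlocks 1 0 0 R) (fromBlocks A 0 0 S) =
      fN k oV oW R S
  lev : ∀ (V W : Type) [Fintype V] [DecidableEq V] [Fintype W] [DecidableEq W] (oV : V → ℕ)
    (oW : W → ℕ) (R : Matrix V W ℕ) (S : Matrix W V ℕ) (k : ℕ) [NeZero k] (hV : V → ZMod k)
    (hW : W → ZMod k), Injective oV → Injective oW → (∀ v w, R v w ≠ 0 → hW w = hV v) →
    (∀ w v, S w v ≠ 0 → hV v = hW w - 1) →
    fN k oV oW R S = pot k oV hV (zz (R * S)) - pot k oW hW (zz (S * R))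

/-- ROW W: a function on steps over `ℤ` that satisfies the triangle identity has a potential on
the presentations of a fixed module -/
def WStmt : Prop :=
  ∀ (Q : Type) [AddCommGroup Q]
    (F : ∀ (V W : Type) [Fintype V] [DecidableEq V] [Fintype W] [DecidableEq W],
      (V → ℕ) → (W → ℕ) → Matrix V W ℤ → Matrix W V ℤ → Q),
    (∀ (U V W : Type) [Fintype U] [DecidableEq U] [Fintype V] [DecidableEq V] [Fintype W]
      [DecidableEq W] (oU : U → ℕ) (oV : V → ℕ) (oW : W → ℕ) (R₁ : Matrix U V ℤ)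
      (R₂ : Matrix V W ℤ) (S₃ : Matrix W U ℤ), Injective oU → Injective oV → Injective oW →
      F U V oU oV R₁ (R₂ * S₃) + F V W oV oW R₂ (S₃ * R₁) = F U W oU oW (R₁ * R₂) S₃) →
    ∀ (G : Type) [AddCommGroup G] [Module ℤ[X] G],
      ∃ p : ∀ (V : Type) [Fintype V] [DecidableEq V], (V → ℕ) → Matrix V V ℤ → (V → G) → Q,
        ∀ (V W : Type) [Fintype V] [DecidableEq V] [Fintype W] [DecidableEq W] (oV : V → ℕ)
          (oW : W → ℕ) (R : Matrix V W ℤ) (S : Matrix W V ℤ) (κ : W → G), Injective oV →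
          Injective oW → Pres (pen (S * R)) κ →
          F V W oV oW R S = p W oW (S * R) κ - p V oV (R * S) (pull R κ)

/-- ROW FULL: every shift equivalence over `ℤ` comes from a chain over `ℤ` -/
def FullStmt : Prop :=
  ∀ (V W : Type) [Fintype V] [DecidableEq V] [Fintype W] [DecidableEq W] (A : Matrix V V ℤ)
    (B : Matrix W W ℤ) (R : Matrix V W ℤ) (S : Matrix W V ℤ) (l : ℕ), A * R = R * B →
    S * A = B * S → R * S = A ^ l → S * R = B ^ l →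
    ∃ T, Ch A B T ∧ ∃ a b : ℕ, A ^ a * R = A ^ b * T

/-- ROW TR: determinants, traces and presentations of linear models -/
structure TrStmt : Prop where
  det_lin : ∀ (V : Type) [Fintype V] [DecidableEq V] (L : ℕ) (M : Matrix V V ℤ[X]),
    (∀ u v, (M u v).coeff 0 = 0) → (∀ u v, (M u v).natDegree ≤ L) →
    (pen (lin L M)).det = (1 - M).det
  trace_eq : ∀ (V W : Type) [Fintype V] [DecidableEq V] [Fintype W] [DecidableEq W]
    (A : Matrix V V ℤ) (B : Matrix W W ℤ) (k : ℕ),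
    (X : ℤ[X]) ^ (k + 1) ∣ (pen A).det - (pen B).det →
    ∀ j, 1 ≤ j → j ≤ k → trace (A ^ j) = trace (B ^ j)
  pres_lin : ∀ (V G : Type) [Fintype V] [DecidableEq V] [AddCommGroup G] [Module ℤ[X] G] (L : ℕ)
    (M : Matrix V V ℤ[X]) (ξ : V → G), 1 ≤ L → (∀ u v, (M u v).coeff 0 = 0) →
    (∀ u v, (M u v).natDegree ≤ L) → Pres (1 - M) ξ →
    Pres (pen (lin L M)) fun q : V × Fin L => (X : ℤ[X]) ^ (q.2 : ℕ) • ξ q.1
  pres_pull : ∀ (V W G : Type) [Fintype V] [DecidableEq V] [Fintype W] [DecidableEq W]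
    [AddCommGroup G] [Module ℤ[X] G] (R : Matrix V W ℤ) (S : Matrix W V ℤ) (κ : W → G),
    Pres (pen (S * R)) κ → Pres (pen (R * S)) (pull R κ)
  pres_shift : ∀ (V G : Type) [Fintype V] [DecidableEq V] [AddCommGroup G] [Module ℤ[X] G]
    (P : Matrix V V ℤ[X]) (ξ : V → G), (∀ u v, (P u v).coeff 0 = if u = v then 1 else 0) →
    Pres P ξ → Pres P (fun v => (X : ℤ[X]) • ξ v) ∧ Bijective fun g : G => (X : ℤ[X]) • g
  pres_ex : ∀ (V : Type) [Fintype V] [DecidableEq V] (P : Matrix V V ℤ[X]),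
    ∃ (G : Type) (_ : AddCommGroup G) (_ : Module ℤ[X] G) (ξ : V → G), Pres P ξ

/-- from this period on a primitive matrix of size `n` other than `(1)` has periodic points -/
def big (n : ℕ) : ℕ := 100 * 4 ^ (n * n + 1)

/-- ROW PF: signs of integer shift equivalences, and all large periods occur -/
structure PFStmt : Prop where
  sign : ∀ (V W : Type) [Fintype V] [DecidableEq V] [Fintype W] [DecidableEq W]
    (A : Matrix V V ℕ) (B : Matrix W W ℕ) (R : Matrix V W ℤ) (S : Matrix W V ℤ) (l : ℕ),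
    Prim A → Prim B → H46.ZSE A B R S l →
    (∃ j : ℕ, (∀ v w, 0 ≤ (zz A ^ j * R) v w) ∧ ∀ w v, 0 ≤ (zz B ^ j * S) w v) ∨
      ∃ j : ℕ, (∀ v w, (zz A ^ j * R) v w ≤ 0) ∧ ∀ w v, (zz B ^ j * S) w v ≤ 0
  abund : ∀ (V : Type) [Fintype V] [DecidableEq V] (A : Matrix V V ℕ), Prim A →
    2 ≤ ∑ u, ∑ v, A u v → ∀ k, big (Fintype.card V) ≤ k → 0 < np k A

/-- necessity: a realised equivalence has an admissible value -/
def NecStmt : Prop :=
  ∀ (V W : Type) [Fintype V] [DecidableEq V] [Fintype W] [DecidableEq W] (oV : V → ℕ) (oW : W → ℕ)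
    (A : Matrix V V ℕ) (B : Matrix W W ℕ) (R T : Matrix V W ℤ) (v : Val) (a b : ℕ), Injective oV →
    ChV oV (zz A) oW (zz B) T v → zz A ^ a * R = zz A ^ b * T → Real A B R → v ∈ Adm A

/-- sufficiency for primitive matrices -/
def SufStmt : Prop :=
  ∀ (V W : Type) [Fintype V] [DecidableEq V] [Fintype W] [DecidableEq W] (oV : V → ℕ) (oW : W → ℕ)
    (A : Matrix V V ℕ) (B : Matrix W W ℕ) (R : Matrix V W ℕ) (S : Matrix W V ℕ) (l : ℕ)
    (T : Matrix V W ℤ) (v : Val) (a b : ℕ), Injective oV → Prim A → Prim B → 1 ≤ l →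
    A * R = R * B → S * A = B * S → R * S = A ^ l → S * R = B ^ l →
    ChV oV (zz A) oW (zz B) T v → zz A ^ a * zz R = zz A ^ b * T → v ∈ Adm A → Real A B (zz R)

/-- ROW CODE: the value of a step is computed by a primitive recursive function of lists -/
def CodeStmt : Prop :=
  ∃ c : ℕ × ℕ × ℕ × H12.LL × H12.LL → ℕ, Primrec c ∧ ∀ (k n m : ℕ) (R S : H12.LL),
    (c (k, n, m, R, S) : ZMod k) = fN k Fin.val Fin.val (H12.toM n m R) (H12.toM m n S)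

end Pool.Agent.MP_993212_an.H16
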