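import Pool.Agent.MP_993212_an.H16.Rel

/-! Two-sided equivalences. -/

set_option linter.unusedSectionVars false

namespace Pool.Agent.MP_993212_an.H16

open Matrix Polynomial Finset Function H15

variable {U V W : Type} [Fintype U] [DecidableEq U] [Fintype V] [DecidableEq V] [Fintype W]
  [DecidableEq W] {G G' : Type} [AddCommGroup G] [Module ℤ[X] G] [AddCommGroup G'] [Module ℤ[X] G']

theorem pn_src (hB : Base) (e : V → W) (he : Injective e) {oV : V → ℕ} {oW : W → ℕ}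
    (h1 : Injective oV) (h2 : Injective oW) (ho : ∀ u v, oV u ≤ oV v ↔ oW (e u) ≤ oW (e v))
    {Q : Matrix W W ℤ[X]} (i : Inv0 Q) (i' : Inv0 (Q.submatrix e e))
    (hz : ∀ w w', (∀ v, e v ≠ w') → Q w w' = (1 : Matrix W W ℤ[X]) w w') {κ : W → G}
    (hκ : Pres Q κ) (hκ' : Pres (Q.submatrix e e) (κ ∘ e)) :
    pn oW Q κ = pn oV (Q.submatrix e e) (κ ∘ e) := by
  have c1 : ∀ w w', (∀ v, e v ≠ w') → (cof Q 0).map C w w' = (1 : Matrix W W ℤ[X]) w w' :=
    fun w w' h => by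
      simp only [cof, map_apply, hz w w' h, one_apply]
      split_ifs <;> simp
  have c2 : ∀ w w', (∀ v, e v ≠ w') → nrm Q w w' = (1 : Matrix W W ℤ[X]) w w' := fun w w' h => by
    rw [← i.inv_mul, nrm, mul_apply, mul_apply]
    exact sum_congr rfl fun x _ => by rw [c1 x w' h, hz x w' h]
  have e1 : (cof (Q.submatrix e e) 0).map C * (nrm Q).submatrix e e = Q.submatrix e e := by
    have : (cof Q 0).map C * nrm Q = Q := by rw [nrm, ← Matrix.mul_assoc, i.mul_inv, one_mul]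
    ext1 u v
    conv_rhs => rw [← this]
    rw [submatrix_apply, mul_apply, mul_apply]
    refine sum_bij_ne_zero (fun x _ _ => e x) (fun _ _ _ => mem_univ _)
      (fun _ _ _ _ _ _ c => he c) (fun w _ hw => ?_) fun _ _ _ => rfl
    by_cases c : ∃ x, e x = w
    · obtain ⟨x, rfl⟩ := c
      exact ⟨x, mem_univ _, hw, rfl⟩
    · refine absurd ?_ hw
      rw [c1 _ w (by simpa using c), one_apply_ne fun d => c ⟨u, d⟩, zero_mul]
  have e2 : nrm (Q.submatrix e e) = (nrm Q).submatrix e e := by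
    conv_lhs => rw [nrm]; arg 2; rw [← e1]
    rw [← Matrix.mul_assoc, i'.inv_mul, one_mul]
  rw [pn, pn, e2]
  exact pp_src hB (hB.pt_isPot G 0) e he h1 h2 (fun _ => Nat.zero_le _) (fun _ => Nat.zero_le _) ho
    i.one_nrm c2 (i.pres_nrm hκ) (by rw [← e2]; exact i'.pres_nrm hκ')

/-- the pairs generated by matching letters, matching constants and deep elements -/
noncomputable def Gr (k : ℕ) (cl : V → ℕ) : Subgroup (GL V ℤ[X] × GL V ℤ[X]) :=
  Subgroup.closure {w | (∃ a b f f', (cl b < cl a → X ^ (k + 1) ∣ f ∧ X ^ (k + 1) ∣ f') ∧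
      (cl a = cl b → X ^ (k + 1) ∣ f - f') ∧ w = (xe a b f, xe a b f')) ∨
    (IsC w.1 ∧ IsC w.2 ∧ Sim k cl w.1.val w.2.val) ∨
    (w.1 ∈ Hn V (tI (k + 1)) ∧ w.2 ∈ Hn V (tI (k + 1)))}

theorem gr_xe {k : ℕ} {cl : V → ℕ} {a b : V} {f f' : ℤ[X]}
    (h1 : cl b < cl a → X ^ (k + 1) ∣ f ∧ X ^ (k + 1) ∣ f')
    (h2 : cl a = cl b → X ^ (k + 1) ∣ f - f') : (xe a b f, xe a b f') ∈ Gr k cl :=
  Subgroup.subset_closure (Or.inl ⟨a, b, f, f', h1, h2, rfl⟩)

theorem gr_const {k : ℕ} {cl : V → ℕ} {g g' : GL V ℤ[X]} (h : IsC g) (h' : IsC g')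
    (s : Sim k cl g.val g'.val) : (g, g') ∈ Gr k cl :=
  Subgroup.subset_closure (Or.inr (Or.inl ⟨h, h', s⟩))

theorem gr_Hn {k : ℕ} (cl : V → ℕ) {g g' : GL V ℤ[X]} (h : g ∈ Hn V (tI (k + 1)))
    (h' : g' ∈ Hn V (tI (k + 1))) : (g, g') ∈ Gr k cl :=
  Subgroup.subset_closure (Or.inr (Or.inr ⟨h, h'⟩))

theorem Gr_anti {j k : ℕ} (e : j ≤ k) (cl : V → ℕ) : Gr k cl ≤ Gr j cl := by
  have d : (X : ℤ[X]) ^ (j + 1) ∣ X ^ (k + 1) := pow_dvd_pow _ (by omega)
  refine Subgroup.closure_mono ?_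
  rintro w (⟨a, b, f, f', h1, h2, rfl⟩ | ⟨h1, h2, h3⟩ | ⟨h1, h2⟩)
  · exact Or.inl ⟨a, b, f, f', fun c => ⟨d.trans (h1 c).1, d.trans (h1 c).2⟩,
      fun c => d.trans (h2 c), rfl⟩
  · exact Or.inr (Or.inl ⟨h1, h2, h3.mono e⟩)
  · exact Or.inr (Or.inr ⟨Hn_mono (tI_anti (by omega)) h1, Hn_mono (tI_anti (by omega)) h2⟩)

theorem Gr_le_Rel (hB : Base) {k : ℕ} (hk : k ≠ 0) (h3 : Three V) (cl : V → ℕ) :
    Gr k cl ≤ Rel k cl := by
  refine (Subgroup.closure_le _).2 ?_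
  rintro ⟨g, g'⟩ (⟨a, b, f, f', h1, h2, e⟩ | ⟨h1, h2, h4⟩ | ⟨h1, h2⟩)
  · rw [e]
    exact rel_xe hB hk h1 h2
  · exact rel_const h1 h2 h4
  · simpa using mul_mem (rel_Hn hB hk h3 cl h1) (Rel.swap (rel_Hn hB hk h3 cl h2))

theorem Sim.fromBlocks {k : ℕ} {cl : V → ℕ} {A A' B B' C C' D D' : Matrix V V ℤ[X]}
    (h1 : Sim k cl A A') (h2 : Sim k cl B B') (h3 : Sim k cl C C') (h4 : Sim k cl D D') :
    Sim k (Sum.elim cl cl) (fromBlocks A B C D) (fromBlocks A' B' C' D') := by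
  refine ⟨?_, ?_, ?_⟩ <;> rintro (u | u) (v | v) c
  exacts [h1.low u v c, h2.low u v c, h3.low u v c, h4.low u v c, h1.low' u v c, h2.low' u v c,
    h3.low' u v c, h4.low' u v c, h1.same u v c, h2.same u v c, h3.same u v c, h4.same u v c]

theorem Sim.zero {k : ℕ} {cl : V → ℕ} : Sim k cl (0 : Matrix V V ℤ[X]) 0 := by
  simpa using (Sim.one (k := k) (cl := cl)).sub Sim.one

theorem Sim.neg {k : ℕ} {cl : V → ℕ} {P P' : Matrix V V ℤ[X]} (h : Sim k cl P P') :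
    Sim k cl (-P) (-P') := by simpa using Sim.zero.sub h

theorem cof_blocks {a b : Type} [Fintype a] [DecidableEq a] [Fintype b] [DecidableEq b]
    (A : Matrix a a ℤ[X]) (B : Matrix a b ℤ[X]) (C : Matrix b a ℤ[X]) (D : Matrix b b ℤ[X]) :
    cof (fromBlocks A B C D) 0 = fromBlocks (cof A 0) (B.map fun x => x.coeff 0)
      (C.map fun x => x.coeff 0) (cof D 0) := fromBlocks_map _ _ _ _ _

theorem gr_ext {k : ℕ} {cl : V → ℕ} {w : GL V ℤ[X] × GL V ℤ[X]} (h : w ∈ Gr k cl) :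
    (ext (Embedding.inl : V ↪ V ⊕ V) w.1, ext (Embedding.inl : V ↪ V ⊕ V) w.2) ∈
      Gr k (Sum.elim cl cl) := by
  refine (Subgroup.closure_le ((Gr k (Sum.elim cl cl)).comap
    ((H15.ext Embedding.inl).prodMap (H15.ext Embedding.inl)))).2 ?_ h
  rintro ⟨g, g'⟩ (⟨a, b, f, f', h1, h2, e⟩ | ⟨h1, h2, h4⟩ | ⟨h1, h2⟩)
  · rw [e, SetLike.mem_coe, Subgroup.mem_comap, MonoidHom.coe_prodMap, Prod.map_apply, ext_xe,
      ext_xe]
    exact gr_xe h1 h2
  · have c : ∀ g : GL V ℤ[X], IsC g → IsC (ext (Embedding.inl : V ↪ V ⊕ V) g) := fun g h => by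
      rw [IsC, ext_val, extM_inl, cof_blocks, fromBlocks_map, ← h, one_iff.1 one_one, mapC_one]
      simp
    refine gr_const (c g h1) (c g' h2) ?_
    change Sim k _ (ext _ g).val (ext _ g').val
    rw [ext_val, ext_val, extM_inl, extM_inl]
    exact h4.fromBlocks Sim.zero Sim.zero Sim.one
  · exact gr_Hn _ (ext_mem_Hn _ h1) (ext_mem_Hn _ h2)

theorem gr_blkU {k : ℕ} {cl : V → ℕ} {Z Z' : Matrix V V ℤ[X]} (h : Sim k cl Z Z') :
    (blkU Z, blkU Z') ∈ Gr k (Sum.elim cl cl) := by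
  have add : ∀ Y Y' : Matrix V V ℤ[X], blkU (Y + Y') = blkU Y * blkU Y' := fun Y Y' =>
    Units.ext (by simp [blkU_val, fromBlocks_multiply, add_comm])
  have sg : ∀ (i j : V) (f : ℤ[X]), blkU (single i j f) = xe (Sum.inl i) (Sum.inr j) f :=
    fun i j f => Units.ext (by
      rw [xe_val (by simp), blkU_val]
      ext1 (u | u) (v | v) <;> simp [one_apply, single_apply])
  have key : ∀ T : Finset (V × V), (blkU (∑ q ∈ T, single q.1 q.2 (Z q.1 q.2)),
      blkU (∑ q ∈ T, single q.1 q.2 (Z' q.1 q.2))) ∈ Gr k (Sum.elim cl cl) := by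
    intro T
    induction T using Finset.induction_on with
    | empty =>
      have : blkU (0 : Matrix V V ℤ[X]) = 1 := Units.ext (by simp [blkU_val])
      simp only [sum_empty, this]
      exact one_mem _
    | insert q T hq ih =>
      rw [sum_insert hq, sum_insert hq, add, add, sg, sg]
      have h1 : (xe (Sum.inl q.1) (Sum.inr q.2) (Z q.1 q.2), xe (Sum.inl q.1) (Sum.inr q.2)
          (Z' q.1 q.2)) ∈ Gr k (Sum.elim cl cl : V ⊕ V → ℕ) :=
        gr_xe (cl := Sum.elim cl cl) (fun c => ⟨h.low _ _ c, h.low' _ _ c⟩) (h.same _ _)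
      rw [← Prod.mk_mul_mk]
      exact mul_mem h1 ih
  have e : ∀ Z : Matrix V V ℤ[X], ∑ q : V × V, single q.1 q.2 (Z q.1 q.2) = Z := fun Z => by
    rw [Fintype.sum_prod_type]
    exact (matrix_eq_sum_single Z).symm
  have := key univ
  rwa [e, e] at this

theorem Pres.src {P : Matrix V V ℤ[X]} {ξ : V → G} (h : Pres P ξ) (Z : Matrix W V ℤ[X]) :
    Pres (fromBlocks 1 (-Z) 0 P) (Sum.elim (pl Z ξ) ξ) := by
  refine ⟨fun g => ?_, fun y => ?_⟩
  · obtain ⟨y, rfl⟩ := h.1 g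
    exact ⟨Sum.elim 0 y, by simp [Fintype.sum_sum_type]⟩
  · rw [Fintype.sum_sum_type]
    simp only [Sum.elim_inl, Sum.elim_inr, sum_pl, ← sum_add_distrib, ← add_smul]
    refine (h.2 fun v => ((fun w => y (Sum.inl w)) ᵥ* Z) v + y (Sum.inr v)).trans ⟨?_, ?_⟩
    · rintro ⟨z, hz⟩
      refine ⟨Sum.elim (fun w => y (Sum.inl w)) z, ?_⟩
      rw [vecMul_fromBlocks]
      funext i
      rcases i with i | i
      · simp [comp_def]
      · have := congrFun hz i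
        simp only [Sum.elim_inr, Sum.elim_comp_inl, Sum.elim_comp_inr, vecMul_neg, Pi.add_apply,
          Pi.neg_apply, ← this]
        ring
    · rintro ⟨z, rfl⟩
      refine ⟨z ∘ Sum.inr, ?_⟩
      funext i
      simp [vecMul_fromBlocks, vecMul_neg, comp_def]

theorem Pres.src' {P : Matrix V V ℤ[X]} {ξ : V → G} (h : Pres P ξ) (Z : Matrix W V ℤ[X]) :
    Pres (fromBlocks P 0 (-Z) 1) (Sum.elim ξ (pl Z ξ)) := by
  refine ⟨fun g => ?_, fun y => ?_⟩
  · obtain ⟨y, rfl⟩ := h.1 g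
    exact ⟨Sum.elim y 0, by simp [Fintype.sum_sum_type]⟩
  · rw [Fintype.sum_sum_type]
    simp only [Sum.elim_inl, Sum.elim_inr, sum_pl, ← sum_add_distrib, ← add_smul]
    refine (h.2 fun v => y (Sum.inl v) + ((fun w => y (Sum.inr w)) ᵥ* Z) v).trans ⟨?_, ?_⟩
    · rintro ⟨z, hz⟩
      refine ⟨Sum.elim z fun w => y (Sum.inr w), ?_⟩
      rw [vecMul_fromBlocks]
      funext i
      rcases i with i | i
      · have := congrFun hz i
        simp only [Sum.elim_inl, Sum.elim_comp_inl, Sum.elim_comp_inr, vecMul_neg, Pi.add_apply,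
          Pi.neg_apply, ← this]
        ring
      · simp [comp_def]
    · rintro ⟨z, rfl⟩
      refine ⟨z ∘ Sum.inl, ?_⟩
      funext i
      simp [vecMul_fromBlocks, vecMul_neg, comp_def]

/-- the signed swap of the two summands -/
noncomputable def sw (V : Type) [Fintype V] [DecidableEq V] : GL (V ⊕ V) ℤ[X] :=
  ⟨fromBlocks 0 1 (-1) 0, fromBlocks 0 (-1) 1 0, by simp [fromBlocks_multiply],
    by simp [fromBlocks_multiply]⟩

theorem pn_right (hB : Base) {k : ℕ} (hk : k ≠ 0) (h3 : Three V) {cl : V → ℕ}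
    {v v' : GL V ℤ[X]} (hv : (v, v') ∈ Gr k cl) {o : V → ℕ} (ho : Injective o)
    {P P' : Matrix V V ℤ[X]} (i : Inv0 P) (i' : Inv0 P') (s : Sim k cl P P') {ξ : V → G}
    {ξ' : V → G'} (hξ : Pres P ξ) (hξ' : Pres P' ξ') :
    pn o (P * v.val) (pl v⁻¹.val ξ) k - pn o P ξ k =
      pn o (P' * v'.val) (pl v'⁻¹.val ξ') k - pn o P' ξ' k := by
  let o2 : V ⊕ V → ℕ := Sum.elim (fun u => 2 * o u) fun u => 2 * o u + 1
  have ho2 : Injective o2 := by
    rintro (a | a) (b | b) c <;> simp only [o2, Sum.elim_inl, Sum.elim_inr] at c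
    · rw [ho (by omega : o a = o b)]
    · omega
    · omega
    · rw [ho (by omega : o a = o b)]
  have t3 : Three (V ⊕ V) := fun a b => by
    obtain ⟨m, h1, h2⟩ := h3 (a.elim id id) (b.elim id id)
    exact ⟨Sum.inl m, fun c => h1 (by rw [← c]; rfl), fun c => h2 (by rw [← c]; rfl)⟩
  have one : ∀ (G : Type) [AddCommGroup G] [Module ℤ[X] G] (v : GL V ℤ[X]) (P : Matrix V V ℤ[X])
      (ξ : V → G), Inv0 P → Pres P ξ → Inv0 (fromBlocks 1 (-v⁻¹.val) 0 P) ∧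
      pn o P ξ = pn o2 (fromBlocks 1 (-v⁻¹.val) 0 P) (Sum.elim (pl v⁻¹.val ξ) ξ) ∧
      pn o (P * v.val) (pl v⁻¹.val ξ) = pn o2 ((blkU (-P) * sw V * ext Embedding.inl v).val *
        fromBlocks 1 (-v⁻¹.val) 0 P) (Sum.elim (pl v⁻¹.val ξ) ξ) := by
    intro G _ _ v P ξ i hξ
    have i2 : Inv0 (fromBlocks 1 (-v⁻¹.val) 0 P) := by
      rw [Inv0, cof_blocks, Matrix.map_zero _ (by simp), det_fromBlocks_zero₂₁, one_iff.1 one_one,
        det_one, one_mul]
      exact i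
    have e : (blkU (-P) * sw V * ext Embedding.inl v).val * fromBlocks 1 (-v⁻¹.val) 0 P =
        fromBlocks (P * v.val) 0 (-v.val) 1 := by
      rw [Units.val_mul, Units.val_mul, ext_val, extM_inl, blkU_val]
      simp [sw, fromBlocks_multiply, Matrix.mul_assoc]
    have x1 := hξ.mul_right v.mul_inv
    have x2 := x1.src' v.val
    rw [← pl_mul, Units.mul_inv, pl_one] at x2
    refine ⟨i2, ?_, ?_⟩
    · refine (pn_src hB Sum.inr Sum.inr_injective ho ho2 (fun u v => by simp [o2]) i2 i ?_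
        (hξ.src _) hξ).symm
      rintro (w | w) (w' | w') c
      · simp [one_apply]
      · exact absurd rfl (c w')
      · simp
      · exact absurd rfl (c w')
    · rw [e]
      refine (pn_src hB Sum.inl Sum.inl_injective ho ho2 (fun u v => by simp [o2])
        (Q := fromBlocks (P * v.val) 0 (-v.val) 1)
        (e ▸ (inv0_gl _).mul i2) (i.mul (inv0_gl v)) ?_ x2 x1).symm
      rintro (w | w) (w' | w') c
      · exact absurd rfl (c w')
      · simp
      · exact absurd rfl (c w')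
      · simp [one_apply]
  obtain ⟨a1, a2, a3⟩ := one G v P ξ i hξ
  obtain ⟨b1, b2, b3⟩ := one G' v' P' ξ' i' hξ'
  have c : IsC (sw V) := by
    rw [IsC]
    ext1 (u | u) (w | w) <;> simp [sw, cof, one_apply, apply_ite (coeff · 0), apply_ite C]
  have m := Gr_le_Rel hB hk t3 _ (mul_mem (mul_mem (gr_blkU s.neg) (gr_const c c
    (Sim.zero.fromBlocks Sim.one Sim.one.neg Sim.zero))) (gr_ext hv))
  rw [a2, a3, b2, b3]
  exact m.2.2 G G' o2 _ _ _ _ ho2 a1 b1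
    (Sim.one.fromBlocks (Gr_le_Rel hB hk h3 cl hv).2.1.neg Sim.zero s) (hξ.src _) (hξ'.src _)

theorem pn_two (hB : Base) {k : ℕ} (hk : k ≠ 0) (h3 : Three V) {cl : V → ℕ}
    {u u' v v' : GL V ℤ[X]} (hu : (u, u') ∈ Gr k cl) (hv : (v, v') ∈ Gr k cl) {o : V → ℕ}
    (ho : Injective o) {P P' : Matrix V V ℤ[X]} (i : Inv0 P) (i' : Inv0 P') (s : Sim k cl P P')
    {ξ : V → G} {ξ' : V → G'} (hξ : Pres P ξ) (hξ' : Pres P' ξ') :
    pn o (u.val * P * v.val) (pl v⁻¹.val ξ) k - pn o P ξ k =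
      pn o (u'.val * P' * v'.val) (pl v'⁻¹.val ξ') k - pn o P' ξ' k := by
  have r := Gr_le_Rel hB hk h3 cl hu
  have e1 := r.2.2 G G' o P P' ξ ξ' ho i i' s hξ hξ'
  have e2 := pn_right hB hk h3 hv ho ((inv0_gl u).mul i) ((inv0_gl u').mul i') (r.1.mul s)
    (hξ.mul u.inv_mul) (hξ'.mul u'.inv_mul)
  linear_combination e1 + e2

end Pool.Agent.MP_993212_an.H16
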